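import Pool.Agent.H945R2.S.Props2
import Pool.Agent.H945R2.D.ARI

/-! ARIM: local arithmetic (helper81), adapted from D/ARI. -/

set_option autoImplicit false

open scoped Pointwise

namespace Pool.Agent.H945R2.S

open Pool.Agent.H918R2.Quad Pool.Agent.H945R2.D MvPolynomial

namespace ARIMaux

theorem exists_prime {O : Type} [CommRing O] (𝔭 : Ideal O) [h𝔭 : 𝔭.IsPrime] :
    ∀ m : ℕ, 1 ≤ m → (m : O) ∈ 𝔭 → ∃ p e : ℕ, p.Prime ∧ m = p * e ∧ (p : O) ∈ 𝔭 := by
  intro m
  induction m using Nat.strong_induction_on with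
  | _ m ih =>
    intro hm hmem
    have hm1 : m ≠ 1 := by
      rintro rfl
      exact h𝔭.ne_top ((Ideal.eq_top_iff_one _).2 (by simpa using hmem))
    have hp := Nat.minFac_prime hm1
    obtain ⟨k, hk⟩ := Nat.minFac_dvd m
    have hmul : ((m.minFac : ℕ) : O) * (k : O) ∈ 𝔭 := by
      rw [← Nat.cast_mul, ← hk]
      exact hmem
    rcases h𝔭.mem_or_mem hmul with h1 | h1
    · exact ⟨m.minFac, k, hp, hk, h1⟩
    · have hk0 : 1 ≤ k := by
        rcases Nat.eq_zero_or_pos k with h0 | h0
        · rw [h0, mul_zero] at hk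
          omega
        · exact h0
      have hlt : k < m := by
        have h2 := hp.two_le
        have h3 : 2 * k ≤ m.minFac * k := Nat.mul_le_mul_right k h2
        omega
      obtain ⟨p, e, hp', he, hpm⟩ := ih k hlt hk0 h1
      refine ⟨p, m.minFac * e, hp', ?_, hpm⟩
      calc m = m.minFac * k := hk
        _ = m.minFac * (p * e) := by rw [← he]
        _ = p * (m.minFac * e) := by ring

end ARIMaux

theorem ARIM_ok : S_ARIM := by
  classical
  intro O _ _ ι _ m hm a h 𝔭 h𝔭 R _ _ _ _
  have hnat : ∀ k : ℕ, algebraMap O R (k : O) = (k : R) := fun k => map_natCast _ _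
  refine ⟨?_, ?_⟩
  · intro hmp
    have h0 : 𝔭 ≠ ⊥ := by
      rintro rfl
      apply h ⊥ inferInstance
      rw [Ideal.mem_bot.1 hmp, zero_mul]
      exact Ideal.zero_mem _
    refine ⟨h0, ?_, ?_⟩
    · obtain ⟨p, e, hp, hme, hpmem⟩ := ARIMaux.exists_prime 𝔭 m hm hmp
      have hcast : (m : O) = (p : O) * (e : O) := by
        rw [hme, Nat.cast_mul]
      refine ⟨p, e, hp, hme, ?_, ?_⟩
      · rw [← hnat]
        refine ARIaux.irr 𝔭 h0 hpmem ?_
        intro h1
        apply h 𝔭 inferInstance
        rw [hcast, mul_assoc]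
        exact Ideal.mul_mem_right _ _ h1
      · have he : (e : O) ∉ 𝔭 := by
          intro he
          apply h 𝔭 inferInstance
          rw [hcast, pow_two]
          exact Ideal.mul_mem_right _ _ (Ideal.mul_mem_mul hpmem he)
        rw [← hnat]
        exact IsLocalization.map_units R (⟨(e : O), he⟩ : 𝔭.primeCompl)
    · intro i
      have hi : a i ∉ 𝔭 := by
        intro hi
        apply h 𝔭 inferInstance
        rw [pow_two]
        refine Ideal.mul_mem_mul hmp ?_
        rw [← Finset.mul_prod_erase _ _ (Finset.mem_univ i)]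
        exact Ideal.mul_mem_right _ _ hi
      exact IsLocalization.map_units R (⟨a i, hi⟩ : 𝔭.primeCompl)
  · intro hp
    refine ⟨?_, ?_⟩
    · rw [← hnat]
      exact IsLocalization.map_units R (⟨(m : O), hp⟩ : 𝔭.primeCompl)
    · by_cases hall : ∀ i, a i ∉ 𝔭
      · left
        intro i
        exact IsLocalization.map_units R (⟨a i, hall i⟩ : 𝔭.primeCompl)
      · right
        push Not at hall
        obtain ⟨i₁, hi₁⟩ := hall
        have h0 : 𝔭 ≠ ⊥ := by
          rintro rfl
          apply h ⊥ inferInstance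
          rw [Finset.prod_eq_zero (Finset.mem_univ i₁) (Ideal.mem_bot.1 hi₁), mul_zero]
          exact Ideal.zero_mem _
        refine ⟨IsLocalization.AtPrime.isDiscreteValuationRing_of_dedekind_domain O h0 R, i₁,
          ARIaux.irr 𝔭 h0 hi₁ ?_, ?_⟩
        · intro h1
          apply h 𝔭 inferInstance
          refine Ideal.mul_mem_left _ _ ?_
          rw [← Finset.mul_prod_erase _ _ (Finset.mem_univ i₁)]
          exact Ideal.mul_mem_right _ _ h1
        · intro i hi
          have hi' : a i ∉ 𝔭 := by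
            intro hi'
            apply h 𝔭 inferInstance
            refine Ideal.mul_mem_left _ _ ?_
            rw [← Finset.mul_prod_erase _ _ (Finset.mem_univ i₁),
              ← Finset.mul_prod_erase _ _ (Finset.mem_erase.2 ⟨hi, Finset.mem_univ i⟩),
              ← mul_assoc, pow_two]
            exact Ideal.mul_mem_right _ _ (Ideal.mul_mem_mul hi₁ hi')
          exact IsLocalization.map_units R (⟨a i, hi'⟩ : 𝔭.primeCompl)

end Pool.Agent.H945R2.S
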