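import Pool.Agent.H945R2.S.Props

/-! BL4. Regularity of the blow-up of a nondegenerate quadric, with an additional smooth
relation. -/

set_option autoImplicit false

open scoped Pointwise

namespace Pool.Agent.H945R2.S

open Pool.Agent.H918R2.Quad Pool.Agent.H945R2.D MvPolynomial

namespace BL4aux

variable {R κ σ : Type} [CommRing R] [Fintype κ] [DecidableEq κ]

omit [Fintype κ] in
theorem pderiv_Yv {ν : κ → Option σ} (hν : Function.Injective ν) {k : κ} {i : σ}
    (hk : ν k = some i) (k' : κ) :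
    pderiv (some i) (Yv (R := R) ν k') = if k' = k then 1 else 0 := by
  unfold Yv
  split_ifs with h
  · subst h
    rw [hk]
    simp
  · cases h' : ν k' with
    | none => simp
    | some i' =>
      have : i' ≠ i := by
        rintro rfl
        exact h (hν (h'.trans hk.symm))
      simp only [Option.elim_some]
      rw [pderiv_X_of_ne]
      intro h3
      exact this (by simpa using h3)

theorem pderiv_E (Q : κ → κ → R) {ν : κ → Option σ} (hν : Function.Injective ν) {k₀ : κ} {i : σ}
    (hk : ν k₀ = some i) (G : MvPolynomial (Option σ) R) :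
    pderiv (some i) (∑ k, ∑ l, C (Q k l) * Yv ν k * Yv ν l + G) =
      (∑ k, C (Q k k₀ + Q k₀ k) * Yv ν k) + pderiv (some i) G := by
  rw [map_add, map_sum]
  congr 1
  have e2 : ∀ k, pderiv (some i) (∑ l, C (Q k l) * Yv ν k * Yv (R := R) ν l) =
      ∑ l, (C (Q k l) * Yv ν k * (if l = k₀ then 1 else 0) +
        C (Q k l) * Yv ν l * (if k = k₀ then 1 else 0)) := by
    intro k
    rw [map_sum]
    refine Finset.sum_congr rfl fun l _ => ?_
    rw [Derivation.leibniz, Derivation.leibniz, pderiv_C, pderiv_Yv hν hk, pderiv_Yv hν hk]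
    simp only [smul_eq_mul]
    ring
  simp only [e2, Finset.sum_add_distrib]
  have e3 : ∑ k, ∑ l, C (Q k l) * Yv ν k * (if l = k₀ then 1 else 0) =
      ∑ k, C (Q k k₀) * Yv (R := R) ν k := by
    refine Finset.sum_congr rfl fun k _ => ?_
    simp
  have e4 : ∑ k, ∑ l, C (Q k l) * Yv ν l * (if k = k₀ then 1 else 0) =
      ∑ l, C (Q k₀ l) * Yv (R := R) ν l := by
    rw [Finset.sum_comm]
    refine Finset.sum_congr rfl fun l _ => ?_
    simp
  rw [e3, e4, ← Finset.sum_add_distrib]
  refine Finset.sum_congr rfl fun k _ => ?_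
  rw [C_add]
  ring

/-- some component of the gradient is not in `q` -/
theorem exists_grad {A : Type} [CommRing A] (π : R) (Q : κ → κ → R) (hQ : RadI π Q)
    (ν : κ → Option σ) (hν : Function.Injective ν) (pr : MvPolynomial (Option σ) R →+* A)
    (h G : MvPolynomial (Option σ) R) (hπE : pr (C π - X none * h) = 0)
    (hE : pr (∑ k, ∑ l, C (Q k l) * Yv ν k * Yv ν l + G) = 0)
    (q : Ideal A) [q.IsPrime] (hX : pr (X none) ∈ q) (hGq : pr G ∈ q)
    (hG' : ∀ k i, ν k = some i → pr (pderiv (some i) G) ∈ q) (hk : ∃ k, pr (Yv ν k) ∉ q) :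
    ∃ k i, ν k = some i ∧
      pr (pderiv (some i) (∑ k, ∑ l, C (Q k l) * Yv ν k * Yv ν l + G)) ∉ q := by
  by_contra hc
  push Not at hc
  obtain ⟨k1, hk1⟩ := hk
  apply hk1
  have hπq : pr (C π) ∈ q := by
    have : pr (C π) = pr (X none) * pr h := by
      rw [map_sub, map_mul, sub_eq_zero] at hπE
      exact hπE
    rw [this]
    exact q.mul_mem_right _ hX
  let f : R →+* A := pr.comp C
  let v : κ → A := fun k => pr (Yv ν k)
  have hGr : ∀ k' i, ν k' = some i → (∑ k, f (Q k k' + Q k' k) * v k) ∈ q := by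
    intro k' i hki
    have h1 := hc k' i hki
    rw [pderiv_E Q hν hki, map_add, map_sum] at h1
    have h2 : (∑ k, pr (C (Q k k' + Q k' k) * Yv ν k)) ∈ q :=
      (Ideal.add_mem_iff_left _ (hG' k' i hki)).1 h1
    simpa [f, v, map_mul] using h2
  have hF : (∑ i, ∑ j, f (Q i j) * v i * v j) ∈ q := by
    have h1 : pr (∑ k, ∑ l, C (Q k l) * Yv ν k * Yv ν l) + pr G ∈ q := by
      rw [← map_add, hE]
      exact q.zero_mem
    have h2 := (Ideal.add_mem_iff_left _ hGq).1 h1
    simpa [f, v, map_mul, map_sum] using h2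
  have euler : ∑ k', (∑ k, f (Q k k' + Q k' k) * v k) * v k' =
      2 * ∑ i, ∑ j, f (Q i j) * v i * v j := by
    have e1 : ∀ k', (∑ k, f (Q k k' + Q k' k) * v k) * v k' =
        ∑ k, f (Q k k') * v k * v k' + ∑ k, f (Q k' k) * v k' * v k := by
      intro k'
      rw [Finset.sum_mul, ← Finset.sum_add_distrib]
      refine Finset.sum_congr rfl fun k _ => ?_
      rw [map_add]
      ring
    simp only [e1, Finset.sum_add_distrib]
    rw [Finset.sum_comm, two_mul]
  refine hQ A f q hπq v hF (fun k₀ => ?_) k1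
  cases hk₀ : ν k₀ with
  | some i => exact hGr k₀ i hk₀
  | none =>
    have hv0 : v k₀ = 1 := by
      simp [v, Yv, hk₀]
    have e2 : ∑ k', (∑ k, f (Q k k' + Q k' k) * v k) * v k' =
        (∑ k, f (Q k k₀ + Q k₀ k) * v k) * v k₀ +
          ∑ k' ∈ Finset.univ.erase k₀, (∑ k, f (Q k k' + Q k' k) * v k) * v k' :=
      (Finset.add_sum_erase _ _ (Finset.mem_univ k₀)).symm
    have e3 : (∑ k' ∈ Finset.univ.erase k₀, (∑ k, f (Q k k' + Q k' k) * v k) * v k') ∈ q := by
      refine q.sum_mem fun k' hk' => q.mul_mem_right _ ?_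
      cases hk'' : ν k' with
      | some i => exact hGr k' i hk''
      | none => exact absurd (hν (hk''.trans hk₀.symm)) (Finset.ne_of_mem_erase hk')
    have e4 : (∑ k', (∑ k, f (Q k k' + Q k' k) * v k) * v k') ∈ q := by
      rw [euler]
      exact q.mul_mem_left _ hF
    rw [e2, hv0, mul_one] at e4
    exact (Ideal.add_mem_iff_left _ e3).1 e4

theorem pderiv_none (i : σ) (h : MvPolynomial (Option σ) R) :
    pderiv (some i) (X none * h) = X none * pderiv (some i) h := by
  rw [Derivation.leibniz, pderiv_X_of_ne (by simp)]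
  simp [smul_eq_mul]

end BL4aux

open BL4aux

theorem BL4_ok (hRA : S_RA2) : S_BL4 := by
  intro R A κ σ _ _ _ _ _ _ π hπ Q hQ ν hν pr hpr h h₁ E₁ G hker q _ hX hGq hG' hk i₁ hi₁ hE₁
  classical
  have hE : pr (∑ k, ∑ l, C (Q k l) * Yv ν k * Yv ν l + G) = 0 := by
    rw [← RingHom.mem_ker, hker]
    exact Ideal.subset_span (by simp)
  have hπE : pr (C π - X none * h) = 0 := by
    rw [← RingHom.mem_ker, hker]
    exact Ideal.subset_span (by simp)
  obtain ⟨k₂, i₂, hki, hgr⟩ := exists_grad π Q hQ ν hν pr h G hπE hE q hX hGq hG' hk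
  refine hRA π hπ pr hpr h _ _ hker q hX i₁ i₂ ?_
  have a1 : pr (pderiv (some i₁) (E₁ + X none * h₁)) ∉ q := by
    rw [map_add, pderiv_none, map_add, map_mul]
    intro hc
    exact hi₁ ((Ideal.add_mem_iff_left _ (q.mul_mem_right _ hX)).1 hc)
  have a2 : pr (pderiv (some i₂) (E₁ + X none * h₁)) ∈ q := by
    rw [map_add, pderiv_none, map_add, map_mul]
    exact q.add_mem (hE₁ k₂ i₂ hki) (q.mul_mem_right _ hX)
  rw [map_sub, map_mul, map_mul]
  intro hc
  have h1 := q.add_mem hc (q.mul_mem_right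
    (pr (pderiv (some i₁) (∑ k, ∑ l, C (Q k l) * Yv ν k * Yv ν l + G))) a2)
  rw [sub_add_cancel] at h1
  rcases Ideal.IsPrime.mem_or_mem inferInstance h1 with h2 | h2
  · exact a1 h2
  · exact hgr h2

end Pool.Agent.H945R2.S
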