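import Pool.Agent.H945R2.S.Props
import Pool.Agent.H945R2.D.RA
import Pool.Agent.H945R2.D.FRC

/-! Task CH1Z: chart theorem 1. -/

set_option autoImplicit false

open scoped Pointwise

namespace Pool.Agent.H945R2.S

open Pool.Agent.H918R2.Quad Pool.Agent.H945R2.D MvPolynomial

namespace CH1Zaux

variable {R F ι : Type} [CommRing R] [Field F] [Algebra R F] [Fintype ι] [DecidableEq ι]

/-- The index type of the coordinates. -/
abbrev KK (Z : Finset ι) (s d : ι) : Type := Option (Option (TT Z s d ⊕ ZT Z))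

/-- Values of the coordinates. -/
def vals {Z : Finset ι} {s d : ι} (a b : F) (y : ι → F) : KK Z s d → F :=
  fun k => k.elim a (fun k' => k'.elim b (fun i => Sum.elim (fun i : TT Z s d => y i)
    (fun i : ZT Z => y i) i))

/-- The `t`-coordinates. -/
noncomputable def Tw (Z : Finset ι) (s d : ι) (r : ι → R) (e : ℕ) :
    ι → MvPolynomial (KK Z s d) R :=
  TcZ Z s d (fun _ => 0) (fun k => X (some (some (Sum.inl k))))
    (fun z => algebraMap R _ (r z) * X (some (some (Sum.inr z))) ^ e) (X none * X (some none))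

/-- The mixed coordinates. -/
noncomputable def Yw (Z : Finset ι) (s d : ι) (r : ι → R) (e : ℕ) (i : ι) :
    MvPolynomial (KK Z s d) R :=
  if h : i ∈ Z then X (some (some (Sum.inr ⟨i, h⟩))) else Tw Z s d r e i

theorem Yw_z (Z : Finset ι) (s d : ι) (r : ι → R) (e : ℕ) (z : ZT Z) :
    Yw Z s d r e z = X (some (some (Sum.inr z))) := by
  unfold Yw
  rw [dif_pos z.2]

theorem Yw_n (Z : Finset ι) (s d : ι) (r : ι → R) (e : ℕ) (i : ι) (h : i ∉ Z) :
    Yw Z s d r e i = Tw Z s d r e i := by
  unfold Yw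
  rw [dif_neg h]

theorem Tw_z (Z : Finset ι) (s d : ι) (r : ι → R) (e : ℕ) (z : ZT Z) :
    Tw Z s d r e z = algebraMap R _ (r z) * X (some (some (Sum.inr z))) ^ e := by
  unfold Tw TcZ
  rw [dif_pos z.2]

theorem Tw_s (Z : Finset ι) (s d : ι) (r : ι → R) (e : ℕ) (hs : s ∉ Z) : Tw Z s d r e s = 1 := by
  unfold Tw TcZ
  rw [dif_neg hs, dif_pos rfl]

theorem Tw_d (Z : Finset ι) (s d : ι) (r : ι → R) (e : ℕ) (hd : d ∉ Z) (h : s ≠ d) :
    Tw Z s d r e d = X none * X (some none) - 1 - ∑ k : TT Z s d, X (some (some (Sum.inl k))) -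
      ∑ z : ZT Z, algebraMap R _ (r z) * X (some (some (Sum.inr z))) ^ e := by
  unfold Tw TcZ
  rw [dif_neg hd, dif_neg h.symm, dif_pos rfl]
  congr 2
  refine Finset.sum_congr rfl fun k _ => ?_
  rw [zero_add]

theorem Tw_k (Z : Finset ι) (s d : ι) (r : ι → R) (e : ℕ) (k : TT Z s d) :
    Tw Z s d r e k = X (some (some (Sum.inl k))) := by
  unfold Tw TcZ
  rw [dif_neg k.2.1, dif_neg k.2.2.1, dif_neg k.2.2.2, zero_add]

theorem Tz_Yw (Z : Finset ι) (s d : ι) (r : ι → R) (e : ℕ) :
    Tz Z r e (Yw Z s d r e) = Tw Z s d r e := by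
  funext i
  unfold Tz
  by_cases h : i ∈ Z
  · rw [if_pos h]
    have h1 : Yw Z s d r e i = X (some (some (Sum.inr ⟨i, h⟩))) := Yw_z Z s d r e ⟨i, h⟩
    have h2 : Tw Z s d r e i = algebraMap R _ (r i) * X (some (some (Sum.inr ⟨i, h⟩))) ^ e :=
      Tw_z Z s d r e ⟨i, h⟩
    rw [h1, h2]
  · rw [if_neg h, Yw_n Z s d r e i h]

/-- The third relation. -/
noncomputable def EE (Z : Finset ι) (s d : ι) (r : ι → R) (e p j : ℕ) (g : MvPolynomial ι R) :
    MvPolynomial (KK Z s d) R :=
  aeval (Tw Z s d r e) g + X none ^ (p - 1 - j) * X (some none) ^ (p - j)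

theorem heY (hS : S_SUMZ) (Z : Finset ι) (s d : ι) (r : ι → R) (e : ℕ) (hsd : s ≠ d) (hsZ : s ∉ Z)
    (hdZ : d ∉ Z) (a b : F) (y : ι → F) (hs : y s = 1)
    (hL : ∑ i, Tz Z r e y i = a * b) (i : ι) :
    aeval (vals a b y) (Yw Z s d r e i) = y i := by
  have heX : ∀ k : KK Z s d, aeval (R := R) (vals a b y) (X k) = vals a b y k :=
    fun k => aeval_X _ k
  have hsum2 := (hS (ι := ι) (B := F) Z s d hsd hsZ hdZ (fun _ => 0) (fun _ => 0) (fun _ => 0)
    0).2 (Tz Z r e y)
  by_cases hZ : i ∈ Z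
  · have h1 : Yw Z s d r e i = X (some (some (Sum.inr ⟨i, hZ⟩))) := Yw_z Z s d r e ⟨i, hZ⟩
    rw [h1, heX]
    rfl
  · rw [Yw_n Z s d r e i hZ]
    by_cases h : i = s
    · rw [h, Tw_s Z s d r e hsZ, map_one, hs]
    · by_cases h' : i = d
      · rw [h', Tw_d Z s d r e hdZ hsd, map_sub, map_sub, map_sub, map_mul, map_one, map_sum,
          map_sum, heX, heX]
        have e1 : ∀ k : TT Z s d, aeval (R := R) (vals a b y) (X (some (some (Sum.inl k)))) = y k :=
          fun k => heX _
        have e1' : ∀ z : ZT Z, aeval (R := R) (vals a b y)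
            (algebraMap R (MvPolynomial (KK Z s d) R) (r z) * X (some (some (Sum.inr z))) ^ e) =
              algebraMap R F (r z) * y z ^ e := by
          intro z
          rw [map_mul, map_pow, heX, AlgHom.commutes]
          rfl
        simp only [e1, e1']
        have e2 : (vals a b y (none : KK Z s d)) = a := rfl
        have e3 : (vals a b y (some none : KK Z s d)) = b := rfl
        have e4 : ∀ k : TT Z s d, Tz Z r e y k = y k := fun k => by
          unfold Tz
          rw [if_neg k.2.1]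
        have e5 : ∀ z : ZT Z, Tz Z r e y z = algebraMap R F (r z) * y z ^ e := fun z => by
          unfold Tz
          rw [if_pos z.2]
        have e6 : Tz Z r e y s = 1 := by
          unfold Tz
          rw [if_neg hsZ, hs]
        have e7 : Tz Z r e y d = y d := by
          unfold Tz
          rw [if_neg hdZ]
        simp only [e4, e5] at hsum2
        rw [e2, e3, ← hL, hsum2, e6, e7]
        ring
      · have e4 : Tw Z s d r e i = X (some (some (Sum.inl ⟨i, hZ, h, h'⟩))) :=
          Tw_k Z s d r e ⟨i, hZ, h, h'⟩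
        rw [e4, heX]
        rfl

/-- Presentation of the chart. -/
theorem core [IsDomain R] [IsDiscreteValuationRing R]
    (hS : S_SUMZ) (hP : S_PREZ) (hFAB : S_FABZ)
    (𝒪 : Subring F) (p e j : ℕ) (co r : ι → R)
    (g : MvPolynomial ι R) (Z : Finset ι) (y : ι → F) (s d : ι) (a b : F)
    (D : DataZ 𝒪 p e j co r g Z y s a b)
    (hsd : s ≠ d) (hdZ : d ∉ Z)
    (hloc2 : IsLocOf 𝒪 (Algebra.adjoin R ({a, b} ∪ Set.range y) : Set F))
    (H : ∀ (A : Type) [CommRing A] [Algebra R A] (pr : MvPolynomial (KK Z s d) R →ₐ[R] A)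
      (q : Ideal A) [q.IsPrime], pr (X none) ∈ q → pr (C (p : R)) ∈ q →
      (∀ w, pr w ∈ q ↔ ¬ U 𝒪 (aeval (vals a b y) w)) →
      ∃ i, pr (pderiv (some i) (EE Z s d r e p j g)) ∉ q) : IsRegularLocalRing 𝒪 := by
  let W := MvPolynomial (KK Z s d) R
  let eW : W →ₐ[R] F := aeval (vals a b y)
  have hsZ := D.hsZ
  have heC : ∀ r, eW (C r) = algebraMap R F r := fun r => aeval_C _ r
  have heX : ∀ k, eW (X k) = vals a b y k := fun k => aeval_X _ k
  have heT : ∀ i, eW (Yw Z s d r e i) = y i := heY hS Z s d r e hsd hsZ hdZ a b y D.hs D.hL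
  have hTz : ∀ i, eW (Tz Z r e (Yw Z s d r e) i) = Tz Z r e y i := by
    intro i
    unfold Tz
    by_cases hi : i ∈ Z
    · rw [if_pos hi, if_pos hi, map_mul, map_pow, heT, AlgHom.commutes]
    · rw [if_neg hi, if_neg hi, heT]
  have hsumT : ∑ i, Tw Z s d r e i = X none * X (some none) := by
    unfold Tw
    exact (hS Z s d hsd hsZ hdZ (fun _ => 0) _ _ _).1
  have heE : eW (EE Z s d r e p j g) = 0 := by
    unfold EE
    rw [map_add, map_mul, map_pow, map_pow, heX, heX, ← D.hG, ← Tz_Yw]
    have e1 : eW (aeval (Tz Z r e (Yw Z s d r e)) g) = aeval (Tz Z r e y) g := by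
      rw [comp_aeval_apply]
      congr 2
      funext i
      exact hTz i
    rw [e1]
    rfl
  have hrel : eW (C (p : R) - X none * (X none ^ j * X (some none) ^ j)) = 0 := by
    rw [map_sub, heC, map_mul, map_mul, map_pow, map_pow, heX, heX, map_natCast]
    have e2 : (vals a b y (none : KK Z s d)) = a := rfl
    have e3 : (vals a b y (some none : KK Z s d)) = b := rfl
    rw [e2, e3, D.hp]
    ring
  let I : Ideal W := Ideal.span {C (p : R) - X none * (X none ^ j * X (some none) ^ j),
    EE Z s d r e p j g}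
  have hI : ∀ w ∈ I, eW w = 0 := by
    intro w hw
    obtain ⟨x, y, rfl⟩ := Ideal.mem_span_pair.1 hw
    rw [map_add, map_mul, map_mul, hrel, heE, mul_zero, mul_zero, add_zero]
  have heW : ∀ w, eW w ∈ 𝒪 := by
    intro w
    induction w using MvPolynomial.induction_on with
    | C r => rw [heC]; exact D.hR r
    | add p q hp hq => rw [map_add]; exact 𝒪.add_mem hp hq
    | mul_X p k hp =>
      rw [map_mul, heX]
      refine 𝒪.mul_mem hp ?_
      rcases k with _ | _ | k | k
      · exact D.ha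
      · exact D.hb
      · exact D.hy _
      · exact D.hy _
  have hrange : (eW.range : Set F) = (Algebra.adjoin R ({a, b} ∪ Set.range y) : Set F) := by
    apply Set.Subset.antisymm
    · rintro _ ⟨w, rfl⟩
      have e5 : ∀ w : W, eW w ∈ Algebra.adjoin R ({a, b} ∪ Set.range y) := by
        intro w
        induction w using MvPolynomial.induction_on with
        | C r => rw [heC]; exact Subalgebra.algebraMap_mem _ r
        | add p q hp hq => rw [map_add]; exact Subalgebra.add_mem _ hp hq
        | mul_X p k hp =>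
          rw [map_mul, heX]
          refine Subalgebra.mul_mem _ hp ?_
          apply Algebra.subset_adjoin
          rcases k with _ | _ | k | k
          · exact Or.inl (Or.inl rfl)
          · exact Or.inl (Or.inr rfl)
          · exact Or.inr ⟨_, rfl⟩
          · exact Or.inr ⟨_, rfl⟩
      exact e5 w
    · have e6 : Algebra.adjoin R ({a, b} ∪ Set.range y) ≤ eW.range := by
        apply Algebra.adjoin_le
        rintro x (hx | ⟨i, rfl⟩)
        · rcases hx with rfl | rfl
          · exact ⟨X none, heX _⟩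
          · exact ⟨X (some none), heX _⟩
        · exact ⟨Yw Z s d r e i, heT i⟩
      exact e6
  obtain ⟨A, _, _, pr, hpr, hprk, hpr0⟩ := exists_quot (R := R) I
  have hker : ∀ w, pr w = 0 → eW w = 0 := fun w hw => hI w ((hpr0 w).1 hw)
  have hprE : pr (EE Z s d r e p j g) = 0 := (hpr0 _).2 (Ideal.subset_span (Or.inr rfl))
  have hprp : pr (C (p : R)) = pr (X none * (X none ^ j * X (some none) ^ j)) := by
    have h1 : pr (C (p : R) - X none * (X none ^ j * X (some none) ^ j)) = 0 :=
      (hpr0 _).2 (Ideal.subset_span (Or.inl rfl))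
    rw [map_sub] at h1
    exact sub_eq_zero.mp h1
  have hCp : (C (p : R) : W) = (p : W) := map_natCast _ p
  have hprsum : pr (∑ i, Tz Z r e (Yw Z s d r e) i) = pr (X none * X (some none)) := by
    rw [Tz_Yw, hsumT]
  have hprp' : pr (p : W) = pr (X none ^ (j + 1) * X (some none) ^ j) := by
    rw [← hCp, hprp]
    congr 1
    ring
  have hYs : Yw Z s d r e s = 1 := by rw [Yw_n Z s d r e s hsZ, Tw_s Z s d r e hsZ]
  have hfab := hFAB 𝒪 p e j co r g Z y s a b D pr eW hker (Yw Z s d r e) (X none) (X (some none))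
    heT (heX _) (heX _) hYs hprsum hprp'
  refine hP 𝒪 p e j co r g Z y s a b D pr hpr eW hker heW ?_ (Yw Z s d r e) (X none)
    (X (some none)) heT (heX _) (heX _) hYs hprsum hprp' ?_ ?_ ?_
  · rw [hrange]
    exact hloc2
  · rw [Tz_Yw]
    exact hprE
  · have h7 := (FRC_ok pr eW hker (fun i : {i : ι // i ≠ s} => Yw Z s d r e i)).2.2.2.2.2.2
    refine h7 (Set.range X) adjoin_range_X ?_
    rintro _ ⟨k, rfl⟩
    rcases k with _ | _ | k | k
    · exact hfab.1
    · exact hfab.2.1
    · have := hfab.2.2 k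
      rw [Yw_n Z s d r e k k.2.1, Tw_k] at this
      exact this
    · have := hfab.2.2 k
      rw [Yw_z] at this
      exact this
  · intro q hq hqm
    have hXn : pr (X none) ∈ q := by
      rw [hqm, heX]
      exact D.haU
    have hpq : pr (C (p : R)) ∈ q := by
      rw [hprp, map_mul]
      exact q.mul_mem_right _ hXn
    obtain ⟨i, hi⟩ := H A pr q hXn hpq hqm
    exact RA_ok (p : R) D.irr (pr : W →+* A) hpr (X none ^ j * X (some none) ^ j)
      (EE Z s d r e p j g) hprk q hXn i hi

/-- The derivative of the third relation. -/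
theorem deriv [IsDomain R] (hS : S_SUMZ) (p e : ℕ) (co r : ι → R) (g : MvPolynomial ι R)
    (hc : Coef p co g) (Z : Finset ι) (s d : ι) (hsd : s ≠ d) (hsZ : s ∉ Z) (hdZ : d ∉ Z)
    (δ : Derivation R (MvPolynomial (KK Z s d) R) (MvPolynomial (KK Z s d) R)) :
    δ (aeval (Tw Z s d r e) g) =
      ∑ i, C (co i) * (Tw Z s d r e i ^ (p - 1) * δ (Tw Z s d r e i)) -
      (X none * X (some none)) ^ (p - 1) * δ (X none * X (some none)) := by
  have hsumT : ∑ i, Tw Z s d r e i = X none * X (some none) := by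
    unfold Tw
    exact (hS Z s d hsd hsZ hdZ (fun _ => 0) _ _ _).1
  have h1 : C (p : R) * aeval (Tw Z s d r e) g =
      ∑ i, C (co i) * Tw Z s d r e i ^ p - (X none * X (some none)) ^ p := by
    have h2 := congrArg (aeval (Tw Z s d r e)) hc.rel
    rw [map_mul, map_sub, map_sum, map_pow, map_sum] at h2
    simp only [map_mul, map_pow, aeval_X, algHom_C, algebraMap_eq] at h2
    rw [hsumT] at h2
    exact h2
  have h3 := congrArg δ h1
  have hC : ∀ r : R, δ (C r) = 0 := fun r => δ.map_algebraMap r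
  rw [Derivation.leibniz, hC, smul_zero, add_zero, map_sub, map_sum, Derivation.leibniz_pow] at h3
  simp only [Derivation.leibniz, hC, smul_zero, add_zero, Derivation.leibniz_pow, smul_eq_mul] at h3
  have hp0 : (C (p : R) : MvPolynomial (KK Z s d) R) ≠ 0 := by
    rw [Ne, C_eq_zero]
    exact hc.ne
  apply mul_left_cancel₀ hp0
  rw [h3, mul_sub, Finset.mul_sum]
  have hCp : (C (p : R) : MvPolynomial (KK Z s d) R) = (p : MvPolynomial (KK Z s d) R) :=
    map_natCast _ p
  congr 1
  · refine Finset.sum_congr rfl fun i _ => ?_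
    rw [hCp, nsmul_eq_mul]
    ring
  · rw [hCp, nsmul_eq_mul, Derivation.leibniz]
    simp only [smul_eq_mul]

/-- A derivation killing the last variables kills the coordinates in `Z`. -/
theorem der_z (Z : Finset ι) (s d : ι) (r : ι → R) (e : ℕ)
    (δ : Derivation R (MvPolynomial (KK Z s d) R) (MvPolynomial (KK Z s d) R))
    (hδ : ∀ z : ZT Z, δ (X (some (some (Sum.inr z)))) = 0) (z : ZT Z) :
    δ (algebraMap R (MvPolynomial (KK Z s d) R) (r z) * X (some (some (Sum.inr z))) ^ e) = 0 := by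
  rw [Derivation.leibniz, Derivation.leibniz_pow, hδ, smul_zero, smul_zero, smul_zero,
    δ.map_algebraMap, smul_zero, add_zero]

end CH1Zaux

theorem CH1Z_ok (hS : S_SUMZ) (hP : S_PREZ) (hFAB : S_FABZ) : S_CH1Z := by
  intro R F ι
  intro _ _ _ _ _ _ _ 𝒪 p e j co r g Z y s d a b D hsd hdZ hloc2 hcase
  have hsZ := D.hsZ
  by_cases hj : j + 1 = p
  · refine CH1Zaux.core hS hP hFAB 𝒪 p e j co r g Z y s d a b D hsd hdZ hloc2 ?_
    intro A _ _ pr q hq hXn hpq hqm
    refine ⟨none, ?_⟩
    intro hmem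
    have hder := CH1Zaux.deriv hS p e co r g D.coef Z s d hsd hsZ hdZ (pderiv (some none))
    have hab : pderiv (some none) ((X none * X (some none) : MvPolynomial (CH1Zaux.KK Z s d) R)) =
        X none := by
      rw [Derivation.leibniz, pderiv_X_self, pderiv_X_of_ne (by simp)]
      simp
    have hTs : pderiv (some none) (CH1Zaux.Tw Z s d r e s) = 0 := by
      rw [CH1Zaux.Tw_s Z s d r e hsZ]
      simp
    have hXk : ∀ k : TT Z s d,
        pderiv (some none) (X (some (some (Sum.inl k))) : MvPolynomial (CH1Zaux.KK Z s d) R) = 0 :=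
      fun k => pderiv_X_of_ne (by simp)
    have hXz : ∀ k : ZT Z,
        pderiv (some none) (X (some (some (Sum.inr k))) : MvPolynomial (CH1Zaux.KK Z s d) R) = 0 :=
      fun k => pderiv_X_of_ne (by simp)
    have hTz := CH1Zaux.der_z Z s d r e (pderiv (some none)) hXz
    have hTd : pderiv (some none) (CH1Zaux.Tw Z s d r e d) = X none := by
      rw [CH1Zaux.Tw_d Z s d r e hdZ hsd, map_sub, map_sub, map_sub, hab, map_sum, map_sum]
      simp only [hXk, hTz, Finset.sum_const_zero, sub_zero]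
      simp
    have hTk : ∀ i, i ≠ d → pderiv (some none) (CH1Zaux.Tw Z s d r e i) = 0 := by
      intro i hi
      by_cases hiZ : i ∈ Z
      · have e4 : CH1Zaux.Tw Z s d r e i =
            algebraMap R _ (r i) * X (some (some (Sum.inr ⟨i, hiZ⟩))) ^ e :=
          CH1Zaux.Tw_z Z s d r e ⟨i, hiZ⟩
        rw [e4]
        exact hTz ⟨i, hiZ⟩
      · by_cases h : i = s
        · rw [h, hTs]
        · have e4 : CH1Zaux.Tw Z s d r e i = X (some (some (Sum.inl ⟨i, hiZ, h, hi⟩))) :=
            CH1Zaux.Tw_k Z s d r e ⟨i, hiZ, h, hi⟩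
          rw [e4, hXk]
    rw [Finset.sum_eq_single d (fun i _ hi => by rw [hTk i hi, mul_zero, mul_zero])
      (fun h => absurd (Finset.mem_univ d) h), hTd, hab] at hder
    have hE : pderiv (some none) (CH1Zaux.EE Z s d r e p j g) =
        X none * (C (co d) * CH1Zaux.Tw Z s d r e d ^ (p - 1) -
          (X none * X (some none)) ^ (p - 1)) + 1 := by
      unfold CH1Zaux.EE
      have e1 : p - 1 - j = 0 := by omega
      have e2 : p - j = 1 := by omega
      rw [map_add, hder, e1, e2, pow_zero, one_mul, pow_one, pderiv_X_self]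
      ring
    rw [hE, map_add, map_mul, map_one] at hmem
    have h1 : (1 : A) ∈ q := by
      have h2 := q.sub_mem hmem (q.mul_mem_right (pr (C (co d) * CH1Zaux.Tw Z s d r e d ^ (p - 1) -
          (X none * X (some none)) ^ (p - 1))) hXn)
      rw [add_sub_cancel_left] at h2
      exact h2
    exact hq.ne_top ((Ideal.eq_top_iff_one q).mpr h1)
  · have hcase' : ∃ i, i ∉ Z ∧ i ≠ s ∧ i ≠ d ∧ U 𝒪 (y i ^ (p - 1) - y d ^ (p - 1)) := by
      rcases hcase with h | h
      · exact absurd h hj
      · exact h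
    obtain ⟨i, hiZ, his, hid, hU⟩ := hcase'
    refine CH1Zaux.core hS hP hFAB 𝒪 p e j co r g Z y s d a b D hsd hdZ hloc2 ?_
    intro A _ _ pr q hq hXn hpq hqm
    let k₀ : TT Z s d := ⟨i, hiZ, his, hid⟩
    refine ⟨some (Sum.inl k₀), ?_⟩
    intro hmem
    have hder := CH1Zaux.deriv hS p e co r g D.coef Z s d hsd hsZ hdZ
      (pderiv (some (some (Sum.inl k₀))))
    have hXn0 : pderiv (some (some (Sum.inl k₀)))
        (X none : MvPolynomial (CH1Zaux.KK Z s d) R) = 0 :=
      pderiv_X_of_ne (by simp)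
    have hXs0 : pderiv (some (some (Sum.inl k₀)))
        (X (some none) : MvPolynomial (CH1Zaux.KK Z s d) R) = 0 :=
      pderiv_X_of_ne (by simp)
    have hab : pderiv (some (some (Sum.inl k₀)))
        ((X none * X (some none) : MvPolynomial (CH1Zaux.KK Z s d) R)) = 0 := by
      rw [Derivation.leibniz, hXn0, hXs0]
      simp
    have hTs : pderiv (some (some (Sum.inl k₀))) (CH1Zaux.Tw Z s d r e s) = 0 := by
      rw [CH1Zaux.Tw_s Z s d r e hsZ]
      simp
    have hXk : ∀ k : TT Z s d, k ≠ k₀ → pderiv (some (some (Sum.inl k₀)))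
        (X (some (some (Sum.inl k))) : MvPolynomial (CH1Zaux.KK Z s d) R) = 0 := by
      intro k hk
      apply pderiv_X_of_ne
      intro h
      apply hk
      simpa using h
    have hXz : ∀ k : ZT Z, pderiv (some (some (Sum.inl k₀)))
        (X (some (some (Sum.inr k))) : MvPolynomial (CH1Zaux.KK Z s d) R) = 0 :=
      fun k => pderiv_X_of_ne (by simp)
    have hTz := CH1Zaux.der_z Z s d r e (pderiv (some (some (Sum.inl k₀)))) hXz
    have hTi : pderiv (some (some (Sum.inl k₀))) (CH1Zaux.Tw Z s d r e i) = 1 := by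
      have e4 : CH1Zaux.Tw Z s d r e i = X (some (some (Sum.inl k₀))) :=
        CH1Zaux.Tw_k Z s d r e k₀
      rw [e4, pderiv_X_self]
    have hTd : pderiv (some (some (Sum.inl k₀))) (CH1Zaux.Tw Z s d r e d) = -1 := by
      rw [CH1Zaux.Tw_d Z s d r e hdZ hsd, map_sub, map_sub, map_sub, hab, map_sum, map_sum,
        Finset.sum_eq_single k₀ (fun k _ hk => hXk k hk)
        (fun h => absurd (Finset.mem_univ _) h), pderiv_X_self]
      simp only [hTz, Finset.sum_const_zero, sub_zero]
      simp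
    have hTk : ∀ i', i' ≠ i → i' ≠ d → pderiv (some (some (Sum.inl k₀)))
        (CH1Zaux.Tw Z s d r e i') = 0 := by
      intro i' hi' hi''
      by_cases hiZ' : i' ∈ Z
      · have e4 : CH1Zaux.Tw Z s d r e i' =
            algebraMap R _ (r i') * X (some (some (Sum.inr ⟨i', hiZ'⟩))) ^ e :=
          CH1Zaux.Tw_z Z s d r e ⟨i', hiZ'⟩
        rw [e4]
        exact hTz ⟨i', hiZ'⟩
      · by_cases h : i' = s
        · rw [h, hTs]
        · have e4 : CH1Zaux.Tw Z s d r e i' = X (some (some (Sum.inl ⟨i', hiZ', h, hi''⟩))) :=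
            CH1Zaux.Tw_k Z s d r e ⟨i', hiZ', h, hi''⟩
          rw [e4]
          apply hXk
          intro h4
          exact hi' (congrArg Subtype.val h4)
    have hsum : ∑ i', C (co i') * (CH1Zaux.Tw Z s d r e i' ^ (p - 1) *
        pderiv (some (some (Sum.inl k₀))) (CH1Zaux.Tw Z s d r e i')) =
        C (co i) * CH1Zaux.Tw Z s d r e i ^ (p - 1) -
          C (co d) * CH1Zaux.Tw Z s d r e d ^ (p - 1) := by
      rw [← Finset.add_sum_erase _ _ (Finset.mem_univ i), hTi,
        Finset.sum_eq_single d]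
      · rw [hTd]
        ring
      · intro k hk hkd
        rw [hTk k (Finset.mem_erase.1 hk).1 hkd, mul_zero, mul_zero]
      · intro h
        exfalso
        apply h
        exact Finset.mem_erase.2 ⟨hid.symm, Finset.mem_univ _⟩
    rw [hsum, hab, mul_zero, sub_zero] at hder
    have hE : pderiv (some (some (Sum.inl k₀))) (CH1Zaux.EE Z s d r e p j g) =
        C (co i) * CH1Zaux.Tw Z s d r e i ^ (p - 1) -
          C (co d) * CH1Zaux.Tw Z s d r e d ^ (p - 1) := by
      unfold CH1Zaux.EE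
      rw [map_add, hder, Derivation.leibniz, Derivation.leibniz_pow, Derivation.leibniz_pow,
        hXn0, hXs0]
      simp
    obtain ⟨ri, hri⟩ := D.coef.one i
    obtain ⟨rd, hrd⟩ := D.coef.one d
    have hdec : (C (co i) * CH1Zaux.Tw Z s d r e i ^ (p - 1) -
        C (co d) * CH1Zaux.Tw Z s d r e d ^ (p - 1) : MvPolynomial (CH1Zaux.KK Z s d) R) =
        (CH1Zaux.Tw Z s d r e i ^ (p - 1) - CH1Zaux.Tw Z s d r e d ^ (p - 1)) +
        C (p : R) * (C ri * CH1Zaux.Tw Z s d r e i ^ (p - 1) -
          C rd * CH1Zaux.Tw Z s d r e d ^ (p - 1)) := by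
      have h1 : co i = 1 + p * ri := by rw [← hri]; ring
      have h2 : co d = 1 + p * rd := by rw [← hrd]; ring
      rw [h1, h2, C_add, C_add, C_mul, C_mul, C_1]
      ring
    rw [hE, hdec, map_add, map_mul] at hmem
    have h3 : pr (CH1Zaux.Tw Z s d r e i ^ (p - 1) - CH1Zaux.Tw Z s d r e d ^ (p - 1)) ∈ q := by
      have h4 := q.sub_mem hmem (q.mul_mem_right
        (pr (C ri * CH1Zaux.Tw Z s d r e i ^ (p - 1) -
          C rd * CH1Zaux.Tw Z s d r e d ^ (p - 1))) hpq)
      rw [add_sub_cancel_right] at h4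
      exact h4
    rw [hqm] at h3
    apply h3
    have heT := CH1Zaux.heY (R := R) hS Z s d r e hsd hsZ hdZ a b y D.hs D.hL
    have heT1 : ∀ i, i ∉ Z → aeval (CH1Zaux.vals a b y) (CH1Zaux.Tw Z s d r e i) = y i := by
      intro i hi
      rw [← CH1Zaux.Yw_n Z s d r e i hi]
      exact heT i
    rw [map_sub, map_pow, map_pow, heT1 i hiZ, heT1 d hdZ]
    exact hU

end Pool.Agent.H945R2.S
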