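import Pool.Agent.H945R2.S.Props
import Pool.Agent.H945R2.D.FRC

/-! QPRE: regularity from a presentation at a singular point. -/

set_option autoImplicit false

open scoped Pointwise

namespace Pool.Agent.H945R2.S

open Pool.Agent.H918R2.Quad Pool.Agent.H945R2.D MvPolynomial

namespace QPREaux

theorem TcZ_s {ι B : Type} [Fintype ι] [DecidableEq ι] [CommRing B] (Z : Finset ι)
    (s d : ι) (hs : s ∉ Z) (c : ι → B) (v : TT Z s d → B) (w : ZT Z → B) (l : B) :
    TcZ Z s d c v w l s = 1 := by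
  unfold TcZ
  rw [dif_neg hs, dif_pos rfl]

theorem TcZ_Z {ι B : Type} [Fintype ι] [DecidableEq ι] [CommRing B] (Z : Finset ι)
    (s d : ι) (c : ι → B) (v : TT Z s d → B) (w : ZT Z → B) (l : B) (z : ZT Z) :
    TcZ Z s d c v w l z.1 = w z := by
  unfold TcZ
  rw [dif_pos z.2]

theorem TcZ_T {ι B : Type} [Fintype ι] [DecidableEq ι] [CommRing B] (Z : Finset ι)
    (s d : ι) (c : ι → B) (v : TT Z s d → B) (w : ZT Z → B) (l : B) (k : TT Z s d) :
    TcZ Z s d c v w l k.1 = c k.1 + v k := by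
  unfold TcZ
  rw [dif_neg k.2.1, dif_neg k.2.2.1, dif_neg k.2.2.2]

theorem TcZ_d {ι B : Type} [Fintype ι] [DecidableEq ι] [CommRing B] (Z : Finset ι)
    (s d : ι) (h : s ≠ d) (hd : d ∉ Z) (c : ι → B) (v : TT Z s d → B) (w : ZT Z → B) (l : B) :
    TcZ Z s d c v w l d = l - 1 - ∑ k : TT Z s d, (c k + v k) - ∑ z, w z := by
  unfold TcZ
  rw [dif_neg hd, dif_neg h.symm, dif_pos rfl]

/-- the coordinates `TcZ` reproduce the point. -/
theorem TcZ_eq (hS : S_SUMZ) {ι B : Type} [Fintype ι] [DecidableEq ι] [CommRing B] (Z : Finset ι)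
    (s d : ι) (h : s ≠ d) (hs : s ∉ Z) (hd : d ∉ Z) (c t : ι → B) (v : TT Z s d → B)
    (w : ZT Z → B) (l : B) (hts : t s = 1) (hv : ∀ k : TT Z s d, v k = t k - c k)
    (hw : ∀ z : ZT Z, w z = t z) (hl : ∑ i, t i = l) (i : ι) : TcZ Z s d c v w l i = t i := by
  by_cases hZ : i ∈ Z
  · have := TcZ_Z Z s d c v w l ⟨i, hZ⟩
    simp only at this
    rw [this, hw]
  · by_cases h1 : i = s
    · rw [h1, TcZ_s Z s d hs, hts]
    · by_cases h2 : i = d
      · rw [h2, TcZ_d Z s d h hd]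
        have h3 := (hS Z s d h hs hd c v w l).2 t
        rw [hl, hts] at h3
        have h4 : ∑ k : TT Z s d, (c k + v k) = ∑ k : TT Z s d, t k := by
          apply Finset.sum_congr rfl
          intro k _
          rw [hv]; ring
        have h5 : ∑ z : ZT Z, w z = ∑ z : ZT Z, t z := Finset.sum_congr rfl fun z _ => hw z
        rw [h4, h5, h3]; ring
      · have := TcZ_T Z s d c v w l ⟨i, hZ, h1, h2⟩
        simp only at this
        rw [this, hv]
        ring

theorem map_TcZ {ι B B' : Type} [Fintype ι] [DecidableEq ι] [CommRing B] [CommRing B']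
    (f : B →+* B') (Z : Finset ι) (s d : ι) (c : ι → B) (v : TT Z s d → B) (w : ZT Z → B) (l : B)
    (i : ι) :
    f (TcZ Z s d c v w l i) =
      TcZ Z s d (fun i => f (c i)) (fun k => f (v k)) (fun z => f (w z)) (f l) i := by
  unfold TcZ
  split_ifs
  · rfl
  · simp
  · simp
  · simp

end QPREaux

open QPREaux

theorem QPRE_ok (hS : S_SUMZ) (hP : S_PREZ) (hFAB : S_FABZ) : S_QPRE := by
  intro R F ι W A
  intro _ _ _ _ _ _ _ _ _ _ _ 𝒪 p e h j co r g Z y s d a b c β b₀ hQ pr hprs eW hker hW hloc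
    Yq Yy hYq hYy hp hT hGen hreg
  have hD := hQ.data
  set a' : W := Yq none with ha'
  set b' : W := Yq (some none) - algebraMap R W b₀ with hb'
  set w' : ZT Z → W := fun z => algebraMap R W (r z) * Yy z ^ e with hw'
  set T : ι → W := TcZ Z s d (fun i => (c i : W)) (fun k => Yq (some (some k))) w' (a' * b')
    with hTdef
  let Y : ι → W := fun i => if h : i ∈ Z then Yy ⟨i, h⟩ else T i
  have hYZ : ∀ z : ZT Z, Y z.1 = Yy z := by
    intro z
    show (if h : z.1 ∈ Z then Yy ⟨z.1, h⟩ else T z.1) = _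
    rw [dif_pos z.2]
  have hYN : ∀ i, i ∉ Z → Y i = T i := by
    intro i hi
    show (if h : i ∈ Z then Yy ⟨i, h⟩ else T i) = _
    rw [dif_neg hi]
  have hTz : Tz Z r e Y = T := by
    funext i
    unfold Tz
    split_ifs with hi
    · have h1 := hYZ ⟨i, hi⟩
      simp only at h1
      rw [h1]
      exact (TcZ_Z Z s d _ _ w' _ ⟨i, hi⟩).symm
    · exact hYN i hi
  have hea : eW a' = a := hYq none
  have heb : eW b' = b := by
    rw [hb', map_sub, hYq, AlgHom.commutes]
    show (b + algebraMap R F b₀) - algebraMap R F b₀ = b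
    ring
  have hek : ∀ k : TT Z s d, eW (Yq (some (some k))) = y k - (c k : F) := fun k => hYq _
  have hTzy : ∀ i, i ∉ Z → Tz Z r e y i = y i := fun i hi => by
    unfold Tz
    rw [if_neg hi]
  have heT : ∀ i, eW (T i) = Tz Z r e y i := by
    intro i
    have h2 : eW (T i) = TcZ Z s d (fun i => eW (c i : W)) (fun k => eW (Yq (some (some k))))
      (fun z => eW (w' z)) (eW (a' * b')) i := map_TcZ (eW : W →+* F) Z s d _ _ _ _ i
    rw [h2]
    apply TcZ_eq hS Z s d hQ.hd hD.hsZ hQ.hdZ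
    · rw [hTzy s hD.hsZ, hD.hs]
    · intro k
      rw [hek, map_natCast, hTzy k.1 k.2.1]
    · intro z
      rw [hw', map_mul, AlgHom.commutes, map_pow, hYy]
      unfold Tz
      rw [if_pos z.2]
    · rw [map_mul, hea, heb]; exact hD.hL
  have heY : ∀ i, eW (Y i) = y i := by
    intro i
    by_cases hi : i ∈ Z
    · have h1 := hYZ ⟨i, hi⟩
      simp only at h1
      rw [h1, hYy]
    · rw [hYN i hi, heT, hTzy i hi]
  have hYs : Y s = 1 := by
    rw [hYN s hD.hsZ]
    exact TcZ_s Z s d hD.hsZ _ _ _ _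
  have hsum : ∑ i, T i = a' * b' := (hS Z s d hQ.hd hD.hsZ hQ.hdZ _ _ _ _).1
  refine hP 𝒪 p e j co r g Z y s a b hD pr hprs eW hker hW hloc Y a' b' heY hea heb hYs
    (by rw [hTz, hsum]) hp (by rw [hTz]; exact hT) ?_ hreg
  obtain ⟨hFa, hFb, hFY⟩ := hFAB 𝒪 p e j co r g Z y s a b hD pr eW hker Y a' b' heY hea heb hYs
    (by rw [hTz, hsum]) hp
  obtain ⟨f1, f2, f3, f4, f5, f6, f7⟩ := FRC_ok pr eW hker (fun i : {i : ι // i ≠ s} => Y i)
  refine hGen _ f1 ?_ f3 f4 f5 f6
  rintro w (⟨o, rfl⟩ | ⟨z, rfl⟩)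
  · rcases o with _ | (_ | k)
    · exact hFa
    · have h1 : Yq (some none) = b' + algebraMap R W b₀ := by
        rw [hb']; ring
      rw [h1]
      exact f3 _ _ hFb (f1 _)
    · have h1 : Yq (some (some k)) = Y k.1 + algebraMap R W (-(c k.1 : R)) := by
        have h2 : Y k.1 = (c k.1 : W) + Yq (some (some k)) := by
          rw [hYN k.1 k.2.1]
          exact TcZ_T Z s d _ _ _ _ k
        rw [h2, map_neg, map_natCast]; ring
      rw [h1]
      exact f3 _ _ (hFY _) (f1 _)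
  · rw [← hYZ z]
    exact hFY _

end Pool.Agent.H945R2.S
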