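import Pool.Agent.H945R2.S.Props2

/-! DEGS: degrees of the factors. -/

set_option autoImplicit false

open scoped Pointwise

namespace Pool.Agent.H945R2.S

open Pool.Agent.H918R2.Quad Pool.Agent.H945R2.D MvPolynomial

namespace DEGSaux

variable {R F ι : Type} [CommRing R] [Field F] [Algebra R F]

theorem natmul_mem {M : Submodule R F} (n : ℕ) {y : F} (hy : y ∈ M) : (n : F) * y ∈ M := by
  rw [← nsmul_eq_mul]
  exact nsmul_mem hy n

theorem natpow_mem {M : Submodule R F} (n k : ℕ) {y : F} (hy : y ∈ M) :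
    (n : F) ^ k * y ∈ M := by
  have := natmul_mem (n ^ k) hy
  rwa [Nat.cast_pow] at this

/-- `S` is contained in `V ^ d`. -/
def In (R : Type) {F ι : Type} [CommRing R] [Field F] [Algebra R F] (x : ι → F) (S : Set F)
    (d : ℕ) : Prop := ∀ y ∈ S, y ∈ Submodule.span R (Set.range x) ^ d

theorem In_mul {x : ι → F} {S T : Set F} {d d' : ℕ} (h : In R x S d) (h' : In R x T d') :
    In R x (S * T) (d + d') := by
  rintro _ ⟨a, ha, b, hb, rfl⟩
  rw [pow_add]
  exact Submodule.mul_mem_mul (h a ha) (h' b hb)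

theorem In_pow {x : ι → F} {S : Set F} {d : ℕ} (h : In R x S d) (k : ℕ) :
    In R x (S ^ k) (d * k) := by
  induction k with
  | zero =>
    intro y hy
    rw [pow_zero] at hy
    rw [Set.mem_one] at hy
    subst hy
    rw [mul_zero, pow_zero]
    exact Submodule.one_le.mp le_rfl
  | succ k ih =>
    rw [pow_succ, Nat.mul_succ]
    exact In_mul ih h

theorem In_range (x : ι → F) : In R x (Set.range x) 1 := by
  intro y hy
  rw [pow_one]
  exact Submodule.subset_span hy

theorem In_rangepow (x : ι → F) (k : ℕ) : In R x (Set.range x ^ k) k := by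
  have := In_pow (In_range (R := R) x) k
  rwa [one_mul] at this

theorem In_sing {x : ι → F} {a : F} {d : ℕ} (h : a ∈ Submodule.span R (Set.range x) ^ d) :
    In R x {a} d := by
  intro y hy
  rw [Set.mem_singleton_iff] at hy
  rwa [hy]

theorem In_union {x : ι → F} {S T : Set F} {d : ℕ} (h : In R x S d) (h' : In R x T d) :
    In R x (S ∪ T) d := by
  intro y hy
  rcases hy with hy | hy
  · exact h y hy
  · exact h' y hy

theorem X_mem (x : ι → F) (u : ι → R) (e : ℕ) (i : ι) :
    algebraMap R F (u i) * x i ^ e ∈ Submodule.span R (Set.range x) ^ e := by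
  rw [← Algebra.smul_def]
  have h : x i ∈ Submodule.span R (Set.range x) := Submodule.subset_span ⟨i, rfl⟩
  exact Submodule.smul_mem _ _ (Submodule.pow_mem_pow _ h e)

/-- The data of a base factor. -/
theorem base [Fintype ι] (p e : ℕ) (hp : 1 ≤ p) (x : ι → F) (u : ι → R) (s : ι)
    (c : ι → ℕ) (β : R) (B : Set F) (μ : F) (n : ℕ)
    (h : IsBase p e x (fun i => algebraMap R F (u i) * x i ^ e) s c (algebraMap R F β) B μ n) :
    ∃ dB dμ : ℕ, In R x B dB ∧ (∀ y ∈ Set.range x ^ dB, (p : F) ^ 2 * y ∈ B) ∧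
      μ ∈ Submodule.span R (Set.range x) ^ dμ ∧ dB = dμ + n ∧ e ≤ n := by
  have hX : ∀ i, algebraMap R F (u i) * x i ^ e ∈ Submodule.span R (Set.range x) ^ e :=
    X_mem x u e
  have hsum : ∑ i, algebraMap R F (u i) * x i ^ e ∈ Submodule.span R (Set.range x) ^ e :=
    Submodule.sum_mem _ fun i _ => hX i
  have hdif : ∀ i, algebraMap R F (u i) * x i ^ e - (c i : F) * (algebraMap R F (u s) * x s ^ e) ∈
      Submodule.span R (Set.range x) ^ e := fun i =>
    Submodule.sub_mem _ (hX i) (natmul_mem _ (hX s))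
  have hsp : ∀ k, (∑ i, algebraMap R F (u i) * x i ^ e) ^ k ∈
      Submodule.span R (Set.range x) ^ (e * k) := by
    intro k
    rw [pow_mul]
    exact Submodule.pow_mem_pow _ hsum k
  have hXp : ∀ i k, (algebraMap R F (u i) * x i ^ e) ^ k ∈
      Submodule.span R (Set.range x) ^ (e * k) := by
    intro i k
    rw [pow_mul]
    exact Submodule.pow_mem_pow _ (hX i) k
  have hone : (1 : F) ∈ Submodule.span R (Set.range x) ^ 0 := by
    rw [pow_zero]; exact Submodule.one_le.mp le_rfl
  rcases h with ⟨rfl, rfl, rfl⟩ | ⟨j, hj1, hj2, rfl, rfl, rfl⟩ | ⟨rfl, rfl, rfl⟩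
  · refine ⟨n, 0, ?_, ?_, ?_, by omega, le_rfl⟩
    · rintro h (⟨y, hy, rfl⟩ | rfl | ⟨i, rfl⟩)
      · exact natpow_mem p 2 (In_rangepow x _ y hy)
      · refine Submodule.add_mem _ hsum ?_
        rw [mul_assoc]
        refine natmul_mem p ?_
        rw [← Algebra.smul_def]
        exact Submodule.smul_mem _ _ (hX s)
      · exact natmul_mem p (hdif i)
    · intro y hy
      exact Or.inl ⟨y, hy, rfl⟩
    · have := natmul_mem p hone
      rwa [mul_one] at this
  · refine ⟨e * (2 * j + 1), e * j, ?_, ?_, ?_, by ring, ?_⟩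
    · rintro h (⟨y, hy, rfl⟩ | rfl | ⟨i, y, hy, rfl⟩)
      · exact natpow_mem p 2 (In_rangepow x _ y hy)
      · exact hsp _
      · have h1 := Submodule.mul_mem_mul (Submodule.mul_mem_mul (hsp j) (hdif i))
          (In_rangepow (R := R) x _ y hy)
        rw [← pow_add, ← pow_add] at h1
        have h2 := natmul_mem p h1
        have e1 : e * j + e + e * j = e * (2 * j + 1) := by ring
        rw [e1] at h2
        simpa only [mul_assoc] using h2
    · intro y hy
      exact Or.inl ⟨y, hy, rfl⟩
    · exact natmul_mem p (hsp j)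
    · nlinarith
  · have e1 : e * (p - 1) + e = e * p := by
      obtain ⟨q, rfl⟩ : ∃ q, p = q + 1 := ⟨p - 1, by omega⟩
      simp [Nat.mul_succ]
    refine ⟨e * p, 0, ?_, ?_, ?_, by omega, by nlinarith⟩
    · rintro h (⟨y, hy, rfl⟩ | ⟨y, hy, rfl⟩ | ⟨i, rfl⟩ | ⟨i, y, hy, rfl⟩)
      · exact natpow_mem p 2 (In_rangepow x _ y hy)
      · have h1 := Submodule.mul_mem_mul (In_rangepow (R := R) x _ y hy) hsum
        rw [← pow_add, e1] at h1
        have h2 := natmul_mem p h1
        have e2 : (p : F) * (y * ∑ i, algebraMap R F (u i) * x i ^ e) =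
            (p : F) * (∑ i, algebraMap R F (u i) * x i ^ e) * y := by ring
        rwa [e2] at h2
      · rw [← e1, pow_add]
        refine Submodule.mul_mem_mul (Submodule.add_mem _ ?_ ?_) (hX i)
        · exact natmul_mem p (hXp s _)
        · exact hsp _
      · have h1 := Submodule.mul_mem_mul (In_rangepow (R := R) x _ y hy) (hdif i)
        rw [← pow_add, e1] at h1
        have h2 := natmul_mem p h1
        have e2 : (p : F) * (y * (algebraMap R F (u i) * x i ^ e -
            (c i : F) * (algebraMap R F (u s) * x s ^ e))) =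
            (p : F) * (algebraMap R F (u i) * x i ^ e -
            (c i : F) * (algebraMap R F (u s) * x s ^ e)) * y := by ring
        rwa [e2] at h2
    · intro y hy
      exact Or.inl ⟨y, hy, rfl⟩
    · have := natmul_mem p hone
      rwa [mul_one] at this

end DEGSaux

open DEGSaux in
theorem DEGS_ok : S_DEGS := by
  intro R F ι _ _ _ _ _ p e h hp hh he g x u S hS
  have he' : 2 * h ≤ e := by omega
  rcases hS with rfl | ⟨j, _, _, rfl⟩ | ⟨s, c, β, _, _, B, μ, n, hB, hS⟩
  · refine ⟨1, fun h hh => ?_, 0, fun y hy => ?_⟩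
    · rw [pow_one]
      exact Submodule.subset_span hh
    · rw [pow_one] at hy
      rw [pow_zero, one_mul]
      exact Submodule.subset_span hy
  · refine ⟨e * j, fun h hh => ?_, 1, fun y hy => ?_⟩
    · rw [← Submodule.span_pow]
      rcases hh with ⟨y, hy, rfl⟩ | rfl
      · exact natmul_mem p (In_rangepow x _ y hy)
      · rw [pow_mul]
        exact Submodule.pow_mem_pow _ (Submodule.sum_mem _ fun i _ => X_mem x u e i) j
    · refine Submodule.subset_span (Or.inl ⟨y, hy, ?_⟩)
      rw [pow_one]
  · obtain ⟨dB, dμ, hIn, hp2, hμ, hd, hen⟩ := base p e hp x u s c β B μ n hB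
    have hY : In R x (Yc x c) 1 := by
      rintro y ⟨i, _, rfl⟩
      exact In_range x _ ⟨i, rfl⟩
    have hV : In R x (Set.range x) 1 := In_range x
    have hdeg : ∀ {S : Set F} {d d' : ℕ}, In R x S d → d = d' → In R x S d' := by
      intro S d d' h1 h2
      rwa [← h2]
    rcases hS with ⟨k, hk1, hk2, rfl⟩ | ⟨he2, rfl⟩
    · refine ⟨dB, ?_, 2, ?_⟩
      · rw [← Submodule.span_pow]
        refine In_union hIn (hdeg (In_mul (In_mul (In_sing hμ) (In_pow hY k))
          (In_pow hV (n - k))) ?_)
        omega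
      · intro y hy
        exact Submodule.subset_span (Or.inl (hp2 y hy))
    · have hf : fc (fun i => algebraMap R F (u i) * x i ^ e) c ∈
          Submodule.span R (Set.range x) ^ e := by
        unfold fc
        refine Submodule.sum_mem _ fun i _ => ?_
        by_cases hc : c i = 0
        · rw [if_pos hc]; exact X_mem x u e i
        · rw [if_neg hc]; exact Submodule.zero_mem _
      have hμk : ∀ k, μ ^ k ∈ Submodule.span R (Set.range x) ^ (dμ * k) := by
        intro k
        rw [pow_mul]
        exact Submodule.pow_mem_pow _ hμ k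
      refine ⟨3 * dB, ?_, 6, ?_⟩
      · rw [← Submodule.span_pow]
        unfold Cd
        refine In_union (In_union (In_union (In_union ?_ ?_) ?_) ?_) ?_
        · exact hdeg (In_pow hIn 3) (by ring)
        · refine hdeg (In_mul (In_mul (In_mul (In_pow hIn 2) (In_sing hμ)) hY)
            (In_pow hV (n - 1))) ?_
          omega
        · refine hdeg (In_mul (In_mul (In_mul hIn (In_sing (hμk 2))) (In_pow hY (h + 1)))
            (In_pow hV (2 * n - h - 1))) ?_
          omega
        · refine hdeg (In_mul (In_mul (In_sing (hμk 3)) (In_pow hY (2 * h + 2)))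
            (In_pow hV (3 * n - 2 * h - 2))) ?_
          omega
        · have h3 := Submodule.mul_mem_mul (hμk 3) hf
          rw [← pow_add] at h3
          refine hdeg (In_mul (In_sing h3) (In_pow hV (3 * n - 2 * h - 1))) ?_
          omega
      · intro y hy
        refine Submodule.subset_span ?_
        unfold Cd
        refine Or.inl (Or.inl (Or.inl (Or.inl ?_)))
        have e3 : 3 * dB = dB + dB + dB := by ring
        rw [e3, pow_add, pow_add] at hy
        obtain ⟨_, ⟨y₁, hy₁, y₂, hy₂, rfl⟩, y₃, hy₃, rfl⟩ := hy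
        have e4 : B ^ 3 = B * B * B := by rw [pow_succ, pow_two]
        rw [e4]
        refine ⟨_, ⟨_, hp2 y₁ hy₁, _, hp2 y₂ hy₂, rfl⟩, _, hp2 y₃ hy₃, ?_⟩
        simp only
        ring

end Pool.Agent.H945R2.S
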