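import Pool.Agent.H945R2.S.Props

/-! EXPLZ: first order expansion of the third relation (helper93). Adapted from `D/EXPL.lean`. -/

set_option autoImplicit false

open scoped Pointwise

namespace Pool.Agent.H945R2.S

open Pool.Agent.H918R2.Quad Pool.Agent.H945R2.D MvPolynomial

namespace EXPLZaux

theorem ideal_le {B κ ζ : Type} [CommRing B] (a P : B) (u : κ → B) (w : ζ → B) (h : a ∣ P) :
    Ideal.span {P} * Ideal.span ({a} ∪ Set.range u ∪ Set.range w) ⊔
        Ideal.span ({a} ∪ Set.range u ∪ Set.range w) ^ 2 ≤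
      Ideal.span {a} * Ideal.span ({a} ∪ Set.range u ∪ Set.range w) ⊔
        (Ideal.span (Set.range u) ⊔ Ideal.span (Set.range w)) := by
  have hJ : Ideal.span ({a} ∪ Set.range u ∪ Set.range w) =
      Ideal.span {a} ⊔ (Ideal.span (Set.range u) ⊔ Ideal.span (Set.range w)) := by
    rw [Ideal.span_union, Ideal.span_union, sup_assoc]
  refine sup_le ?_ ?_
  · refine le_trans (Ideal.mul_mono_left ?_) le_sup_left
    exact Ideal.span_singleton_le_span_singleton.2 h
  · rw [sq]
    nth_rewrite 1 [hJ]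
    rw [Ideal.sup_mul]
    exact sup_le_sup le_rfl Ideal.mul_le_left

theorem mem_form {B κ ζ : Type} [CommRing B] [Fintype κ] [Fintype ζ] (a P : B) (u : κ → B)
    (w : ζ → B) (h : a ∣ P) (r : B)
    (hr : r ∈ Ideal.span {P} * Ideal.span ({a} ∪ Set.range u ∪ Set.range w) ⊔
      Ideal.span ({a} ∪ Set.range u ∪ Set.range w) ^ 2) :
    ∃ v ∈ Ideal.span ({a} ∪ Set.range u ∪ Set.range w), ∃ (μ : κ → B) (μ' : ζ → B),
      r = a * v + ∑ k, u k * μ k + ∑ z, w z * μ' z := by
  have h1 := ideal_le a P u w h hr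
  obtain ⟨x, hx, y, hy, hxy⟩ := Submodule.mem_sup.1 h1
  obtain ⟨v, hv, hv2⟩ := Ideal.mem_span_singleton_mul.1 hx
  obtain ⟨y₁, hy₁, y₂, hy₂, hyy⟩ := Submodule.mem_sup.1 hy
  obtain ⟨μ, hμ⟩ := Ideal.mem_span_range_iff_exists_fun.1 hy₁
  obtain ⟨μ', hμ'⟩ := Ideal.mem_span_range_iff_exists_fun.1 hy₂
  refine ⟨v, hv, μ, μ', ?_⟩
  rw [← hxy, ← hv2, ← hyy, ← hμ, ← hμ', add_assoc]
  congr 1
  congr 1
  · exact Finset.sum_congr rfl fun k _ => mul_comm _ _
  · exact Finset.sum_congr rfl fun k _ => mul_comm _ _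

end EXPLZaux

open EXPLZaux in
theorem EXPLZ_ok (h : S_TAYZ1) (hS : S_SUMZ) : S_EXPLZ := by
  intro R ι _ _ _ _ p co g hco s c β hsp Z hZ d hd hdZ B _ _ a b u w j hj hp
  have hsZ : s ∉ Z := by
    rw [hZ, hsp.one]
    exact one_ne_zero
  have hp3 : 3 ≤ p := by
    have h2 := hco.prime.two_le
    have h3 := hco.odd
    omega
  have ha : a ∣ (p : B) := by
    rw [hp, pow_succ']
    exact ⟨a ^ j * b ^ j, by ring⟩
  obtain ⟨J, hJ⟩ : ∃ J : Ideal B, J = Ideal.span ({a} ∪ Set.range u ∪ Set.range w) := ⟨_, rfl⟩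
  have haJ : a ∈ J := by
    rw [hJ]
    exact Ideal.subset_span (Or.inl (Or.inl rfl))
  have huJ : ∀ k, u k ∈ J := fun k => by
    rw [hJ]
    exact Ideal.subset_span (Or.inl (Or.inr ⟨k, rfl⟩))
  have hwJ : ∀ k, w k ∈ J := fun k => by
    rw [hJ]
    exact Ideal.subset_span (Or.inr ⟨k, rfl⟩)
  obtain ⟨T, hTdef⟩ : ∃ T : ι → B, T = TcZ Z s d (fun i => (c i : B)) u w (a * b) := ⟨_, rfl⟩
  have hsum := (hS Z s d hd hsZ hdZ (fun i => (c i : B)) u w (a * b)).1
  rw [← hTdef] at hsum
  have hc0 : ∀ z : ZT Z, (c z : B) = 0 := fun z => by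
    rw [(hZ z).1 z.2, Nat.cast_zero]
  have hη : ∀ i, T i - (c i : B) ∈ J := by
    intro i
    rw [hTdef]
    unfold TcZ
    split_ifs with hz h h'
    · rw [(hZ i).1 hz, Nat.cast_zero, sub_zero]
      exact hwJ _
    · rw [h, hsp.one, Nat.cast_one, sub_self]
      exact J.zero_mem
    · have h2 := (hS Z s d hd hsZ hdZ (fun i => (c i : B)) u w (a * b)).2 (fun i => (c i : B))
      obtain ⟨σ, hσ⟩ := hsp.sum
      have h3 : (∑ i, (c i : B)) = (p : B) * (σ : B) := by
        have := congrArg (Nat.cast : ℕ → B) hσ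
        push_cast at this
        exact this
      have h4 : ∑ k : TT Z s d, ((c k : B) + u k) = ∑ k : TT Z s d, (c k : B) + ∑ k, u k :=
        Finset.sum_add_distrib
      have h41 : ∑ z : ZT Z, (c z : B) = 0 := Finset.sum_eq_zero fun z _ => hc0 z
      have h5 : a * b - 1 - ∑ k : TT Z s d, ((c k : B) + u k) - ∑ z, w z - (c i : B) =
          a * b - (p : B) * (σ : B) - ∑ k, u k - ∑ z, w z := by
        rw [h4, ← h3, h2, h', hsp.one, h41]
        push_cast
        ring
      rw [h5]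
      refine J.sub_mem (J.sub_mem (J.sub_mem (J.mul_mem_right _ haJ) ?_)
        (J.sum_mem fun k _ => huJ k)) (J.sum_mem fun k _ => hwJ k)
      obtain ⟨e, he⟩ := ha
      rw [he, mul_assoc]
      exact J.mul_mem_right _ haJ
    · have : (c i : B) + u ⟨i, hz, h, h'⟩ - (c i : B) = u ⟨i, hz, h, h'⟩ := by ring
      rw [this]
      exact huJ _
  have htay := h p co g hco s c β hsp J (fun i => T i - (c i : B)) hη
  have hTc : (fun i => (c i : B) + (T i - (c i : B))) = T := by
    funext i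
    ring
  rw [hTc] at htay
  -- the sum over the indices with `c i = 0`
  have hzero : (∑ i, (if c i = 0 then T i - (c i : B) else 0)) = ∑ z, w z := by
    have h2 := (hS Z s d hd hsZ hdZ (fun i => (c i : B)) u w (a * b)).2
      (fun i => if c i = 0 then T i - (c i : B) else 0)
    rw [h2]
    have e1 : (if c s = 0 then T s - (c s : B) else 0) = 0 :=
      if_neg fun h0 => hsZ ((hZ s).2 h0)
    have e2 : (if c d = 0 then T d - (c d : B) else 0) = 0 :=
      if_neg fun h0 => hdZ ((hZ d).2 h0)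
    have e3 : (∑ k : TT Z s d, (if c k = 0 then T k - (c k : B) else 0)) = 0 :=
      Finset.sum_eq_zero fun k _ => if_neg fun h0 => k.2.1 ((hZ k).2 h0)
    have e4 : (∑ z : ZT Z, (if c z = 0 then T z - (c z : B) else 0)) = ∑ z, w z := by
      refine Finset.sum_congr rfl fun z _ => ?_
      rw [if_pos ((hZ z).1 z.2), hc0 z, sub_zero, hTdef]
      unfold TcZ
      rw [dif_pos z.2]
    rw [e1, e2, e3, e4]
    ring
  have hsum2 : Finset.univ.sum T = a * b := hsum
  rw [hzero, hsum2, hJ] at htay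
  obtain ⟨v, hv, μ, μ', hr⟩ := mem_form a (p : B) u w ha _ htay
  rw [← hJ] at hv
  refine ⟨a ^ j * b ^ j * algebraMap R B β + b + a ^ (p - 2 - j) * b ^ (p - j) + v, μ,
    fun z => μ' z - 1, ?_, ?_⟩
  · unfold TotZ
    rw [← hTdef]
    have h6 : aeval T g = (p : B) * algebraMap R B β + a * b - ∑ z, w z +
        (a * v + ∑ k, u k * μ k + ∑ z, w z * μ' z) := by
      rw [← hr]
      ring
    have h7 : a ^ (p - 1 - j) = a ^ (p - 2 - j) * a := by
      rw [← pow_succ]
      congr 1
      omega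
    have h8 : ∑ z, w z * (μ' z - 1) = ∑ z, w z * μ' z - ∑ z, w z := by
      rw [← Finset.sum_sub_distrib]
      exact Finset.sum_congr rfl fun z _ => by ring
    rw [h6, h7, h8]
    nth_rewrite 1 [hp]
    ring
  · rw [← hJ]
    unfold v0
    split_ifs with h0 h1
    · rw [h0]
      have h8 : a ^ 0 * b ^ 0 * algebraMap R B β + b + a ^ (p - 2 - 0) * b ^ (p - 0) + v -
          (b + algebraMap R B β) = a ^ (p - 2) * b ^ p + v := by
        simp only [pow_zero, Nat.sub_zero]
        ring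
      rw [h8]
      refine J.add_mem (J.mul_mem_right _ ?_) hv
      exact J.pow_mem_of_mem haJ _ (by omega)
    · have h9 : p - 2 - j = 0 := by omega
      have h10 : p - j = 2 := by omega
      rw [h9, h10]
      have h8 : a ^ j * b ^ j * algebraMap R B β + b + a ^ 0 * b ^ 2 + v - (b + b ^ 2) =
          a ^ j * b ^ j * algebraMap R B β + v := by
        ring
      rw [h8]
      refine J.add_mem (J.mul_mem_right _ (J.mul_mem_right _ ?_)) hv
      exact J.pow_mem_of_mem haJ _ (by omega)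
    · have h8 : a ^ j * b ^ j * algebraMap R B β + b + a ^ (p - 2 - j) * b ^ (p - j) + v - b =
          a ^ j * b ^ j * algebraMap R B β + a ^ (p - 2 - j) * b ^ (p - j) + v := by
        ring
      rw [h8]
      refine J.add_mem (J.add_mem (J.mul_mem_right _ (J.mul_mem_right _ ?_))
        (J.mul_mem_right _ ?_)) hv
      · exact J.pow_mem_of_mem haJ _ (by omega)
      · exact J.pow_mem_of_mem haJ _ (by omega)

end Pool.Agent.H945R2.S
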