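import Pool.Agent.H945R2.S.Props2
import Pool.Agent.H945R2.D.LOC

/-! Local rings of the model at the primes above `p` (MP_4d1008_ag, squarefree degree): assembly. -/

set_option autoImplicit false

open scoped Pointwise

namespace Pool.Agent.H945R2.S

open Pool.Agent.H918R2.Quad Pool.Agent.H945R2.D MvPolynomial

namespace LOCSaux

open Pool.Agent.H945R2.D.LOCaux

/-- The data of a chart. -/
structure Raw {R F ι : Type} [CommRing R] [Field F] [Algebra R F] [Fintype ι]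
    (𝒪 : Subring F) (p e j : ℕ) (co r : ι → R) (g : MvPolynomial ι R) (ξ t : ι → F) (s : ι)
    (a b : F) : Prop where
  loc : IsLoc 𝒪
  hR : ∀ r : R, algebraMap R F r ∈ 𝒪
  coef : Coef p co g
  irr : Irreducible (p : R)
  he : 2 ≤ e
  heU : IsUnit (e : R)
  hr : ∀ i, IsUnit (r i)
  hxs : ξ s = 1
  hs : t s = 1
  ht : ∀ i, t i = algebraMap R F (r i) * ξ i ^ e
  hx : ∀ i, ξ i ∈ 𝒪
  ha : a ∈ 𝒪
  hb : b ∈ 𝒪
  ha0 : a ≠ 0
  hb0 : b ≠ 0
  haU : ¬ U 𝒪 a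
  hj : j < p
  hL : ∑ i, t i = a * b
  hp : (p : F) = a ^ (j + 1) * b ^ j
  hG : aeval t g + a ^ (p - 1 - j) * b ^ (p - j) = 0
  hind : ∃ j₀ : {i : ι // i ≠ s},
    AlgebraicIndependent R (fun i : {i : {i : ι // i ≠ s} // i ≠ j₀} => ξ i)

section raw

variable {R F ι : Type} [CommRing R] [IsDomain R] [IsDiscreteValuationRing R] [Field F]
  [Algebra R F] [Fintype ι]

theorem U_unit (𝒪 : Subring F) (hR : ∀ r : R, algebraMap R F r ∈ 𝒪) (u : R) (hu : IsUnit u) :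
    U 𝒪 (algebraMap R F u) := by
  obtain ⟨v, rfl⟩ := hu
  have h1 : algebraMap R F (v : R) * algebraMap R F ((v⁻¹ : Rˣ) : R) = 1 := by
    rw [← map_mul, Units.mul_inv, map_one]
  have h0 : algebraMap R F (v : R) ≠ 0 := left_ne_zero_of_mul_eq_one h1
  refine ⟨h0, hR _, ?_⟩
  rw [inv_eq_of_mul_eq_one_right h1]
  exact hR _

theorem Raw.ht_mem {𝒪 : Subring F} {p e j : ℕ} {co r : ι → R} {g : MvPolynomial ι R}
    {ξ t : ι → F} {s : ι} {a b : F} (h : Raw 𝒪 p e j co r g ξ t s a b) (i : ι) : t i ∈ 𝒪 := by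
  rw [h.ht]
  exact 𝒪.mul_mem (h.hR _) (𝒪.pow_mem (h.hx i) _)

theorem pow_range_mem (𝒪 : Subring F) (x : ι → F) (s : ι) (hs : x s ≠ 0)
    (hx : ∀ i, x i / x s ∈ 𝒪) : ∀ (j : ℕ) (y : F), y ∈ Set.range x ^ j → y / x s ^ j ∈ 𝒪 := by
  intro j
  induction j with
  | zero =>
    intro y hy
    rw [pow_zero, Set.mem_one] at hy
    rw [hy, pow_zero, div_one]
    exact 𝒪.one_mem
  | succ j ih =>
    intro y hy
    rw [pow_succ, Set.mem_mul] at hy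
    obtain ⟨y', hy', _, ⟨i, rfl⟩, rfl⟩ := hy
    have h1 : y' * x i / x s ^ (j + 1) = (y' / x s ^ j) * (x i / x s) := by
      rw [pow_succ]
      field_simp
    rw [h1]
    exact 𝒪.mul_mem (ih y' hy') (hx i)

omit [Fintype ι] in
theorem pow_mem_range (x : ι → F) (s : ι) : ∀ j : ℕ, x s ^ j ∈ Set.range x ^ j := by
  intro j
  induction j with
  | zero => rw [pow_zero, pow_zero]; exact Set.mem_one.2 rfl
  | succ j ih =>
    rw [pow_succ, pow_succ]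
    exact Set.mul_mem_mul ih ⟨s, rfl⟩

theorem exists_raw (hCL : S_CL) (𝒪 : Subring F) (p e h : ℕ) (co u : ι → R) (g : MvPolynomial ι R)
    (x : ι → F) (hD : LocS 𝒪 p e h co u g x) (s : ι) (hs : x s ≠ 0)
    (hx : ∀ i, x i / x s ∈ 𝒪)
    (hI : ∀ j, 1 ≤ j → j < p → Pr 𝒪 (Ifs p e x (fun i => algebraMap R F (u i) * x i ^ e) j)) :
    ∃ (r : ι → R) (ν : Rˣ) (j : ℕ) (a b : F),
      Raw 𝒪 p e j co r g (fun i => x i / x s)
        (fun i => algebraMap R F (r i) * (x i / x s) ^ e) s a b ∧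
      ∀ i, algebraMap R F (u i) * x i ^ e =
        (x s ^ e * algebraMap R F ν) * (algebraMap R F (r i) * (x i / x s) ^ e) := by
  have hp1 : 1 ≤ p := hD.coef.prime.one_lt.le
  obtain ⟨ν, hν⟩ := hD.hu s
  set r : ι → R := fun i => u i * ((ν⁻¹ : Rˣ) : R) with hr
  have hνν : algebraMap R F ((ν : Rˣ) : R) * algebraMap R F ((ν⁻¹ : Rˣ) : R) = 1 := by
    rw [← map_mul, Units.mul_inv, map_one]
  have hν0 : algebraMap R F ((ν : Rˣ) : R) ≠ 0 := left_ne_zero_of_mul_eq_one hνν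
  have hνinv : algebraMap R F ((ν⁻¹ : Rˣ) : R) ∈ 𝒪 := hD.hR _
  have hνm : algebraMap R F ((ν : Rˣ) : R) ∈ 𝒪 := hD.hR _
  set t : ι → F := fun i => algebraMap R F (r i) * (x i / x s) ^ e with ht
  set Λ : F := x s ^ e * algebraMap R F ν with hΛ
  have hΛ0 : Λ ≠ 0 := mul_ne_zero (pow_ne_zero _ hs) hν0
  have hX : ∀ i, algebraMap R F (u i) * x i ^ e = Λ * t i := by
    intro i
    have h1 : algebraMap R F (r i) = algebraMap R F (u i) * algebraMap R F ((ν⁻¹ : Rˣ) : R) := by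
      rw [hr, map_mul]
    calc algebraMap R F (u i) * x i ^ e
        = (algebraMap R F (u i) * x i ^ e) *
          (algebraMap R F ((ν : Rˣ) : R) * algebraMap R F ((ν⁻¹ : Rˣ) : R)) := by
            rw [hνν, mul_one]
      _ = Λ * t i := by
            rw [hΛ, ht]
            simp only []
            rw [h1, div_pow]
            field_simp
  refine ⟨r, ν, ?_⟩
  have hsumX : ∑ i, algebraMap R F (u i) * x i ^ e = Λ * ∑ i, t i := by
    rw [Finset.mul_sum]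
    exact Finset.sum_congr rfl fun i _ => hX i
  have hL0 : ∑ i, t i ≠ 0 := by
    intro h0
    apply hD.sum
    rw [hsumX, h0, mul_zero]
  have hxt : ∀ i, t i ∈ 𝒪 := fun i => 𝒪.mul_mem (hD.hR _) (𝒪.pow_mem (hx i) _)
  have hLm : ∑ i, t i ∈ 𝒪 := 𝒪.sum_mem fun i _ => hxt i
  have hrelt : ∑ i, algebraMap R F (co i) * t i ^ p = 0 := by
    have h1 : Λ ^ p * ∑ i, algebraMap R F (co i) * t i ^ p = 0 := by
      rw [← hD.rel, Finset.mul_sum]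
      refine Finset.sum_congr rfl fun i _ => ?_
      rw [hX i, mul_pow]
      ring
    exact (mul_eq_zero.1 h1).resolve_left (pow_ne_zero _ hΛ0)
  have hg := grel_aeval (B := F) hD.coef.rel t
  rw [hrelt, zero_sub] at hg
  have hJ : ∀ j, 1 ≤ j → j < p → (p : F) / (∑ i, t i) ^ j ∈ 𝒪 ∨ (∑ i, t i) ^ j / (p : F) ∈ 𝒪 := by
    intro j h1 h2
    obtain ⟨g₀, hg₀, hg0, hall⟩ := hI j h1 h2
    have hΛj : Λ ^ j = x s ^ (e * j) * algebraMap R F ν ^ j := by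
      rw [hΛ, mul_pow, ← pow_mul]
    rcases hg₀ with ⟨y, hy, rfl⟩ | rfl
    · right
      have h3 := hall _ (Or.inr rfl)
      have hy0 : y ≠ 0 := right_ne_zero_of_mul hg0
      have h4 : (∑ i, t i) ^ j / (p : F) =
          ((∑ i, algebraMap R F (u i) * x i ^ e) ^ j / ((p : F) * y)) *
            ((y / x s ^ (e * j)) * algebraMap R F ((ν⁻¹ : Rˣ) : R) ^ j) := by
        have h5 : algebraMap R F ((ν⁻¹ : Rˣ) : R) = (algebraMap R F ((ν : Rˣ) : R))⁻¹ :=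
          (inv_eq_of_mul_eq_one_right hνν).symm
        rw [hsumX, mul_pow, hΛj, h5, inv_pow]
        have := hD.p0
        field_simp
      rw [h4]
      exact 𝒪.mul_mem h3 (𝒪.mul_mem (pow_range_mem 𝒪 x s hs hx _ y hy) (𝒪.pow_mem hνinv _))
    · left
      have h3 := hall ((p : F) * x s ^ (e * j)) (Or.inl ⟨_, pow_mem_range x s _, rfl⟩)
      have h4 : (p : F) / (∑ i, t i) ^ j =
          ((p : F) * x s ^ (e * j) / (∑ i, algebraMap R F (u i) * x i ^ e) ^ j) *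
            algebraMap R F ν ^ j := by
        rw [hsumX, mul_pow, hΛj]
        field_simp
      rw [h4]
      exact 𝒪.mul_mem h3 (𝒪.pow_mem hνm _)
  have hpm : (p : F) ∈ 𝒪 := by
    have := hD.hR (p : R)
    rwa [map_natCast] at this
  obtain ⟨j, a, b, hj, ha, hb, haU, hL, hp, hG⟩ := hCL 𝒪 hD.loc p hp1 (p : F) (∑ i, t i)
    (aeval t g) hD.p0 hL0 hpm hLm (aeval_mem 𝒪 hD.hR t hxt g) hD.pU (by rw [hg]; ring) hJ
  have hab : a * b ≠ 0 := hL ▸ hL0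
  have hrs : r s = 1 := by
    show u s * ((ν⁻¹ : Rˣ) : R) = 1
    rw [← hν, Units.mul_inv]
  have he : 2 ≤ e := by
    have h1 := hD.hh
    rcases hD.heh with h2 | h2 <;> omega
  refine ⟨j, a, b, ⟨hD.loc, hD.hR, hD.coef, hD.irr, he, hD.heU, ?_, div_self hs, ?_,
    fun i => rfl, hx, ha, hb, left_ne_zero_of_mul hab, right_ne_zero_of_mul hab, haU, hj, hL, hp,
    hG, hD.hind s hs⟩, hX⟩
  · intro i
    exact (hD.hu i).mul (Units.isUnit _)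
  · show algebraMap R F (r s) * (x s / x s) ^ e = 1
    rw [hrs, map_one, div_self hs, one_pow, mul_one]

/-- The residue map with its properties at a chart. -/
theorem residue_raw (𝒪 : Subring F) (p e j : ℕ) (co r : ι → R) (g : MvPolynomial ι R)
    (ξ t : ι → F) (s : ι) (a b : F) (hD : Raw 𝒪 p e j co r g ξ t s a b) :
    ∃ (k : Type) (_ : CommRing k) (_ : IsDomain k) (_ : CharP k p) (ρ : 𝒪 →+* k) (T : ι → 𝒪),
      (∀ y : 𝒪, ρ y = 0 ↔ ¬ U 𝒪 (y : F)) ∧ (∀ i, (T i : F) = t i) ∧ T s = 1 ∧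
      ∑ i, ρ (T i) = 0 ∧ ∀ i, ¬ U 𝒪 (ξ i) ↔ ρ (T i) = 0 := by
  obtain ⟨k, _, _, ρ, hρ⟩ := exists_residue hD.loc
  have ha : ρ ⟨a, hD.ha⟩ = 0 := (hρ _).2 hD.haU
  have hpk : (p : k) = 0 := by
    have h1 : ((p : ℕ) : 𝒪) = (⟨a, hD.ha⟩ : 𝒪) ^ (j + 1) * (⟨b, hD.hb⟩ : 𝒪) ^ j := by
      apply Subtype.ext
      push_cast
      exact hD.hp
    have h2 := congrArg ρ h1
    rw [map_natCast, map_mul, map_pow, ha, pow_succ, mul_zero, zero_mul] at h2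
    exact h2
  have hchar : CharP k p := (CharP.charP_iff_prime_eq_zero hD.coef.prime).2 hpk
  refine ⟨k, inferInstance, inferInstance, hchar, ρ, fun i => ⟨t i, hD.ht_mem i⟩, hρ,
    fun i => rfl, Subtype.ext hD.hs, ?_, ?_⟩
  · rw [← map_sum]
    have h1 : ∑ i, (⟨t i, hD.ht_mem i⟩ : 𝒪) = (⟨a, hD.ha⟩ : 𝒪) * ⟨b, hD.hb⟩ := by
      apply Subtype.ext
      push_cast
      exact hD.hL
    rw [h1, map_mul, ha, zero_mul]
  · intro i
    rw [hρ]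
    show ¬ U 𝒪 (ξ i) ↔ ¬ U 𝒪 (t i)
    rw [not_iff_not, hD.ht]
    have hr := U_unit 𝒪 hD.hR _ (hD.hr i)
    constructor
    · intro h
      exact hr.mul (h.pow e)
    · intro h
      have h1 := h.of_mul_right (hD.hR _) (𝒪.pow_mem (hD.hx i) _)
      exact U_of_pow (hD.hx i) e (by have := hD.he; omega) h1

theorem caseA (𝒪 : Subring F) (p e j : ℕ) (co r : ι → R) (g : MvPolynomial ι R) (ξ t : ι → F)
    (s : ι) (a b : F) (hD : Raw 𝒪 p e j co r g ξ t s a b) (i₁ : ι) (hi₁Z : U 𝒪 (ξ i₁))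
    (hi₁ : U 𝒪 (t i₁ ^ (p - 1) - 1)) :
    i₁ ≠ s ∧ ∃ i, U 𝒪 (ξ i) ∧ i ≠ s ∧ i ≠ i₁ ∧ U 𝒪 (t i ^ (p - 1) - t i₁ ^ (p - 1)) := by
  obtain ⟨k, _, _, _, ρ, T, hr, hT, hTs, hsum, hZ⟩ := residue_raw 𝒪 p e j co r g ξ t s a b hD
  have hprime : Fact p.Prime := ⟨hD.coef.prime⟩
  have hp1 : 1 < p := hD.coef.prime.one_lt
  have hi₁s : i₁ ≠ s := by
    rintro rfl
    rw [hD.hs, one_pow, sub_self] at hi₁
    exact not_U_zero hi₁
  have hr1 : ρ (T i₁) ^ (p - 1) - 1 ≠ 0 := by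
    intro h
    have h1 : ρ (T i₁ ^ (p - 1) - 1) = 0 := by rw [map_sub, map_pow, map_one]; exact h
    rw [hr] at h1
    apply h1
    push_cast
    rw [hT]
    exact hi₁
  refine ⟨hi₁s, ?_⟩
  by_contra hcon
  push Not at hcon
  set θ := ρ (T i₁) ^ (p - 1) with hθ
  have hpp : ∀ y : k, y ^ p = y ^ (p - 1) * y := by
    intro y
    rw [← pow_succ, Nat.sub_add_cancel hp1.le]
  have hall : ∀ i, i ≠ s → ρ (T i) ^ p = θ * ρ (T i) := by
    intro i hi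
    by_cases hiZ : U 𝒪 (ξ i)
    · by_cases hii : i = i₁
      · rw [hii, hpp]
      · have h1 : ρ (T i ^ (p - 1) - T i₁ ^ (p - 1)) = 0 := by
          rw [hr]
          push_cast
          rw [hT, hT]
          exact hcon i hiZ hi hii
        rw [map_sub, map_pow, map_pow, sub_eq_zero] at h1
        rw [hpp, h1]
    · rw [(hZ i).1 hiZ, zero_pow (by omega), mul_zero]
  have hpow : ∑ i, ρ (T i) ^ p = 0 := by
    rw [← sum_pow_char, hsum, zero_pow (by omega)]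
  classical
  have h2 : ∀ i ∈ Finset.univ.erase s, ρ (T i) ^ p = θ * ρ (T i) := by
    intro i hi
    exact hall i (Finset.ne_of_mem_erase hi)
  rw [← Finset.add_sum_erase _ _ (Finset.mem_univ s), Finset.sum_congr rfl h2, ← Finset.mul_sum,
    hTs, map_one, one_pow] at hpow
  rw [← Finset.add_sum_erase _ _ (Finset.mem_univ s), hTs, map_one] at hsum
  apply hr1
  linear_combination (-1 : k) * hpow + θ * hsum

theorem caseA2 (𝒪 : Subring F) (p e j : ℕ) (co r : ι → R) (g : MvPolynomial ι R) (ξ t : ι → F)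
    (s : ι) (a b : F) (hD : Raw 𝒪 p e j co r g ξ t s a b) (i₁ : ι) (hi₁Z : U 𝒪 (ξ i₁))
    (hi₁ : U 𝒪 (t i₁ ^ (p - 1) - 1)) (s' : ι) (c : ι → ℕ) (hc : ∀ i, c i < p) :
    ∃ i, U 𝒪 (t i - (c i : F) * t s') := by
  obtain ⟨k, _, _, _, ρ, T, hr, hT, hTs, hsum, hZ⟩ := residue_raw 𝒪 p e j co r g ξ t s a b hD
  have hprime : Fact p.Prime := ⟨hD.coef.prime⟩
  by_contra hcon
  push Not at hcon
  have hall : ∀ i, ρ (T i) = (c i : k) * ρ (T s') := by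
    intro i
    have h1 : ρ (T i - (c i : 𝒪) * T s') = 0 := by
      rw [hr]
      push_cast
      rw [hT, hT]
      exact hcon i
    rw [map_sub, map_mul, map_natCast, sub_eq_zero] at h1
    exact h1
  have hc0 : ∀ i, ρ (T i) ≠ 0 → (c i : k) ^ (p - 1) = 1 := by
    intro i hi
    have h1 : 1 ≤ c i := by
      rcases Nat.eq_zero_or_pos (c i) with h | h
      · exfalso
        apply hi
        rw [hall i, h, Nat.cast_zero, zero_mul]
      · exact h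
    exact fermat_k p (c i) h1 (hc i)
  have h0 : ρ (T s') ^ (p - 1) = 1 := by
    have h1 := hall s
    rw [hTs, map_one] at h1
    have h3 := hc0 s (by rw [hTs, map_one]; exact one_ne_zero)
    have h2 := congrArg (fun y => y ^ (p - 1)) h1
    simp only [one_pow, mul_pow, h3, one_mul] at h2
    exact h2.symm
  have h4 : ρ (T i₁) ≠ 0 := fun h => (hZ i₁).2 h hi₁Z
  have h1 : ρ (T i₁ ^ (p - 1) - 1) = 0 := by
    rw [map_sub, map_pow, map_one, hall, mul_pow, h0, hc0 i₁ h4]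
    ring
  rw [hr] at h1
  apply h1
  push_cast
  rw [hT]
  exact hi₁

/-- There is a second unit coordinate. -/
theorem exists_d (𝒪 : Subring F) (p e j : ℕ) (co r : ι → R) (g : MvPolynomial ι R) (ξ t : ι → F)
    (s : ι) (a b : F) (hD : Raw 𝒪 p e j co r g ξ t s a b) : ∃ d, s ≠ d ∧ U 𝒪 (ξ d) := by
  obtain ⟨k, _, _, _, ρ, T, hr, hT, hTs, hsum, hZ⟩ := residue_raw 𝒪 p e j co r g ξ t s a b hD
  by_contra hcon
  push Not at hcon
  have h1 : ∀ i, i ≠ s → ρ (T i) = 0 := fun i hi => (hZ i).1 (hcon i (Ne.symm hi))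
  rw [Finset.sum_eq_single s (fun i _ hi => h1 i hi)
    (fun h => absurd (Finset.mem_univ s) h), hTs, map_one] at hsum
  exact one_ne_zero hsum

theorem caseB (𝒪 : Subring F) (p e j : ℕ) (co r : ι → R) (g : MvPolynomial ι R) (ξ t : ι → F)
    (s : ι) (a b : F) (hD : Raw 𝒪 p e j co r g ξ t s a b) (hj : j + 2 ≤ p)
    (hB : ∀ i, U 𝒪 (ξ i) → ¬ U 𝒪 (t i ^ (p - 1) - 1)) :
    ∃ (c : ι → ℕ) (β : R), SpZ p g s c β ∧ (∀ i, ¬ U 𝒪 (t i - (c i : F))) ∧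
      ∀ i, ¬ U 𝒪 (ξ i) ↔ c i = 0 := by
  obtain ⟨k, _, _, _, ρ, T, hr, hT, hTs, hsum, hZ⟩ := residue_raw 𝒪 p e j co r g ξ t s a b hD
  have hprime : Fact p.Prime := ⟨hD.coef.prime⟩
  have hp1 : 1 < p := hD.coef.prime.one_lt
  have hex : ∀ i, ∃ c : ℕ, c < p ∧ ρ (T i) = (c : k) := by
    intro i
    by_cases hiZ : U 𝒪 (ξ i)
    · have h1 : ρ (T i ^ (p - 1) - 1) = 0 := by
        rw [hr]
        push_cast
        rw [hT]
        exact hB i hiZ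
      rw [map_sub, map_pow, map_one, sub_eq_zero] at h1
      obtain ⟨c, _, h3, h4⟩ := exists_nat_of_pow p (ρ (T i)) h1
      exact ⟨c, h3, h4⟩
    · exact ⟨0, by omega, by rw [(hZ i).1 hiZ, Nat.cast_zero]⟩
  choose c hc2 hc3 using hex
  have hcZ : ∀ i, ¬ U 𝒪 (ξ i) ↔ c i = 0 := by
    intro i
    rw [hZ i, hc3 i]
    constructor
    · intro h
      exact cast_inj (k := k) p (c i) 0 (hc2 i) (by omega) (by rw [h, Nat.cast_zero])
    · intro h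
      rw [h, Nat.cast_zero]
  have hc0 : c s = 1 := by
    have h1 := hc3 s
    rw [hTs, map_one] at h1
    exact cast_inj (k := k) p (c s) 1 (hc2 s) hp1 (by rw [← h1, Nat.cast_one])
  have hsumc : p ∣ ∑ i, c i := by
    rw [← CharP.cast_eq_zero_iff k p, Nat.cast_sum, ← hsum]
    exact Finset.sum_congr rfl fun i _ => (hc3 i).symm
  let φ : R →+* 𝒪 := (algebraMap R F).codRestrict 𝒪 hD.hR
  have hφ : ∀ y : R, ((φ y : 𝒪) : F) = algebraMap R F y := fun y => rfl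
  have hTg : ((eval₂ φ T g : 𝒪) : F) = aeval t g := by
    have h1 := eval₂_comp_left 𝒪.subtype φ T g
    have h2 : (⇑𝒪.subtype ∘ T) = t := by
      funext i
      exact hT i
    rw [h2] at h1
    exact h1
  have ha : ρ ⟨a, hD.ha⟩ = 0 := (hr _).2 hD.haU
  have hgz : ρ (eval₂ φ T g) = 0 := by
    have h1 : eval₂ φ T g = - ((⟨a, hD.ha⟩ : 𝒪) ^ (p - 1 - j) * (⟨b, hD.hb⟩ : 𝒪) ^ (p - j)) := by
      apply Subtype.ext
      rw [hTg]
      push_cast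
      exact eq_neg_of_add_eq_zero_left hD.hG
    rw [h1, map_neg, map_mul, map_pow, ha, zero_pow (by omega), zero_mul, neg_zero]
  have hgc : ρ (φ (aeval (fun i => (c i : R)) g)) = 0 := by
    have h1 := eval₂_comp_left ρ φ T g
    rw [hgz] at h1
    have h2 := eval₂_comp_left (ρ.comp φ) (RingHom.id R) (fun i => (c i : R)) g
    have h3 : (⇑(ρ.comp φ) ∘ fun i => (c i : R)) = ⇑ρ ∘ T := by
      funext i
      simp only [Function.comp, map_natCast]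
      exact (hc3 i).symm
    rw [h3, RingHom.comp_id, ← h1] at h2
    exact h2
  have hnu : ¬ IsUnit (aeval (fun i => (c i : R)) g) := by
    intro hu
    have h1 := (hr _).1 hgc
    apply h1
    rw [hφ]
    exact U_unit 𝒪 hD.hR _ hu
  have hdvd : (p : R) ∣ aeval (fun i => (c i : R)) g := by
    rw [← Ideal.mem_span_singleton, ← hD.irr.maximalIdeal_eq]
    exact (IsLocalRing.mem_maximalIdeal _).2 hnu
  obtain ⟨y, hy⟩ := hdvd
  obtain ⟨σ, hσ⟩ := hsumc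
  refine ⟨c, y - σ, ⟨hc2, hc0, ⟨σ, hσ⟩, ?_⟩, ?_, hcZ⟩
  · rw [hy, ← Nat.cast_sum, hσ]
    push_cast
    ring
  · intro i
    have h1 : ρ (T i - (c i : 𝒪)) = 0 := by
      rw [map_sub, map_natCast, hc3 i, sub_self]
    rw [hr] at h1
    push_cast at h1
    rw [hT] at h1
    exact h1

/-- Another special point does not match. -/
theorem other [LinearOrder ι] (𝒪 : Subring F) (p e j : ℕ) (co r : ι → R) (g : MvPolynomial ι R)
    (ξ t : ι → F) (s : ι) (a b : F) (hD : Raw 𝒪 p e j co r g ξ t s a b) (c : ι → ℕ)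
    (hc : ∀ i, c i < p) (hcs : c s = 1) (hmin : ∀ i, i < s → c i = 0)
    (hB : ∀ i, ¬ U 𝒪 (t i - (c i : F))) (s' : ι) (c' : ι → ℕ) (hc' : ∀ i, c' i < p)
    (hcs' : c' s' = 1) (hmin' : ∀ i, i < s' → c' i = 0)
    (hcon : ∀ i, ¬ U 𝒪 (t i - (c' i : F) * t s')) : s' = s ∧ c' = c := by
  obtain ⟨k, _, _, _, ρ, T, hr, hT, hTs, hsum, hZ⟩ := residue_raw 𝒪 p e j co r g ξ t s a b hD
  have hprime : Fact p.Prime := ⟨hD.coef.prime⟩
  have h1 : ∀ i, ρ (T i) = (c i : k) := by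
    intro i
    have h1 : ρ (T i - (c i : 𝒪)) = 0 := by
      rw [hr]
      push_cast
      rw [hT]
      exact hB i
    rwa [map_sub, map_natCast, sub_eq_zero] at h1
  have h2 : ∀ i, ρ (T i) = (c' i : k) * ρ (T s') := by
    intro i
    have h1 : ρ (T i - (c' i : 𝒪) * T s') = 0 := by
      rw [hr]
      push_cast
      rw [hT, hT]
      exact hcon i
    rwa [map_sub, map_mul, map_natCast, sub_eq_zero] at h1
  have h3 : (1 : k) = (c' s : k) * (c s' : k) := by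
    have h4 := h2 s
    rwa [hTs, map_one, h1 s'] at h4
  have h5 : ¬ s < s' := by
    intro h
    rw [hmin' s h, Nat.cast_zero, zero_mul] at h3
    exact one_ne_zero h3
  have h6 : ¬ s' < s := by
    intro h
    rw [hmin s' h, Nat.cast_zero, mul_zero] at h3
    exact one_ne_zero h3
  have h7 : s' = s := le_antisymm (not_lt.1 h5) (not_lt.1 h6)
  refine ⟨h7, ?_⟩
  funext i
  have h8 := h2 i
  rw [h1 i, h7, hTs, map_one, mul_one] at h8
  exact (cast_inj (k := k) p _ _ (hc i) (hc' i) h8).symm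

end raw

section mixed

variable {R F ι : Type} [CommRing R] [IsDomain R] [IsDiscreteValuationRing R] [Field F]
  [Algebra R F] [Fintype ι] [DecidableEq ι]

/-- The mixed coordinates. -/
def mix (Z : Finset ι) (ξ t : ι → F) (i : ι) : F := if i ∈ Z then ξ i else t i

omit [IsDomain R] [IsDiscreteValuationRing R] in
theorem Tz_mix {𝒪 : Subring F} {p e j : ℕ} {co r : ι → R} {g : MvPolynomial ι R}
    {ξ t : ι → F} {s : ι} {a b : F} (h : Raw 𝒪 p e j co r g ξ t s a b) (Z : Finset ι) :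
    Tz Z r e (mix Z ξ t) = t := by
  funext i
  by_cases hi : i ∈ Z
  · rw [Tz, if_pos hi, mix, if_pos hi, h.ht]
  · rw [Tz, if_neg hi, mix, if_neg hi]

theorem toDataZ (hIND : S_INDZ) {𝒪 : Subring F} {p e j : ℕ} {co r : ι → R}
    {g : MvPolynomial ι R} {ξ t : ι → F} {s : ι} {a b : F}
    (h : Raw 𝒪 p e j co r g ξ t s a b) (Z : Finset ι) (hZ : ∀ i, i ∈ Z ↔ ¬ U 𝒪 (ξ i))
    (𝒪₁ : Subring F) (h1 : IsLoc 𝒪₁) (h2 : ∀ w ∈ 𝒪₁, w ∈ 𝒪)
    (h3 : ∀ r : R, algebraMap R F r ∈ 𝒪₁) (hm : ∀ i, mix Z ξ t i ∈ 𝒪₁) (ha : a ∈ 𝒪₁)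
    (hb : b ∈ 𝒪₁) : DataZ 𝒪₁ p e j co r g Z (mix Z ξ t) s a b := by
  have hU : ∀ y, U 𝒪₁ y → U 𝒪 y := fun y hy => ⟨hy.1, h2 _ hy.2.1, h2 _ hy.2.2⟩
  have hsZ : s ∉ Z := by
    rw [hZ, not_not, h.hxs]
    exact U_one
  have hT := Tz_mix h Z
  refine ⟨h1, h3, h.coef, h.irr, h.he, h.heU, h.hr, hsZ, ?_, hm, ?_, ha, hb, h.ha0, h.hb0,
    fun hu => h.haU (hU _ hu), h.hj, ?_, h.hp, ?_, ?_⟩
  · rw [mix, if_neg hsZ, h.hs]
  · intro i hi hu
    rw [mix, if_pos hi] at hu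
    exact (hZ i).1 hi (hU _ hu)
  · rw [hT, h.hL]
  · rw [hT, h.hG]
  · obtain ⟨j₀, hj₀⟩ := h.hind
    refine ⟨j₀, hIND _ _ hj₀ ?_⟩
    intro i
    by_cases hi : (i : ι) ∈ Z
    · left
      rw [mix, if_pos hi]
    · right
      refine ⟨r i, e, (h.hr i).ne_zero, by have := h.he; omega, ?_⟩
      rw [mix, if_neg hi, h.ht]

/-- Reduction to the subring without the roots. -/
theorem finish (hET : S_ET) (hIND : S_INDZ) {𝒪 : Subring F} {p e j : ℕ} {co r : ι → R}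
    {g : MvPolynomial ι R} {ξ t : ι → F} {s : ι} {a b : F}
    (h : Raw 𝒪 p e j co r g ξ t s a b) (Z : Finset ι) (hZ : ∀ i, i ∈ Z ↔ ¬ U 𝒪 (ξ i))
    (𝒱₁ : Subalgebra R F) (h𝒱₁ : ∀ w ∈ 𝒱₁, w ∈ 𝒪) (ha : a ∈ 𝒱₁) (hb : b ∈ 𝒱₁)
    (hξ : ∀ i ∈ Z, ξ i ∈ 𝒱₁) (ht : ∀ i, t i ∈ 𝒱₁)
    (hloc : IsLocOf 𝒪 (Algebra.adjoin R ((𝒱₁ : Set F) ∪
      Set.range (fun i : {i : ι // i ∉ Z} => ξ i)) : Set F))
    (H : ∀ 𝒪₁ : Subring F, IsLoc 𝒪₁ → (∀ w ∈ 𝒪₁, w ∈ 𝒪) → (∀ w ∈ 𝒱₁, w ∈ 𝒪₁) →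
      (∀ w ∈ 𝒪₁, U 𝒪 w → U 𝒪₁ w) → IsLocOf 𝒪₁ (𝒱₁ : Set F) →
      DataZ 𝒪₁ p e j co r g Z (mix Z ξ t) s a b → IsRegularLocalRing 𝒪₁) :
    IsRegularLocalRing 𝒪 := by
  have he : 1 ≤ e := by have := h.he; omega
  have heU : U 𝒪 (e : F) := by
    have h1 := U_unit 𝒪 h.hR _ h.heU
    rwa [map_natCast] at h1
  obtain ⟨𝒪₁, h1, h2, h3, h4, h5, h6⟩ := hET 𝒪 h.loc 𝒱₁ h𝒱₁ e he heU
    (fun i : {i : ι // i ∉ Z} => ξ i) (fun i => by
      have := i.2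
      rw [hZ, not_not] at this
      exact this) (fun i => by
      have hr := h.hr i
      obtain ⟨v, hv⟩ := hr
      have h7 : ξ i ^ e = algebraMap R F ((v⁻¹ : Rˣ) : R) * t i := by
        rw [h.ht, ← hv, ← mul_assoc, ← map_mul, Units.inv_mul, map_one, one_mul]
      rw [h7]
      exact 𝒱₁.mul_mem (𝒱₁.algebraMap_mem _) (ht _)) hloc
  apply h6
  refine H 𝒪₁ h1 h2 h3 h4 h5 (toDataZ hIND h Z hZ 𝒪₁ h1 h2
    (fun r => h3 _ (𝒱₁.algebraMap_mem r)) ?_ (h3 _ ha) (h3 _ hb))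
  intro i
  by_cases hi : i ∈ Z
  · rw [mix, if_pos hi]
    exact h3 _ (hξ i hi)
  · rw [mix, if_neg hi]
    exact h3 _ (ht i)

end mixed

section assembly

variable {R F ι : Type} [CommRing R] [IsDomain R] [IsDiscreteValuationRing R] [Field F]
  [Algebra R F] [Fintype ι]

theorem ctx_of {𝒪 : Subring F} {p e j : ℕ} {co r : ι → R} {g : MvPolynomial ι R}
    {ξ t : ι → F} {s : ι} {a b : F} (hD : Raw 𝒪 p e j co r g ξ t s a b) :
    CtxZ (Algebra.adjoin R ({a, b} ∪ Set.range ξ)) 𝒪 p e j ξ t s a b := by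
  refine ⟨hD.loc, ?_, ?_, hD.hxs, ?_, hD.hs, ?_, ?_, hD.ha0, hD.hb0, hD.haU, hD.hL, hD.hp,
    hD.hj⟩
  · apply adjoin_le 𝒪 hD.hR
    rintro y (hy | ⟨i, rfl⟩)
    · rcases hy with rfl | hy
      · exact hD.ha
      · rw [Set.mem_singleton_iff.1 hy]; exact hD.hb
    · exact hD.hx i
  · intro i
    exact Algebra.subset_adjoin (Or.inr ⟨i, rfl⟩)
  · intro i
    exact ⟨_, Subalgebra.algebraMap_mem _ (r i), hD.ht i⟩
  · exact Algebra.subset_adjoin (Or.inl (Or.inl rfl))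
  · exact Algebra.subset_adjoin (Or.inl (Or.inr rfl))

theorem base_prin (hT0 : S_TB0) (hTJ : S_TBJ) (hTL : S_TBL) (𝒲 : Subalgebra R F)
    (𝒪 : Subring F) (p e j : ℕ) (ξ t : ι → F) (s : ι) (a b : F)
    (hC : CtxZ 𝒲 𝒪 p e j ξ t s a b) (hp2 : 2 ≤ p) (s' : ι) (c : ι → ℕ) (β : R)
    (H0 : 1 ≤ j ∨ U 𝒪 (b + algebraMap R F β * t s') ∨ ∃ i, U 𝒪 (t i - (c i : F) * t s'))
    (HJ : ∀ j', 1 ≤ j' → j' + 2 ≤ p →
      (j' ≠ j ∨ U 𝒪 b ∨ ∃ i, U 𝒪 (t i - (c i : F) * t s')))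
    (HL : j + 2 ≠ p ∨ U 𝒪 (t s' ^ (p - 1) + b) ∨ ∃ i, U 𝒪 (t i - (c i : F) * t s')) :
    ∀ B μ n, IsBase p e ξ t s' c (algebraMap R F β) B μ n → PrinB 𝒲 𝒪 B μ := by
  rintro B μ n (⟨rfl, rfl, _⟩ | ⟨j', h1, h2, rfl, rfl, _⟩ | ⟨rfl, rfl, _⟩)
  · exact hT0 𝒲 𝒪 p e j ξ t s a b hC s' c _ (𝒲.algebraMap_mem β) H0
  · exact hTJ 𝒲 𝒪 p e j ξ t s a b hC s' c j' (HJ j' h1 h2)
  · exact hTL 𝒲 𝒪 p e j ξ t s a b hC hp2 s' c HL

theorem pow_subset (𝒲 : Subalgebra R F) (V : Set F) (hV : ∀ y ∈ V, y ∈ 𝒲) (n : ℕ) :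
    ∀ y ∈ V ^ n, y ∈ 𝒲 := by
  induction n with
  | zero =>
    intro y hy
    rw [pow_zero, Set.mem_one] at hy
    rw [hy]
    exact 𝒲.one_mem
  | succ n ih =>
    intro y hy
    rw [pow_succ, Set.mem_mul] at hy
    obtain ⟨y', hy', z, hz, rfl⟩ := hy
    exact 𝒲.mul_mem (ih y' hy') (hV z hz)

theorem fac_prin [LinearOrder ι] (hTI : S_TIZ) (hDER : S_DER) (𝒲 : Subalgebra R F)
    (𝒪 : Subring F) (p e h j : ℕ) (ξ t : ι → F) (s : ι) (a b : F)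
    (hC : CtxZ 𝒲 𝒪 p e j ξ t s a b) (g : MvPolynomial ι R) (P : Set F → Prop)
    (hP : ∀ S, Prin 𝒲 𝒪 S → P S)
    (H : ∀ s' c β, SpZ p g s' c β → (∀ i, i < s' → c i = 0) → ∀ B μ n,
      IsBase p e ξ t s' c (algebraMap R F β) B μ n → PrinB 𝒲 𝒪 B μ ∨
        ((∀ k, 1 ≤ k → k ≤ h → P (Nd B μ (Set.range ξ) (Yc ξ c) n k)) ∧
          (e = 2 * h + 1 → P (Cd B μ (fc t c) (Set.range ξ) (Yc ξ c) n h)))) :
    ∀ S, IsFacS p e h g ξ t S → P S := by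
  have ht : ∀ i, t i ∈ 𝒲 := by
    intro i
    obtain ⟨ρ, hρ, h1⟩ := hC.ht i
    rw [h1]
    exact 𝒲.mul_mem hρ (𝒲.pow_mem (hC.hx i) _)
  intro S hS
  rcases hS with rfl | ⟨j', h1, h2, rfl⟩ | ⟨s', c, β, hc, hmin, B, μ, n, hB, hS⟩
  · exact hP _ (hTI 𝒲 𝒪 p e j ξ t s a b hC).1
  · exact hP _ ((hTI 𝒲 𝒪 p e j ξ t s a b hC).2 j')
  · rcases H s' c β hc hmin B μ n hB with h1 | ⟨h1, h2⟩
    · have hV : ∀ y ∈ Set.range ξ, y ∈ 𝒲 := by
        rintro _ ⟨i, rfl⟩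
        exact hC.hx i
      have hY : ∀ y ∈ Yc ξ c, y ∈ 𝒲 := by
        rintro _ ⟨i, _, rfl⟩
        exact hC.hx i
      have hf : fc t c ∈ 𝒲 := by
        refine 𝒲.sum_mem fun i _ => ?_
        split_ifs
        · exact ht i
        · exact 𝒲.zero_mem
      have h3 := fun k => hDER 𝒲 𝒪 hC.hW B (Set.range ξ) (Yc ξ c) μ (fc t c) n h k hV hY hf h1
      rcases hS with ⟨k, _, _, rfl⟩ | ⟨_, rfl⟩
      · exact hP _ (h3 k).1
      · exact hP _ (h3 0).2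
    · rcases hS with ⟨k, hk1, hk2, rfl⟩ | ⟨he, rfl⟩
      · exact h1 k hk1 hk2
      · exact h2 he

end assembly

section exceptional

variable {R F ι : Type} [CommRing R] [IsDomain R] [IsDiscreteValuationRing R] [Field F]
  [Algebra R F] [Fintype ι] [LinearOrder ι]

theorem exceptional (hBLS1 : S_BLS1) (hBLS2 : S_BLS2) (hEN : S_EN) (hEC : S_EC) (hQS : S_QS)
    (hPT1 : S_PT1) (hPT2 : S_PT2) (hPT3 : S_PT3) (hPT4 : S_PT4) (hTI : S_TIZ) (hDER : S_DER)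
    (hS : S_SUMZ) (hET : S_ET) (hIND : S_INDZ)
    (hQC1 : S_QC1) (hQC2 : S_QC2) (hQC3 : S_QC3) (hQC4 : S_QC4) (hQC5 : S_QC5) (hQC6 : S_QC6)
    (𝒪 : Subring F) (p e h j : ℕ) (co r : ι → R) (g : MvPolynomial ι R) (ξ t : ι → F)
    (s d : ι) (a b : F) (hD : Raw 𝒪 p e j co r g ξ t s a b) (hh : 1 ≤ h)
    (heh : e = 2 * h ∨ e = 2 * h + 1) (Z : Finset ι) (hZ : ∀ i, i ∈ Z ↔ ¬ U 𝒪 (ξ i))
    (hd : s ≠ d) (hdZ : d ∉ Z)
    (hloc : ∀ 𝒱 : Subalgebra R F, (∀ w ∈ 𝒱, w ∈ 𝒪) →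
      (∀ S, IsFacS p e h g ξ t S → Prin 𝒱 𝒪 S) → IsLocOf 𝒪 𝒱)
    (hPr : ∀ S, IsFacS p e h g ξ t S → Pr 𝒪 S)
    (c : ι → ℕ) (β b₀ : R) (hc : SpZ p g s c β) (hmin : ∀ i, i < s → c i = 0)
    (hcZ : ∀ i, i ∈ Z ↔ c i = 0) (hB : ∀ i, ¬ U 𝒪 (t i - (c i : F)))
    (hk : Kind p j β b₀) (hbU : ¬ U 𝒪 (b + algebraMap R F b₀)) (B₀ : Set F) (μ₀ : F) (n₀ : ℕ)
    (hB₀ : IsBase p e ξ t s c (algebraMap R F β) B₀ μ₀ n₀) (hμ₀ : μ₀ ≠ 0)
    (hE : ExcB (Algebra.adjoin R ({a, b} ∪ Set.range ξ)) 𝒪 B₀ μ₀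
      (Set.range (zq a (b + algebraMap R F b₀) t c : KT Z s d → F)) (Yc ξ c) e)
    (hoth : ∀ s' c' β', SpZ p g s' c' β' → (∀ i, i < s' → c' i = 0) → ∀ B μ n,
      IsBase p e ξ t s' c' (algebraMap R F β') B μ n →
        PrinB (Algebra.adjoin R ({a, b} ∪ Set.range ξ)) 𝒪 B μ ∨
          (c' = c ∧ B = B₀ ∧ μ = μ₀ ∧ n = n₀)) :
    IsRegularLocalRing 𝒪 := by
  have hC := ctx_of hD
  set 𝒲 := Algebra.adjoin R ({a, b} ∪ Set.range ξ) with h𝒲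
  set q : KT Z s d → F := zq a (b + algebraMap R F b₀) t c with hq
  set η : ZT Z → F := fun z => ξ z with hη
  set f : F := fY η (fun z : ZT Z => r z) e with hf
  have hYc : Yc ξ c = Set.range η := by
    ext y
    constructor
    · rintro ⟨i, hi, rfl⟩
      exact ⟨⟨i, (hcZ i).2 hi⟩, rfl⟩
    · rintro ⟨z, rfl⟩
      exact ⟨z, (hcZ z).1 z.2, rfl⟩
  have hfc : fc t c = f := by
    have h1 : ∀ i, (if c i = 0 then t i else 0) = if i ∈ Z then t i else 0 := by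
      intro i
      by_cases hi : c i = 0
      · rw [if_pos hi, if_pos ((hcZ i).2 hi)]
      · rw [if_neg hi, if_neg (fun h => hi ((hcZ i).1 h))]
    rw [fc, Finset.sum_congr rfl fun i _ => h1 i, Finset.sum_ite_mem, Finset.univ_inter,
      ← Finset.sum_coe_sort, hf, fY]
    exact Finset.sum_congr rfl fun z _ => hD.ht z
  have hsZ : s ∉ Z := by
    rw [hZ, not_not, hD.hxs]
    exact U_one
  have hcm : ∀ i, ((c i : ℕ) : F) ∈ 𝒪 := fun i => by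
    have := hD.hR (c i : R)
    rwa [map_natCast] at this
  have hqm : ∀ l, q l ∈ 𝒪 ∧ ¬ U 𝒪 (q l) := by
    intro l
    match l with
    | none => exact ⟨hD.ha, hD.haU⟩
    | some none => exact ⟨𝒪.add_mem hD.hb (hD.hR _), hbU⟩
    | some (some k) => exact ⟨𝒪.sub_mem (hD.ht_mem k) (hcm k), hB k⟩
  have hηm : ∀ z, η z ∈ 𝒪 ∧ ¬ U 𝒪 (η z) := fun z => ⟨hD.hx z, (hZ z).1 z.2⟩
  have hV : ∀ y ∈ Set.range ξ, y ∈ 𝒲 := by
    rintro _ ⟨i, rfl⟩
    exact hC.hx i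
  have hY : ∀ y ∈ Yc ξ c, y ∈ 𝒲 := by
    rintro _ ⟨i, _, rfl⟩
    exact hC.hx i
  have h1V : (1 : F) ∈ Set.range ξ := ⟨s, hD.hxs⟩
  have ht𝒲 : ∀ i, t i ∈ 𝒲 := by
    intro i
    rw [hD.ht]
    exact 𝒲.mul_mem (𝒲.algebraMap_mem _) (𝒲.pow_mem (hC.hx i) _)
  have hQ𝒲 : ∀ y ∈ Set.range q, y ∈ 𝒲 := by
    rintro _ ⟨l, rfl⟩
    match l with
    | none => exact hC.ha
    | some none => exact 𝒲.add_mem hC.hb (𝒲.algebraMap_mem _)
    | some (some k) =>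
      refine 𝒲.sub_mem (ht𝒲 k) ?_
      have := 𝒲.algebraMap_mem (c k : R)
      rwa [map_natCast] at this
  have hEN' : ∀ k, 1 ≤ k → k ≤ h → ExcS 𝒲 𝒪 (Nd B₀ μ₀ (Set.range ξ) (Yc ξ c) n₀ k)
      (NS (Set.range q) (Set.range η) k) := by
    intro k _ hk2
    have h1 := hEN 𝒲 𝒪 hC.hW B₀ (Set.range q) (Set.range ξ) (Yc ξ c) μ₀ e n₀ k hμ₀ hV hY h1V hE
      (by rcases heh with h3 | h3 <;> omega)
    rwa [hYc] at h1 ⊢
  have hEC' : e = 2 * h + 1 → ExcS 𝒲 𝒪 (Cd B₀ μ₀ (fc t c) (Set.range ξ) (Yc ξ c) n₀ h)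
      (CS (Set.range q) (Set.range η) f h) := by
    intro he
    have h1 := hEC 𝒲 𝒪 hC.hW B₀ (Set.range q) (Set.range ξ) (Yc ξ c) μ₀ (fc t c) n₀ h hμ₀ hV hY
      h1V (he ▸ hE) hQ𝒲
    rw [hfc] at h1 ⊢
    rwa [hYc] at h1 ⊢
  have hNS : ∀ k, 1 ≤ k → k ≤ h → Pr 𝒪 (NS (Set.range q) (Set.range η) k) := by
    intro k hk1 hk2
    exact hBLS1 𝒪 hD.loc 𝒲 hC.hW _ _ (hPr _ (Or.inr (Or.inr ⟨s, c, β, hc, hmin, B₀, μ₀, n₀, hB₀,
      Or.inl ⟨k, hk1, hk2, rfl⟩⟩))) (hEN' k hk1 hk2)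
  have hCS : e = 2 * h ∨ (e = 2 * h + 1 ∧ Pr 𝒪 (CS (Set.range q) (Set.range η) f h)) := by
    rcases heh with he | he
    · exact Or.inl he
    · exact Or.inr ⟨he, hBLS1 𝒪 hD.loc 𝒲 hC.hW _ _ (hPr _ (Or.inr (Or.inr ⟨s, c, β, hc, hmin,
        B₀, μ₀, n₀, hB₀, Or.inr ⟨he, rfl⟩⟩))) (hEC' he)⟩
  -- the reduction
  have go : ∀ 𝒱₁ : Subalgebra R F, (∀ w ∈ 𝒱₁, w ∈ 𝒪) → PTC 𝒱₁ 𝒪 q η f h e →
      (∀ 𝒪₁ : Subring F, IsLoc 𝒪₁ → (∀ w ∈ 𝒪₁, w ∈ 𝒪) → (∀ w ∈ 𝒱₁, w ∈ 𝒪₁) →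
        (∀ w ∈ 𝒪₁, U 𝒪 w → U 𝒪₁ w) → IsLocOf 𝒪₁ (𝒱₁ : Set F) →
        QCtx 𝒪₁ p e h j co r g Z (mix Z ξ t) s d a b c β b₀ → IsRegularLocalRing 𝒪₁) →
      IsRegularLocalRing 𝒪 := by
    intro 𝒱₁ h𝒱₁ hPTC H
    obtain ⟨hq1, hη1, hN1, hC1⟩ := hPTC
    have hc1 : ∀ i, ((c i : ℕ) : F) ∈ 𝒱₁ := fun i => by
      have := 𝒱₁.algebraMap_mem (c i : R)
      rwa [map_natCast] at this
    have ha1 : a ∈ 𝒱₁ := hq1 none
    have hb1 : b ∈ 𝒱₁ := by
      have h1 : b = q (some none) - algebraMap R F b₀ := by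
        simp only [hq, zq, Option.elim]
        ring
      rw [h1]
      exact 𝒱₁.sub_mem (hq1 _) (𝒱₁.algebraMap_mem _)
    have hk1 : ∀ k : TT Z s d, t k ∈ 𝒱₁ := by
      intro k
      have h1 : t k = q (some (some k)) + (c k : F) := by
        simp only [hq, zq, Option.elim]
        ring
      rw [h1]
      exact 𝒱₁.add_mem (hq1 _) (hc1 _)
    have hz1 : ∀ i ∈ Z, ξ i ∈ 𝒱₁ := fun i hi => hη1 ⟨i, hi⟩
    have hzt : ∀ z : ZT Z, t z ∈ 𝒱₁ := by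
      intro z
      rw [hD.ht]
      exact 𝒱₁.mul_mem (𝒱₁.algebraMap_mem _) (𝒱₁.pow_mem (hz1 z z.2) _)
    have ht1 : ∀ i, t i ∈ 𝒱₁ := by
      intro i
      by_cases h0 : i ∈ Z
      · exact hzt ⟨i, h0⟩
      by_cases h1 : i = s
      · rw [h1, hD.hs]; exact 𝒱₁.one_mem
      by_cases h2 : i = d
      · have h3 := (hS Z s d hd hsZ hdZ (fun _ : ι => (0 : F)) (fun _ => 0) (fun _ => 0) 0).2 t
        rw [hD.hL, hD.hs] at h3
        have h4 : t i = a * b - 1 - ∑ k : TT Z s d, t k - ∑ z : ZT Z, t z := by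
          rw [h2, h3]
          ring
        rw [h4]
        exact 𝒱₁.sub_mem (𝒱₁.sub_mem (𝒱₁.sub_mem (𝒱₁.mul_mem ha1 hb1) 𝒱₁.one_mem)
          (𝒱₁.sum_mem fun k _ => hk1 k)) (𝒱₁.sum_mem fun z _ => hzt z)
      · exact hk1 ⟨i, h0, h1, h2⟩
    set 𝒱 := Algebra.adjoin R ((𝒱₁ : Set F) ∪ Set.range (fun i : {i : ι // i ∉ Z} => ξ i))
      with h𝒱
    have h𝒱𝒪 : ∀ w ∈ 𝒱, w ∈ 𝒪 := by
      apply adjoin_le 𝒪 hD.hR
      rintro y (hy | ⟨i, rfl⟩)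
      · exact h𝒱₁ y hy
      · exact hD.hx i
    have h1𝒱 : ∀ w ∈ 𝒱₁, w ∈ 𝒱 := fun w hw => Algebra.subset_adjoin (Or.inl hw)
    have hle : 𝒲 ≤ 𝒱 := by
      rw [h𝒲, Algebra.adjoin_le_iff]
      rintro y (hy | ⟨i, rfl⟩)
      · rcases hy with rfl | hy
        · exact h1𝒱 _ ha1
        · rw [Set.mem_singleton_iff.1 hy]; exact h1𝒱 _ hb1
      · by_cases h0 : i ∈ Z
        · exact h1𝒱 _ (hz1 i h0)
        · exact Algebra.subset_adjoin (Or.inr ⟨⟨i, h0⟩, rfl⟩)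
    have hmono : ∀ S, Prin 𝒲 𝒪 S → Prin 𝒱 𝒪 S := by
      rintro S ⟨m, hm, h1, h2⟩
      exact ⟨m, hm, fun h hh => hle (h1 h hh), h2⟩
    have hmono1 : ∀ S, Prin 𝒱₁ 𝒪 S → Prin 𝒱 𝒪 S := by
      rintro S ⟨m, hm, h1, h2⟩
      exact ⟨m, hm, fun h hh => h1𝒱 _ (h1 h hh), h2⟩
    have hfac := fac_prin hTI hDER 𝒲 𝒪 p e h j ξ t s a b hC g (fun S => Prin 𝒱 𝒪 S) hmono (by
      intro s' c' β' hc' hmin' B μ n hBB
      rcases hoth s' c' β' hc' hmin' B μ n hBB with h1 | ⟨rfl, rfl, rfl, rfl⟩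
      · exact Or.inl h1
      · right
        refine ⟨fun k hk1 hk2 => ?_, fun he => ?_⟩
        · exact hBLS2 𝒪 𝒲 𝒱 h𝒱𝒪 hle _ _ (hmono1 _ (hN1 k hk1 hk2)) (hEN' k hk1 hk2)
        · exact hBLS2 𝒪 𝒲 𝒱 h𝒱𝒪 hle _ _ (hmono1 _ (hC1 he)) (hEC' he))
    refine finish hET hIND hD Z hZ 𝒱₁ h𝒱₁ ha1 hb1 hz1 ht1 (hloc 𝒱 h𝒱𝒪 hfac) ?_
    intro 𝒪₁ l1 l2 l3 l4 l5 hData
    have hU : ∀ y, U 𝒪₁ y → U 𝒪 y := fun y hy => ⟨hy.1, l2 _ hy.2.1, l2 _ hy.2.2⟩
    refine H 𝒪₁ l1 l2 l3 l4 l5 ⟨hData, hh, heh, hd, hdZ, hc, hcZ, hk, ?_⟩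
    intro l
    have hzq : (zq a (b + algebraMap R F b₀) (mix Z ξ t) c : KT Z s d → F) = q := by
      funext l
      match l with
      | none => rfl
      | some none => rfl
      | some (some k) =>
        show mix Z ξ t k - (c k : F) = t k - (c k : F)
        rw [mix, if_neg k.2.1]
    rw [hzq]
    exact ⟨l3 _ (hq1 l), fun h => (hqm l).2 (hU _ h)⟩
  have hzq : q = (zq a (b + algebraMap R F b₀) (mix Z ξ t) c : KT Z s d → F) := by
    funext l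
    match l with
    | none => rfl
    | some none => rfl
    | some (some k) =>
      show t k - (c k : F) = mix Z ξ t k - (c k : F)
      rw [mix, if_neg k.2.1]
  have hηq : η = (fun z : ZT Z => mix Z ξ t z) := by
    funext z
    rw [mix, if_pos z.2]
  have hfdiv : ∀ z₀, η z₀ ≠ 0 → (∀ z, η z / η z₀ ∈ 𝒪) → f / η z₀ ^ e ∈ 𝒪 := by
    intro z₀ h0 hz
    rw [hf, fY, Finset.sum_div]
    refine 𝒪.sum_mem fun z _ => ?_
    rw [mul_div_assoc, ← div_pow]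
    exact 𝒪.mul_mem (hD.hR _) (𝒪.pow_mem (hz z) _)
  have hadj : ∀ (S : Set F), (∀ w ∈ S, w ∈ 𝒪) → ∀ w ∈ Algebra.adjoin R S, w ∈ 𝒪 :=
    fun S hS => adjoin_le 𝒪 hD.hR S hS
  rcases hQS 𝒪 hD.loc q η f h e hh hqm hηm hfdiv hNS hCS with
    ⟨l, h1⟩ | ⟨k, z₀, l, hk1, hk2, h1⟩ | ⟨k, z₀, hk1, hk2, hk3, h1, h2⟩ | ⟨z₀, he, h1⟩ |
    ⟨z₀, he, h1, h2, h3⟩ | ⟨z₀, k₁, he, h1, h2, h3, h4, h5⟩
  · -- chart 1
    have hG : ∀ w ∈ G1 q η l, w ∈ 𝒪 := by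
      rintro w ((rfl | ⟨m, rfl⟩) | ⟨z, rfl⟩)
      · exact (hqm l).1
      · exact h1.hq m
      · exact h1.hy z
    have hsub : ∀ w ∈ G1 q η l, w ∈ Algebra.adjoin R (G1 q η l) :=
      fun w hw => Algebra.subset_adjoin hw
    refine go (Algebra.adjoin R (G1 q η l)) (hadj _ hG)
      (hPT1 _ 𝒪 (hadj _ hG) q η (fun z : ZT Z => r z) h e hh heh l h1 hsub) ?_
    intro 𝒪₁ l1 l2 l3 l4 l5 hctx
    have hU : ∀ y, U 𝒪₁ y → U 𝒪 y := fun y hy => ⟨hy.1, l2 _ hy.2.1, l2 _ hy.2.2⟩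
    exact hQC1 𝒪₁ p e h j co r g Z _ s d a b c β b₀ hctx q η hzq hηq l
      ⟨h1.ql, fun m => l3 _ (hsub _ (Or.inl (Or.inr ⟨m, rfl⟩))),
        fun z => l3 _ (hsub _ (Or.inr ⟨z, rfl⟩)), fun z h => h1.hyU z (hU _ h)⟩ l5
  · -- chart 2
    have hG : ∀ w ∈ G2 q η k z₀ l, w ∈ 𝒪 := by
      rintro w (((rfl | hw) | ⟨m, rfl⟩) | ⟨z, rfl⟩)
      · exact h1.hε
      · rw [Set.mem_singleton_iff.1 hw]; exact h1.hω
      · exact h1.hq m
      · exact h1.hy z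
    have hsub : ∀ w ∈ G2 q η k z₀ l, w ∈ Algebra.adjoin R (G2 q η k z₀ l) :=
      fun w hw => Algebra.subset_adjoin hw
    refine go (Algebra.adjoin R (G2 q η k z₀ l)) (hadj _ hG)
      (hPT2 _ 𝒪 (hadj _ hG) q η (fun z : ZT Z => r z) h e hh heh k z₀ l hk1 hk2 h1 hsub) ?_
    intro 𝒪₁ l1 l2 l3 l4 l5 hctx
    have hU : ∀ y, U 𝒪₁ y → U 𝒪 y := fun y hy => ⟨hy.1, l2 _ hy.2.1, l2 _ hy.2.2⟩
    exact hQC2 𝒪₁ p e h j co r g Z _ s d a b c β b₀ hctx q η hzq hηq k z₀ l hk1 hk2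
      ⟨h1.yz, h1.ql, fun z => l3 _ (hsub _ (Or.inr ⟨z, rfl⟩)),
        fun m => l3 _ (hsub _ (Or.inl (Or.inr ⟨m, rfl⟩))),
        l3 _ (hsub _ (Or.inl (Or.inl (Or.inl rfl)))), fun h => h1.hεU (hU _ h),
        l3 _ (hsub _ (Or.inl (Or.inl (Or.inr rfl)))), fun h => h1.hωU (hU _ h)⟩ l5
  · -- chart 3
    have hG : ∀ w ∈ G3 q η k z₀, w ∈ 𝒪 := by
      rintro w ((rfl | ⟨m, rfl⟩) | ⟨z, rfl⟩)
      · exact (hηm z₀).1
      · exact h1.hq m
      · exact h1.hy z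
    have hsub : ∀ w ∈ G3 q η k z₀, w ∈ Algebra.adjoin R (G3 q η k z₀) :=
      fun w hw => Algebra.subset_adjoin hw
    refine go (Algebra.adjoin R (G3 q η k z₀)) (hadj _ hG)
      (hPT3 _ 𝒪 (hadj _ hG) q η (fun z : ZT Z => r z) h e hh heh k z₀ hk1 hk2 h1 (Or.inl h2)
        hsub) ?_
    intro 𝒪₁ l1 l2 l3 l4 l5 hctx
    obtain ⟨m, hm⟩ := h2
    exact hQC3 𝒪₁ p e h j co r g Z _ s d a b c β b₀ hctx q η hzq hηq k z₀ hk1 hk2 hk3
      ⟨h1.yz, fun z => l3 _ (hsub _ (Or.inr ⟨z, rfl⟩)),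
        fun m => l3 _ (hsub _ (Or.inl (Or.inr ⟨m, rfl⟩)))⟩
      ⟨m, l4 _ (l3 _ (hsub _ (Or.inl (Or.inr ⟨m, rfl⟩)))) hm⟩ l5
  · -- chart 3, e even
    have hG : ∀ w ∈ G3 q η h z₀, w ∈ 𝒪 := by
      rintro w ((rfl | ⟨m, rfl⟩) | ⟨z, rfl⟩)
      · exact (hηm z₀).1
      · exact h1.hq m
      · exact h1.hy z
    have hsub : ∀ w ∈ G3 q η h z₀, w ∈ Algebra.adjoin R (G3 q η h z₀) :=
      fun w hw => Algebra.subset_adjoin hw
    refine go (Algebra.adjoin R (G3 q η h z₀)) (hadj _ hG)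
      (hPT3 _ 𝒪 (hadj _ hG) q η (fun z : ZT Z => r z) h e hh heh h z₀ hh le_rfl h1
        (Or.inr ⟨rfl, Or.inl he⟩) hsub) ?_
    intro 𝒪₁ l1 l2 l3 l4 l5 hctx
    exact hQC6 𝒪₁ p e h j co r g Z _ s d a b c β b₀ hctx q η hzq hηq z₀ he
      ⟨h1.yz, fun z => l3 _ (hsub _ (Or.inr ⟨z, rfl⟩)),
        fun m => l3 _ (hsub _ (Or.inl (Or.inr ⟨m, rfl⟩)))⟩ l5
  · -- chart 3, f a unit
    have hG : ∀ w ∈ G3 q η h z₀, w ∈ 𝒪 := by
      rintro w ((rfl | ⟨m, rfl⟩) | ⟨z, rfl⟩)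
      · exact (hηm z₀).1
      · exact h1.hq m
      · exact h1.hy z
    have hsub : ∀ w ∈ G3 q η h z₀, w ∈ Algebra.adjoin R (G3 q η h z₀) :=
      fun w hw => Algebra.subset_adjoin hw
    refine go (Algebra.adjoin R (G3 q η h z₀)) (hadj _ hG)
      (hPT3 _ 𝒪 (hadj _ hG) q η (fun z : ZT Z => r z) h e hh heh h z₀ hh le_rfl h1
        (Or.inr ⟨rfl, Or.inr h3⟩) hsub) ?_
    intro 𝒪₁ l1 l2 l3 l4 l5 hctx
    have hU : ∀ y, U 𝒪₁ y → U 𝒪 y := fun y hy => ⟨hy.1, l2 _ hy.2.1, l2 _ hy.2.2⟩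
    have hηz : ∀ z, η z / η z₀ ∈ 𝒪₁ := fun z => l3 _ (hsub _ (Or.inr ⟨z, rfl⟩))
    have hf1 : f / η z₀ ^ e ∈ 𝒪₁ := by
      rw [hf, fY, Finset.sum_div]
      refine 𝒪₁.sum_mem fun z _ => ?_
      rw [mul_div_assoc, ← div_pow]
      exact 𝒪₁.mul_mem (l3 _ (Subalgebra.algebraMap_mem _ _)) (𝒪₁.pow_mem (hηz z) _)
    exact hQC5 𝒪₁ p e h j co r g Z _ s d a b c β b₀ hctx q η hzq hηq f hf z₀ he
      ⟨h1.yz, hηz, fun m => l3 _ (hsub _ (Or.inl (Or.inr ⟨m, rfl⟩)))⟩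
      (fun m h => h2 m (hU _ h)) (l4 _ hf1 h3) l5
  · -- chart 4
    have hzst : ∀ k, zst q η f h e z₀ k ∈ 𝒪 ∧ ¬ U 𝒪 (zst q η f h e z₀ k) := by
      intro k
      match k with
      | none => exact hηm z₀
      | some none => exact ⟨hfdiv z₀ h1.yz h1.hy, h3⟩
      | some (some m) => exact ⟨h1.hq m, h2 m⟩
    have hG : ∀ w ∈ G4 q η f h e z₀ k₁, w ∈ 𝒪 := by
      rintro w ((rfl | ⟨m, rfl⟩) | ⟨z, rfl⟩)
      · exact (hzst k₁).1
      · exact h5 m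
      · exact h1.hy z
    have hsub : ∀ w ∈ G4 q η f h e z₀ k₁, w ∈ Algebra.adjoin R (G4 q η f h e z₀ k₁) :=
      fun w hw => Algebra.subset_adjoin hw
    refine go (Algebra.adjoin R (G4 q η f h e z₀ k₁)) (hadj _ hG)
      (hPT4 _ 𝒪 (hadj _ hG) q η (fun z : ZT Z => r z) h e hh he z₀ k₁ h1 h4 h5 hsub) ?_
    intro 𝒪₁ l1 l2 l3 l4 l5 hctx
    have hU : ∀ y, U 𝒪₁ y → U 𝒪 y := fun y hy => ⟨hy.1, l2 _ hy.2.1, l2 _ hy.2.2⟩
    have hk : ∀ k, zst q η f h e z₀ k / zst q η f h e z₀ k₁ ∈ 𝒪₁ :=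
      fun k => l3 _ (hsub _ (Or.inl (Or.inr ⟨k, rfl⟩)))
    have hk' : ∀ k, zst q η f h e z₀ k ∈ 𝒪₁ := by
      intro k
      have h6 : zst q η f h e z₀ k =
          (zst q η f h e z₀ k / zst q η f h e z₀ k₁) * zst q η f h e z₀ k₁ := by
        field_simp
      rw [h6]
      exact 𝒪₁.mul_mem (hk k) (l3 _ (hsub _ (Or.inl (Or.inl rfl))))
    exact hQC4 𝒪₁ p e h j co r g Z _ s d a b c β b₀ hctx q η hzq hηq f hf z₀ k₁ he
      ⟨h1.yz, fun z => l3 _ (hsub _ (Or.inr ⟨z, rfl⟩)), fun m => hk' (some (some m))⟩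
      (fun k h => (hzst k).2 (hU _ h)) h4 hk l5

end exceptional

section plain

variable {R F ι : Type} [CommRing R] [IsDomain R] [IsDiscreteValuationRing R] [Field F]
  [Algebra R F] [Fintype ι] [LinearOrder ι]

theorem plain (hET : S_ET) (hIND : S_INDZ) (𝒪 : Subring F) (p e h j : ℕ) (co r : ι → R)
    (g : MvPolynomial ι R) (ξ t : ι → F) (s : ι) (a b : F)
    (hD : Raw 𝒪 p e j co r g ξ t s a b) (Z : Finset ι) (hZ : ∀ i, i ∈ Z ↔ ¬ U 𝒪 (ξ i))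
    (hloc : ∀ 𝒱 : Subalgebra R F, (∀ w ∈ 𝒱, w ∈ 𝒪) →
      (∀ S, IsFacS p e h g ξ t S → Prin 𝒱 𝒪 S) → IsLocOf 𝒪 𝒱)
    (hfac : ∀ S, IsFacS p e h g ξ t S → Prin (Algebra.adjoin R ({a, b} ∪ Set.range ξ)) 𝒪 S)
    (H : ∀ 𝒪₁ : Subring F, (∀ w ∈ 𝒪₁, w ∈ 𝒪) → (∀ w ∈ 𝒪₁, U 𝒪 w → U 𝒪₁ w) →
      IsLocOf 𝒪₁ (Algebra.adjoin R ({a, b} ∪ Set.range (mix Z ξ t)) : Set F) →
      DataZ 𝒪₁ p e j co r g Z (mix Z ξ t) s a b → IsRegularLocalRing 𝒪₁) :
    IsRegularLocalRing 𝒪 := by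
  set 𝒲 := Algebra.adjoin R ({a, b} ∪ Set.range ξ) with h𝒲
  set 𝒱₁ := Algebra.adjoin R ({a, b} ∪ Set.range (mix Z ξ t)) with h𝒱₁
  have h1 : ∀ w ∈ 𝒱₁, w ∈ 𝒪 := by
    apply adjoin_le 𝒪 hD.hR
    rintro y (hy | ⟨i, rfl⟩)
    · rcases hy with rfl | hy
      · exact hD.ha
      · rw [Set.mem_singleton_iff.1 hy]; exact hD.hb
    · rw [mix]
      split_ifs
      · exact hD.hx i
      · exact hD.ht_mem i
  have ha : a ∈ 𝒱₁ := Algebra.subset_adjoin (Or.inl (Or.inl rfl))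
  have hb : b ∈ 𝒱₁ := Algebra.subset_adjoin (Or.inl (Or.inr rfl))
  have hm : ∀ i, mix Z ξ t i ∈ 𝒱₁ := fun i => Algebra.subset_adjoin (Or.inr ⟨i, rfl⟩)
  have hξ : ∀ i ∈ Z, ξ i ∈ 𝒱₁ := by
    intro i hi
    have h2 := hm i
    rwa [mix, if_pos hi] at h2
  have ht : ∀ i, t i ∈ 𝒱₁ := by
    intro i
    by_cases hi : i ∈ Z
    · rw [hD.ht]
      exact 𝒱₁.mul_mem (𝒱₁.algebraMap_mem _) (𝒱₁.pow_mem (hξ i hi) _)
    · have h2 := hm i
      rwa [mix, if_neg hi] at h2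
  refine finish hET hIND hD Z hZ 𝒱₁ h1 ha hb hξ ht ?_ ?_
  · set 𝒱 := Algebra.adjoin R ((𝒱₁ : Set F) ∪ Set.range (fun i : {i : ι // i ∉ Z} => ξ i))
      with h𝒱
    have h𝒱𝒪 : ∀ w ∈ 𝒱, w ∈ 𝒪 := by
      apply adjoin_le 𝒪 hD.hR
      rintro y (hy | ⟨i, rfl⟩)
      · exact h1 y hy
      · exact hD.hx i
    have h1𝒱 : ∀ w ∈ 𝒱₁, w ∈ 𝒱 := fun w hw => Algebra.subset_adjoin (Or.inl hw)
    have hle : 𝒲 ≤ 𝒱 := by
      rw [h𝒲, Algebra.adjoin_le_iff]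
      rintro y (hy | ⟨i, rfl⟩)
      · rcases hy with rfl | hy
        · exact h1𝒱 _ ha
        · rw [Set.mem_singleton_iff.1 hy]; exact h1𝒱 _ hb
      · by_cases h0 : i ∈ Z
        · exact h1𝒱 _ (hξ i h0)
        · exact Algebra.subset_adjoin (Or.inr ⟨⟨i, h0⟩, rfl⟩)
    refine hloc 𝒱 h𝒱𝒪 fun S hS => ?_
    obtain ⟨m, hm, h3, h4⟩ := hfac S hS
    exact ⟨m, hm, fun h hh => hle (h3 h hh), h4⟩
  · intro 𝒪₁ _ l2 _ l4 l5 l6
    exact H 𝒪₁ l2 l4 l5 l6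

end plain

end LOCSaux

open LOCSaux Pool.Agent.H945R2.D.LOCaux

theorem LOCS_ok (hCL : S_CL) (hMAS : S_MAS) (hPRA : S_PRA) (hSIM : S_SIM) (hSCZ : S_SCZ)
    (hBLS1 : S_BLS1) (hBLS2 : S_BLS2) (hEN : S_EN) (hEC : S_EC) (hQS : S_QS)
    (hPT1 : S_PT1) (hPT2 : S_PT2) (hPT3 : S_PT3) (hPT4 : S_PT4) (hTI : S_TIZ) (hT0 : S_TB0)
    (hTJ : S_TBJ) (hTL : S_TBL) (hDER : S_DER) (hX0 : S_XB0) (hXJ : S_XBJ) (hXL : S_XBL)
    (hS : S_SUMZ) (hET : S_ET) (hIND : S_INDZ) (hCH1 : S_CH1Z) (hCH2 : S_CH2Z)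
    (hQC1 : S_QC1) (hQC2 : S_QC2) (hQC3 : S_QC3) (hQC4 : S_QC4) (hQC5 : S_QC5)
    (hQC6 : S_QC6) : S_LOCS := by
  intro R F ι κ _ _ _ _ _ _ _ _ 𝒪 p e h co u g x hD Φ hΦ f hf hfG hG hloc2
  classical
  have hp1 : 1 ≤ p := hD.coef.prime.one_lt.le
  have hp2 : 2 ≤ p := hD.coef.prime.two_le
  have hp3 : 3 ≤ p := by
    have := hD.coef.odd
    omega
  set X : ι → F := fun i => algebraMap R F (u i) * x i ^ e with hX
  have hPr : ∀ S, IsFacS p e h g x X S → Pr 𝒪 S := by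
    intro S hS
    have h1 : S ∈ Set.range Φ := by rw [hΦ]; exact hS
    obtain ⟨k, rfl⟩ := h1
    exact hPRA 𝒪 hD.loc hD.hR Φ f hf hfG hG k
  have hMAS' : ∀ 𝒱 : Subalgebra R F, (∀ w ∈ 𝒱, w ∈ 𝒪) →
      (∀ S, IsFacS p e h g x X S → Prin 𝒱 𝒪 S) → IsLocOf 𝒪 𝒱 := by
    intro 𝒱 h𝒱 hall
    refine hMAS 𝒪 hD.loc hD.hR 𝒱 h𝒱 Φ f hf hfG hG hloc2 fun k => hall _ ?_
    have h1 : Φ k ∈ Set.range Φ := ⟨k, rfl⟩
    rw [hΦ] at h1
    exact h1
  have hI : ∀ j, 1 ≤ j → j < p → Pr 𝒪 (Ifs p e x X j) := fun j h1 h2 =>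
    hPr _ (Or.inr (Or.inl ⟨j, h1, h2, rfl⟩))
  -- the data of a chart
  have chart_data : ∀ s, x s ≠ 0 → (∀ i, x i / x s ∈ 𝒪) → ∃ (r : ι → R) (j : ℕ) (a b : F),
      Raw 𝒪 p e j co r g (fun i => x i / x s)
        (fun i => algebraMap R F (r i) * (x i / x s) ^ e) s a b ∧
      (∃ Λ : F, Λ ≠ 0 ∧ ∀ i, X i = Λ * (algebraMap R F (r i) * (x i / x s) ^ e)) ∧
      (∀ S, IsFacS p e h g (fun i => x i / x s)
        (fun i => algebraMap R F (r i) * (x i / x s) ^ e) S → Pr 𝒪 S) ∧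
      (∀ 𝒱 : Subalgebra R F, (∀ w ∈ 𝒱, w ∈ 𝒪) →
        (∀ S, IsFacS p e h g (fun i => x i / x s)
          (fun i => algebraMap R F (r i) * (x i / x s) ^ e) S → Prin 𝒱 𝒪 S) →
        IsLocOf 𝒪 𝒱) := by
    intro s hs hx
    obtain ⟨r, ν, j, a, b, hRaw, hXt⟩ := exists_raw hCL 𝒪 p e h co u g x hD s hs hx hI
    have hν0 : algebraMap R F ((ν : Rˣ) : R) ≠ 0 :=
      (U_unit 𝒪 hD.hR _ (Units.isUnit ν)).1
    have hx1 : (fun i => x s * (x i / x s)) = x := by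
      funext i
      field_simp
    have hX1 : (fun i => (x s ^ e * algebraMap R F ν) *
        (algebraMap R F (r i) * (x i / x s) ^ e)) = X := by
      funext i
      exact (hXt i).symm
    have hsc := hSCZ p e h hp1 hD.hh hD.heh g (fun i => x i / x s)
      (fun i => algebraMap R F (r i) * (x i / x s) ^ e) (x s) (x s ^ e * algebraMap R F ν) ν hs rfl
    rw [hx1, hX1] at hsc
    refine ⟨r, j, a, b, hRaw, ⟨_, mul_ne_zero (pow_ne_zero _ hs) hν0, hXt⟩, ?_, ?_⟩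
    · intro S hS
      obtain ⟨Φ', h1, h2⟩ := hsc.2 S hS
      exact (hSIM 𝒪 hD.hR Φ' S h2).1 (hPr Φ' h1)
    · intro 𝒱 h𝒱 hall
      apply hMAS' 𝒱 h𝒱
      intro S hS
      obtain ⟨Φ', h1, h2⟩ := hsc.1 S hS
      exact (hSIM 𝒪 hD.hR S Φ' h2).2 𝒱 (hall Φ' h1)
  obtain ⟨_, ⟨s, rfl⟩, hs, hx⟩ := hPr _ (Or.inl rfl)
  have hxs : ∀ i, x i / x s ∈ 𝒪 := fun i => hx _ ⟨i, rfl⟩
  obtain ⟨r, j, a, b, hRaw, ⟨Λ, hΛ, hXΛ⟩, hPrt, hLoct⟩ := chart_data s hs hxs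
  by_cases hA : ∃ i₁, U 𝒪 (x i₁ / x s) ∧
      U 𝒪 ((algebraMap R F (r i₁) * (x i₁ / x s) ^ e) ^ (p - 1) - 1)
  · obtain ⟨i₁, hi₁Z, hi₁⟩ := hA
    obtain ⟨hi₁s, i, hiZ, his, hii, hi3⟩ := caseA 𝒪 p e j co r g _ _ s a b hRaw i₁ hi₁Z hi₁
    have hC := ctx_of hRaw
    set Z : Finset ι := Finset.univ.filter (fun i => ¬ U 𝒪 (x i / x s)) with hZdef
    have hZ : ∀ i, i ∈ Z ↔ ¬ U 𝒪 (x i / x s) := by
      intro i
      simp [hZdef]
    refine plain hET hIND 𝒪 p e h j co r g _ _ s a b hRaw Z hZ hLoct ?_ ?_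
    · refine fac_prin hTI hDER _ 𝒪 p e h j _ _ s a b hC g _ (fun S hS => hS) ?_
      intro s' c β hc hmin B μ n hB
      left
      have h1 := caseA2 𝒪 p e j co r g _ _ s a b hRaw i₁ hi₁Z hi₁ s' c hc.lt
      exact base_prin hT0 hTJ hTL _ 𝒪 p e j _ _ s a b hC hp2 s' c β (Or.inr (Or.inr h1))
        (fun _ _ _ => Or.inr (Or.inr h1)) (Or.inr (Or.inr h1)) B μ n hB
    · intro 𝒪₁ l2 l4 l5 l6
      have hi₁n : i₁ ∉ Z := by rw [hZ, not_not]; exact hi₁Z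
      have hin : i ∉ Z := by rw [hZ, not_not]; exact hiZ
      refine hCH1 𝒪₁ p e j co r g Z _ s i₁ a b l6 (Ne.symm hi₁s) hi₁n l5
        (Or.inr ⟨i, hin, his, hii, l4 _ ?_ ?_⟩)
      · exact 𝒪₁.sub_mem (𝒪₁.pow_mem (l6.hy i) _) (𝒪₁.pow_mem (l6.hy i₁) _)
      · rw [mix, mix, if_neg hin, if_neg hi₁n]
        exact hi3
  · push Not at hA
    -- the canonical chart
    have hss : U 𝒪 (x s / x s) := by rw [div_self hs]; exact U_one
    set Y : Finset ι := Finset.univ.filter (fun i => U 𝒪 (x i / x s)) with hY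
    have hYne : Y.Nonempty := ⟨s, by simp [hY, hss]⟩
    set s₀ := Y.min' hYne with hs₀
    have hs₀U : U 𝒪 (x s₀ / x s) := by
      have h1 := Finset.min'_mem Y hYne
      simpa [hY] using h1
    have hmin₀ : ∀ i, i < s₀ → ¬ U 𝒪 (x i / x s) := by
      intro i hi hu
      have h1 : i ∈ Y := by simp [hY, hu]
      exact absurd (Finset.min'_le Y i h1) (not_le.2 hi)
    have hs0 : x s₀ ≠ 0 := by
      intro h0
      have h1 := hs₀U.1
      rw [h0, zero_div] at h1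
      exact h1 rfl
    have hdiv : ∀ i, x i / x s₀ = (x i / x s) / (x s₀ / x s) := by
      intro i
      field_simp
    have hxs0 : ∀ i, x i / x s₀ ∈ 𝒪 := by
      intro i
      rw [hdiv, div_eq_mul_inv]
      exact 𝒪.mul_mem (hxs i) hs₀U.2.2
    have hUU : ∀ i, U 𝒪 (x i / x s₀) ↔ U 𝒪 (x i / x s) := by
      intro i
      constructor
      · intro hu
        have h1 : x i / x s = (x i / x s₀) * (x s₀ / x s) := by
          field_simp
        rw [h1]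
        exact hu.mul hs₀U
      · intro hu
        rw [hdiv]
        exact hu.div hs₀U
    obtain ⟨r', j', a', b', hRaw', ⟨Λ', hΛ', hXΛ'⟩, hPrt', hLoct'⟩ := chart_data s₀ hs0 hxs0
    set t : ι → F := fun i => algebraMap R F (r i) * (x i / x s) ^ e with ht
    set t' : ι → F := fun i => algebraMap R F (r' i) * (x i / x s₀) ^ e with ht'
    have htt : ∀ i, t' i * t s₀ = t i := by
      intro i
      have h1 : Λ' * t' i = Λ * t i := by rw [← hXΛ', ← hXΛ]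
      have h2 : Λ' = Λ * t s₀ := by
        have h3 := hXΛ' s₀
        have h4 : t' s₀ = 1 := hRaw'.hs
        change X s₀ = Λ' * t' s₀ at h3
        rw [h4, mul_one] at h3
        rw [← h3]
        exact hXΛ s₀
      rw [h2] at h1
      have h5 : Λ * (t' i * t s₀) = Λ * t i := by rw [← h1]; ring
      exact mul_left_cancel₀ hΛ h5
    have hts₀U : U 𝒪 (t s₀) := (U_unit 𝒪 hD.hR _ (hRaw.hr s₀)).mul (hs₀U.pow e)
    have hB : ∀ i, U 𝒪 (x i / x s₀) → ¬ U 𝒪 (t' i ^ (p - 1) - 1) := by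
      intro i hiU hu
      have h0 : U 𝒪 (t s₀ ^ (p - 1)) := hts₀U.pow _
      have h1 : (t' i ^ (p - 1) - 1) * t s₀ ^ (p - 1) =
          (t i ^ (p - 1) - 1) + -(t s₀ ^ (p - 1) - 1) := by
        rw [← htt i, mul_pow]
        ring
      have h2 := hu.mul h0
      rw [h1] at h2
      have hm : ∀ i, t i ^ (p - 1) - 1 ∈ 𝒪 := fun i =>
        𝒪.sub_mem (𝒪.pow_mem (hRaw.ht_mem i) _) 𝒪.one_mem
      rcases hD.loc _ _ (hm i) (𝒪.neg_mem (hm s₀)) h2 with h3 | h3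
      · exact hA i ((hUU i).1 hiU) h3
      · apply hA s₀ hs₀U
        refine ⟨neg_ne_zero.1 h3.1, hm s₀, ?_⟩
        have h4 := h3.2.2
        rw [inv_neg] at h4
        simpa using 𝒪.neg_mem h4
    have hC := ctx_of hRaw'
    set Z : Finset ι := Finset.univ.filter (fun i => ¬ U 𝒪 (x i / x s₀)) with hZdef
    have hZ : ∀ i, i ∈ Z ↔ ¬ U 𝒪 (x i / x s₀) := by
      intro i
      simp [hZdef]
    obtain ⟨d, hd, hdU⟩ := exists_d 𝒪 p e j' co r' g _ _ s₀ a' b' hRaw'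
    have hdZ : d ∉ Z := by rw [hZ, not_not]; exact hdU
    by_cases hjp : j' + 1 = p
    · refine plain hET hIND 𝒪 p e h j' co r' g _ _ s₀ a' b' hRaw' Z hZ hLoct' ?_ ?_
      · refine fac_prin hTI hDER _ 𝒪 p e h j' _ _ s₀ a' b' hC g _ (fun S hS => hS) ?_
        intro s' c β hc hmin B μ n hB
        left
        exact base_prin hT0 hTJ hTL _ 𝒪 p e j' _ _ s₀ a' b' hC hp2 s' c β (Or.inl (by omega))
          (fun _ _ _ => Or.inl (by omega)) (Or.inl (by omega)) B μ n hB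
      · intro 𝒪₁ l2 l4 l5 l6
        exact hCH1 𝒪₁ p e j' co r' g Z _ s₀ d a' b' l6 hd hdZ l5 (Or.inl hjp)
    · have hj2 : j' + 2 ≤ p := by
        have := hRaw'.hj
        omega
      obtain ⟨c, β, hc, hcB, hcZ0⟩ := caseB 𝒪 p e j' co r' g _ _ s₀ a' b' hRaw' hj2 hB
      have hcZ : ∀ i, i ∈ Z ↔ c i = 0 := fun i => (hZ i).trans (hcZ0 i)
      have hcmin : ∀ i, i < s₀ → c i = 0 := by
        intro i hi
        rw [← hcZ0, hUU]
        exact hmin₀ i hi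
      have hbm : b' ∈ 𝒪 := hRaw'.hb
      have hoth : ∀ s' c' β', SpZ p g s' c' β' → (∀ i, i < s' → c' i = 0) →
          (s' = s₀ ∧ c' = c ∧ β' = β) ∨ ∃ i, U 𝒪 (t' i - (c' i : F) * t' s') := by
        intro s' c' β' hc' hmin'
        by_cases hgood : ∃ i, U 𝒪 (t' i - (c' i : F) * t' s')
        · exact Or.inr hgood
        · push Not at hgood
          left
          obtain ⟨h1, h2⟩ := other 𝒪 p e j' co r' g _ _ s₀ a' b' hRaw' c hc.lt hc.one hcmin hcB s' c'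
            hc'.lt hc'.one hmin' hgood
          refine ⟨h1, h2, ?_⟩
          have h3 : (p : R) * β' = p * β := by rw [hc'.val, hc.val, h2]
          exact mul_left_cancel₀ hD.coef.ne h3
      by_cases hv : U 𝒪 (v0 p j' b' (algebraMap R F β))
      · refine plain hET hIND 𝒪 p e h j' co r' g _ _ s₀ a' b' hRaw' Z hZ hLoct' ?_ ?_
        · refine fac_prin hTI hDER _ 𝒪 p e h j' _ _ s₀ a' b' hC g _ (fun S hS => hS) ?_
          intro s' c' β' hc' hmin' B μ n hB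
          left
          rcases hoth s' c' β' hc' hmin' with ⟨rfl, rfl, rfl⟩ | h1
          · refine base_prin hT0 hTJ hTL _ 𝒪 p e j' _ _ _ a' b' hC hp2 _ _ _ ?_
              (fun j'' h1 h2 => ?_) ?_ B μ n hB
            · by_cases hj0 : j' = 0
              · right; left
                rw [v0, if_pos hj0] at hv
                rw [hRaw'.hs, mul_one]
                exact hv
              · left; omega
            · by_cases hjj : j'' = j'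
              · right; left
                rw [v0, if_neg (by omega)] at hv
                by_cases hjl : j' + 2 = p
                · rw [if_pos hjl] at hv
                  have h3 : b' + b' ^ 2 = b' * (1 + b') := by ring
                  rw [h3] at hv
                  exact hv.of_mul_left hbm (𝒪.add_mem 𝒪.one_mem hbm)
                · rw [if_neg hjl] at hv
                  exact hv
              · left; exact hjj
            · by_cases hjl : j' + 2 = p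
              · right; left
                rw [v0, if_neg (by omega), if_pos hjl] at hv
                have h3 : b' + b' ^ 2 = b' * (1 + b') := by ring
                rw [h3] at hv
                rw [hRaw'.hs, one_pow]
                exact hv.of_mul_right hbm (𝒪.add_mem 𝒪.one_mem hbm)
              · left; exact hjl
          · exact base_prin hT0 hTJ hTL _ 𝒪 p e j' _ _ s₀ a' b' hC hp2 s' c' β'
              (Or.inr (Or.inr h1)) (fun _ _ _ => Or.inr (Or.inr h1)) (Or.inr (Or.inr h1)) B μ n hB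
        · intro 𝒪₁ l2 l4 l5 l6
          refine hCH2 𝒪₁ p e j' co r' g Z _ s₀ d a' b' l6 hd hdZ c β hc hcZ hj2 l5 ?_ ?_
          · intro i hi hu
            rw [mix, if_neg hi] at hu
            exact hcB i ⟨hu.1, l2 _ hu.2.1, l2 _ hu.2.2⟩
          · refine l4 _ ?_ hv
            have hβ : algebraMap R F β ∈ 𝒪₁ := l6.hR β
            rw [v0]
            split_ifs
            · exact 𝒪₁.add_mem l6.hb hβ
            · exact 𝒪₁.add_mem l6.hb (𝒪₁.pow_mem l6.hb _)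
            · exact l6.hb
      · have hfin := exceptional hBLS1 hBLS2 hEN hEC hQS hPT1 hPT2 hPT3 hPT4 hTI hDER hS hET hIND
          hQC1 hQC2 hQC3 hQC4 hQC5 hQC6 𝒪 p e h j' co r' g _ _ s₀ d a' b' hRaw' hD.hh hD.heh Z hZ
          hd hdZ hLoct' hPrt' c β
        have hL0 : ∑ i, t' i ≠ 0 := by
          have h1 : ∑ i, t' i = a' * b' := hRaw'.hL
          rw [h1]
          exact mul_ne_zero hRaw'.ha0 hRaw'.hb0
        by_cases hj0 : j' = 0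
        · subst hj0
          rw [v0, if_pos rfl] at hv
          refine hfin β hc hcmin hcZ hcB (Or.inl ⟨rfl, rfl⟩) hv _ _ _ (Or.inl ⟨rfl, rfl, rfl⟩) hD.p0
            (hX0 _ 𝒪 p e _ _ s₀ d a' b' hC hd c hc.sum hc.one Z hcZ hdZ _
              (Subalgebra.algebraMap_mem _ β)) ?_
          intro s' c' β' hc' hmin' B μ n hB
          rcases hoth s' c' β' hc' hmin' with ⟨rfl, rfl, rfl⟩ | h1
          · rcases hB with ⟨h1, h2, h3⟩ | ⟨j'', h1, h2, h3, h4, h5⟩ | ⟨h1, h2, h3⟩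
            · exact Or.inr ⟨rfl, h1, h2, h3⟩
            · left
              rw [h3, h4]
              exact hTJ _ 𝒪 p e 0 _ _ _ a' b' hC _ _ j'' (Or.inl (by omega))
            · left
              rw [h1, h2]
              exact hTL _ 𝒪 p e 0 _ _ _ a' b' hC hp2 _ _ (Or.inl (by omega))
          · left
            exact base_prin hT0 hTJ hTL _ 𝒪 p e 0 _ _ s₀ a' b' hC hp2 s' c' β'
              (Or.inr (Or.inr h1)) (fun _ _ _ => Or.inr (Or.inr h1)) (Or.inr (Or.inr h1)) B μ n hB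
        · rw [v0, if_neg hj0] at hv
          by_cases hbU : U 𝒪 b'
          · have hjl : j' + 2 = p := by
              by_contra hcon
              rw [if_neg hcon] at hv
              exact hv hbU
            rw [if_pos hjl] at hv
            have h1b : ¬ U 𝒪 (b' + 1) := by
              intro hu
              apply hv
              have h3 : b' + b' ^ 2 = b' * (b' + 1) := by ring
              rw [h3]
              exact hbU.mul hu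
            refine hfin 1 hc hcmin hcZ hcB (Or.inr (Or.inr ⟨hjl, rfl⟩))
              (by rw [map_one]; exact h1b) _ _ _ (Or.inr (Or.inr ⟨rfl, rfl, rfl⟩)) hD.p0 ?_ ?_
            · rw [map_one]
              exact hXL _ 𝒪 p e j' _ _ s₀ d a' b' hC hd hjl hbU c hc.sum hc.one Z hcZ hdZ
            · intro s' c' β' hc' hmin' B μ n hB
              rcases hoth s' c' β' hc' hmin' with ⟨rfl, rfl, rfl⟩ | h1
              · rcases hB with ⟨h1, h2, h3⟩ | ⟨j'', h1, h2, h3, h4, h5⟩ | ⟨h1, h2, h3⟩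
                · left
                  rw [h1, h2]
                  exact hT0 _ 𝒪 p e j' _ _ _ a' b' hC _ _ _ (Subalgebra.algebraMap_mem _ _)
                    (Or.inl (by omega))
                · left
                  rw [h3, h4]
                  exact hTJ _ 𝒪 p e j' _ _ _ a' b' hC _ _ j'' (Or.inr (Or.inl hbU))
                · exact Or.inr ⟨rfl, h1, h2, h3⟩
              · left
                exact base_prin hT0 hTJ hTL _ 𝒪 p e j' _ _ s₀ a' b' hC hp2 s' c' β'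
                  (Or.inr (Or.inr h1)) (fun _ _ _ => Or.inr (Or.inr h1)) (Or.inr (Or.inr h1))
                  B μ n hB
          · refine hfin 0 hc hcmin hcZ hcB (Or.inr (Or.inl ⟨by omega, hj2, rfl⟩))
              (by rw [map_zero, add_zero]; exact hbU) _ _ _
              (Or.inr (Or.inl ⟨j', by omega, hj2, rfl, rfl, rfl⟩))
              (mul_ne_zero hD.p0 (pow_ne_zero _ hL0)) ?_ ?_
            · rw [map_zero, add_zero]
              exact hXJ _ 𝒪 p e j' _ _ s₀ d a' b' hC hd c hc.sum hc.one Z hcZ hdZ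
            · intro s' c' β' hc' hmin' B μ n hB
              rcases hoth s' c' β' hc' hmin' with ⟨rfl, rfl, rfl⟩ | h1
              · rcases hB with ⟨h1, h2, h3⟩ | ⟨j'', h1, h2, h3, h4, h5⟩ | ⟨h1, h2, h3⟩
                · left
                  rw [h1, h2]
                  exact hT0 _ 𝒪 p e j' _ _ _ a' b' hC _ _ _ (Subalgebra.algebraMap_mem _ _)
                    (Or.inl (by omega))
                · by_cases hjj : j'' = j'
                  · subst hjj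
                    exact Or.inr ⟨rfl, h3, h4, h5⟩
                  · left
                    rw [h3, h4]
                    exact hTJ _ 𝒪 p e j' _ _ _ a' b' hC _ _ j'' (Or.inl hjj)
                · left
                  rw [h1, h2]
                  refine hTL _ 𝒪 p e j' _ _ _ a' b' hC hp2 _ _ (Or.inr (Or.inl ?_))
                  rw [hRaw'.hs, one_pow]
                  exact U_add hD.loc U_one hbm hbU
              · left
                exact base_prin hT0 hTJ hTL _ 𝒪 p e j' _ _ s₀ a' b' hC hp2 s' c' β'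
                  (Or.inr (Or.inr h1)) (fun _ _ _ => Or.inr (Or.inr h1)) (Or.inr (Or.inr h1))
                  B μ n hB

end Pool.Agent.H945R2.S
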