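import Pool.Agent.H945R2.S.Props

/-! QC1: chart 1 of the resolution. -/

set_option autoImplicit false

open scoped Pointwise

namespace Pool.Agent.H945R2.S

open Pool.Agent.H918R2.Quad Pool.Agent.H945R2.D MvPolynomial

namespace QC1aux

theorem TotZ_map {R B B' ι : Type} [CommRing R] [CommRing B] [Algebra R B] [CommRing B']
    [Algebra R B'] [Fintype ι] [DecidableEq ι] (f : B →ₐ[R] B') (p j : ℕ)
    (g : MvPolynomial ι R) (c : ι → ℕ) (Z : Finset ι) (s d : ι) (a b : B) (v : TT Z s d → B)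
    (w : ZT Z → B) :
    f (TotZ p j g c Z s d a b v w) =
      TotZ p j g c Z s d (f a) (f b) (fun k => f (v k)) (fun z => f (w z)) := by
  unfold TotZ
  rw [map_add, map_mul, map_pow, map_pow]
  congr 1
  have h1 : f (aeval (TcZ Z s d (fun i => (c i : B)) v w (a * b)) g) =
    (f.comp (aeval (TcZ Z s d (fun i => (c i : B)) v w (a * b)))) g := rfl
  rw [h1]
  congr 1
  apply MvPolynomial.algHom_ext
  intro i
  rw [AlgHom.comp_apply, aeval_X, aeval_X]
  unfold TcZ
  split_ifs
  · rfl
  · simp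
  · simp
  · simp

/-- The place of the coordinate `m` among the variables. -/
def nu {κ ζ : Type} [DecidableEq κ] (l : κ) (m : κ) : Option ({m : κ // m ≠ l} ⊕ ζ) :=
  if h : m = l then none else some (Sum.inl ⟨m, h⟩)

theorem nu_inj {κ ζ : Type} [DecidableEq κ] (l : κ) :
    Function.Injective (nu (ζ := ζ) l) := by
  intro m m' h
  unfold nu at h
  split_ifs at h with h1 h2 h2
  · rw [h1, h2]
  · simpa using h

theorem nu_some {κ ζ : Type} [DecidableEq κ] (l : κ) (k : κ) (i : {m : κ // m ≠ l} ⊕ ζ)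
    (h : nu l k = some i) : ∃ m, i = Sum.inl m := by
  unfold nu at h
  split_ifs at h with h1
  exact ⟨⟨k, h1⟩, (Option.some.inj h).symm⟩

/-- The point of chart 1. -/
def pt {F κ ζ : Type} [Field F] (q : κ → F) (η : ζ → F) (l : κ) :
    Option ({m : κ // m ≠ l} ⊕ ζ) → F :=
  fun o => o.elim (q l) (fun i => Sum.elim (fun m => q m.1 / q l) (fun z => η z / q l) i)

theorem eval_Yv {R F κ ζ : Type} [CommRing R] [DecidableEq κ] [Field F] [Algebra R F]
    (q : κ → F) (η : ζ → F) (l : κ) (h0 : q l ≠ 0) (m : κ) :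
    aeval (pt q η l) (Yv (R := R) (nu (ζ := ζ) l) m) = q m / q l := by
  unfold Yv nu
  split_ifs with h
  · rw [h, div_self h0]; simp
  · simp [pt]

end QC1aux

open QC1aux

theorem QC1_ok (hP : S_QPRE) (hF : S_QTF) (hX : S_QEX) (hB : S_BLRW) : S_QC1 := by
  intro R F ι _ _ _ _ _ _ _ 𝒪 p e h j co r g Z y s d a b c β b₀ hD q η hq hη l hC hlocOf
  obtain ⟨hq0, hqp, hqT⟩ := hF 𝒪 p e h j co r g Z y s d a b c β b₀ hD q hq
  obtain ⟨Q, hQ, hQE⟩ := hX p co g hD.data.coef s c β hD.spec Z hD.hZ d hD.hd hD.hdZ j b₀ hD.kind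
  have he2 := hD.data.he
  let κ : Type := KT Z s d
  let σ : Type := {m : κ // m ≠ l} ⊕ ZT Z
  let W : Type := MvPolynomial (Option σ) R
  let ν : κ → Option σ := nu l
  let ε : W := X none
  let Yq : κ → W := fun m => ε * Yv ν m
  let Yy : ZT Z → W := fun z => ε * X (some (Sum.inr z))
  let eW : W →ₐ[R] F := aeval (pt q η l)
  have hνl : ν l = none := by
    show nu l l = none
    unfold nu; rw [dif_pos rfl]
  have hYvl : (Yv ν l : W) = 1 := by
    unfold Yv; rw [hνl]; rfl
  have heε : eW ε = q l := by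
    show aeval (pt q η l) (X none) = q l
    rw [aeval_X]; rfl
  have heYv : ∀ m, eW (Yv ν m) = q m / q l := fun m => eval_Yv q η l hC.ql m
  have heYq : ∀ m, eW (Yq m) = q m := by
    intro m
    show eW (ε * Yv ν m) = q m
    rw [map_mul, heε, heYv, mul_div_cancel₀ _ hC.ql]
  have heXz : ∀ z : ZT Z, eW (X (some (Sum.inr z))) = η z / q l := by
    intro z
    show aeval (pt q η l) (X (some (Sum.inr z))) = _
    rw [aeval_X]; rfl
  have heYy : ∀ z : ZT Z, eW (Yy z) = η z := by
    intro z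
    show eW (ε * X (some (Sum.inr z))) = _
    rw [map_mul, heε, heXz, mul_div_cancel₀ _ hC.ql]
  let wW : ZT Z → W := fun z => algebraMap R W (r z) * Yy z ^ e
  let Tot : W := TotZ p j g c Z s d (Yq none) (Yq (some none) - algebraMap R W b₀)
    (fun k => Yq (some (some k))) wW
  have heTot : eW Tot = 0 := by
    have h1 := TotZ_map eW p j g c Z s d (Yq none) (Yq (some none) - algebraMap R W b₀)
      (fun k => Yq (some (some k))) wW
    have h2 : eW (Yq (some none) - algebraMap R W b₀) = q (some none) - algebraMap R F b₀ := by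
      rw [map_sub, heYq, AlgHom.commutes]
    have h3 : (fun k => eW (Yq (some (some k)))) = fun k => q (some (some k)) :=
      funext fun k => heYq _
    have h4 : (fun z => eW (wW z)) = fun z : ZT Z => algebraMap R F (r z) * y z ^ e := by
      funext z
      show eW (algebraMap R W (r z) * Yy z ^ e) = _
      rw [map_mul, AlgHom.commutes, map_pow, heYy, hη]
    show eW (TotZ p j g c Z s d (Yq none) (Yq (some none) - algebraMap R W b₀)
      (fun k => Yq (some (some k))) wW) = 0
    rw [h1, h2, h3, h4, heYq]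
    exact hqT
  -- the first relation
  let hh : W := Yv ν none * (Yq none ^ j * (Yq (some none) - algebraMap R W b₀) ^ j)
  let R1 : W := C (p : R) - X none * hh
  have hR1 : R1 = (p : W) - Yq none ^ (j + 1) * (Yq (some none) - algebraMap R W b₀) ^ j := by
    show C (p : R) - X none * (Yv ν none * (Yq none ^ j * (Yq (some none) - algebraMap R W b₀) ^ j))
      = _
    rw [map_natCast]
    have : Yq none ^ (j + 1) = X none * Yv ν none * Yq none ^ j := by
      rw [pow_succ, mul_comm]
    rw [this]; ring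
  have heR1 : eW R1 = 0 := by
    rw [hR1, map_sub, map_natCast, map_mul, map_pow, map_pow, map_sub, heYq, heYq,
      AlgHom.commutes, ← hqp, sub_self]
  -- the quotient by the first relation
  obtain ⟨B, iB1, iB2, mk, hmks, hmkk, hmk⟩ := exists_quot (R := R) (Ideal.span {R1} : Ideal W)
  have hmkR1 : (p : B) = mk (Yq none) ^ (j + 1) *
      (mk (Yq (some none)) - algebraMap R B b₀) ^ j := by
    have h1 : mk R1 = 0 := (hmk R1).2 (Ideal.subset_span rfl)
    rw [hR1, map_sub, map_natCast, map_mul, map_pow, map_pow, map_sub, AlgHom.commutes] at h1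
    exact sub_eq_zero.1 h1
  have hexp := hQE (B := B) (fun k => mk (Yq k)) (fun z => mk (wW z)) hmkR1
  have hmTot : mk Tot = TotZ p j g c Z s d (mk (Yq none)) (mk (Yq (some none)) - algebraMap R B b₀)
      (fun k => mk (Yq (some (some k)))) (fun z => mk (wW z)) := by
    have h1 := TotZ_map mk p j g c Z s d (Yq none) (Yq (some none) - algebraMap R W b₀)
      (fun k => Yq (some (some k))) wW
    rw [map_sub, AlgHom.commutes] at h1
    exact h1
  have hmem : mk Tot - (∑ k, ∑ k', algebraMap R B (Q k k') * mk (Yq k) * mk (Yq k') -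
      ∑ z, mk (wW z)) ∈ Ideal.span {mk ε ^ 3} := by
    rw [hmTot]
    refine (show _ ≤ Ideal.span {mk ε ^ 3} from ?_) hexp
    have h1 : Ideal.span (Set.range (fun k => mk (Yq k))) ≤ Ideal.span {mk ε} := by
      rw [Ideal.span_le]
      rintro x ⟨k, rfl⟩
      exact Ideal.mem_span_singleton'.2 ⟨mk (Yv ν k), by
        show mk (Yv ν k) * mk ε = mk (ε * Yv ν k)
        rw [map_mul, mul_comm]⟩
    have h2 : Ideal.span (Set.range (fun z => mk (wW z))) ≤ Ideal.span {mk ε ^ 2} := by
      rw [Ideal.span_le]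
      rintro x ⟨z, rfl⟩
      refine Ideal.mem_span_singleton'.2 ⟨mk (algebraMap R W (r z) *
        (ε ^ (e - 2) * X (some (Sum.inr z)) ^ e)), ?_⟩
      show mk (algebraMap R W (r z) * (ε ^ (e - 2) * X (some (Sum.inr z)) ^ e)) * mk ε ^ 2 =
        mk (algebraMap R W (r z) * (ε * X (some (Sum.inr z))) ^ e)
      rw [← map_pow, ← map_mul]
      congr 1
      rw [mul_pow]
      have : ε ^ e = ε ^ (e - 2) * ε ^ 2 := by rw [← pow_add]; congr 1; omega
      rw [this]; ring
    refine sup_le (sup_le ?_ ?_) ?_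
    · refine (Ideal.pow_right_mono h1 3).trans ?_
      rw [Ideal.span_singleton_pow]
    · refine (Ideal.mul_mono h1 h2).trans ?_
      rw [Ideal.span_singleton_mul_span_singleton]
      apply Ideal.span_singleton_le_span_singleton.2
      exact ⟨1, by ring⟩
    · refine (Ideal.pow_right_mono h2 2).trans ?_
      rw [Ideal.span_singleton_pow]
      apply Ideal.span_singleton_le_span_singleton.2
      exact ⟨mk ε, by ring⟩
  obtain ⟨hBB, hhB⟩ := Ideal.mem_span_singleton'.1 hmem
  obtain ⟨h', hh'⟩ := hmks hBB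
  let G0 : W := ∑ z : ZT Z, C (r z) * X (some (Sum.inr z)) ^ e
  let G : W := X none * h' - X none ^ (e - 2) * G0
  let E : W := ∑ k, ∑ l, C (Q k l) * Yv ν k * Yv ν l + G
  have hsumw : ∑ z, wW z = ε ^ 2 * (ε ^ (e - 2) * G0) := by
    show ∑ z : ZT Z, algebraMap R W (r z) * (ε * X (some (Sum.inr z))) ^ e = ε ^ 2 * (ε ^ (e - 2) *
      ∑ z : ZT Z, (C (r z) : W) * X (some (Sum.inr z)) ^ e)
    rw [← mul_assoc, Finset.mul_sum]
    apply Finset.sum_congr rfl
    intro z _
    rw [mul_pow]
    have : ε ^ e = ε ^ 2 * ε ^ (e - 2) := by rw [← pow_add]; congr 1; omega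
    rw [this, MvPolynomial.algebraMap_eq]; ring
  have hsumq : ∑ k, ∑ k', algebraMap R W (Q k k') * Yq k * Yq k' =
      ε ^ 2 * ∑ k, ∑ k', C (Q k k') * Yv ν k * Yv ν k' := by
    rw [Finset.mul_sum]
    apply Finset.sum_congr rfl
    intro k _
    rw [Finset.mul_sum]
    apply Finset.sum_congr rfl
    intro k' _
    show algebraMap R W (Q k k') * (ε * Yv ν k) * (ε * Yv ν k') = _
    rw [MvPolynomial.algebraMap_eq]; ring
  have hmE : mk (Tot - ε ^ 2 * E) = 0 := by
    have h1 : ε ^ 2 * E = (∑ k, ∑ k', algebraMap R W (Q k k') * Yq k * Yq k' - ∑ z, wW z) +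
        h' * ε ^ 3 := by
      rw [hsumq, hsumw]
      show ε ^ 2 * (∑ k, ∑ l, C (Q k l) * Yv ν k * Yv ν l + (ε * h' - ε ^ (e - 2) * G0)) = _
      ring
    have h2 : mk (∑ k, ∑ k', algebraMap R W (Q k k') * Yq k * Yq k' - ∑ z, wW z) =
        (∑ k, ∑ k', algebraMap R B (Q k k') * mk (Yq k) * mk (Yq k') - ∑ z, mk (wW z)) := by
      rw [map_sub, map_sum, map_sum]
      congr 1
      apply Finset.sum_congr rfl
      intro k _
      rw [map_sum]
      apply Finset.sum_congr rfl
      intro k' _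
      rw [map_mul, map_mul, AlgHom.commutes]
    rw [h1, map_sub, map_add, h2, map_mul, map_pow, hh', hhB]
    ring
  obtain ⟨ρ, hρ⟩ := Ideal.mem_span_singleton'.1 ((hmk _).1 hmE)
  have hE0 : eW E = 0 := by
    have h1 : eW (ε ^ 2 * E) = 0 := by
      have h2 : ε ^ 2 * E = Tot - ρ * R1 := by
        rw [hρ]; ring
      rw [h2, map_sub, map_mul, heR1, mul_zero, sub_zero, heTot]
    rw [map_mul, map_pow, heε] at h1
    exact (mul_eq_zero.1 h1).resolve_left (pow_ne_zero 2 hC.ql)
  obtain ⟨A, iA1, iA2, pr, hprs, hprk, hpr⟩ := exists_quot (R := R) (Ideal.span {R1, E} : Ideal W)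
  have hprR1 : pr R1 = 0 := (hpr R1).2 (Ideal.subset_span (by simp))
  have hprE : pr E = 0 := (hpr E).2 (Ideal.subset_span (by simp))
  have hker : ∀ w, pr w = 0 → eW w = 0 := by
    intro w hw
    have h1 := (hpr w).1 hw
    obtain ⟨x, y, hxy⟩ := Ideal.mem_span_pair.1 h1
    rw [← hxy, map_add, map_mul, map_mul, heR1, hE0]
    simp
  -- the range
  have hrange : Algebra.adjoin R (G1 q η l) = eW.range := by
    show _ = (aeval (pt q η l)).range
    rw [← Algebra.adjoin_range_eq_range_aeval]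
    apply le_antisymm
    · apply Algebra.adjoin_le
      rintro x ((hx | ⟨k, rfl⟩) | ⟨z, rfl⟩)
      · rw [Set.mem_singleton_iff] at hx
        rw [hx]
        exact Algebra.subset_adjoin ⟨none, rfl⟩
      · by_cases hk : k = l
        · show q k / q l ∈ _
          rw [hk, div_self hC.ql]
          exact one_mem _
        · exact Algebra.subset_adjoin ⟨some (Sum.inl ⟨k, hk⟩), rfl⟩
      · exact Algebra.subset_adjoin ⟨some (Sum.inr z), rfl⟩
    · apply Algebra.adjoin_mono
      rintro x ⟨o, rfl⟩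
      rcases o with _ | (k | z)
      · exact Or.inl (Or.inl rfl)
      · exact Or.inl (Or.inr ⟨k.1, rfl⟩)
      · exact Or.inr ⟨z, rfl⟩
  have hlocOf' : IsLocOf 𝒪 (eW.range : Set F) := by
    rw [← hrange]; exact hlocOf
  have hW : ∀ w, eW w ∈ 𝒪 := fun w => hlocOf'.1 _ ⟨w, rfl⟩
  have hprp : pr (p : W) = pr (Yq none ^ (j + 1) * (Yq (some none) - algebraMap R W b₀) ^ j) := by
    rw [hR1, map_sub] at hprR1
    exact sub_eq_zero.1 hprR1
  have hprTot : pr Tot = 0 := by
    have h2 : Tot = ε ^ 2 * E + ρ * R1 := by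
      rw [hρ]; ring
    rw [h2, map_add, map_mul, map_mul, hprE, hprR1]
    simp
  refine hP 𝒪 p e h j co r g Z y s d a b c β b₀ hD pr hprs eW hker hW hlocOf' Yq Yy ?_ ?_
    hprp hprTot ?_ ?_
  · intro m
    rw [heYq, hq]
  · intro z
    rw [heYy, hη]
  · intro P hPr hPS hPa hPm hPe hPd w
    have hPε : P ε := by
      have h1 := hPS (Yq l) (Or.inl ⟨l, rfl⟩)
      have h2 : Yq l = ε := by
        show ε * Yv ν l = ε
        rw [hYvl, mul_one]
      rwa [h2] at h1
    have heε0 : eW ε ≠ 0 := by rw [heε]; exact hC.ql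
    have hPv : ∀ m, P (Yv ν m) := fun m => hPd ε (Yv ν m) heε0 hPε (hPS _ (Or.inl ⟨m, rfl⟩))
    have hPz : ∀ z : ZT Z, P (X (some (Sum.inr z))) := fun z =>
      hPd ε _ heε0 hPε (hPS _ (Or.inr ⟨z, rfl⟩))
    have hPX : ∀ o, P (X o) := by
      intro o
      rcases o with _ | (k | z)
      · exact hPε
      · have h1 := hPv k.1
        have h2 : (Yv ν k.1 : W) = X (some (Sum.inl k)) := by
          show (Yv (nu l) k.1 : W) = _
          unfold Yv nu
          rw [dif_neg k.2]
          rfl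
        rwa [h2] at h1
      · exact hPz z
    induction w using MvPolynomial.induction_on with
    | C r => exact hPr r
    | add p q hp hq => exact hPa _ _ hp hq
    | mul_X p n hp => exact hPm _ _ hp (hPX n)
  · intro 𝔮 _ h𝔮
    have h1 : pr (X none) ∈ 𝔮 := by
      rw [h𝔮]
      show ¬ U 𝒪 (eW ε)
      rw [heε, hq]; exact (hD.hq l).2
    have hz : ∀ z : ZT Z, pr (X (some (Sum.inr z))) ∈ 𝔮 := by
      intro z
      rw [h𝔮, heXz]
      exact hC.hyU z
    have hG0 : pr G0 ∈ 𝔮 := by
      show pr (∑ z : ZT Z, (C (r z) : W) * X (some (Sum.inr z)) ^ e) ∈ 𝔮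
      rw [map_sum]
      apply Ideal.sum_mem
      intro z _
      rw [map_mul, map_pow]
      exact Ideal.mul_mem_left _ _ (Ideal.pow_mem_of_mem _ (hz z) e (by omega))
    refine hB (p : R) hD.data.irr Q hQ ν (nu_inj l) (pr : W →+* A) hprs hh G hprk 𝔮 h1 ?_ ?_
      ⟨l, ?_⟩
    · show pr (X none * h' - X none ^ (e - 2) * G0) ∈ 𝔮
      rw [map_sub, map_mul, map_mul]
      exact 𝔮.sub_mem (Ideal.mul_mem_right _ _ h1) (Ideal.mul_mem_left _ _ hG0)
    · intro k i hki
      obtain ⟨m, rfl⟩ := nu_some l k i hki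
      have hd1 : pderiv (some (Sum.inl m)) (X none : W) = 0 := pderiv_X_of_ne (by simp)
      have hd2 : pderiv (some (Sum.inl m)) G0 = 0 := by
        show pderiv (some (Sum.inl m)) (∑ z : ZT Z, (C (r z) : W) * X (some (Sum.inr z)) ^ e) = 0
        rw [map_sum]
        apply Finset.sum_eq_zero
        intro z _
        have h3 : pderiv (some (Sum.inl m)) (X (some (Sum.inr z)) : W) = 0 :=
          pderiv_X_of_ne (by simp)
        rw [pderiv_C_mul, pderiv_pow, h3]
        simp
      have hd : pderiv (some (Sum.inl m)) G = X none * pderiv (some (Sum.inl m)) h' := by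
        show pderiv (some (Sum.inl m)) (X none * h' - X none ^ (e - 2) * G0) = _
        rw [map_sub, pderiv_mul, pderiv_mul, pderiv_pow, hd1, hd2]
        simp
      show pr (pderiv (some (Sum.inl m)) G) ∈ 𝔮
      rw [hd, map_mul]
      exact Ideal.mul_mem_right _ _ h1
    · show pr (Yv ν l) ∉ 𝔮
      rw [hYvl, map_one]
      exact fun h => (inferInstance : 𝔮.IsPrime).ne_top ((Ideal.eq_top_iff_one _).2 h)

end Pool.Agent.H945R2.S
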