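import Pool.Agent.H945R2.S.Props

/-! QC4: chart 4 of the resolution. -/

set_option autoImplicit false

open scoped Pointwise

namespace Pool.Agent.H945R2.S

open Pool.Agent.H918R2.Quad Pool.Agent.H945R2.D MvPolynomial

namespace QC4aux

theorem TotZ_map {R B B' ι : Type} [CommRing R] [CommRing B] [Algebra R B] [CommRing B']
    [Algebra R B'] [Fintype ι] [DecidableEq ι] (f : B →ₐ[R] B') (p j : ℕ)
    (g : MvPolynomial ι R) (c : ι → ℕ) (Z : Finset ι) (s d : ι) (a b : B) (v : TT Z s d → B)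
    (w : ZT Z → B) :
    f (TotZ p j g c Z s d a b v w) =
      TotZ p j g c Z s d (f a) (f b) (fun k => f (v k)) (fun z => f (w z)) := by
  unfold TotZ
  rw [map_add, map_mul, map_pow, map_pow]
  congr 1
  have h1 : f (aeval (TcZ Z s d (fun i => (c i : B)) v w (a * b)) g) =
    (f.comp (aeval (TcZ Z s d (fun i => (c i : B)) v w (a * b)))) g := rfl
  rw [h1]
  congr 1
  apply MvPolynomial.algHom_ext
  intro i
  rw [AlgHom.comp_apply, aeval_X, aeval_X]
  unfold TcZ
  split_ifs
  · rfl
  · simp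
  · simp
  · simp

/-- The place of the coordinate `m` among the variables. -/
def nu {κ ζ : Type} [DecidableEq κ] (l : κ) (m : κ) : Option ({m : κ // m ≠ l} ⊕ ζ) :=
  if h : m = l then none else some (Sum.inl ⟨m, h⟩)

theorem nu_inj {κ ζ : Type} [DecidableEq κ] (l : κ) :
    Function.Injective (nu (ζ := ζ) l) := by
  intro m m' h
  unfold nu at h
  split_ifs at h with h1 h2 h2
  · rw [h1, h2]
  · simpa using h

theorem nu_some {κ ζ : Type} [DecidableEq κ] (l : κ) (k : κ) (i : {m : κ // m ≠ l} ⊕ ζ)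
    (h : nu l k = some i) : ∃ m, i = Sum.inl m := by
  unfold nu at h
  split_ifs at h with h1
  exact ⟨⟨k, h1⟩, (Option.some.inj h).symm⟩

/-- The point of chart 4. -/
def pt {F κ ζ ζ' : Type} [Field F] (q : κ → F) (η : ζ → F) (z₀ : ζ) (i : ζ' → ζ) (l : κ) :
    Option ({m : κ // m ≠ l} ⊕ ζ') → F :=
  fun o => o.elim (q l) (fun k => Sum.elim (fun m => q m.1 / q l) (fun z => η (i z) / η z₀) k)

theorem eval_Yv {R F κ ζ ζ' : Type} [CommRing R] [DecidableEq κ] [Field F] [Algebra R F]
    (q : κ → F) (η : ζ → F) (z₀ : ζ) (i : ζ' → ζ) (l : κ) (h0 : q l ≠ 0) (m : κ) :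
    aeval (pt q η z₀ i l) (Yv (R := R) (nu (ζ := ζ') l) m) = q m / q l := by
  unfold Yv nu
  split_ifs with h
  · rw [h, div_self h0]; simp
  · simp [pt]

/-- The quadratic form with the additional hyperbolic plane. -/
def Qs {R κ : Type} [CommRing R] (Q : κ → κ → R) :
    Option (Option κ) → Option (Option κ) → R
  | some (some m), some (some m') => Q m m'
  | none, some none => -1
  | _, _ => 0

theorem sum_oo {κ C : Type} [CommRing C] [Fintype κ] (F : Option (Option κ) → C) :
    ∑ k, F k = F none + (F (some none) + ∑ m, F (some (some m))) := by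
  rw [Fintype.sum_option, Fintype.sum_option]

section Qs

variable {R κ : Type} [CommRing R] (Q : κ → κ → R)

theorem Qs_nn : Qs Q none none = 0 := rfl
theorem Qs_ns : Qs Q none (some none) = -1 := rfl
theorem Qs_nm (m : κ) : Qs Q none (some (some m)) = 0 := rfl
theorem Qs_sn : Qs Q (some none) none = 0 := rfl
theorem Qs_ss : Qs Q (some none) (some none) = 0 := rfl
theorem Qs_sm (m : κ) : Qs Q (some none) (some (some m)) = 0 := rfl
theorem Qs_mn (m : κ) : Qs Q (some (some m)) none = 0 := rfl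
theorem Qs_ms (m : κ) : Qs Q (some (some m)) (some none) = 0 := rfl
theorem Qs_mm (m m' : κ) : Qs Q (some (some m)) (some (some m')) = Q m m' := rfl

end Qs

theorem sum_Qs {R κ C : Type} [CommRing R] [CommRing C] [Fintype κ] (f : R →+* C)
    (Q : κ → κ → R) (v : Option (Option κ) → C) :
    ∑ k, ∑ l, f (Qs Q k l) * v k * v l =
      ∑ m, ∑ m', f (Q m m') * v (some (some m)) * v (some (some m')) -
        v none * v (some none) := by
  rw [sum_oo]
  simp only [sum_oo, Qs_nn, Qs_ns, Qs_nm, Qs_sn, Qs_ss, Qs_sm, Qs_mn, Qs_ms, Qs_mm, map_zero,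
    map_neg, map_one, zero_mul, Finset.sum_const_zero, zero_add, add_zero]
  ring

theorem Qs_rad {R κ : Type} [CommRing R] [Fintype κ] (π : R) (Q : κ → κ → R) (hQ : RadI π Q) :
    RadI π (Qs Q) := by
  intro C _ f 𝔔 _ hπ v hv hd
  have h1 : v (some none) ∈ 𝔔 := by
    have := hd none
    rw [sum_oo] at this
    simp only [Qs_nn, Qs_ns, Qs_nm, Qs_sn, Qs_mn, add_zero, map_zero,
      zero_mul, Finset.sum_const_zero, zero_add, map_neg, map_one] at this
    have h2 := 𝔔.neg_mem this
    simpa using h2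
  have h2 : v none ∈ 𝔔 := by
    have := hd (some none)
    rw [sum_oo] at this
    simp only [Qs_ns, Qs_sn, Qs_ss, Qs_sm, Qs_ms, add_zero, map_zero,
      zero_mul, Finset.sum_const_zero, map_neg, map_one] at this
    have h2 := 𝔔.neg_mem this
    simpa using h2
  have h3 : ∀ m, v (some (some m)) ∈ 𝔔 := by
    refine hQ C f 𝔔 hπ (fun m => v (some (some m))) ?_ ?_
    · have h4 := sum_Qs f Q v
      rw [h4] at hv
      have h5 := 𝔔.add_mem hv (𝔔.mul_mem_left (v none) h1)
      simpa using h5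
    · intro m
      have := hd (some (some m))
      rw [sum_oo] at this
      simp only [Qs_nm, Qs_sm, Qs_mn, Qs_ms, Qs_mm, add_zero, map_zero, zero_mul,
        zero_add] at this
      exact this
  intro k
  match k with
  | none => exact h2
  | some none => exact h1
  | some (some m) => exact h3 m

/-- the remainder of the expansion -/
theorem rem_mem {B κ ζ : Type} [CommRing B] (ε y₀ : B) (x : κ → B) (Y : κ → B) (w : ζ → B) (h : ℕ)
    (hh : 1 ≤ h) (hY : ∀ m, Y m = (ε * y₀) ^ h * (ε * x m)) (H : ζ → B)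
    (hw : ∀ z, w z = (ε * y₀) ^ (2 * h + 1) * H z) :
    Ideal.span (Set.range Y) ^ 3 ⊔ Ideal.span (Set.range Y) * Ideal.span (Set.range w) ⊔
      Ideal.span (Set.range w) ^ 2 ≤ Ideal.span {(ε * y₀) ^ (2 * h) * ε ^ 3} := by
  obtain ⟨h', rfl⟩ : ∃ h', h = h' + 1 := ⟨h - 1, by omega⟩
  have hu : Ideal.span (Set.range Y) ≤ Ideal.span {(ε * y₀) ^ (h' + 1) * ε} := by
    rw [Ideal.span_le]
    rintro _ ⟨m, rfl⟩
    rw [SetLike.mem_coe, hY, ← mul_assoc]
    exact Ideal.mul_mem_right _ _ (Ideal.mem_span_singleton_self _)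
  have ht : Ideal.span (Set.range w) ≤ Ideal.span {(ε * y₀) ^ (2 * (h' + 1) + 1)} := by
    rw [Ideal.span_le]
    rintro _ ⟨z, rfl⟩
    rw [SetLike.mem_coe, hw]
    exact Ideal.mul_mem_right _ _ (Ideal.mem_span_singleton_self _)
  refine sup_le (sup_le ?_ ?_) ?_
  · refine (Ideal.pow_right_mono hu 3).trans ?_
    rw [Ideal.span_singleton_pow, Ideal.span_singleton_le_span_singleton]
    exact ⟨(ε * y₀) ^ (h' + 1), by ring⟩
  · refine (Ideal.mul_mono hu ht).trans ?_
    rw [Ideal.span_singleton_mul_span_singleton, Ideal.span_singleton_le_span_singleton]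
    exact ⟨(ε * y₀) ^ h' * y₀ ^ 2, by ring⟩
  · refine (Ideal.pow_right_mono ht 2).trans ?_
    rw [Ideal.span_singleton_pow, Ideal.span_singleton_le_span_singleton]
    exact ⟨(ε * y₀) ^ (2 * h' + 1) * y₀ ^ 3, by ring⟩

end QC4aux

open QC4aux

theorem QC4_ok (hP : S_QPRE) (hF : S_QTF) (hX : S_QEX) (hB : S_BL4) : S_QC4 := by
  intro R F ι _ _ _ _ _ _ _ 𝒪 p e h j co r g Z y s d a b c β b₀ hD q η hq hη f hf z₀ k₁ he hC hnU
    hk0 hk1 hlocOf
  obtain ⟨hq0, hqp, hqT⟩ := hF 𝒪 p e h j co r g Z y s d a b c β b₀ hD q hq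
  obtain ⟨Q, hQ, hQE⟩ := hX p co g hD.data.coef s c β hD.spec Z hD.hZ d hD.hd hD.hdZ j b₀ hD.kind
  have hτ0 : η z₀ ≠ 0 := hC.yz
  let κ : Type := Option (Option (KT Z s d))
  let ζ' : Type := {z : ZT Z // z ≠ z₀}
  let σ : Type := {m : κ // m ≠ k₁} ⊕ ζ'
  let W : Type := MvPolynomial (Option σ) R
  let qs : κ → F := zst q η f h e z₀
  let ν : κ → Option σ := nu k₁
  let ε : W := X none
  let τ : W := ε * Yv ν none
  let H : ZT Z → W := fun z => if hz : z = z₀ then 1 else X (some (Sum.inr ⟨z, hz⟩))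
  let Yq : KT Z s d → W := fun m => τ ^ h * (ε * Yv ν (some (some m)))
  let Yy : ZT Z → W := fun z => τ * H z
  let eW : W →ₐ[R] F := aeval (pt qs η z₀ (fun z : ζ' => z.1) k₁)
  have hνl : ν k₁ = none := by
    show nu k₁ k₁ = none
    unfold nu; rw [dif_pos rfl]
  have hYvl : (Yv ν k₁ : W) = 1 := by
    unfold Yv; rw [hνl]; rfl
  have heε : eW ε = qs k₁ := by
    show aeval (pt qs η z₀ (fun z : ζ' => z.1) k₁) (X none) = qs k₁
    rw [aeval_X]; rfl
  have heYv : ∀ m, eW (Yv ν m) = qs m / qs k₁ := fun m => eval_Yv qs η z₀ _ k₁ hk0 m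
  have heεY : ∀ m, eW (ε * Yv ν m) = qs m := by
    intro m
    rw [map_mul, heε, heYv, mul_div_cancel₀ _ hk0]
  have heτ : eW τ = η z₀ := heεY none
  have heH : ∀ z, eW (H z) = η z / η z₀ := by
    intro z
    show aeval (pt qs η z₀ (fun z : ζ' => z.1) k₁)
      (if hz : z = z₀ then 1 else X (some (Sum.inr ⟨z, hz⟩))) = _
    split_ifs with hz
    · rw [map_one, hz, div_self hτ0]
    · rw [aeval_X]; rfl
  have hHz0 : H z₀ = 1 := by
    show (if hz : z₀ = z₀ then 1 else X (some (Sum.inr ⟨z₀, hz⟩))) = (1 : W)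
    rw [dif_pos rfl]
  have hHz : ∀ z : ζ', H z.1 = X (some (Sum.inr z)) := by
    intro z
    show (if hz : z.1 = z₀ then (1 : W) else X (some (Sum.inr (⟨z.1, hz⟩ : ζ')))) =
      X (some (Sum.inr z))
    rw [dif_neg z.2]
  have heYq : ∀ m, eW (Yq m) = q m := by
    intro m
    show eW (τ ^ h * (ε * Yv ν (some (some m)))) = q m
    rw [map_mul, map_pow, heτ, heεY]
    show η z₀ ^ h * (q m / η z₀ ^ h) = q m
    rw [mul_div_cancel₀ _ (pow_ne_zero _ hτ0)]
  have heYy : ∀ z : ZT Z, eW (Yy z) = η z := by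
    intro z
    show eW (τ * H z) = _
    rw [map_mul, heτ, heH, mul_div_cancel₀ _ hτ0]
  let wW : ZT Z → W := fun z => algebraMap R W (r z) * Yy z ^ e
  let Tot : W := TotZ p j g c Z s d (Yq none) (Yq (some none) - algebraMap R W b₀)
    (fun k => Yq (some (some k))) wW
  have heTot : eW Tot = 0 := by
    have h1 := TotZ_map eW p j g c Z s d (Yq none) (Yq (some none) - algebraMap R W b₀)
      (fun k => Yq (some (some k))) wW
    have h2 : eW (Yq (some none) - algebraMap R W b₀) = q (some none) - algebraMap R F b₀ := by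
      rw [map_sub, heYq, AlgHom.commutes]
    have h3 : (fun k => eW (Yq (some (some k)))) = fun k => q (some (some k)) :=
      funext fun k => heYq _
    have h4 : (fun z => eW (wW z)) = fun z : ZT Z => algebraMap R F (r z) * y z ^ e := by
      funext z
      show eW (algebraMap R W (r z) * Yy z ^ e) = _
      rw [map_mul, AlgHom.commutes, map_pow, heYy, hη]
    show eW (TotZ p j g c Z s d (Yq none) (Yq (some none) - algebraMap R W b₀)
      (fun k => Yq (some (some k))) wW) = 0
    rw [h1, h2, h3, h4, heYq]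
    exact hqT
  -- the first relation
  let hh : W := τ ^ h * Yv ν (some (some none)) *
    (Yq none ^ j * (Yq (some none) - algebraMap R W b₀) ^ j)
  let R1 : W := C (p : R) - X none * hh
  have hR1 : R1 = (p : W) - Yq none ^ (j + 1) * (Yq (some none) - algebraMap R W b₀) ^ j := by
    show C (p : R) - X none * (τ ^ h * Yv ν (some (some none)) *
      (Yq none ^ j * (Yq (some none) - algebraMap R W b₀) ^ j)) = _
    rw [map_natCast]
    have : Yq none ^ (j + 1) = τ ^ h * (X none * Yv ν (some (some none))) * Yq none ^ j := by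
      rw [pow_succ, mul_comm]
    rw [this]; ring
  have heR1 : eW R1 = 0 := by
    rw [hR1, map_sub, map_natCast, map_mul, map_pow, map_pow, map_sub, heYq, heYq,
      AlgHom.commutes, ← hqp, sub_self]
  -- the second relation
  let E₁ : W := ∑ z : ZT Z, C (r z) * H z ^ e
  let h₁ : W := - Yv ν (some none)
  let R2 : W := E₁ + X none * h₁
  have hR2 : R2 = E₁ - ε * Yv ν (some none) := by
    show E₁ + ε * (- Yv ν (some none)) = _
    ring
  have heE1 : eW E₁ = f / η z₀ ^ e := by
    show eW (∑ z : ZT Z, C (r z) * H z ^ e) = _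
    rw [map_sum, hf]
    unfold fY
    rw [Finset.sum_div]
    apply Finset.sum_congr rfl
    intro z _
    rw [map_mul, map_pow, heH, div_pow, ← MvPolynomial.algebraMap_eq, AlgHom.commutes]
    ring
  have heR2 : eW R2 = 0 := by
    rw [hR2, map_sub, heE1, heεY]
    show f / η z₀ ^ e - f / η z₀ ^ e = 0
    rw [sub_self]
  -- the quotient by the first two relations
  obtain ⟨B, iB1, iB2, mk, hmks, hmkk, hmk⟩ := exists_quot (R := R) (Ideal.span {R1, R2} : Ideal W)
  have hmkR1 : (p : B) = mk (Yq none) ^ (j + 1) *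
      (mk (Yq (some none)) - algebraMap R B b₀) ^ j := by
    have h1 : mk R1 = 0 := (hmk R1).2 (Ideal.subset_span (by simp))
    rw [hR1, map_sub, map_natCast, map_mul, map_pow, map_pow, map_sub, AlgHom.commutes] at h1
    exact sub_eq_zero.1 h1
  have hmkR2 : mk E₁ = mk (ε * Yv ν (some none)) := by
    have h1 : mk R2 = 0 := (hmk R2).2 (Ideal.subset_span (by simp))
    rw [hR2, map_sub] at h1
    exact sub_eq_zero.1 h1
  have hexp := hQE (B := B) (fun k => mk (Yq k)) (fun z => mk (wW z)) hmkR1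
  have hmTot : mk Tot = TotZ p j g c Z s d (mk (Yq none)) (mk (Yq (some none)) - algebraMap R B b₀)
      (fun k => mk (Yq (some (some k)))) (fun z => mk (wW z)) := by
    have h1 := TotZ_map mk p j g c Z s d (Yq none) (Yq (some none) - algebraMap R W b₀)
      (fun k => Yq (some (some k))) wW
    rw [map_sub, AlgHom.commutes] at h1
    exact h1
  have hmem : mk Tot - (∑ k, ∑ k', algebraMap R B (Q k k') * mk (Yq k) * mk (Yq k') -
      ∑ z, mk (wW z)) ∈ Ideal.span {mk τ ^ (2 * h) * mk ε ^ 3} := by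
    rw [hmTot]
    have h1 := rem_mem (mk ε) (mk (Yv ν none)) (fun m : KT Z s d => mk (Yv ν (some (some m))))
      (fun k => mk (Yq k)) (fun z => mk (wW z)) h hD.hh
      (fun m => by
        show mk (τ ^ h * (ε * Yv ν (some (some m)))) = _
        rw [map_mul, map_pow, map_mul, map_mul])
      (fun z : ZT Z => mk (C (r z) * H z ^ e))
      (fun z => by
        show mk (algebraMap R W (r z) * (τ * H z) ^ e) = (mk ε * mk (Yv ν none)) ^ (2 * h + 1) *
          mk (C (r z) * H z ^ e)
        rw [← map_mul, ← map_pow, ← map_mul, MvPolynomial.algebraMap_eq, ← he]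
        congr 1
        show _ = τ ^ e * _
        ring) hexp
    rw [← map_mul] at h1
    exact h1
  obtain ⟨hBB, hhB⟩ := Ideal.mem_span_singleton'.1 hmem
  obtain ⟨h', hh'⟩ := hmks hBB
  let G : W := X none * h'
  let E : W := ∑ k, ∑ l, C (Qs Q k l) * Yv ν k * Yv ν l + G
  have hsumw : mk (∑ z, wW z) = mk (τ ^ (2 * h) * ε ^ 2 * (Yv ν none * Yv ν (some none))) := by
    have h1 : ∑ z, wW z = τ ^ (2 * h) * τ * E₁ := by
      show ∑ z : ZT Z, algebraMap R W (r z) * (τ * H z) ^ e = τ ^ (2 * h) * τ *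
        ∑ z : ZT Z, (C (r z) : W) * H z ^ e
      rw [Finset.mul_sum]
      apply Finset.sum_congr rfl
      intro z _
      rw [mul_pow, he, MvPolynomial.algebraMap_eq]; ring
    rw [h1, map_mul, hmkR2, ← map_mul]
    congr 1
    show τ ^ (2 * h) * (ε * Yv ν none) * (ε * Yv ν (some none)) = _
    ring
  have hsumq : ∑ k, ∑ k', algebraMap R W (Q k k') * Yq k * Yq k' =
      τ ^ (2 * h) * ε ^ 2 * ∑ k, ∑ k', C (Q k k') * Yv ν (some (some k)) *
        Yv ν (some (some k')) := by
    rw [Finset.mul_sum]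
    apply Finset.sum_congr rfl
    intro k _
    rw [Finset.mul_sum]
    apply Finset.sum_congr rfl
    intro k' _
    show algebraMap R W (Q k k') * (τ ^ h * (ε * Yv ν (some (some k)))) *
      (τ ^ h * (ε * Yv ν (some (some k')))) = _
    rw [MvPolynomial.algebraMap_eq]; ring
  have hQs : ∑ k, ∑ l, (C (Qs Q k l) : W) * Yv ν k * Yv ν l =
      ∑ k, ∑ k', C (Q k k') * Yv ν (some (some k)) * Yv ν (some (some k')) -
        Yv ν none * Yv ν (some none) := sum_Qs (C : R →+* W) Q (fun k => (Yv ν k : W))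
  have hmE : mk (Tot - τ ^ (2 * h) * ε ^ 2 * E) = 0 := by
    have h1 : τ ^ (2 * h) * ε ^ 2 * E = (∑ k, ∑ k', algebraMap R W (Q k k') * Yq k * Yq k' -
        τ ^ (2 * h) * ε ^ 2 * (Yv ν none * Yv ν (some none))) +
        h' * (τ ^ (2 * h) * ε ^ 3) := by
      rw [hsumq]
      show τ ^ (2 * h) * ε ^ 2 * (∑ k, ∑ l, C (Qs Q k l) * Yv ν k * Yv ν l + ε * h') = _
      rw [hQs]
      ring
    have h2 : mk (∑ k, ∑ k', algebraMap R W (Q k k') * Yq k * Yq k' -
        τ ^ (2 * h) * ε ^ 2 * (Yv ν none * Yv ν (some none))) =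
        (∑ k, ∑ k', algebraMap R B (Q k k') * mk (Yq k) * mk (Yq k') - ∑ z, mk (wW z)) := by
      rw [map_sub, ← hsumw, map_sum, map_sum]
      congr 1
      apply Finset.sum_congr rfl
      intro k _
      rw [map_sum]
      apply Finset.sum_congr rfl
      intro k' _
      rw [map_mul, map_mul, AlgHom.commutes]
    rw [h1, map_sub, map_add, h2, map_mul, map_mul, map_pow, map_pow, hh', hhB]
    ring
  obtain ⟨ρ, ρ', hρ⟩ := Ideal.mem_span_pair.1 ((hmk _).1 hmE)
  have hTotE : Tot = τ ^ (2 * h) * ε ^ 2 * E + (ρ * R1 + ρ' * R2) := by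
    rw [hρ]; ring
  have hE0 : eW E = 0 := by
    have h1 : eW (τ ^ (2 * h) * ε ^ 2 * E) = 0 := by
      have h2 : τ ^ (2 * h) * ε ^ 2 * E = Tot - (ρ * R1 + ρ' * R2) := by
        rw [hTotE]; ring
      rw [h2, map_sub, map_add, map_mul, map_mul, heR1, heR2, heTot]
      simp
    rw [map_mul, map_mul, map_pow, map_pow, heε, heτ] at h1
    exact (mul_eq_zero.1 h1).resolve_left (mul_ne_zero (pow_ne_zero _ hτ0) (pow_ne_zero 2 hk0))
  obtain ⟨A, iA1, iA2, pr, hprs, hprk, hpr⟩ :=
    exists_quot (R := R) (Ideal.span {R1, R2, E} : Ideal W)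
  have hprR1 : pr R1 = 0 := (hpr R1).2 (Ideal.subset_span (by simp))
  have hprR2 : pr R2 = 0 := (hpr R2).2 (Ideal.subset_span (by simp))
  have hprE : pr E = 0 := (hpr E).2 (Ideal.subset_span (by simp))
  have hker : ∀ w, pr w = 0 → eW w = 0 := by
    intro w hw
    have h1 := (hpr w).1 hw
    have h2 : (Ideal.span {R1, R2, E} : Ideal W) ≤ RingHom.ker (eW : W →+* F) := by
      rw [Ideal.span_le]
      rintro x hx
      rw [Set.mem_insert_iff, Set.mem_insert_iff, Set.mem_singleton_iff] at hx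
      rw [SetLike.mem_coe, RingHom.mem_ker]
      rcases hx with rfl | rfl | rfl
      · exact heR1
      · exact heR2
      · exact hE0
    exact (RingHom.mem_ker).1 (h2 h1)
  -- the range
  have hrange : Algebra.adjoin R (G4 q η f h e z₀ k₁) = eW.range := by
    show _ = (aeval (pt qs η z₀ (fun z : ζ' => z.1) k₁)).range
    rw [← Algebra.adjoin_range_eq_range_aeval]
    apply le_antisymm
    · apply Algebra.adjoin_le
      rintro x ((hx | ⟨k, rfl⟩) | ⟨z, rfl⟩)
      · rw [Set.mem_singleton_iff] at hx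
        rw [hx]
        exact Algebra.subset_adjoin ⟨none, rfl⟩
      · by_cases hk : k = k₁
        · show qs k / qs k₁ ∈ _
          rw [hk, div_self hk0]
          exact one_mem _
        · exact Algebra.subset_adjoin ⟨some (Sum.inl ⟨k, hk⟩), rfl⟩
      · by_cases hz : z = z₀
        · show η z / η z₀ ∈ _
          rw [hz, div_self hτ0]
          exact one_mem _
        · exact Algebra.subset_adjoin ⟨some (Sum.inr ⟨z, hz⟩), rfl⟩
    · apply Algebra.adjoin_mono
      rintro x ⟨o, rfl⟩
      rcases o with _ | (k | z)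
      · exact Or.inl (Or.inl rfl)
      · exact Or.inl (Or.inr ⟨k.1, rfl⟩)
      · exact Or.inr ⟨z.1, rfl⟩
  have hlocOf' : IsLocOf 𝒪 (eW.range : Set F) := by
    rw [← hrange]; exact hlocOf
  have hW : ∀ w, eW w ∈ 𝒪 := fun w => hlocOf'.1 _ ⟨w, rfl⟩
  have hprp : pr (p : W) = pr (Yq none ^ (j + 1) * (Yq (some none) - algebraMap R W b₀) ^ j) := by
    rw [hR1, map_sub] at hprR1
    exact sub_eq_zero.1 hprR1
  have hprφ : pr E₁ = pr (ε * Yv ν (some none)) := by
    rw [hR2, map_sub] at hprR2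
    exact sub_eq_zero.1 hprR2
  have hprTot : pr Tot = 0 := by
    rw [hTotE]
    simp only [map_add, map_mul, hprE, hprR1, hprR2, mul_zero, add_zero]
  refine hP 𝒪 p e h j co r g Z y s d a b c β b₀ hD pr hprs eW hker hW hlocOf' Yq Yy ?_ ?_
    hprp hprTot ?_ ?_
  · intro m
    rw [heYq, hq]
  · intro z
    rw [heYy, hη]
  · intro P hPr hPS hPa hPm hPe hPd w
    have heε0 : eW ε ≠ 0 := by rw [heε]; exact hk0
    have heτ0 : eW τ ≠ 0 := by rw [heτ]; exact hτ0
    have hPτ : P τ := by
      have h1 := hPS (Yy z₀) (Or.inr ⟨z₀, rfl⟩)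
      have h2 : Yy z₀ = τ := by
        show τ * H z₀ = τ
        rw [hHz0, mul_one]
      rwa [h2] at h1
    have hPH : ∀ z, P (H z) := fun z => hPd τ (H z) heτ0 hPτ (hPS _ (Or.inr ⟨z, rfl⟩))
    have hP1 : P 1 := by
      have := hPr 1
      rwa [map_one] at this
    have hPpow : ∀ (x : W), P x → ∀ n : ℕ, P (x ^ n) := by
      intro x hx n
      induction n with
      | zero => rw [pow_zero]; exact hP1
      | succ n ih => rw [pow_succ]; exact hPm _ _ ih hx
    have hP0 : P 0 := by
      have := hPr 0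
      rwa [map_zero] at this
    have hPE : P E₁ := by
      show P (∑ z : ZT Z, C (r z) * H z ^ e)
      refine Finset.sum_induction _ P hPa hP0 fun z _ => ?_
      refine hPm _ _ ?_ (hPpow _ (hPH z) e)
      exact hPr (r z)
    have hPk : ∀ k : κ, P (ε * Yv ν k) := by
      intro k
      match k with
      | none => exact hPτ
      | some none => exact hPe _ _ hprφ hPE
      | some (some m) =>
        refine hPd (τ ^ h) _ ?_ (hPpow _ hPτ h) (hPS _ (Or.inl ⟨m, rfl⟩))
        rw [map_pow]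
        exact pow_ne_zero _ heτ0
    have hPε : P ε := by
      have h1 := hPk k₁
      rwa [hYvl, mul_one] at h1
    have hPv : ∀ m, P (Yv ν m) := fun m => hPd ε (Yv ν m) heε0 hPε (hPk m)
    have hPX : ∀ o, P (X o) := by
      intro o
      rcases o with _ | (k | z)
      · exact hPε
      · have h1 := hPv k.1
        have h2 : (Yv ν k.1 : W) = X (some (Sum.inl k)) := by
          show (Yv (nu k₁) k.1 : W) = _
          unfold Yv nu
          rw [dif_neg k.2]
          rfl
        rwa [h2] at h1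
      · rw [← hHz z]
        exact hPH z.1
    induction w using MvPolynomial.induction_on with
    | C r => exact hPr r
    | add p q hp hq => exact hPa _ _ hp hq
    | mul_X p n hp => exact hPm _ _ hp (hPX n)
  · intro 𝔮 _ h𝔮
    have h1 : pr (X none) ∈ 𝔮 := by
      rw [h𝔮]
      show ¬ U 𝒪 (eW ε)
      rw [heε]; exact hnU k₁
    have hne1 : (1 : A) ∉ 𝔮 := fun h =>
      (inferInstance : 𝔮.IsPrime).ne_top ((Ideal.eq_top_iff_one _).2 h)
    have hunit : ∀ u : R, IsUnit u → ∀ x : W, pr (C u * x) ∈ 𝔮 → pr x ∈ 𝔮 := by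
      intro u hu x hx
      obtain ⟨u', rfl⟩ := hu
      have h2 : x = C ((u'⁻¹ : Rˣ) : R) * (C (u' : R) * x) := by
        rw [← mul_assoc, ← C_mul, Units.inv_mul, C_1, one_mul]
      rw [h2, map_mul]
      exact 𝔮.mul_mem_left _ hx
    have hprE1 : pr E₁ ∈ 𝔮 := by
      rw [hprφ, map_mul]
      exact 𝔮.mul_mem_right _ h1
    -- derivatives of `E₁`
    have hdH1 : ∀ (z : ζ'), pderiv (some (Sum.inr z)) (H z.1) = 1 := by
      intro z
      rw [hHz]
      exact pderiv_X_self _
    have hdH0 : ∀ (z z' : ζ'), z' ≠ z → pderiv (some (Sum.inr z)) (H z'.1) = 0 := by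
      intro z z' hzz
      rw [hHz]
      exact pderiv_X_of_ne fun h2 => hzz (by simpa using h2)
    have hdE : ∀ z : ζ', pderiv (some (Sum.inr z)) E₁ =
        C ((e : R) * r z.1) * H z.1 ^ (e - 1) := by
      intro z
      show pderiv (some (Sum.inr z)) (∑ z : ZT Z, C (r z) * H z ^ e) = _
      rw [map_sum, Finset.sum_eq_single z.1]
      · rw [pderiv_C_mul, pderiv_pow, hdH1 z, C_mul, map_natCast]
        ring
      · intro z' _ hz'
        rw [pderiv_C_mul, pderiv_pow]
        by_cases hz0 : z' = z₀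
        · rw [hz0, hHz0]
          simp
        · have := hdH0 z ⟨z', hz0⟩ (by
            rintro rfl
            exact hz' rfl)
          rw [this]
          simp
      · intro h2
        exact absurd (Finset.mem_univ _) h2
    have hex : ∃ z₁ : ζ', pr (pderiv (some (Sum.inr z₁)) E₁) ∉ 𝔮 := by
      by_contra hcon
      push Not at hcon
      have hHq : ∀ z : ζ', pr (H z.1) ∈ 𝔮 := by
        intro z
        have h2 := hcon z
        rw [hdE] at h2
        have h3 := hunit _ (hD.data.heU.mul (hD.data.hr z.1)) _ h2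
        rw [map_pow] at h3
        exact (inferInstance : 𝔮.IsPrime).mem_of_pow_mem _ h3
      have h2 : pr E₁ - pr (C (r z₀)) ∈ 𝔮 := by
        have h3 : E₁ - C (r z₀) = ∑ z ∈ Finset.univ.erase z₀, C (r z) * H z ^ e := by
          show ∑ z : ZT Z, C (r z) * H z ^ e - C (r z₀) = _
          rw [← Finset.add_sum_erase _ _ (Finset.mem_univ z₀), hHz0, one_pow, mul_one]
          ring
        rw [← map_sub, h3, map_sum]
        apply Ideal.sum_mem
        intro z hz
        have hz' : z ≠ z₀ := Finset.ne_of_mem_erase hz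
        rw [map_mul, map_pow]
        exact Ideal.mul_mem_left _ _ (Ideal.pow_mem_of_mem _ (hHq ⟨z, hz'⟩) e
          (by have := hD.data.he; omega))
      have h3 : pr (C (r z₀)) ∈ 𝔮 := by
        have := 𝔮.sub_mem hprE1 h2
        rwa [sub_sub_cancel] at this
      have h4 := hunit _ (hD.data.hr z₀) 1 (by rwa [mul_one])
      rw [map_one] at h4
      exact hne1 h4
    obtain ⟨z₁, hz₁⟩ := hex
    refine hB (p : R) hD.data.irr (Qs Q) (Qs_rad _ Q hQ) ν (nu_inj k₁) (pr : W →+* A) hprs hh h₁ E₁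
      G hprk 𝔮 h1 ?_ ?_ ⟨k₁, ?_⟩ (Sum.inr z₁) hz₁ ?_
    · show pr (X none * h') ∈ 𝔮
      rw [map_mul]
      exact Ideal.mul_mem_right _ _ h1
    · intro k i hki
      obtain ⟨m, rfl⟩ := nu_some k₁ k i hki
      have hd1 : pderiv (some (Sum.inl m)) (X none : W) = 0 := pderiv_X_of_ne (by simp)
      have hd : pderiv (some (Sum.inl m)) G = X none * pderiv (some (Sum.inl m)) h' := by
        show pderiv (some (Sum.inl m)) (X none * h') = _
        rw [pderiv_mul, hd1]
        simp
      show pr (pderiv (some (Sum.inl m)) G) ∈ 𝔮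
      rw [hd, map_mul]
      exact Ideal.mul_mem_right _ _ h1
    · show pr (Yv ν k₁) ∉ 𝔮
      rw [hYvl, map_one]
      exact hne1
    · intro k i hki
      obtain ⟨m, rfl⟩ := nu_some k₁ k i hki
      have hd2 : pderiv (some (Sum.inl m)) E₁ = 0 := by
        show pderiv (some (Sum.inl m)) (∑ z : ZT Z, C (r z) * H z ^ e) = 0
        rw [map_sum]
        apply Finset.sum_eq_zero
        intro z _
        have h3 : pderiv (some (Sum.inl m)) (H z) = 0 := by
          by_cases hz0 : z = z₀
          · rw [hz0, hHz0]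
            simp
          · have := hHz ⟨z, hz0⟩
            simp only at this
            rw [this]
            exact pderiv_X_of_ne (by simp)
        rw [pderiv_C_mul, pderiv_pow, h3]
        simp
      show pr (pderiv (some (Sum.inl m)) E₁) ∈ 𝔮
      rw [hd2, map_zero]
      exact 𝔮.zero_mem

end Pool.Agent.H945R2.S
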