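import Pool.Agent.H945R2.S.Props

/-! QC5: chart 3 of the resolution, `f` a unit (helper485). -/

set_option autoImplicit false

open scoped Pointwise

namespace Pool.Agent.H945R2.S

open Pool.Agent.H918R2.Quad Pool.Agent.H945R2.D MvPolynomial

namespace QC5aux

theorem map_TcZ {ι B B' : Type} [Fintype ι] [DecidableEq ι] [CommRing B] [CommRing B']
    (f : B →+* B') (Z : Finset ι) (s d : ι) (c : ι → B) (v : TT Z s d → B) (w : ZT Z → B) (l : B)
    (i : ι) : f (TcZ Z s d c v w l i) =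
      TcZ Z s d (fun i => f (c i)) (fun k => f (v k)) (fun z => f (w z)) (f l) i := by
  unfold TcZ
  split_ifs <;> simp

theorem map_TotZ {R B B' ι : Type} [CommRing R] [Fintype ι] [DecidableEq ι] [CommRing B]
    [CommRing B'] [Algebra R B] [Algebra R B'] (f : B →ₐ[R] B') (p j : ℕ) (g : MvPolynomial ι R)
    (c : ι → ℕ) (Z : Finset ι) (s d : ι) (a b : B) (v : TT Z s d → B) (w : ZT Z → B) :
    f (TotZ p j g c Z s d a b v w) =
      TotZ p j g c Z s d (f a) (f b) (fun k => f (v k)) (fun z => f (w z)) := by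
  unfold TotZ
  rw [map_add, map_mul, map_pow, map_pow]
  congr 1
  have h2 : f.comp (aeval (TcZ Z s d (fun i => (c i : B)) v w (a * b))) =
      aeval (TcZ Z s d (fun i => (c i : B')) (fun k => f (v k)) (fun z => f (w z)) (f a * f b)) := by
    apply MvPolynomial.algHom_ext
    intro i
    rw [AlgHom.comp_apply, aeval_X, aeval_X]
    have h3 := map_TcZ (f : B →+* B') Z s d (fun i => (c i : B)) v w (a * b) i
    have h4 : f (TcZ Z s d (fun i => (c i : B)) v w (a * b) i) =
      TcZ Z s d (fun i => f (c i : B)) (fun k => f (v k)) (fun z => f (w z)) (f (a * b)) i := h3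
    rw [h4]
    simp only [map_mul, map_natCast]
  rw [← h2]
  rfl

/-- the remainder of the expansion -/
theorem rem_mem {B κ ζ : Type} [CommRing B] (τ : B) (x : κ → B) (Y : κ → B) (w : ζ → B) (h : ℕ)
    (hh : 1 ≤ h) (hY : ∀ m, Y m = τ ^ h * x m) (H : ζ → B)
    (hw : ∀ z, w z = τ ^ (2 * h + 1) * H z) :
    Ideal.span (Set.range Y) ^ 3 ⊔ Ideal.span (Set.range Y) * Ideal.span (Set.range w) ⊔
      Ideal.span (Set.range w) ^ 2 ≤
      Ideal.span {τ ^ (2 * h)} * (Ideal.span (Set.range x) ⊔ Ideal.span {τ ^ 2}) := by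
  have hu : Ideal.span (Set.range Y) ≤ Ideal.span {τ ^ h} * Ideal.span (Set.range x) := by
    rw [Ideal.span_le]
    rintro _ ⟨m, rfl⟩
    rw [SetLike.mem_coe, hY]
    exact Ideal.mul_mem_mul (Ideal.mem_span_singleton_self _) (Ideal.subset_span ⟨m, rfl⟩)
  have ht : Ideal.span (Set.range w) ≤ Ideal.span {τ ^ (2 * h + 1)} := by
    rw [Ideal.span_le]
    rintro _ ⟨z, rfl⟩
    rw [SetLike.mem_coe, hw]
    exact Ideal.mul_mem_right _ _ (Ideal.mem_span_singleton_self _)
  set 𝔵 := Ideal.span (Set.range x) with h𝔵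
  refine sup_le (sup_le ?_ ?_) ?_
  · calc Ideal.span (Set.range Y) ^ 3 ≤ (Ideal.span {τ ^ h} * 𝔵) ^ 3 := Ideal.pow_right_mono hu 3
      _ = Ideal.span {τ ^ h} ^ 3 * 𝔵 ^ 3 := mul_pow _ _ _
      _ ≤ Ideal.span {τ ^ (2 * h)} * 𝔵 := by
        apply Ideal.mul_mono
        · rw [Ideal.span_singleton_pow, Ideal.span_singleton_le_span_singleton, ← pow_mul]
          exact pow_dvd_pow _ (by omega)
        · exact Ideal.pow_le_self (by norm_num)
      _ ≤ _ := Ideal.mul_mono_right le_sup_left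
  · calc Ideal.span (Set.range Y) * Ideal.span (Set.range w) ≤
        (Ideal.span {τ ^ h} * 𝔵) * Ideal.span {τ ^ (2 * h + 1)} := Ideal.mul_mono hu ht
      _ = (Ideal.span {τ ^ h} * Ideal.span {τ ^ (2 * h + 1)}) * 𝔵 := by ring
      _ ≤ Ideal.span {τ ^ (2 * h)} * 𝔵 := by
        apply Ideal.mul_mono_left
        rw [Ideal.span_singleton_mul_span_singleton, Ideal.span_singleton_le_span_singleton,
          ← pow_add]
        exact pow_dvd_pow _ (by omega)
      _ ≤ _ := Ideal.mul_mono_right le_sup_left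
  · calc Ideal.span (Set.range w) ^ 2 ≤ Ideal.span {τ ^ (2 * h + 1)} ^ 2 :=
        Ideal.pow_right_mono ht 2
      _ ≤ Ideal.span {τ ^ (2 * h)} * Ideal.span {τ ^ 2} := by
        rw [Ideal.span_singleton_pow, Ideal.span_singleton_mul_span_singleton,
          Ideal.span_singleton_le_span_singleton, ← pow_mul, ← pow_add]
        exact pow_dvd_pow _ (by omega)
      _ ≤ _ := Ideal.mul_mono_right le_sup_right

/-- the expansion with `τ ^ (2 h)` divided out -/
theorem expand_tot {B κ ζ : Type} [CommRing B] [Fintype κ] [Fintype ζ] (τ : B) (x : κ → B)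
    (Y : κ → B) (w : ζ → B) (h : ℕ)
    (hh : 1 ≤ h) (hY : ∀ m, Y m = τ ^ h * x m) (H : ζ → B)
    (hw : ∀ z, w z = τ ^ (2 * h + 1) * H z) (Q : κ → κ → B) (Tot : B)
    (hT : Tot - (∑ k, ∑ k', Q k k' * Y k * Y k' - ∑ z, w z) ∈
      Ideal.span (Set.range Y) ^ 3 ⊔ Ideal.span (Set.range Y) * Ideal.span (Set.range w) ⊔
      Ideal.span (Set.range w) ^ 2) :
    ∃ (μ : κ → B) (ν : B),
      Tot = τ ^ (2 * h) * (τ * (-(∑ z, H z) + τ * ν) + ∑ k, x k * μ k) := by
  have h1 := rem_mem τ x Y w h hh hY H hw hT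
  obtain ⟨E', hE', hE⟩ := Ideal.mem_span_singleton_mul.1 h1
  obtain ⟨E1, hE1, E2, hE2, rfl⟩ := Submodule.mem_sup.1 hE'
  obtain ⟨μ, hμ⟩ := (Ideal.mem_span_range_iff_exists_fun).1 hE1
  obtain ⟨ν, hν⟩ := Ideal.mem_span_singleton'.1 hE2
  refine ⟨fun k => μ k + ∑ k', Q k k' * x k', ν, ?_⟩
  have h2 : ∑ k, ∑ k', Q k k' * Y k * Y k' = τ ^ (2 * h) * ∑ k, x k * ∑ k', Q k k' * x k' := by
    rw [Finset.mul_sum]
    apply Finset.sum_congr rfl
    intro k _
    rw [Finset.mul_sum, Finset.mul_sum]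
    apply Finset.sum_congr rfl
    intro k' _
    rw [hY, hY]
    have : τ ^ (2 * h) = τ ^ h * τ ^ h := by rw [← pow_add]; congr 1; omega
    rw [this]; ring
  have h3 : ∑ z, w z = τ ^ (2 * h) * (τ * ∑ z, H z) := by
    rw [Finset.mul_sum, Finset.mul_sum]
    apply Finset.sum_congr rfl
    intro z _
    rw [hw, pow_succ]; ring
  have h4 : Tot = τ ^ (2 * h) * (E1 + E2) + (∑ k, ∑ k', Q k k' * Y k * Y k' - ∑ z, w z) := by
    rw [hE]; ring
  rw [h4, h2, h3, ← hμ, ← hν]
  have h5 : ∑ k, x k * (μ k + ∑ k', Q k k' * x k') =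
      ∑ k, μ k * x k + ∑ k, x k * ∑ k', Q k k' * x k' := by
    rw [← Finset.sum_add_distrib]
    apply Finset.sum_congr rfl
    intro k _
    ring
  rw [h5]
  ring

end QC5aux

open QC5aux

theorem QC5_ok (hP : S_QPRE) (hF : S_QTF) (hX : S_QEX) (hB : S_RLW) : S_QC5 := by
  intro R F ι _ _ _ _ _ _ _ 𝒪 p e h j co r g Z y s d a b c β b₀ hQ q η hq hη f hf z₀ he hC hnU hfU
    hloc
  have hD := hQ.data
  obtain ⟨Q, hQrad, hexp⟩ := hX p co g hD.coef s c β hQ.spec Z hQ.hZ d hQ.hd hQ.hdZ j b₀ hQ.kind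
  obtain ⟨hq0, hpF, hTotF⟩ := hF 𝒪 p e h j co r g Z y s d a b c β b₀ hQ q hq
  have hτ0 : η z₀ ≠ 0 := hC.yz
  have hτU : ¬ U 𝒪 (η z₀) := by rw [hη]; exact hD.hyZ _ z₀.2
  have hηz : ∀ z : ZT Z, η z = y z := fun z => by rw [hη]
  -- the polynomial ring
  let σ : Type := KT Z s d ⊕ {z : ZT Z // z ≠ z₀}
  let W : Type := MvPolynomial (Option σ) R
  let τ : W := X none
  let x : KT Z s d → W := fun m => X (some (Sum.inl m))
  let H : ZT Z → W := fun z => if hz : z = z₀ then 1 else X (some (Sum.inr ⟨z, hz⟩))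
  let Yq : KT Z s d → W := fun m => τ ^ h * x m
  let Yy : ZT Z → W := fun z => τ * H z
  let pt : Option σ → F := fun o => o.elim (η z₀) (fun k => Sum.elim (fun m => q m / η z₀ ^ h)
    (fun z => η z.1 / η z₀) k)
  let eW : W →ₐ[R] F := aeval pt
  have heτ : eW τ = η z₀ := by
    show aeval pt (X none) = η z₀
    rw [aeval_X]; rfl
  have hex : ∀ m, eW (x m) = q m / η z₀ ^ h := by
    intro m
    show aeval pt (X (some (Sum.inl m))) = _
    rw [aeval_X]; rfl
  have heH : ∀ z, eW (H z) = η z / η z₀ := by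
    intro z
    show aeval pt (if hz : z = z₀ then 1 else X (some (Sum.inr ⟨z, hz⟩))) = _
    split_ifs with hz
    · rw [map_one, hz, div_self hτ0]
    · rw [aeval_X]; rfl
  have hHz0 : H z₀ = 1 := by
    show (if hz : z₀ = z₀ then 1 else X (some (Sum.inr ⟨z₀, hz⟩))) = (1 : W)
    rw [dif_pos rfl]
  have heYq : ∀ m, eW (Yq m) = q m := by
    intro m
    show eW (τ ^ h * x m) = q m
    rw [map_mul, map_pow, heτ, hex, mul_div_cancel₀ _ (pow_ne_zero _ hτ0)]
  have heYy : ∀ z, eW (Yy z) = η z := by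
    intro z
    show eW (τ * H z) = η z
    rw [map_mul, heτ, heH, mul_div_cancel₀ _ hτ0]
  -- the first relation
  let hh : W := τ ^ (h - 1) * x none * (Yq none ^ j * (Yq (some none) - algebraMap R W b₀) ^ j)
  let R1 : W := C (p : R) - X none * hh
  have hR1 : R1 = (p : W) - Yq none ^ (j + 1) * (Yq (some none) - algebraMap R W b₀) ^ j := by
    show C (p : R) - X none * (τ ^ (h - 1) * x none *
      (Yq none ^ j * (Yq (some none) - algebraMap R W b₀) ^ j)) = _
    rw [map_natCast]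
    have h1 : Yq none ^ (j + 1) = τ * τ ^ (h - 1) * x none * Yq none ^ j := by
      rw [pow_succ, ← pow_succ', Nat.sub_add_cancel hQ.hh]
      show Yq none ^ j * (τ ^ h * x none) = _
      ring
    rw [h1]
    show (p : W) - τ * (τ ^ (h - 1) * x none *
      (Yq none ^ j * (Yq (some none) - algebraMap R W b₀) ^ j)) = _
    ring
  have heR1 : eW R1 = 0 := by
    rw [hR1, map_sub, map_natCast, map_mul, map_pow, map_pow, map_sub, heYq, heYq,
      AlgHom.commutes, ← hpF, sub_self]
  let Tot : W := TotZ p j g c Z s d (Yq none) (Yq (some none) - algebraMap R W b₀)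
    (fun k => Yq (some (some k))) (fun z => algebraMap R W (r z) * Yy z ^ e)
  have heTot : eW Tot = 0 := by
    show eW (TotZ p j g c Z s d (Yq none) (Yq (some none) - algebraMap R W b₀)
      (fun k => Yq (some (some k))) (fun z => algebraMap R W (r z) * Yy z ^ e)) = 0
    rw [map_TotZ]
    simp only [map_sub, map_mul, map_pow, heYq, heYy, AlgHom.commutes, hηz]
    exact hTotF
  -- the quotient by the first relation
  obtain ⟨B, iB1, iB2, mk, hmks, hmkk, hmk⟩ := exists_quot (R := R) (Ideal.span {R1} : Ideal W)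
  have hmkR1 : (p : B) = mk (Yq none) ^ (j + 1) * (mk (Yq (some none)) - algebraMap R B b₀) ^ j := by
    have h1 : mk R1 = 0 := (hmk R1).2 (Ideal.subset_span rfl)
    rw [hR1, map_sub, map_natCast, map_mul, map_pow, map_pow, map_sub, AlgHom.commutes] at h1
    exact sub_eq_zero.1 h1
  have hexpB := hexp (B := B) (fun m => mk (Yq m)) (fun z : ZT Z => algebraMap R B (r z) * mk (Yy z) ^ e)
    hmkR1
  obtain ⟨μB, νB, hTotB⟩ := expand_tot (ζ := ZT Z) (mk τ) (fun m => mk (x m)) (fun m => mk (Yq m))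
    (fun z : ZT Z => algebraMap R B (r z) * mk (Yy z) ^ e) h hQ.hh
    (fun m => by
      show mk (τ ^ h * x m) = _
      rw [map_mul, map_pow])
    (fun z : ZT Z => algebraMap R B (r z) * mk (H z) ^ e)
    (fun z => by
      show algebraMap R B (r z) * mk (τ * H z) ^ e = _
      rw [map_mul, mul_pow, he]; ring)
    (fun k k' => algebraMap R B (Q k k')) _ hexpB
  choose μ hμ using fun k => hmks (μB k)
  obtain ⟨ν, hν⟩ := hmks νB
  let v : W := -(∑ z : ZT Z, algebraMap R W (r z) * H z ^ e) + τ * ν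
  let E : W := X none * v + ∑ k, X (some (Sum.inl k)) * μ k
  have hmTot : mk Tot = mk (τ ^ (2 * h) * E) := by
    show mk (TotZ p j g c Z s d (Yq none) (Yq (some none) - algebraMap R W b₀)
      (fun k => Yq (some (some k))) (fun z => algebraMap R W (r z) * Yy z ^ e)) = _
    rw [map_TotZ]
    simp only [map_sub, AlgHom.commutes]
    have h1 : ∀ z : ZT Z, mk (algebraMap R W (r z) * Yy z ^ e) =
        algebraMap R B (r z) * mk (Yy z) ^ e := by
      intro z
      rw [map_mul, map_pow, AlgHom.commutes]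
    simp only [h1]
    rw [hTotB]
    show _ = mk (τ ^ (2 * h) * (τ * (-(∑ z : ZT Z, algebraMap R W (r z) * H z ^ e) + τ * ν) +
      ∑ k, x k * μ k))
    rw [map_mul, map_pow, map_add, map_mul, map_add, map_neg, map_sum, map_sum, map_mul, hν]
    congr 2
    · congr 2
      congr 1
      apply Finset.sum_congr rfl
      intro z _
      rw [map_mul, map_pow, AlgHom.commutes]
    · apply Finset.sum_congr rfl
      intro k _
      rw [map_mul, hμ]
  have hmE : mk (Tot - τ ^ (2 * h) * E) = 0 := by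
    rw [map_sub, hmTot, sub_self]
  obtain ⟨r', hr'⟩ := Ideal.mem_span_singleton'.1 ((hmk _).1 hmE)
  have hTotE : Tot = τ ^ (2 * h) * E + r' * R1 := by
    rw [hr']; ring
  have hE0 : eW E = 0 := by
    have h1 : eW (τ ^ (2 * h) * E) = 0 := by
      have h2 : τ ^ (2 * h) * E = Tot - r' * R1 := by
        rw [hTotE]; ring
      rw [h2, map_sub, map_mul, heR1, heTot]
      simp
    rw [map_mul, map_pow, heτ] at h1
    exact (mul_eq_zero.1 h1).resolve_left (pow_ne_zero _ hτ0)
  obtain ⟨A, iA1, iA2, pr, hprs, hprk, hpr⟩ := exists_quot (R := R) (Ideal.span {R1, E} : Ideal W)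
  have hprR1 : pr R1 = 0 := (hpr R1).2 (Ideal.subset_span (by simp))
  have hprE : pr E = 0 := (hpr E).2 (Ideal.subset_span (by simp))
  have hker : ∀ w, pr w = 0 → eW w = 0 := by
    intro w hw
    have h1 := (hpr w).1 hw
    obtain ⟨x, y, hxy⟩ := Ideal.mem_span_pair.1 h1
    rw [← hxy, map_add, map_mul, map_mul, heR1, hE0]
    simp
  -- the range
  have hrange : (Algebra.adjoin R (G3 q η h z₀)) = eW.range := by
    show _ = (aeval pt).range
    rw [← Algebra.adjoin_range_eq_range_aeval]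
    apply le_antisymm
    · apply Algebra.adjoin_le
      rintro w ((rfl | ⟨m, rfl⟩) | ⟨z, rfl⟩)
      · exact Algebra.subset_adjoin ⟨none, rfl⟩
      · exact Algebra.subset_adjoin ⟨some (Sum.inl m), rfl⟩
      · by_cases hz : z = z₀
        · show η z / η z₀ ∈ _
          rw [hz, div_self hτ0]
          exact one_mem _
        · exact Algebra.subset_adjoin ⟨some (Sum.inr ⟨z, hz⟩), rfl⟩
    · apply Algebra.adjoin_mono
      rintro w ⟨o, rfl⟩
      rcases o with _ | (m | z)
      · exact Or.inl (Or.inl rfl)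
      · exact Or.inl (Or.inr ⟨m, rfl⟩)
      · exact Or.inr ⟨z.1, rfl⟩
  have hlocOf' : IsLocOf 𝒪 (eW.range : Set F) := by
    rw [← hrange]; exact hloc
  have hW : ∀ w, eW w ∈ 𝒪 := fun w => hlocOf'.1 _ ⟨w, rfl⟩
  have hprp : pr (p : W) = pr (Yq none ^ (j + 1) * (Yq (some none) - algebraMap R W b₀) ^ j) := by
    rw [hR1, map_sub] at hprR1
    exact sub_eq_zero.1 hprR1
  have hprTot : pr Tot = 0 := by
    rw [hTotE, map_add, map_mul, map_mul, hprE, hprR1]
    simp
  refine hP 𝒪 p e h j co r g Z y s d a b c β b₀ hQ pr hprs eW hker hW hlocOf' Yq Yy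
    (fun m => by rw [heYq, hq]) (fun z => by rw [heYy, hηz]) hprp hprTot ?_ ?_
  · -- generation
    intro P hPR hPS hPa hPm hPe hPd w
    have g0 : P τ := by
      have h1 := hPS (Yy z₀) (Or.inr ⟨z₀, rfl⟩)
      have h2 : Yy z₀ = τ := by
        show τ * H z₀ = τ
        rw [hHz0, mul_one]
      rwa [h2] at h1
    have gpow : ∀ n : ℕ, P (τ ^ n) := by
      intro n
      induction n with
      | zero =>
        have := hPR 1
        rwa [map_one] at this
      | succ n ih =>
        rw [pow_succ]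
        exact hPm _ _ ih g0
    have g1 : ∀ m, P (x m) := by
      intro m
      refine hPd (τ ^ h) (x m) ?_ (gpow h) (hPS _ (Or.inl ⟨m, rfl⟩))
      rw [map_pow, heτ]
      exact pow_ne_zero _ hτ0
    have g2 : ∀ z, P (H z) := by
      intro z
      refine hPd τ (H z) ?_ g0 (hPS _ (Or.inr ⟨z, rfl⟩))
      rw [heτ]; exact hτ0
    induction w using MvPolynomial.induction_on with
    | C a => exact hPR a
    | add p q hp hq => exact hPa _ _ hp hq
    | mul_X p n hp =>
      refine hPm _ _ hp ?_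
      rcases n with _ | (m | z)
      · exact g0
      · exact g1 m
      · have h1 := g2 z.1
        have h2 : H z.1 = X (some (Sum.inr z)) := by
          show (if hz : z.1 = z₀ then (1 : W) else X (some (Sum.inr (⟨z.1, hz⟩ :
            {z : ZT Z // z ≠ z₀})))) = X (some (Sum.inr z))
          rw [dif_neg z.2]
        rwa [h2] at h1
  · intro 𝔮 _ h𝔮
    have h1 : pr (X none) ∈ 𝔮 := by
      rw [h𝔮]
      show ¬ U 𝒪 (eW τ)
      rw [heτ]; exact hτU
    refine hB (p : R) hD.irr (pr : W →+* A) hprs hh v μ hprk 𝔮 h1 ?_ ?_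
    · intro k
      show pr (x k) ∈ 𝔮
      rw [h𝔮, hex]
      exact hnU k
    · intro hv
      have h2 : pr (∑ z : ZT Z, algebraMap R W (r z) * H z ^ e) ∈ 𝔮 := by
        have h3 : ∑ z : ZT Z, algebraMap R W (r z) * H z ^ e = τ * ν - v := by
          show _ = τ * ν - (-(∑ z : ZT Z, algebraMap R W (r z) * H z ^ e) + τ * ν)
          ring
        rw [h3, map_sub, map_mul]
        exact 𝔮.sub_mem (𝔮.mul_mem_right _ h1) hv
      rw [h𝔮] at h2
      apply h2
      have h4 : eW (∑ z : ZT Z, algebraMap R W (r z) * H z ^ e) = f / η z₀ ^ e := by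
        rw [map_sum, hf]
        unfold fY
        rw [Finset.sum_div]
        apply Finset.sum_congr rfl
        intro z _
        rw [map_mul, map_pow, AlgHom.commutes, heH, div_pow]
        ring
      rw [h4]
      exact hfU

end Pool.Agent.H945R2.S
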