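import Pool.Agent.H945R2.S.Props
import Pool.Agent.H945R2.D.RA

/-!
Task RA2: regularity from a nonvanishing 2x2 minor of the Jacobian matrix.
-/

set_option autoImplicit false

open scoped Pointwise

namespace Pool.Agent.H945R2.S

open Pool.Agent.H918R2.Quad Pool.Agent.H945R2.D MvPolynomial

namespace RA2aux

open IsLocalRing Module

/-- a regular system of parameters extending a family with linearly independent classes -/
theorem exists_param_of_family {B : Type*} [CommRing B] [IsRegularLocalRing B] {κ : Type*}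
    (t : κ → maximalIdeal B)
    (ht : LinearIndependent (ResidueField B)
      (fun k => ((maximalIdeal B).toCotangent (t k) : CotangentSpace B))) :
    ∃ (d : ℕ) (z : Fin d → B) (i : κ → Fin d), Function.Injective i ∧ ringKrullDim B = d ∧
      Ideal.span (Set.range z) = maximalIdeal B ∧ ∀ k, z (i k) = t k := by
  classical
  have hli := ht.linearIndepOn_id
  let b := Basis.extend hli
  let w : κ → hli.extend (Set.subset_univ _) := fun k =>
    ⟨(maximalIdeal B).toCotangent (t k), hli.subset_extend _ ⟨k, rfl⟩⟩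
  have hw : Function.Injective w := fun k l h => ht.injective (congrArg Subtype.val h)
  have hbw : ∀ k, b (w k) = (maximalIdeal B).toCotangent (t k) := fun k =>
    Basis.extend_apply_self hli (w k)
  choose z hz using fun i => Ideal.toCotangent_surjective (maximalIdeal B) (b i)
  have hfin : Fintype (hli.extend (Set.subset_univ _)) := by
    have := Module.Finite.finite_basis b
    exact Fintype.ofFinite _
  have hcard : Fintype.card (hli.extend (Set.subset_univ _)) =
      Module.finrank (ResidueField B) (CotangentSpace B) := (Module.finrank_eq_card_basis b).symm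
  let e := Fintype.equivFin (hli.extend (Set.subset_univ _))
  let z' : hli.extend (Set.subset_univ _) → maximalIdeal B :=
    fun i => if h : ∃ k, w k = i then t h.choose else z i
  have hz'w : ∀ k, z' (w k) = t k := by
    intro k
    have h : ∃ l, w l = w k := ⟨k, rfl⟩
    simp only [z', dif_pos h]
    rw [hw h.choose_spec]
  have hz' : ∀ i, (maximalIdeal B).toCotangent (z' i) = b i := by
    intro i
    by_cases hi : ∃ k, w k = i
    · obtain ⟨k, rfl⟩ := hi
      rw [hz'w, hbw]
    · simp only [z', dif_neg hi]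
      exact hz i
  refine ⟨_, fun i => (z' (e.symm i) : B), fun k => e (w k), e.injective.comp hw, ?_, ?_, ?_⟩
  · rw [hcard]
    exact Pool.Agent.H968R2.FL.finrank_cotangent.symm
  · have h1 := Pool.Agent.H968R2.FL.span_of_basis b z' hz'
    have h2 : (Set.range fun i => (z' (e.symm i) : B)) = Set.range fun i => (z' i : B) := by
      ext x
      constructor
      · rintro ⟨i, rfl⟩
        exact ⟨e.symm i, rfl⟩
      · rintro ⟨i, rfl⟩
        exact ⟨e i, by simp⟩
    rw [h2]
    exact h1
  · intro k
    simp only [Equiv.symm_apply_apply]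
    rw [hz'w]

/-- the images of `E₁`, `E₂` in the cotangent space -/
theorem exists_local_gens_two {C : Type} [CommRing C] [IsRegularRing C] (P : Ideal C) [P.IsPrime]
    (E₁ E₂ : C) (hE₁ : E₁ ∈ P) (hE₂ : E₂ ∈ P)
    (hE : ∀ c₁ c₂ : C, c₁ * E₁ + c₂ * E₂ ∈ P ^ 2 → c₁ ∈ P ∧ c₂ ∈ P) :
    ∃ G : Finset C, (∀ g ∈ G, g ∈ P) ∧ ((G.card + 2 : ℕ) : ℕ∞) ≤ P.height ∧
      ∀ y ∈ P, ∃ c, c ∉ P ∧ c * y ∈ Ideal.span (insert E₁ (insert E₂ (G : Set C))) := by
  classical
  have h1 : ∀ E ∈ P, algebraMap C (Localization.AtPrime P) E ∈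
      maximalIdeal (Localization.AtPrime P) := by
    intro E hE
    rw [← Localization.AtPrime.map_eq_maximalIdeal]
    exact Ideal.mem_map_of_mem _ hE
  let t : Fin 2 → maximalIdeal (Localization.AtPrime P) :=
    ![⟨algebraMap C (Localization.AtPrime P) E₁, h1 E₁ hE₁⟩,
      ⟨algebraMap C (Localization.AtPrime P) E₂, h1 E₂ hE₂⟩]
  have ht : LinearIndependent (ResidueField (Localization.AtPrime P))
      (fun k => ((maximalIdeal (Localization.AtPrime P)).toCotangent (t k) :
        CotangentSpace (Localization.AtPrime P))) := by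
    have hfun : (fun k => ((maximalIdeal (Localization.AtPrime P)).toCotangent (t k) :
        CotangentSpace (Localization.AtPrime P))) =
        ![(maximalIdeal (Localization.AtPrime P)).toCotangent
            ⟨algebraMap C (Localization.AtPrime P) E₁, h1 E₁ hE₁⟩,
          (maximalIdeal (Localization.AtPrime P)).toCotangent
            ⟨algebraMap C (Localization.AtPrime P) E₂, h1 E₂ hE₂⟩] := by
      funext k
      fin_cases k <;> rfl
    rw [hfun, LinearIndependent.pair_iff]
    intro a₁ a₂ ha
    obtain ⟨b₁, rfl⟩ := IsLocalRing.residue_surjective a₁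
    obtain ⟨b₂, rfl⟩ := IsLocalRing.residue_surjective a₂
    have h2 : b₁ * algebraMap C (Localization.AtPrime P) E₁ +
        b₂ * algebraMap C (Localization.AtPrime P) E₂ ∈
        maximalIdeal (Localization.AtPrime P) ^ 2 := by
      have h3 := (Ideal.toCotangent_eq_zero (maximalIdeal (Localization.AtPrime P))
        (b₁ • ⟨algebraMap C (Localization.AtPrime P) E₁, h1 E₁ hE₁⟩ +
         b₂ • ⟨algebraMap C (Localization.AtPrime P) E₂, h1 E₂ hE₂⟩)).1 (by
          rw [map_add, map_smul, map_smul]
          exact ha)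
      exact h3
    obtain ⟨c₁, s₁, hc₁⟩ := IsLocalization.exists_mk'_eq P.primeCompl b₁
    obtain ⟨c₂, s₂, hc₂⟩ := IsLocalization.exists_mk'_eq P.primeCompl b₂
    have h3 : algebraMap C (Localization.AtPrime P) ((s₂ * c₁) * E₁ + (s₁ * c₂) * E₂) ∈
        (P ^ 2).map (algebraMap C (Localization.AtPrime P)) := by
      rw [Ideal.map_pow, Localization.AtPrime.map_eq_maximalIdeal]
      have h4 : algebraMap C (Localization.AtPrime P) ((s₂ * c₁) * E₁ + (s₁ * c₂) * E₂) =
          algebraMap C (Localization.AtPrime P) (s₁ * s₂) *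
            (b₁ * algebraMap C (Localization.AtPrime P) E₁ +
              b₂ * algebraMap C (Localization.AtPrime P) E₂) := by
        have e₁ : algebraMap C (Localization.AtPrime P) s₁ * b₁ =
            algebraMap C (Localization.AtPrime P) c₁ := by
          rw [← hc₁, mul_comm, IsLocalization.mk'_spec]
        have e₂ : algebraMap C (Localization.AtPrime P) s₂ * b₂ =
            algebraMap C (Localization.AtPrime P) c₂ := by
          rw [← hc₂, mul_comm, IsLocalization.mk'_spec]
        simp only [map_add, map_mul]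
        rw [← e₁, ← e₂]
        ring
      rw [h4]
      exact Ideal.mul_mem_left _ _ h2
    obtain ⟨c, hc, hcE⟩ := mem_of_map_mem P _ _ h3
    have h5 := hE (c * (s₂ * c₁)) (c * (s₁ * c₂)) (by
      have : c * (s₂ * c₁) * E₁ + c * (s₁ * c₂) * E₂ = c * ((s₂ * c₁) * E₁ + (s₁ * c₂) * E₂) := by
        ring
      rw [this]
      exact hcE)
    have hP : P.IsPrime := inferInstance
    have h6 : c₁ ∈ P := by
      rcases hP.mem_or_mem h5.1 with h | h
      · exact absurd h hc
      · exact (hP.mem_or_mem h).resolve_left s₂.2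
    have h7 : c₂ ∈ P := by
      rcases hP.mem_or_mem h5.2 with h | h
      · exact absurd h hc
      · exact (hP.mem_or_mem h).resolve_left s₁.2
    constructor
    · rw [IsLocalRing.residue_eq_zero_iff, ← hc₁]
      exact (IsLocalization.AtPrime.mk'_mem_maximal_iff (Localization.AtPrime P) P c₁ s₁).2 h6
    · rw [IsLocalRing.residue_eq_zero_iff, ← hc₂]
      exact (IsLocalization.AtPrime.mk'_mem_maximal_iff (Localization.AtPrime P) P c₂ s₂).2 h7
  obtain ⟨d, z, i, hi, hd, hz, hzE⟩ := exists_param_of_family t ht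
  have hi01 : i 0 ≠ i 1 := fun h => by simpa using hi h
  obtain ⟨G, hG, hcard, hle⟩ := exists_local_gens_aux P z hz ((Finset.univ.erase (i 0)).erase (i 1))
  refine ⟨G, hG, ?_, ?_⟩
  · rw [IsLocalization.AtPrime.ringKrullDim_eq_height P (Localization.AtPrime P)] at hd
    have h1 : P.height = (d : ℕ∞) := by exact_mod_cast hd
    rw [h1]
    have h3 : G.card ≤ d - 1 - 1 := by
      rw [Finset.card_erase_of_mem (by simp [hi01.symm]),
        Finset.card_erase_of_mem (Finset.mem_univ _)] at hcard
      simpa using hcard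
    have h4 : 2 ≤ d := by
      have h5 := Fintype.card_le_of_injective i hi
      simpa using h5
    have h5 : G.card + 2 ≤ d := by omega
    exact_mod_cast h5
  · intro y hy
    apply mem_of_map_mem P
    have h3 : algebraMap C (Localization.AtPrime P) y ∈ Ideal.span (Set.range z) := by
      rw [hz, ← Localization.AtPrime.map_eq_maximalIdeal]
      exact Ideal.mem_map_of_mem _ hy
    refine (Ideal.span_le.2 ?_) h3
    rintro _ ⟨j, rfl⟩
    by_cases hj : j = i 0
    · subst hj
      rw [hzE]
      exact Ideal.mem_map_of_mem _ (Ideal.subset_span (Set.mem_insert _ _))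
    by_cases hj1 : j = i 1
    · subst hj1
      rw [hzE]
      exact Ideal.mem_map_of_mem _ (Ideal.subset_span (Set.mem_insert_of_mem _
        (Set.mem_insert _ _)))
    · have h4 : z j ∈ Ideal.span (z '' (((Finset.univ.erase (i 0)).erase (i 1) :
          Finset (Fin d)) : Set (Fin d))) := by
        apply Ideal.subset_span
        exact ⟨j, by simp [hj, hj1], rfl⟩
      exact Ideal.map_mono (Ideal.span_mono
        ((Set.subset_insert _ _).trans (Set.subset_insert _ _))) (hle h4)

theorem reg_crit_two {W A C : Type} [CommRing W] [IsNoetherianRing W] [CommRing A]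
    [CommRing C] [IsRegularRing C]
    (pr : W →+* A) (hpr : Function.Surjective pr)
    (S : Finset W) (hS : RingHom.ker pr = Ideal.span (S : Set W))
    (q : Ideal A) [q.IsPrime]
    (θ : W →+* C) (hθ : Function.Surjective θ) (hker : RingHom.ker θ ≤ q.comap pr)
    (a : Finset W) (ha : ∀ x ∈ a, pr x ∈ q)
    (hloc : ∀ x ∈ RingHom.ker θ, ∃ c, pr c ∉ q ∧ pr (c * x) ∈ Ideal.span (pr '' (a : Set W)))
    (E₁ E₂ : W) (hE₁ : pr E₁ = 0) (hE₂ : pr E₂ = 0)
    (hE : ∀ c₁ c₂ : C, c₁ * θ E₁ + c₂ * θ E₂ ∈ ((q.comap pr).map θ) ^ 2 →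
      c₁ ∈ (q.comap pr).map θ ∧ c₂ ∈ (q.comap pr).map θ)
    (hht : ((a.card + S.card : ℕ) : ℕ∞) ≤ (RingHom.ker θ).height + 2) :
    IsRegularLocalRing (Localization.AtPrime q) := by
  have hP : ((q.comap pr).map θ).IsPrime := Ideal.map_isPrime_of_surjective hθ hker
  have hcomap : ((q.comap pr).map θ).comap θ = q.comap pr := by
    rw [Ideal.comap_map_of_surjective θ hθ]
    exact sup_eq_left.2 (by
      intro x hx
      exact hker (by simpa using hx))
  have hEq : ∀ E, pr E = 0 → θ E ∈ (q.comap pr).map θ := by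
    intro E hE
    apply Ideal.mem_map_of_mem
    rw [Ideal.mem_comap, hE]
    exact q.zero_mem
  obtain ⟨G, hG, hcard, hgen⟩ := exists_local_gens_two ((q.comap pr).map θ) (θ E₁) (θ E₂)
    (hEq _ hE₁) (hEq _ hE₂) hE
  refine reg_core pr hpr S hS q θ hθ hker a ha hloc {E₁, E₂} ?_ G hG ?_ ?_
  · rintro x (rfl | rfl)
    · exact hE₁
    · exact hE₂
  · intro y hy
    obtain ⟨c, hc, hcy⟩ := hgen y hy
    refine ⟨c, hc, ?_⟩
    rw [Set.image_pair]
    convert hcy using 2
    ext x
    simp [or_assoc]
  · have h1 := height_comap_ge θ hθ (G.card + 2) _ hcard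
    rw [hcomap] at h1
    refine le_trans ?_ h1
    calc ((a.card + G.card + S.card : ℕ) : ℕ∞) = ((a.card + S.card : ℕ) : ℕ∞) + G.card := by
          push_cast; ring
      _ ≤ ((RingHom.ker θ).height + 2) + G.card := by gcongr
      _ = _ := by push_cast; ring

end RA2aux

open RAaux RA2aux in
theorem RA2_ok : S_RA2 := by
  intro R A σ _ _ _ _ _ π hπ pr hpr h E₁ E₂ hE q _ hσ i₁ i₂ hdet
  classical
  set E0 : MvPolynomial (Option σ) R := C π - X none * h with hE0
  have hpr0 : pr E0 = 0 := by
    rw [← RingHom.mem_ker, hE]; exact Ideal.subset_span (by simp)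
  have hpr1 : pr E₁ = 0 := by
    rw [← RingHom.mem_ker, hE]; exact Ideal.subset_span (by simp)
  have hpr2 : pr E₂ = 0 := by
    rw [← RingHom.mem_ker, hE]; exact Ideal.subset_span (by simp)
  have hpi : pr (C π) = pr (X none) * pr h := by
    have := hpr0
    rw [hE0, map_sub, sub_eq_zero, map_mul] at this
    exact this
  have hspan : ∀ x ∈ RingHom.ker (TH R σ), pr x ∈ Ideal.span {pr (X none)} := by
    intro x hx
    have h1 := ker_TH π hπ hx
    have h2 : Ideal.span {X none, C π} ≤ (Ideal.span {pr (X none)}).comap pr := by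
      rw [Ideal.span_le]
      rintro y (rfl | rfl)
      · exact Ideal.mem_span_singleton_self _
      · rw [SetLike.mem_coe, Ideal.mem_comap, hpi]
        exact Ideal.mul_mem_right _ _ (Ideal.mem_span_singleton_self _)
    exact h2 h1
  have hker : RingHom.ker (TH R σ) ≤ q.comap pr := by
    intro x hx
    rw [Ideal.mem_comap]
    have h1 := hspan x hx
    have h2 : Ideal.span {pr (X none)} ≤ q := by
      rw [Ideal.span_le]
      rintro y rfl
      exact hσ
    exact h2 h1
  have hmp : ((q.comap pr).map (TH R σ)).IsPrime :=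
    Ideal.map_isPrime_of_surjective TH_surj hker
  have hcomap : ((q.comap pr).map (TH R σ)).comap (TH R σ) = q.comap pr := by
    rw [Ideal.comap_map_of_surjective (TH R σ) TH_surj]
    exact sup_eq_left.2 (by
      intro x hx
      exact hker (by simpa using hx))
  have hTE : ∀ E, pr E = 0 → TH R σ E ∈ (q.comap pr).map (TH R σ) := by
    intro E hE
    apply Ideal.mem_map_of_mem
    rw [Ideal.mem_comap, hE]
    exact q.zero_mem
  have hD : ∀ i : σ, ∀ x ∈ ((q.comap pr).map (TH R σ)) ^ 2,
      pderiv i x ∈ (q.comap pr).map (TH R σ) := by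
    intro i x hx
    rw [pow_two] at hx
    refine Submodule.mul_induction_on hx ?_ ?_
    · intro y hy z hz
      rw [pderiv_mul]
      exact Ideal.add_mem _ (Ideal.mul_mem_left _ _ hz) (Ideal.mul_mem_right _ _ hy)
    · intro y z hy hz
      rw [map_add]
      exact Ideal.add_mem _ hy hz
  have hdet' : TH R σ (pderiv (some i₁) E₁ * pderiv (some i₂) E₂ -
      pderiv (some i₂) E₁ * pderiv (some i₁) E₂) ∉ (q.comap pr).map (TH R σ) := by
    intro h3
    rw [← Ideal.mem_comap, hcomap, Ideal.mem_comap] at h3
    exact hdet h3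
  refine reg_crit_two pr hpr {E0, E₁, E₂} ?_ q (TH R σ) TH_surj hker {X none} ?_ ?_ E₁ E₂
    hpr1 hpr2 ?_ ?_
  · rw [hE]
    congr 1
    simp
  · intro x hx
    rw [Finset.mem_singleton] at hx
    rw [hx]
    exact hσ
  · intro x hx
    refine ⟨1, ?_, ?_⟩
    · rw [map_one]
      intro h
      exact Ideal.IsPrime.ne_top ‹_› ((Ideal.eq_top_iff_one q).2 h)
    · rw [one_mul, Finset.coe_singleton, Set.image_singleton]
      exact hspan x hx
  · intro c₁ c₂ hc
    have key : ∀ i : σ, c₁ * TH R σ (pderiv (some i) E₁) + c₂ * TH R σ (pderiv (some i) E₂) ∈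
        (q.comap pr).map (TH R σ) := by
      intro i
      have h1 := hD i _ hc
      rw [map_add, pderiv_mul, pderiv_mul] at h1
      rw [TH_pderiv, TH_pderiv]
      have h3 := Ideal.sub_mem _ (Ideal.sub_mem _ h1
        (Ideal.mul_mem_left _ (pderiv i c₁) (hTE _ hpr1)))
        (Ideal.mul_mem_left _ (pderiv i c₂) (hTE _ hpr2))
      convert h3 using 1
      ring
    have k1 := key i₁
    have k2 := key i₂
    rw [map_sub, map_mul, map_mul] at hdet'
    constructor
    · refine (hmp.mem_or_mem (x := c₁) (y := _) ?_).resolve_right hdet'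
      have h3 := Ideal.sub_mem _ (Ideal.mul_mem_left _ (TH R σ (pderiv (some i₂) E₂)) k1)
        (Ideal.mul_mem_left _ (TH R σ (pderiv (some i₁) E₂)) k2)
      convert h3 using 1
      ring
    · refine (hmp.mem_or_mem (x := c₂) (y := _) ?_).resolve_right hdet'
      have h3 := Ideal.sub_mem _ (Ideal.mul_mem_left _ (TH R σ (pderiv (some i₁) E₁)) k2)
        (Ideal.mul_mem_left _ (TH R σ (pderiv (some i₂) E₁)) k1)
      convert h3 using 1
      ring
  · have h3 := height_ker (J := σ) π hπ
    have hc : ({X none} : Finset (MvPolynomial (Option σ) R)).card +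
        ({E0, E₁, E₂} : Finset (MvPolynomial (Option σ) R)).card ≤ 4 := by
      have := Finset.card_le_three (a := E0) (b := E₁) (c := E₂)
      rw [Finset.card_singleton]
      omega
    calc _ ≤ ((4 : ℕ) : ℕ∞) := by exact_mod_cast hc
      _ = 2 + 2 := by norm_num
      _ ≤ _ := by gcongr

end Pool.Agent.H945R2.S
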