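import Pool.Agent.H945R2.S.Props

/-! # SCZ: homogeneity of the factors -/

set_option autoImplicit false

open scoped Pointwise

namespace Pool.Agent.H945R2.S

open Pool.Agent.H918R2.Quad Pool.Agent.H945R2.D MvPolynomial

namespace SCZaux

section simf

variable (R : Type) {F : Type} [CommRing R] [Field F] [Algebra R F]

/-- equality up to the factor `μ` and units -/
def SimF (μ : F) (Φ Φ' : Set F) : Prop :=
  (∀ h ∈ Φ, ∃ h' ∈ Φ', ∃ ν : Rˣ, h = μ * algebraMap R F ν * h') ∧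
    ∀ h' ∈ Φ', ∃ h ∈ Φ, ∃ ν : Rˣ, h = μ * algebraMap R F ν * h'

variable {R}

theorem SimF.congr {μ μ' : F} {A A' : Set F} (h : SimF R μ A A') (he : μ = μ') :
    SimF R μ' A A' := he ▸ h

theorem SimF.union {μ : F} {A A' B B' : Set F} (h : SimF R μ A A') (h' : SimF R μ B B') :
    SimF R μ (A ∪ B) (A' ∪ B') := by
  constructor
  · rintro x (hx | hx)
    · obtain ⟨y, hy, ν, e⟩ := h.1 x hx
      exact ⟨y, Or.inl hy, ν, e⟩
    · obtain ⟨y, hy, ν, e⟩ := h'.1 x hx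
      exact ⟨y, Or.inr hy, ν, e⟩
  · rintro x (hx | hx)
    · obtain ⟨y, hy, ν, e⟩ := h.2 x hx
      exact ⟨y, Or.inl hy, ν, e⟩
    · obtain ⟨y, hy, ν, e⟩ := h'.2 x hx
      exact ⟨y, Or.inr hy, ν, e⟩

theorem SimF.mul {μ μ' : F} {A A' B B' : Set F} (h : SimF R μ A A') (h' : SimF R μ' B B') :
    SimF R (μ * μ') (A * B) (A' * B') := by
  constructor
  · rintro _ ⟨a, ha, b, hb, rfl⟩
    obtain ⟨a', ha', ν, rfl⟩ := h.1 a ha
    obtain ⟨b', hb', ν', rfl⟩ := h'.1 b hb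
    refine ⟨a' * b', Set.mul_mem_mul ha' hb', ν * ν', ?_⟩
    simp only [Units.val_mul, map_mul]
    ring
  · rintro _ ⟨a', ha', b', hb', rfl⟩
    obtain ⟨a, ha, ν, e1⟩ := h.2 a' ha'
    obtain ⟨b, hb, ν', e2⟩ := h'.2 b' hb'
    refine ⟨a * b, Set.mul_mem_mul ha hb, ν * ν', ?_⟩
    simp only [Units.val_mul, map_mul, e1, e2]
    ring

theorem SimF.single {μ a a' : F} (ν : Rˣ) (h : a = μ * algebraMap R F ν * a') :
    SimF R μ {a} {a'} := by
  constructor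
  · rintro x hx
    rw [Set.mem_singleton_iff] at hx
    exact ⟨a', rfl, ν, by rw [hx, h]⟩
  · rintro x hx
    rw [Set.mem_singleton_iff] at hx
    exact ⟨a, rfl, ν, by rw [hx, h]⟩

theorem SimF.same (a : F) : SimF R (1 : F) {a} {a} :=
  SimF.single 1 (by simp)

theorem SimF.pow {μ : F} {A A' : Set F} (h : SimF R μ A A') (n : ℕ) :
    SimF R (μ ^ n) (A ^ n) (A' ^ n) := by
  induction n with
  | zero =>
    rw [pow_zero, pow_zero, pow_zero]
    exact SimF.same 1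
  | succ n ih =>
    rw [pow_succ, pow_succ, pow_succ]
    exact ih.mul h

theorem SimF.range {ι : Type} {μ : F} {f f' : ι → F} (ν : Rˣ)
    (h : ∀ i, f i = μ * algebraMap R F ν * f' i) : SimF R μ (Set.range f) (Set.range f') := by
  constructor
  · rintro _ ⟨i, rfl⟩
    exact ⟨f' i, ⟨i, rfl⟩, ν, h i⟩
  · rintro _ ⟨i, rfl⟩
    exact ⟨f i, ⟨i, rfl⟩, ν, h i⟩

theorem sim_symm {A A' : Set F} (h : Sim R A A') : Sim R A' A := by
  obtain ⟨μ, hμ, h1, h2⟩ := h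
  have key : ∀ (a a' : F) (ν : Rˣ), a = μ * algebraMap R F ν * a' →
      a' = μ⁻¹ * algebraMap R F (ν⁻¹ : Rˣ) * a := by
    intro a a' ν e
    have h3 : algebraMap R F (ν⁻¹ : Rˣ) * algebraMap R F ν = 1 := by
      rw [← map_mul, Units.inv_mul, map_one]
    rw [e]
    calc a' = (μ⁻¹ * μ) * (algebraMap R F (ν⁻¹ : Rˣ) * algebraMap R F ν) * a' := by
          rw [h3, inv_mul_cancel₀ hμ, one_mul, one_mul]
      _ = _ := by ring
  refine ⟨μ⁻¹, inv_ne_zero hμ, ?_, ?_⟩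
  · intro a' ha'
    obtain ⟨a, ha, ν, e⟩ := h2 a' ha'
    exact ⟨a, ha, ν⁻¹, key a a' ν e⟩
  · intro a ha
    obtain ⟨a', ha', ν, e⟩ := h1 a ha
    exact ⟨a', ha', ν⁻¹, key a a' ν e⟩

end simf

section sets

variable {F : Type} [Field F] {ι : Type} [Fintype ι]

theorem Ifs_eq (p e : ℕ) (x X : ι → F) (j : ℕ) :
    Ifs p e x X j = {(p : F)} * Set.range x ^ (e * j) ∪ {(∑ i, X i) ^ j} := by
  ext h
  simp only [Ifs, Set.mem_ofPred_eq, Set.mem_union, Set.singleton_mul, Set.mem_image,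
    Set.mem_singleton_iff]
  constructor
  · rintro (⟨y, hy, rfl⟩ | rfl)
    · exact Or.inl ⟨y, hy, rfl⟩
    · exact Or.inr rfl
  · rintro (⟨y, hy, rfl⟩ | rfl)
    · exact Or.inl ⟨y, hy, rfl⟩
    · exact Or.inr rfl

theorem B0_eq (p e : ℕ) (x X : ι → F) (s : ι) (c : ι → ℕ) (β : F) :
    B0 p e x X s c β = {(p : F) ^ 2} * Set.range x ^ e ∪ ({(∑ i, X i) + (p : F) * β * X s} ∪
      Set.range (fun i => (p : F) * (X i - (c i : F) * X s))) := by
  ext h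
  simp only [B0, Set.mem_ofPred_eq, Set.mem_union, Set.singleton_mul, Set.mem_image,
    Set.mem_singleton_iff, Set.mem_range]
  constructor
  · rintro (⟨y, hy, rfl⟩ | rfl | ⟨i, rfl⟩)
    · exact Or.inl ⟨y, hy, rfl⟩
    · exact Or.inr (Or.inl rfl)
    · exact Or.inr (Or.inr ⟨i, rfl⟩)
  · rintro (⟨y, hy, rfl⟩ | rfl | ⟨i, rfl⟩)
    · exact Or.inl ⟨y, hy, rfl⟩
    · exact Or.inr (Or.inl rfl)
    · exact Or.inr (Or.inr ⟨i, rfl⟩)

theorem Bj_eq (p e : ℕ) (x X : ι → F) (s : ι) (c : ι → ℕ) (j : ℕ) :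
    Bj p e x X s c j = {(p : F) ^ 2} * Set.range x ^ (e * (2 * j + 1)) ∪
      ({(∑ i, X i) ^ (2 * j + 1)} ∪ ({(p : F) * (∑ i, X i) ^ j} *
        Set.range (fun i => X i - (c i : F) * X s)) * Set.range x ^ (e * j)) := by
  ext h
  simp only [Bj, Set.mem_ofPred_eq, Set.mem_union, Set.singleton_mul, Set.mem_image,
    Set.mem_singleton_iff, Set.mem_range, Set.mem_mul]
  constructor
  · rintro (⟨y, hy, rfl⟩ | rfl | ⟨i, y, hy, rfl⟩)
    · exact Or.inl ⟨y, hy, rfl⟩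
    · exact Or.inr (Or.inl rfl)
    · exact Or.inr (Or.inr ⟨_, ⟨_, ⟨i, rfl⟩, rfl⟩, y, hy, rfl⟩)
  · rintro (⟨y, hy, rfl⟩ | rfl | ⟨_, ⟨_, ⟨i, rfl⟩, rfl⟩, y, hy, rfl⟩)
    · exact Or.inl ⟨y, hy, rfl⟩
    · exact Or.inr (Or.inl rfl)
    · exact Or.inr (Or.inr ⟨i, y, hy, rfl⟩)

theorem Bl_eq (p e : ℕ) (x X : ι → F) (s : ι) (c : ι → ℕ) :
    Bl p e x X s c = {(p : F) ^ 2} * Set.range x ^ (e * p) ∪
      ({(p : F) * (∑ i, X i)} * Set.range x ^ (e * (p - 1)) ∪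
      (Set.range (fun i => ((p : F) * X s ^ (p - 1) + (∑ i, X i) ^ (p - 1)) * X i) ∪
      Set.range (fun i => (p : F) * (X i - (c i : F) * X s)) * Set.range x ^ (e * (p - 1)))) := by
  ext h
  simp only [Bl, Set.mem_ofPred_eq, Set.mem_union, Set.singleton_mul, Set.mem_image,
    Set.mem_range, Set.mem_mul]
  constructor
  · rintro (⟨y, hy, rfl⟩ | ⟨y, hy, rfl⟩ | ⟨i, rfl⟩ | ⟨i, y, hy, rfl⟩)
    · exact Or.inl ⟨y, hy, rfl⟩
    · exact Or.inr (Or.inl ⟨y, hy, rfl⟩)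
    · exact Or.inr (Or.inr (Or.inl ⟨i, rfl⟩))
    · exact Or.inr (Or.inr (Or.inr ⟨_, ⟨i, rfl⟩, y, hy, rfl⟩))
  · rintro (⟨y, hy, rfl⟩ | ⟨y, hy, rfl⟩ | ⟨i, rfl⟩ | ⟨_, ⟨i, rfl⟩, y, hy, rfl⟩)
    · exact Or.inl ⟨y, hy, rfl⟩
    · exact Or.inr (Or.inl ⟨y, hy, rfl⟩)
    · exact Or.inr (Or.inr (Or.inl ⟨i, rfl⟩))
    · exact Or.inr (Or.inr (Or.inr ⟨i, y, hy, rfl⟩))

end sets

section main

variable {R F ι : Type} [CommRing R] [Field F] [Algebra R F] [Fintype ι]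

theorem sum_smul (t : ι → F) (Lam : F) : ∑ i, Lam * t i = Lam * ∑ i, t i :=
  (Finset.mul_sum _ _ _).symm

omit [Fintype ι] in
theorem range_sim (ξ : ι → F) (lam : F) :
    SimF R lam (Set.range (fun i => lam * ξ i)) (Set.range ξ) :=
  SimF.range 1 fun i => by simp

omit [Fintype ι] in
theorem Yc_sim (ξ : ι → F) (lam : F) (c : ι → ℕ) :
    SimF R lam (Yc (fun i => lam * ξ i) c) (Yc ξ c) := by
  constructor
  · rintro _ ⟨i, hi, rfl⟩
    exact ⟨ξ i, ⟨i, hi, rfl⟩, 1, by simp⟩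
  · rintro _ ⟨i, hi, rfl⟩
    exact ⟨lam * ξ i, ⟨i, hi, rfl⟩, 1, by simp⟩

theorem Ifs_sim (p e : ℕ) (ξ t : ι → F) (lam Lam : F) (ν : Rˣ)
    (hL : Lam = lam ^ e * algebraMap R F ν) (j : ℕ) :
    SimF R (lam ^ (e * j)) (Ifs p e (fun i => lam * ξ i) (fun i => Lam * t i) j)
      (Ifs p e ξ t j) := by
  rw [Ifs_eq, Ifs_eq]
  refine SimF.union ?_ ?_
  · exact ((SimF.same (p : F)).mul ((range_sim ξ lam).pow (e * j))).congr (one_mul _)
  · refine SimF.single (ν ^ j) ?_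
    rw [sum_smul, hL, mul_pow, mul_pow, Units.val_pow_eq_pow_val, map_pow, ← pow_mul]

theorem B0_sim (p e : ℕ) (ξ t : ι → F) (lam Lam : F) (ν : Rˣ)
    (hL : Lam = lam ^ e * algebraMap R F ν) (s : ι) (c : ι → ℕ) (β : F) :
    SimF R (lam ^ e) (B0 p e (fun i => lam * ξ i) (fun i => Lam * t i) s c β)
      (B0 p e ξ t s c β) := by
  rw [B0_eq, B0_eq]
  refine SimF.union ?_ (SimF.union ?_ ?_)
  · exact ((SimF.same ((p : F) ^ 2)).mul ((range_sim ξ lam).pow e)).congr (one_mul _)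
  · refine SimF.single ν ?_
    rw [sum_smul, hL]
    ring
  · refine SimF.range ν fun i => ?_
    rw [hL]
    ring

theorem Bj_sim (p e : ℕ) (ξ t : ι → F) (lam Lam : F) (ν : Rˣ)
    (hL : Lam = lam ^ e * algebraMap R F ν) (s : ι) (c : ι → ℕ) (j : ℕ) :
    SimF R (lam ^ (e * (2 * j + 1))) (Bj p e (fun i => lam * ξ i) (fun i => Lam * t i) s c j)
      (Bj p e ξ t s c j) := by
  rw [Bj_eq, Bj_eq]
  refine SimF.union ?_ (SimF.union ?_ ?_)
  · exact ((SimF.same ((p : F) ^ 2)).mul ((range_sim ξ lam).pow _)).congr (one_mul _)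
  · refine SimF.single (ν ^ (2 * j + 1)) ?_
    rw [sum_smul, hL, mul_pow, mul_pow, Units.val_pow_eq_pow_val, map_pow, ← pow_mul]
  · have h1 : SimF R (lam ^ (e * j)) {(p : F) * (∑ i, Lam * t i) ^ j}
        {(p : F) * (∑ i, t i) ^ j} := by
      refine SimF.single (ν ^ j) ?_
      rw [sum_smul, hL, mul_pow, mul_pow, Units.val_pow_eq_pow_val, map_pow, ← pow_mul]
      ring
    have h2 : SimF R (lam ^ e) (Set.range (fun i => Lam * t i - (c i : F) * (Lam * t s)))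
        (Set.range (fun i => t i - (c i : F) * t s)) := by
      refine SimF.range ν fun i => ?_
      rw [hL]
      ring
    refine ((h1.mul h2).mul ((range_sim ξ lam).pow (e * j))).congr ?_
    rw [← pow_add, ← pow_add]
    congr 1
    ring

theorem Bl_sim (p e : ℕ) (hp : 1 ≤ p) (ξ t : ι → F) (lam Lam : F) (ν : Rˣ)
    (hL : Lam = lam ^ e * algebraMap R F ν) (s : ι) (c : ι → ℕ) :
    SimF R (lam ^ (e * p)) (Bl p e (fun i => lam * ξ i) (fun i => Lam * t i) s c)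
      (Bl p e ξ t s c) := by
  obtain ⟨P, rfl⟩ : ∃ P, p = P + 1 := ⟨p - 1, by omega⟩
  rw [Bl_eq, Bl_eq]
  simp only [Nat.add_sub_cancel]
  have hr : SimF R (lam ^ (e * P)) (Set.range (fun i => lam * ξ i) ^ (e * P))
      (Set.range ξ ^ (e * P)) := (range_sim ξ lam).pow _
  refine SimF.union ?_ (SimF.union ?_ (SimF.union ?_ ?_))
  · exact ((SimF.same (((P + 1 : ℕ) : F) ^ 2)).mul ((range_sim ξ lam).pow _)).congr (one_mul _)
  · have h1 : SimF R (lam ^ e) {((P + 1 : ℕ) : F) * (∑ i, Lam * t i)}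
        {((P + 1 : ℕ) : F) * (∑ i, t i)} := by
      refine SimF.single ν ?_
      rw [sum_smul, hL]
      ring
    refine (h1.mul hr).congr ?_
    rw [← pow_add]
    congr 1
    ring
  · refine SimF.range (ν ^ (P + 1)) fun i => ?_
    rw [sum_smul, hL, Units.val_pow_eq_pow_val, map_pow, pow_mul]
    ring
  · have h1 : SimF R (lam ^ e) (Set.range (fun i => ((P + 1 : ℕ) : F) *
        (Lam * t i - (c i : F) * (Lam * t s))))
        (Set.range (fun i => ((P + 1 : ℕ) : F) * (t i - (c i : F) * t s))) := by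
      refine SimF.range ν fun i => ?_
      rw [hL]
      ring
    refine (h1.mul hr).congr ?_
    rw [← pow_add]
    congr 1
    ring

theorem base_sim (p e : ℕ) (hp : 1 ≤ p) (ξ t : ι → F) (lam Lam : F) (ν : Rˣ)
    (hL : Lam = lam ^ e * algebraMap R F ν) (s : ι) (c : ι → ℕ) (β : F) (B : Set F) (μ : F) (n : ℕ)
    (h : IsBase p e (fun i => lam * ξ i) (fun i => Lam * t i) s c β B μ n) :
    ∃ (B' : Set F) (μ' : F) (D : ℕ), IsBase p e ξ t s c β B' μ' n ∧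
      SimF R (lam ^ (n + D)) B B' ∧ (∃ κ : Rˣ, μ = lam ^ D * algebraMap R F κ * μ') ∧ e ≤ n := by
  rcases h with ⟨rfl, rfl, hn⟩ | ⟨j, hj1, hj2, rfl, rfl, rfl⟩ | ⟨rfl, rfl, rfl⟩
  · exact ⟨_, _, 0, Or.inl ⟨rfl, rfl, hn⟩, (B0_sim p e ξ t lam Lam ν hL s c β).congr
      (by rw [hn, add_zero]), ⟨1, by simp⟩, hn.ge⟩
  · refine ⟨_, _, e * j, Or.inr (Or.inl ⟨j, hj1, hj2, rfl, rfl, rfl⟩),
      (Bj_sim p e ξ t lam Lam ν hL s c j).congr ?_, ⟨ν ^ j, ?_⟩, ?_⟩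
    · congr 1
      ring
    · rw [sum_smul, hL, mul_pow, mul_pow, Units.val_pow_eq_pow_val, map_pow, ← pow_mul]
      ring
    · nlinarith
  · refine ⟨_, _, 0, Or.inr (Or.inr ⟨rfl, rfl, rfl⟩),
      (Bl_sim p e hp ξ t lam Lam ν hL s c), ⟨1, by simp⟩, ?_⟩
    nlinarith

theorem fc_eq (t : ι → F) (Lam : F) (c : ι → ℕ) : fc (fun i => Lam * t i) c = Lam * fc t c := by
  unfold fc
  rw [Finset.mul_sum]
  refine Finset.sum_congr rfl fun i _ => ?_
  split_ifs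
  · rfl
  · rw [mul_zero]

theorem fwd [LinearOrder ι] (p e h : ℕ) (hp : 1 ≤ p) (_hh : 1 ≤ h) (he : e = 2 * h ∨ e = 2 * h + 1)
    (g : MvPolynomial ι R) (ξ t : ι → F) (lam Lam : F) (ν : Rˣ) (hlam : lam ≠ 0)
    (hL : Lam = lam ^ e * algebraMap R F ν) (Φ : Set F)
    (hΦ : IsFacS p e h g (fun i => lam * ξ i) (fun i => Lam * t i) Φ) :
    ∃ Φ', IsFacS p e h g ξ t Φ' ∧ Sim R Φ Φ' := by
  have out : ∀ {μ : F} {Φ'}, μ ≠ 0 → SimF R μ Φ Φ' → Sim R Φ Φ' := fun hμ hs => ⟨_, hμ, hs.1, hs.2⟩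
  rcases hΦ with rfl | ⟨j, hj1, hj2, rfl⟩ | ⟨s, c, β, hsp, hlt, B, μ, n, hB, hk⟩
  · exact ⟨_, Or.inl rfl, out hlam (range_sim ξ lam)⟩
  · exact ⟨_, Or.inr (Or.inl ⟨j, hj1, hj2, rfl⟩), out (pow_ne_zero _ hlam)
      (Ifs_sim p e ξ t lam Lam ν hL j)⟩
  · obtain ⟨B', μ', D, hB', hBB, ⟨κ, hκ⟩, hen⟩ := base_sim p e hp ξ t lam Lam ν hL s c _ B μ n hB
    have hV : SimF R lam (Set.range (fun i => lam * ξ i)) (Set.range ξ) := range_sim ξ lam
    have hY : SimF R lam (Yc (fun i => lam * ξ i) c) (Yc ξ c) := Yc_sim ξ lam c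
    have hμ : ∀ m : ℕ, SimF R (lam ^ (D * m)) {μ ^ m} {μ' ^ m} := by
      intro m
      refine SimF.single (κ ^ m) ?_
      rw [hκ, mul_pow, mul_pow, Units.val_pow_eq_pow_val, map_pow, ← pow_mul]
    rcases hk with ⟨k, hk1, hk2, rfl⟩ | ⟨he', rfl⟩
    · refine ⟨_, Or.inr (Or.inr ⟨s, c, β, hsp, hlt, B', μ', n, hB', Or.inl ⟨k, hk1, hk2, rfl⟩⟩),
        out (pow_ne_zero (n + D) hlam) ?_⟩
      unfold Nd
      refine hBB.union ?_
      have h1 := hμ 1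
      rw [pow_one, pow_one, mul_one] at h1
      refine ((h1.mul (hY.pow k)).mul (hV.pow (n - k))).congr ?_
      rw [← pow_add, ← pow_add]
      congr 1
      omega
    · refine ⟨_, Or.inr (Or.inr ⟨s, c, β, hsp, hlt, B', μ', n, hB', Or.inr ⟨he', rfl⟩⟩),
        out (pow_ne_zero (3 * (n + D)) hlam) ?_⟩
      unfold Cd
      refine SimF.union (SimF.union (SimF.union (SimF.union ?_ ?_) ?_) ?_) ?_
      · refine (hBB.pow 3).congr ?_
        rw [← pow_mul]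
        congr 1
        ring
      · have h1 := hμ 1
        rw [pow_one, pow_one, mul_one] at h1
        refine ((((hBB.pow 2).mul h1).mul hY).mul (hV.pow (n - 1))).congr ?_
        rw [← pow_mul, ← pow_add, ← pow_succ, ← pow_add]
        congr 1
        omega
      · refine (((hBB.mul (hμ 2)).mul (hY.pow (h + 1))).mul (hV.pow (2 * n - h - 1))).congr ?_
        rw [← pow_add, ← pow_add, ← pow_add]
        congr 1
        omega
      · refine (((hμ 3).mul (hY.pow (2 * h + 2))).mul (hV.pow (3 * n - 2 * h - 2))).congr ?_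
        rw [← pow_add, ← pow_add]
        congr 1
        omega
      · have h1 : SimF R (lam ^ (D * 3 + e)) {μ ^ 3 * fc (fun i => Lam * t i) c}
            {μ' ^ 3 * fc t c} := by
          refine SimF.single (κ ^ 3 * ν) ?_
          rw [fc_eq, hκ, hL]
          simp only [Units.val_mul, Units.val_pow_eq_pow_val, map_mul, map_pow, pow_add, pow_mul]
          ring
        refine (h1.mul (hV.pow (3 * n - 2 * h - 1))).congr ?_
        rw [← pow_add]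
        congr 1
        omega

end main

end SCZaux

open SCZaux

theorem SCZ_ok : S_SCZ := by
  intro R F ι _ _ _ _ _ p e h hp hh he g ξ t lam Lam ν hlam hL
  refine ⟨fun Φ hΦ => fwd p e h hp hh he g ξ t lam Lam ν hlam hL Φ hΦ, fun Φ' hΦ' => ?_⟩
  have hν : algebraMap R F (ν⁻¹ : Rˣ) * algebraMap R F ν = 1 := by
    rw [← map_mul, Units.inv_mul, map_one]
  have hν0 : algebraMap R F (ν : R) ≠ 0 := right_ne_zero_of_mul_eq_one hν
  have hLam : Lam ≠ 0 := by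
    rw [hL]
    exact mul_ne_zero (pow_ne_zero _ hlam) hν0
  have hL' : Lam⁻¹ = lam⁻¹ ^ e * algebraMap R F (ν⁻¹ : Rˣ) := by
    rw [hL, mul_inv, inv_pow]
    congr 1
    exact (eq_inv_of_mul_eq_one_left hν).symm
  have e1 : (fun i => lam⁻¹ * (lam * ξ i)) = ξ := by
    funext i
    rw [← mul_assoc, inv_mul_cancel₀ hlam, one_mul]
  have e2 : (fun i => Lam⁻¹ * (Lam * t i)) = t := by
    funext i
    rw [← mul_assoc, inv_mul_cancel₀ hLam, one_mul]
  obtain ⟨Φ, hΦ, hs⟩ := fwd p e h hp hh he g (fun i => lam * ξ i) (fun i => Lam * t i) lam⁻¹ Lam⁻¹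
    ν⁻¹ (inv_ne_zero hlam) hL' Φ' (by rw [e1, e2]; exact hΦ')
  exact ⟨Φ, hΦ, sim_symm hs⟩

end Pool.Agent.H945R2.S
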