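import Pool.Agent.H945R2.S.Props
import Pool.Agent.H945R2.D.EXPJ

/-! Task EXPZJ: second order expansion, kind `j` (MP_4d1008_ag). -/

set_option autoImplicit false

open scoped Pointwise

namespace Pool.Agent.H945R2.S

open Pool.Agent.H918R2.Quad Pool.Agent.H945R2.D MvPolynomial

namespace EXPZJaux

variable {B : Type} [CommRing B]

/-- the error ideal -/
abbrev J (u t : Ideal B) : Ideal B := u ^ 3 ⊔ u * t ⊔ t ^ 2

theorem u3 {u t : Ideal B} {x : B} (h : x ∈ u ^ 3) : x ∈ J u t :=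
  Ideal.mem_sup_left (Ideal.mem_sup_left h)

theorem ut {u t : Ideal B} {x : B} (h : x ∈ u * t) : x ∈ J u t :=
  Ideal.mem_sup_left (Ideal.mem_sup_right h)

theorem tt {u t : Ideal B} {x : B} (h : x ∈ t ^ 2) : x ∈ J u t :=
  Ideal.mem_sup_right h

/-- `(u² + t)(u + t) ⊆ J` -/
theorem prod_mem {u t : Ideal B} {x y : B} (hx : x ∈ u ^ 2 ⊔ t) (hy : y ∈ u ⊔ t) :
    x * y ∈ J u t := by
  have h := Ideal.mul_mem_mul hx hy
  rw [Ideal.sup_mul, Ideal.mul_sup, Ideal.mul_sup] at h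
  have h1 : u ^ 2 * u ≤ J u t := by
    rw [← pow_succ]
    exact fun z hz => u3 hz
  have h2 : u ^ 2 * t ≤ J u t := by
    intro z hz
    have : u ^ 2 * t ≤ u * t := by
      rw [pow_two, mul_assoc]
      exact Ideal.mul_mono_right (Ideal.mul_le_right.trans le_rfl)
    exact ut (this hz)
  have h3 : t * u ≤ J u t := by
    rw [mul_comm]
    exact fun z hz => ut hz
  have h4 : t * t ≤ J u t := by
    rw [← pow_two]
    exact fun z hz => tt hz
  exact (sup_le (sup_le h1 h2) (sup_le h3 h4)) h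

theorem mono_mem {u : Ideal B} {a b : B} (ha : a ∈ u) (hb : b ∈ u) (m n : ℕ) (h : 3 ≤ m + n) :
    a ^ m * b ^ n ∈ u ^ 3 := by
  have h1 : a ^ m * b ^ n ∈ u ^ (m + n) := by
    rw [pow_add]
    exact Ideal.mul_mem_mul (Ideal.pow_mem_pow ha m) (Ideal.pow_mem_pow hb n)
  exact Ideal.pow_le_pow_right h h1

end EXPZJaux

open EXPZJaux

theorem EXPZJ_ok (hT : S_TAYZ2) (hS : S_SUMZ) : S_EXPZJ := by
  intro R ι _ _ _ _ p co g hco s c β hsp Z hZ d hd hdZ j hj1 hj2 B _ _ Y w hp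
  classical
  have hκ : ∀ i, ∃ κ : R, (c i ≠ 0 → co i * (c i : R) ^ (p - 1) = 1 + p * κ) ∧
      (c i = 0 → κ = 0) := by
    intro i
    by_cases h : c i = 0
    · exact ⟨0, fun h' => absurd h h', fun _ => rfl⟩
    · obtain ⟨κ, hκ⟩ := EXPJaux.kap p hco.prime (co i) (hco.one i) (c i) (by omega) (hsp.lt i)
      exact ⟨κ, fun _ => hκ, fun h' => absurd h' h⟩
  choose κ hκ1 hκ2 using hκ
  obtain ⟨σ, hσ⟩ := hsp.sum
  have hsZ : s ∉ Z := fun h => by
    have h1 := (hZ s).1 h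
    rw [hsp.one] at h1
    omega
  rw [map_zero, sub_zero] at hp
  rw [map_zero, sub_zero]
  obtain ⟨a, ha⟩ : ∃ a : B, a = Y none := ⟨_, rfl⟩
  obtain ⟨b, hb⟩ : ∃ b : B, b = Y (some none) := ⟨_, rfl⟩
  obtain ⟨v, hv⟩ : ∃ v : TT Z s d → B, v = fun k => Y (some (some k)) := ⟨_, rfl⟩
  obtain ⟨u, hu⟩ : ∃ u : Ideal B, u = Ideal.span (Set.range Y) := ⟨_, rfl⟩
  obtain ⟨t, ht⟩ : ∃ t : Ideal B, t = Ideal.span (Set.range w) := ⟨_, rfl⟩
  have hau : a ∈ u := by rw [hu, ha]; exact Ideal.subset_span ⟨_, rfl⟩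
  have hbu : b ∈ u := by rw [hu, hb]; exact Ideal.subset_span ⟨_, rfl⟩
  have hvu : ∀ k, v k ∈ u := fun k => by rw [hu, hv]; exact Ideal.subset_span ⟨_, rfl⟩
  have hwt : ∀ z, w z ∈ t := fun z => by rw [ht]; exact Ideal.subset_span ⟨_, rfl⟩
  rw [← ha, ← hb] at hp
  -- the values
  obtain ⟨T, hTd⟩ : ∃ T : ι → B, T = TcZ Z s d (fun i => (c i : B)) v w (a * b) := ⟨_, rfl⟩
  have Ts : T s = 1 := by
    rw [hTd]
    unfold TcZ
    rw [dif_neg hsZ, dif_pos rfl]
  have Tk : ∀ k : TT Z s d, T k = (c k : B) + v k := by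
    intro k
    rw [hTd]
    unfold TcZ
    rw [dif_neg k.2.1, dif_neg k.2.2.1, dif_neg k.2.2.2]
  have Tzz : ∀ z : ZT Z, T z = w z := by
    intro z
    rw [hTd]
    unfold TcZ
    rw [dif_pos z.2]
  obtain ⟨S, hSd⟩ : ∃ S : B, S = ∑ k, v k := ⟨_, rfl⟩
  obtain ⟨W, hWd⟩ : ∃ W : B, W = ∑ z, w z := ⟨_, rfl⟩
  have hSu : S ∈ u := by rw [hSd]; exact Ideal.sum_mem _ (fun k _ => hvu k)
  have hWt : W ∈ t := by rw [hWd]; exact Ideal.sum_mem _ (fun k _ => hwt k)
  have hsum := fun (f : ι → B) => (hS (B := B) Z s d hd hsZ hdZ (fun i => (c i : B)) v w (a * b)).2 f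
  have hsumT : ∑ i, T i = a * b := by
    rw [hTd]
    exact (hS (B := B) Z s d hd hsZ hdZ (fun i => (c i : B)) v w (a * b)).1
  have hcz : ∀ z : ZT Z, (c z : B) = 0 := fun z => by rw [(hZ z).1 z.2, Nat.cast_zero]
  have hcsum : (1 : B) + c d + ∑ k : TT Z s d, (c k : B) = p * σ := by
    have h1 := hsum (fun i => (c i : B))
    simp only [hcz, Finset.sum_const_zero, add_zero, hsp.one, Nat.cast_one] at h1
    rw [← h1, ← Nat.cast_sum, hσ]
    push_cast
    ring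
  have hTsum : (1 : B) + T d + (∑ k : TT Z s d, (c k : B) + S) + W = a * b := by
    have h1 := hsum T
    rw [hsumT, Ts] at h1
    simp only [Tk, Tzz, Finset.sum_add_distrib] at h1
    rw [← hSd, ← hWd] at h1
    rw [h1]
  obtain ⟨η, hη⟩ : ∃ η : ι → B, η = fun i => T i - (c i : B) := ⟨_, rfl⟩
  have ηs : η s = 0 := by rw [hη]; simp only; rw [Ts, hsp.one, Nat.cast_one, sub_self]
  have ηk : ∀ k : TT Z s d, η k = v k := fun k => by rw [hη]; simp only; rw [Tk]; ring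
  have ηz : ∀ z : ZT Z, η z = w z := fun z => by rw [hη]; simp only; rw [Tzz, hcz, sub_zero]
  obtain ⟨δ, hδ⟩ : ∃ δ : B, δ = a * b - p * σ - W := ⟨_, rfl⟩
  have ηd : η d = δ - S := by
    rw [hη, hδ]
    simp only
    linear_combination hTsum - hcsum
  have hp3 : (p : B) ∈ u ^ 3 := by
    rw [hp]
    exact mono_mem hau hbu _ _ (by omega)
  have hp2 : (p : B) ∈ u ^ 2 := Ideal.pow_le_pow_right (by norm_num) hp3
  have hp1 : (p : B) ∈ u := by
    have := Ideal.pow_le_pow_right (I := u) (by norm_num : 1 ≤ 3) hp3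
    rwa [pow_one] at this
  have hab2 : a * b ∈ u ^ 2 := by
    rw [pow_two]
    exact Ideal.mul_mem_mul hau hbu
  have hδm : δ ∈ u ^ 2 ⊔ t := by
    rw [hδ]
    exact Ideal.sub_mem _ (Ideal.mem_sup_left (Ideal.sub_mem _ hab2
      (Ideal.mul_mem_right _ _ hp2))) (Ideal.mem_sup_right hWt)
  have hu2 : u ^ 2 ⊔ t ≤ u ⊔ t := by
    apply sup_le_sup_right
    exact Ideal.pow_le_self (by norm_num)
  have hδm' : δ ∈ u ⊔ t := hu2 hδm
  have hηm : ∀ i, η i ∈ u ⊔ t := by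
    intro i
    by_cases hiZ : i ∈ Z
    · have : η i = w ⟨i, hiZ⟩ := ηz ⟨i, hiZ⟩
      rw [this]
      exact Ideal.mem_sup_right (hwt _)
    · by_cases h1 : i = s
      · rw [h1, ηs]
        exact Ideal.zero_mem _
      · by_cases h2 : i = d
        · rw [h2, ηd]
          exact Ideal.sub_mem _ hδm' (Ideal.mem_sup_left hSu)
        · have : η i = v ⟨i, hiZ, h1, h2⟩ := ηk ⟨i, hiZ, h1, h2⟩
          rw [this]
          exact Ideal.mem_sup_left (hvu _)
  have hmain := hT p co g hco s c β hsp κ hκ1 hκ2 u t η hp1 hηm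
  have hTη : (fun i => (c i : B) + η i) = T := by
    funext i
    rw [hη]
    simp
  have hTη' : ∑ i, ((c i : B) + η i) = a * b := by
    rw [← hsumT, ← hTη]
  have hfc : ∑ i, (if c i = 0 then η i else 0) = W := by
    have h1 := hsum (fun i => if c i = 0 then η i else 0)
    rw [h1]
    have h2 : ¬ c s = 0 := fun h => hsZ ((hZ s).2 h)
    have h3 : ¬ c d = 0 := fun h => hdZ ((hZ d).2 h)
    have h4 : ∀ k : TT Z s d, (if c k = 0 then η k else 0) = 0 :=
      fun k => if_neg (fun h => k.2.1 ((hZ _).2 h))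
    have h5 : ∀ z : ZT Z, (if c z = 0 then η z else 0) = w z := fun z => by
      rw [if_pos ((hZ z).1 z.2), ηz]
    simp only [h4, h5, if_neg h2, if_neg h3, Finset.sum_const_zero, zero_add]
    exact hWd.symm
  have hp2' : p - 2 ≠ 0 := by
    have := hco.prime.two_le
    have := hco.odd
    omega
  have hsq : ∑ i, algebraMap R B (co i) * (c i : B) ^ (p - 2) * η i ^ 2 =
      ∑ k : TT Z s d, algebraMap R B (co k) * (c k : B) ^ (p - 2) * v k ^ 2 +
        algebraMap R B (co d) * (c d : B) ^ (p - 2) * (δ - S) ^ 2 := by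
    rw [hsum (fun i => algebraMap R B (co i) * (c i : B) ^ (p - 2) * η i ^ 2)]
    simp only [ηs, ηd, ηk, hcz, zero_pow hp2', mul_zero, zero_mul, Finset.sum_const_zero, add_zero,
      zero_pow two_ne_zero]
    ring
  rw [hTη] at hmain
  have hsumT' : Finset.univ.sum T = a * b := hsumT
  rw [hsumT', hfc, hsq] at hmain
  -- conclusion
  have hΦ : PhiZ p co c Z s d 1 0 (fun _ => 0) Y = a * b + ((p - 1) / 2 : ℕ) *
      (∑ k : TT Z s d, algebraMap R B (co k) * (c k : B) ^ (p - 2) * v k ^ 2 +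
        algebraMap R B (co d) * (c d : B) ^ (p - 2) * S ^ 2) := by
    unfold PhiZ
    rw [ha, hb, hSd, hv]
    simp only [map_one, map_zero, one_mul, zero_mul, add_zero, Finset.sum_const_zero]
  have hTot : TotZ p j g c Z s d (Y none) (Y (some none)) (fun k => Y (some (some k))) w =
      aeval T g + a ^ (p - 1 - j) * b ^ (p - j) := by
    unfold TotZ
    rw [hTd, ha, hb, hv]
  rw [hTot, hΦ, ← hWd, ← hu, ← ht]
  have hkey : aeval T g + a ^ (p - 1 - j) * b ^ (p - j) - (a * b + ((p - 1) / 2 : ℕ) *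
      (∑ k : TT Z s d, algebraMap R B (co k) * (c k : B) ^ (p - 2) * v k ^ 2 +
        algebraMap R B (co d) * (c d : B) ^ (p - 2) * S ^ 2) - W) =
      (aeval T g - (p * algebraMap R B β + a * b - W + ((p - 1) / 2 : ℕ) *
        (∑ k : TT Z s d, algebraMap R B (co k) * (c k : B) ^ (p - 2) * v k ^ 2 +
        algebraMap R B (co d) * (c d : B) ^ (p - 2) * (δ - S) ^ 2) +
        p * ∑ i, algebraMap R B (κ i) * η i)) +
      p * (algebraMap R B β + ∑ i, algebraMap R B (κ i) * η i) +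
      a ^ (p - 1 - j) * b ^ (p - j) +
      ((p - 1) / 2 : ℕ) * (algebraMap R B (co d) * (c d : B) ^ (p - 2)) * (δ * (δ - 2 * S)) := by
    ring
  rw [hkey]
  refine Ideal.add_mem _ (Ideal.add_mem _ (Ideal.add_mem _ hmain ?_) ?_) ?_
  · exact u3 (Ideal.mul_mem_right _ _ hp3)
  · exact u3 (mono_mem hau hbu _ _ (by omega))
  · refine Ideal.mul_mem_left _ _ (prod_mem hδm ?_)
    exact Ideal.sub_mem _ hδm' (Ideal.mul_mem_left _ _ (Ideal.mem_sup_left hSu))

end Pool.Agent.H945R2.S
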