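import Pool.Agent.H945R2.S.Props
import Pool.Agent.H945R2.D.EXP0

/-! EXPZB: second order expansion, last kind (helper847). -/

set_option autoImplicit false

open scoped Pointwise

namespace Pool.Agent.H945R2.S

open Pool.Agent.H918R2.Quad Pool.Agent.H945R2.D MvPolynomial

namespace EXPZBaux

/-- The direction. -/
def eta {ι B : Type} [DecidableEq ι] [CommRing B] (Z : Finset ι) (s d : ι)
    (v : TT Z s d → B) (w : ZT Z → B) (m : B) (i : ι) : B :=
  if hZ : i ∈ Z then w ⟨i, hZ⟩ else if h : i = s then 0 else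
    if h' : i = d then m else v ⟨i, hZ, h, h'⟩

theorem TcZ_eq {ι B : Type} [Fintype ι] [DecidableEq ι] [CommRing B] (hS : S_SUMZ)
    (Z : Finset ι) (s d : ι) (hsd : s ≠ d) (p : ℕ) (c : ι → ℕ) (σ : ℕ) (hc : c s = 1)
    (hσ : ∑ i, c i = p * σ) (hZ : ∀ i, i ∈ Z ↔ c i = 0) (hd : d ∉ Z) (l : B)
    (v : TT Z s d → B) (w : ZT Z → B) :
    TcZ Z s d (fun i => (c i : B)) v w l =
      fun i => (c i : B) + eta Z s d v w (l - (p : B) * σ - ∑ k, v k - ∑ z, w z) i := by
  have hs : s ∉ Z := by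
    rw [hZ s, hc]
    omega
  have h1 := (hS Z s d hsd hs hd (fun i => (c i : B)) v w l).2 (fun i => (c i : B))
  have h2 : ∑ i, (c i : B) = (p : B) * σ := by
    have := congrArg (Nat.cast : ℕ → B) hσ
    push_cast at this
    exact this
  have hz : ∑ z : ZT Z, (c z : B) = 0 := by
    refine Finset.sum_eq_zero fun z _ => ?_
    rw [(hZ z).1 z.2, Nat.cast_zero]
  have h3 : (1 : B) + c d + ∑ k : TT Z s d, (c k : B) = (p : B) * σ := by
    rw [← h2, h1, hz, hc]
    simp
  funext i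
  unfold TcZ eta
  by_cases hi : i ∈ Z
  · rw [dif_pos hi, dif_pos hi, (hZ i).1 hi]
    simp
  · rw [dif_neg hi, dif_neg hi]
    by_cases h : i = s
    · subst h
      simp [hc]
    · rw [dif_neg h, dif_neg h]
      by_cases h' : i = d
      · subst h'
        rw [dif_pos rfl, dif_pos rfl, Finset.sum_add_distrib]
        linear_combination (-1 : B) * h3
      · rw [dif_neg h', dif_neg h']

theorem exists_kappas {R ι : Type} [CommRing R] [Fintype ι] (p : ℕ)
    (co : ι → R) (g : MvPolynomial ι R) (hc : Coef p co g) (s : ι) (c : ι → ℕ) (β : R)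
    (hs : SpZ p g s c β) : ∃ κ : ι → R,
      (∀ i, c i ≠ 0 → co i * (c i : R) ^ (p - 1) = 1 + p * κ i) ∧ ∀ i, c i = 0 → κ i = 0 := by
  have : ∀ i, ∃ κ : R, (c i ≠ 0 → co i * (c i : R) ^ (p - 1) = 1 + p * κ) ∧
      (c i = 0 → κ = 0) := by
    intro i
    by_cases h : c i = 0
    · exact ⟨0, fun h' => absurd h h', fun _ => rfl⟩
    · obtain ⟨κ, hκ⟩ := EXP0aux.exists_kappa p hc.prime (co i) (c i) (hc.one i)
        (by omega) (hs.lt i)
      exact ⟨κ, fun _ => hκ, fun h' => absurd h' h⟩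
  choose κ h1 h2 using this
  exact ⟨κ, h1, h2⟩

theorem mul_le_left' {B : Type} [CommRing B] (I J : Ideal B) : I * J ≤ I :=
  Ideal.mul_le.2 fun _ hr s _ => I.mul_mem_right s hr

end EXPZBaux

open EXPZBaux in
theorem EXPZB_ok (hT : S_TAYZ2) (hS : S_SUMZ) : S_EXPZB := by
  intro R ι _ _ _ _ p co g hc s c β hsp Z hZ d hsd hd
  obtain ⟨κ, hκ, hκ0⟩ := exists_kappas p co g hc s c β hsp
  obtain ⟨σ, hσ⟩ := hsp.sum
  have hs : s ∉ Z := by
    rw [hZ s, hsp.one]
    omega
  have hp3 : 3 ≤ p := by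
    have := hc.prime.two_le
    have := hc.odd
    omega
  refine ⟨((p - 1) / 2 : ℕ) * (co d * (c d : R) ^ (p - 2)) +
    (if p = 3 then - β else 0),
    fun k => 2 * ((p - 1) / 2 : ℕ) * (co d * (c d : R) ^ (p - 2)), ?_⟩
  intro B _ _ Y w hpB
  rw [map_one] at hpB ⊢
  set u : Ideal B := Ideal.span (Set.range Y) with hu
  set t : Ideal B := Ideal.span (Set.range w) with ht
  set A : Ideal B := u ^ 3 ⊔ u * t ⊔ t ^ 2 with hA
  have hYu : ∀ k, Y k ∈ u := fun k => Ideal.subset_span ⟨k, rfl⟩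
  have hwt : ∀ z, w z ∈ t := fun z => Ideal.subset_span ⟨z, rfl⟩
  have hu3 : u ^ 3 ≤ A := le_sup_of_le_left le_sup_left
  have hut : u * t ≤ A := le_sup_of_le_left le_sup_right
  have ht2 : t ^ 2 ≤ A := le_sup_right
  have hWt : ∑ z, w z ∈ t := t.sum_mem fun z _ => hwt z
  have hSu : ∑ k : TT Z s d, Y (some (some k)) ∈ u := u.sum_mem fun k _ => hYu _
  obtain ⟨n, hn⟩ : ∃ n, p = n + 3 := ⟨p - 3, by omega⟩
  have hp2 : (p : B) ∈ u ^ 2 := by
    rw [hpB]
    have e1 : p - 2 + 1 = 2 + n := by omega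
    rw [e1, pow_add]
    exact Ideal.mul_mem_right _ _ (Ideal.mul_mem_right _ _ (Ideal.pow_mem_pow (hYu _) 2))
  have hpu : (p : B) ∈ u := Ideal.pow_le_self (two_ne_zero) hp2
  set ηd : B := Y none * (Y (some none) - 1) - (p : B) * σ - ∑ k : TT Z s d, Y (some (some k)) -
    ∑ z, w z with hηd
  have hηdm : ηd ∈ u ⊔ t := by
    rw [hηd]
    refine Ideal.sub_mem _ (Ideal.sub_mem _ (Ideal.sub_mem _ ?_ ?_) ?_) ?_
    · exact Ideal.mem_sup_left (u.mul_mem_right _ (hYu _))
    · exact Ideal.mem_sup_left (u.mul_mem_right _ hpu)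
    · exact Ideal.mem_sup_left hSu
    · exact Ideal.mem_sup_right hWt
  set η : ι → B := eta Z s d (fun k => Y (some (some k))) w ηd with hη
  have hηm : ∀ i, η i ∈ u ⊔ t := by
    intro i
    rw [hη]
    unfold eta
    split_ifs
    · exact Ideal.mem_sup_right (hwt _)
    · exact Ideal.zero_mem _
    · exact hηdm
    · exact Ideal.mem_sup_left (hYu _)
  have h1 := TcZ_eq hS Z s d hsd p c σ hsp.one hσ hZ hd (Y none * (Y (some none) - 1))
    (fun k => Y (some (some k))) w
  have h2 := hT p co g hc s c β hsp κ hκ hκ0 u t η hpu hηm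
  have h3 := hS Z s d hsd hs hd (fun i => (c i : B)) (fun k => Y (some (some k))) w
    (Y none * (Y (some none) - 1))
  have h4 : ∑ i, ((c i : B) + η i) = Y none * (Y (some none) - 1) := by
    have := h3.1
    rw [h1] at this
    exact this
  have ηs : η s = 0 := by
    rw [hη]
    unfold eta
    rw [dif_neg hs, dif_pos rfl]
  have ηd' : η d = ηd := by
    rw [hη]
    unfold eta
    rw [dif_neg hd, dif_neg hsd.symm, dif_pos rfl]
  have ηk : ∀ k : TT Z s d, η k = Y (some (some k)) := by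
    intro k
    rw [hη]
    unfold eta
    rw [dif_neg k.2.1, dif_neg k.2.2.1, dif_neg k.2.2.2]
  have ηz : ∀ z : ZT Z, η z = w z := by
    intro z
    rw [hη]
    unfold eta
    rw [dif_pos z.2]
  have h5 : ∑ i, (if c i = 0 then η i else 0) = ∑ z, w z := by
    rw [h3.2 (fun i => if c i = 0 then η i else 0)]
    have e1 : ¬ c s = 0 := by rw [hsp.one]; omega
    have e2 : ¬ c d = 0 := fun h => hd ((hZ d).2 h)
    have e3 : ∑ k : TT Z s d, (if c k = 0 then η k else 0) = 0 :=
      Finset.sum_eq_zero fun k _ => if_neg fun h => k.2.1 ((hZ k).2 h)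
    have e4 : ∑ z : ZT Z, (if c z = 0 then η z else 0) = ∑ z, w z :=
      Finset.sum_congr rfl fun z _ => by rw [if_pos ((hZ z).1 z.2), ηz]
    rw [if_neg e1, if_neg e2, e3, e4]
    ring
  have h6 : ∑ i, algebraMap R B (co i) * (c i : B) ^ (p - 2) * η i ^ 2 =
      algebraMap R B (co d) * (c d : B) ^ (p - 2) * ηd ^ 2 +
      ∑ k : TT Z s d, algebraMap R B (co k) * (c k : B) ^ (p - 2) * Y (some (some k)) ^ 2 := by
    rw [h3.2 (fun i => algebraMap R B (co i) * (c i : B) ^ (p - 2) * η i ^ 2)]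
    have e4 : ∑ z : ZT Z, algebraMap R B (co z) * (c z : B) ^ (p - 2) * η z ^ 2 = 0 := by
      refine Finset.sum_eq_zero fun z _ => ?_
      have : p - 2 ≠ 0 := by omega
      rw [(hZ z).1 z.2, Nat.cast_zero, zero_pow this]
      ring
    have e3 : ∑ k : TT Z s d, algebraMap R B (co k) * (c k : B) ^ (p - 2) * η k ^ 2 =
        ∑ k : TT Z s d, algebraMap R B (co k) * (c k : B) ^ (p - 2) * Y (some (some k)) ^ 2 :=
      Finset.sum_congr rfl fun k _ => by rw [ηk]
    rw [e4, e3, ηs, ηd']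
    ring
  -- the terms in `A`
  have t1 : (p : B) * ∑ i, algebraMap R B (κ i) * η i ∈ A := by
    have hm : ∑ i, algebraMap R B (κ i) * η i ∈ u ⊔ t :=
      Ideal.sum_mem _ fun i _ => Ideal.mul_mem_left _ _ (hηm i)
    have := Ideal.mul_mem_mul hp2 hm
    rw [Ideal.mul_sup] at this
    refine (sup_le ?_ ?_ : u ^ 2 * u ⊔ u ^ 2 * t ≤ A) this
    · rw [← pow_succ]
      exact hu3
    · rw [pow_two, mul_assoc, mul_comm u t, ← mul_assoc]
      exact (mul_le_left' _ _).trans hut
  have t2 : Y none * Y (some none) ^ 2 ∈ A := by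
    refine hu3 ?_
    rw [pow_succ' u]
    exact Ideal.mul_mem_mul (hYu _) (Ideal.pow_mem_pow (hYu _) 2)
  have hq : Y none * Y (some none) - (p : B) * σ ∈ u ^ 2 := by
    refine Ideal.sub_mem _ ?_ (Ideal.mul_mem_right _ _ hp2)
    rw [pow_two]
    exact Ideal.mul_mem_mul (hYu _) (hYu _)
  have hP : Y none + ∑ k : TT Z s d, Y (some (some k)) ∈ u := u.add_mem (hYu _) hSu
  have hqu : Y none * Y (some none) - (p : B) * σ ∈ u := Ideal.pow_le_self two_ne_zero hq
  have t3 : (Y none * Y (some none) - (p : B) * σ) ^ 2 ∈ A := by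
    refine hu3 ?_
    rw [pow_two, pow_succ u]
    exact Ideal.mul_mem_mul hq hqu
  have t4 : (∑ z, w z) ^ 2 ∈ A := ht2 (Ideal.pow_mem_pow hWt 2)
  have t5 : (Y none + ∑ k : TT Z s d, Y (some (some k))) *
      (Y none * Y (some none) - (p : B) * σ) ∈ A := by
    refine hu3 ?_
    rw [pow_succ' u]
    exact Ideal.mul_mem_mul hP hq
  have t6 : (Y none + ∑ k : TT Z s d, Y (some (some k))) * (∑ z, w z) ∈ A :=
    hut (Ideal.mul_mem_mul hP hWt)
  have t7 : (Y none * Y (some none) - (p : B) * σ) * (∑ z, w z) ∈ A :=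
    hut (Ideal.mul_mem_mul hqu hWt)
  have t8 : (p : B) * algebraMap R B β -
      Y none * (algebraMap R B (if p = 3 then - β else 0) * Y none) ∈ A := by
    by_cases h : p = 3
    · have hn0 : n = 0 := by omega
      rw [if_pos h, hpB, hn, hn0, map_neg]
      have : Y none ^ (0 + 3 - 2 + 1) * (Y (some none) - 1) ^ (0 + 3 - 2) * algebraMap R B β -
          Y none * (-algebraMap R B β * Y none) =
          (Y none ^ 2 * Y (some none)) * algebraMap R B β := by
        ring
      rw [this]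
      refine A.mul_mem_right _ (hu3 ?_)
      rw [pow_succ u]
      exact Ideal.mul_mem_mul (Ideal.pow_mem_pow (hYu _) 2) (hYu _)
    · rw [if_neg h, hpB]
      have e1 : p - 2 + 1 = 3 + (p - 4) := by omega
      rw [e1, map_zero, pow_add]
      have : Y none ^ 3 * Y none ^ (p - 4) * (Y (some none) - 1) ^ (p - 2) * algebraMap R B β -
          Y none * (0 * Y none) = Y none ^ 3 * (Y none ^ (p - 4) * (Y (some none) - 1) ^ (p - 2) *
          algebraMap R B β) := by ring
      rw [this]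
      exact A.mul_mem_right _ (hu3 (Ideal.pow_mem_pow (hYu _) 3))
  rw [h4, h5, h6] at h2
  unfold TotZ
  rw [h1]
  have e2 : p - 1 - (p - 2) = 1 := by omega
  have e3 : p - (p - 2) = 2 := by omega
  rw [e2, e3]
  unfold PhiZ
  simp only [map_add, map_mul, map_pow, map_natCast, map_ofNat, map_neg, map_one]
  rw [← Finset.mul_sum]
  have key := A.add_mem (A.add_mem (A.add_mem (A.add_mem h2 t1) t8) t2)
    (A.mul_mem_left ((((p - 1) / 2 : ℕ) : B) * (algebraMap R B (co d) * (c d : B) ^ (p - 2)))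
      (A.sub_mem (A.add_mem (A.sub_mem (A.add_mem t3 t4) (A.mul_mem_left 2 t5))
        (A.mul_mem_left 2 t6)) (A.mul_mem_left 2 t7)))
  convert key using 1
  rw [hηd]
  ring

end Pool.Agent.H945R2.S
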