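import Pool.Agent.H945R2.S.Props

/-! Task TIZ (helper386), adapted from task TI (helper844). -/

set_option autoImplicit false

open scoped Pointwise

namespace Pool.Agent.H945R2.S

open Pool.Agent.H918R2.Quad Pool.Agent.H945R2.D MvPolynomial

namespace TIZaux

lemma pow_mem {R F ι : Type} [CommRing R] [Field F] [Algebra R F] (𝒲 : Subalgebra R F)
    (t : ι → F) (ht : ∀ i, t i ∈ 𝒲) (n : ℕ) : ∀ y ∈ Set.range t ^ n, y ∈ 𝒲 := by
  induction n with
  | zero =>
    intro y hy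
    rw [pow_zero, Set.mem_one] at hy
    rw [hy]
    exact 𝒲.one_mem
  | succ n ih =>
    intro y hy
    rw [pow_succ, Set.mem_mul] at hy
    obtain ⟨u, hu, v, ⟨i, rfl⟩, rfl⟩ := hy
    exact 𝒲.mul_mem (ih u hu) (ht i)

lemma one_mem {F ι : Type} [Field F] (t : ι → F) (s : ι) (hs : t s = 1) (n : ℕ) :
    (1 : F) ∈ Set.range t ^ n := by
  have h : t s ^ n ∈ Set.range t ^ n := Set.pow_mem_pow ⟨s, rfl⟩
  rwa [hs, one_pow] at h

end TIZaux

theorem TIZ_ok : S_TIZ := by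
  intro R F ι _ _ _ _ 𝒲 𝒪 p e j x t s a b hC
  constructor
  · refine ⟨1, one_ne_zero, ?_, ?_⟩
    · rintro h ⟨i, rfl⟩
      rw [div_one]
      exact hC.hx i
    · refine ⟨x s, ⟨s, rfl⟩, ?_⟩
      rw [hC.hxs, div_one]
      exact U_one
  · intro j'
    have hab : a * b ≠ 0 := mul_ne_zero hC.ha0 hC.hb0
    rcases Nat.lt_or_ge j j' with hlt | hle
    · have hp0 : (p : F) ≠ 0 := by
        rw [hC.hp]
        exact mul_ne_zero (pow_ne_zero _ hC.ha0) (pow_ne_zero _ hC.hb0)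
      refine ⟨(p : F), hp0, ?_, ?_⟩
      · rintro h (⟨y, hy, rfl⟩ | rfl)
        · rw [mul_div_cancel_left₀ _ hp0]
          exact TIZaux.pow_mem 𝒲 x hC.hx (e * j') y hy
        · obtain ⟨k, rfl⟩ : ∃ k, j' = j + 1 + k := ⟨j' - (j + 1), by omega⟩
          have e : (∑ i, t i) ^ (j + 1 + k) / (p : F) = a ^ k * b ^ (k + 1) := by
            rw [hC.hL, div_eq_iff hp0, hC.hp]
            ring
          rw [e]
          exact 𝒲.mul_mem (𝒲.pow_mem hC.ha k) (𝒲.pow_mem hC.hb (k + 1))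
      · refine ⟨(p : F) * 1, Or.inl ⟨1, TIZaux.one_mem x s hC.hxs (e * j'), rfl⟩, ?_⟩
        rw [mul_div_cancel_left₀ _ hp0]
        exact U_one
    · refine ⟨(a * b) ^ j', pow_ne_zero _ hab, ?_, ?_⟩
      · rintro h (⟨y, hy, rfl⟩ | rfl)
        · obtain ⟨k, rfl⟩ : ∃ k, j = j' + k := ⟨j - j', by omega⟩
          have e : (p : F) * y / (a * b) ^ j' = a ^ (k + 1) * b ^ k * y := by
            rw [div_eq_iff (pow_ne_zero _ hab), hC.hp]
            ring
          rw [e]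
          exact 𝒲.mul_mem (𝒲.mul_mem (𝒲.pow_mem hC.ha (k + 1)) (𝒲.pow_mem hC.hb k))
            (TIZaux.pow_mem 𝒲 x hC.hx _ y hy)
        · rw [hC.hL, div_self (pow_ne_zero _ hab)]
          exact 𝒲.one_mem
      · refine ⟨(∑ i, t i) ^ j', Or.inr rfl, ?_⟩
        rw [hC.hL, div_self (pow_ne_zero _ hab)]
        exact U_one

end Pool.Agent.H945R2.S
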