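import Pool.Agent.H945R2.S.Props

/-! TBL: table for the base factor of the last kind (adapted from D/TL.lean of helper55). -/

set_option autoImplicit false

open scoped Pointwise

namespace Pool.Agent.H945R2.S

open Pool.Agent.H918R2.Quad Pool.Agent.H945R2.D MvPolynomial

namespace TBLaux

variable {R F ι : Type} [CommRing R] [Field F] [Algebra R F]

theorem mem_pow {𝒲 : Subalgebra R F} {t : ι → F} (ht : ∀ i, t i ∈ 𝒲) (k : ℕ) :
    ∀ y ∈ Set.range t ^ k, y ∈ 𝒲 := by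
  induction k with
  | zero =>
    intro y hy
    rw [pow_zero, Set.mem_one] at hy
    rw [hy]
    exact 𝒲.one_mem
  | succ k ih =>
    intro y hy
    rw [pow_succ, Set.mem_mul] at hy
    obtain ⟨u, hu, v, ⟨i, rfl⟩, rfl⟩ := hy
    exact 𝒲.mul_mem (ih u hu) (ht i)

theorem one_mem {t : ι → F} {s : ι} (hs : t s = 1) (k : ℕ) : (1 : F) ∈ Set.range t ^ k :=
  Set.one_mem_pow ⟨s, hs⟩

theorem U_add {𝒪 : Subring F} (hl : IsLoc 𝒪) {x a w : F} (hx : U 𝒪 x) (ha : a ∈ 𝒪) (hw : w ∈ 𝒪)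
    (haU : ¬ U 𝒪 a) : U 𝒪 (x + a * w) := by
  have h1 := hl (x + a * w) (-(a * w)) (𝒪.add_mem hx.2.1 (𝒪.mul_mem ha hw))
    (𝒪.neg_mem (𝒪.mul_mem ha hw)) (by rw [add_neg_cancel_right]; exact hx)
  rcases h1 with h1 | h1
  · exact h1
  · exfalso
    apply haU
    apply U.of_mul_left (x := a) (y := -w) ha (𝒪.neg_mem hw)
    rwa [mul_neg]

end TBLaux

open TBLaux in
theorem TBL_ok : S_TBL := by
  intro R F ι _ _ _ _ 𝒲 𝒪 p e j x t s a b H hp2 i₀ c hc
  obtain ⟨loc, hW, hx, hxs, ht', hs, ha, hb, ha0, hb0, haU, hL, hp, hj⟩ := H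
  have ht : ∀ i, t i ∈ 𝒲 := by
    intro i
    obtain ⟨ρ, hρ, h⟩ := ht' i
    rw [h]
    exact 𝒲.mul_mem hρ (𝒲.pow_mem (hx i) _)
  have hpW : (p : F) ∈ 𝒲 := by
    have := natCast_mem 𝒲 p
    exact this
  have hcW : ∀ i, (c i : F) ∈ 𝒲 := fun i => natCast_mem 𝒲 (c i)
  have hp0 : (p : F) ≠ 0 := by
    rw [hp]
    exact mul_ne_zero (pow_ne_zero _ ha0) (pow_ne_zero _ hb0)
  have hd : ∀ i, t i - (c i : F) * t i₀ ∈ 𝒲 := fun i =>
    𝒲.sub_mem (ht i) (𝒲.mul_mem (hcW i) (ht i₀))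
  rcases Nat.lt_or_ge (j + 1) p with hlt | hge
  · -- `m = p`
    have hLp : (a * b) ^ (p - 1) = (p : F) * (a ^ (p - 2 - j) * b ^ (p - 1 - j)) := by
      rw [hp, mul_pow]
      have e1 : a ^ (p - 1) = a ^ (j + 1) * a ^ (p - 2 - j) := by
        rw [← pow_add]
        congr 1
        omega
      have e2 : b ^ (p - 1) = b ^ j * b ^ (p - 1 - j) := by
        rw [← pow_add]
        congr 1
        omega
      rw [e1, e2]
      ring
    have e3 : ∀ i, ((p : F) * t i₀ ^ (p - 1) + (a * b) ^ (p - 1)) * t i / (p : F) =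
        (t i₀ ^ (p - 1) + a ^ (p - 2 - j) * b ^ (p - 1 - j)) * t i := by
      intro i
      rw [hLp, div_eq_iff hp0]
      ring
    have e4 : ∀ x y : F, (p : F) * x * y / (p : F) = x * y := by
      intro x y
      rw [div_eq_iff hp0]
      ring
    refine ⟨(p : F), hp0, ?_, ?_, ?_⟩
    · rintro h (⟨y, hy, rfl⟩ | ⟨y, hy, rfl⟩ | ⟨i, rfl⟩ | ⟨i, y, hy, rfl⟩)
      · have : (p : F) ^ 2 * y / (p : F) = (p : F) * y := by
          rw [div_eq_iff hp0]
          ring
        rw [this]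
        exact 𝒲.mul_mem hpW (mem_pow hx _ y hy)
      · rw [hL, e4]
        exact 𝒲.mul_mem (𝒲.mul_mem ha hb) (mem_pow hx _ y hy)
      · rw [hL, e3]
        exact 𝒲.mul_mem (𝒲.add_mem (𝒲.pow_mem (ht i₀) _)
          (𝒲.mul_mem (𝒲.pow_mem ha _) (𝒲.pow_mem hb _))) (ht i)
      · rw [e4]
        exact 𝒲.mul_mem (hd i) (mem_pow hx _ y hy)
    · have key : (∃ i, U 𝒪 (t i - (c i : F) * t i₀)) → ∃ h ∈ Bl p e x t i₀ c, U 𝒪 (h / (p : F)) := by
        rintro ⟨i, hi⟩
        refine ⟨(p : F) * (t i - (c i : F) * t i₀) * 1,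
          Or.inr (Or.inr (Or.inr ⟨i, 1, one_mem hxs _, rfl⟩)), ?_⟩
        rw [e4, mul_one]
        exact hi
      have key2 : U 𝒪 (t i₀ ^ (p - 1) + a ^ (p - 2 - j) * b ^ (p - 1 - j)) →
          ∃ h ∈ Bl p e x t i₀ c, U 𝒪 (h / (p : F)) := by
        intro hu
        refine ⟨((p : F) * t i₀ ^ (p - 1) + (∑ i, t i) ^ (p - 1)) * t s,
          Or.inr (Or.inr (Or.inl ⟨s, rfl⟩)), ?_⟩
        rw [hL, e3, hs, mul_one]
        exact hu
      rcases Nat.lt_or_ge (j + 2) p with hlt3 | hge3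
      · by_cases hex : ∃ i, U 𝒪 (t i - (c i : F) * t i₀)
        · exact key hex
        · push Not at hex
          have h1 := loc (t s - (c s : F) * t i₀) ((c s : F) * t i₀) (hW _ (hd s))
            (hW _ (𝒲.mul_mem (hcW s) (ht i₀))) (by rw [sub_add_cancel, hs]; exact U_one)
          have h2 : U 𝒪 (t i₀) :=
            (h1.resolve_left (hex s)).of_mul_right (hW _ (hcW s)) (hW _ (ht i₀))
          apply key2
          have e5 : a ^ (p - 2 - j) * b ^ (p - 1 - j) = a * (a ^ (p - 3 - j) * b ^ (p - 1 - j)) := by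
            rw [← mul_assoc, ← pow_succ']
            congr 2
            omega
          rw [e5]
          exact U_add loc (h2.pow _) (hW _ ha)
            (hW _ (𝒲.mul_mem (𝒲.pow_mem ha _) (𝒲.pow_mem hb _))) haU
      · have hj2 : j + 2 = p := by omega
        rcases hc with h | h | h
        · exact absurd hj2 h
        · apply key2
          have e6 : p - 2 - j = 0 := by omega
          have e7 : p - 1 - j = 1 := by omega
          rw [e6, e7, pow_zero, one_mul, pow_one]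
          exact h
        · exact key h
    · rw [div_self hp0]
      exact 𝒲.one_mem
  · -- `m = L ^ (p - 1)`
    have hj1 : j = p - 1 := by omega
    have hm0 : (a * b) ^ (p - 1) ≠ 0 := pow_ne_zero _ (mul_ne_zero ha0 hb0)
    have hpm : (p : F) = a * (a * b) ^ (p - 1) := by
      rw [hp, hj1, mul_pow, pow_succ]
      ring
    have e4 : ∀ x y : F, (p : F) * x * y / (a * b) ^ (p - 1) = a * x * y := by
      intro x y
      rw [div_eq_iff hm0]
      nth_rewrite 1 [hpm]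
      ring
    refine ⟨(a * b) ^ (p - 1), hm0, ?_, ?_, ?_⟩
    · rintro h (⟨y, hy, rfl⟩ | ⟨y, hy, rfl⟩ | ⟨i, rfl⟩ | ⟨i, y, hy, rfl⟩)
      · have : (p : F) ^ 2 * y / (a * b) ^ (p - 1) = a * (p : F) * y := by
          rw [pow_two, e4]
        rw [this]
        exact 𝒲.mul_mem (𝒲.mul_mem ha hpW) (mem_pow hx _ y hy)
      · rw [hL, e4]
        exact 𝒲.mul_mem (𝒲.mul_mem ha (𝒲.mul_mem ha hb)) (mem_pow hx _ y hy)
      · have : ((p : F) * t i₀ ^ (p - 1) + (∑ i, t i) ^ (p - 1)) * t i / (a * b) ^ (p - 1) =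
            (1 + a * t i₀ ^ (p - 1)) * t i := by
          rw [hL, div_eq_iff hm0]
          nth_rewrite 1 [hpm]
          ring
        rw [this]
        exact 𝒲.mul_mem (𝒲.add_mem 𝒲.one_mem (𝒲.mul_mem ha (𝒲.pow_mem (ht i₀) _))) (ht i)
      · rw [e4]
        exact 𝒲.mul_mem (𝒲.mul_mem ha (hd i)) (mem_pow hx _ y hy)
    · refine ⟨((p : F) * t i₀ ^ (p - 1) + (∑ i, t i) ^ (p - 1)) * t s,
          Or.inr (Or.inr (Or.inl ⟨s, rfl⟩)), ?_⟩
      have : ((p : F) * t i₀ ^ (p - 1) + (∑ i, t i) ^ (p - 1)) * t s / (a * b) ^ (p - 1) =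
            1 + a * t i₀ ^ (p - 1) := by
        rw [hL, hs, div_eq_iff hm0]
        nth_rewrite 1 [hpm]
        ring
      rw [this]
      exact U_add loc U_one (hW _ ha) (hW _ (𝒲.pow_mem (ht i₀) _)) haU
    · have : (p : F) / (a * b) ^ (p - 1) = a := by
        rw [div_eq_iff hm0]
        exact hpm
      rw [this]
      exact ha

end Pool.Agent.H945R2.S
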