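import Pool.Agent.H945R2.S.Props2
import Pool.Agent.H945R2.D.BAD
import Pool.Agent.H945R2.D.FAM
import Pool.Agent.H945R2.D.GEX

/-! BADS: the local modules at the primes above `p`, degree `p e` (helper747, adapted from
D/BAD.lean by helper819). -/

set_option autoImplicit false

open scoped Pointwise

namespace Pool.Agent.H945R2.S

open Pool.Agent.H918R2.Quad Pool.Agent.H945R2.D MvPolynomial

open Pool.Agent.H945R2.D.BADaux

theorem BADS_ok (hL : S_LOCS) (hD : S_DEGS) (hF : S_FINS) : S_BADS := by
  intro O R K F _ _ _ _ _ _ _ _ _ _ _ _ _ 𝔭 _ _ _ _ _ _ m p e hp hp2 hirr he heU a ha x hx0 hrel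
    hgen hli b htb
  obtain ⟨h, hh, heh⟩ : ∃ h : ℕ, 1 ≤ h ∧ (e = 2 * h ∨ e = 2 * h + 1) := ⟨e / 2, by omega, by omega⟩
  haveI : Fact p.Prime := ⟨hp⟩
  have hinj : Function.Injective (algebraMap R K) := IsFractionRing.injective R K
  have hRKF : ∀ r : R, algebraMap R F r = algebraMap K F (algebraMap R K r) :=
    fun r => IsScalarTower.algebraMap_apply R K F r
  have hOF : ∀ r : O, algebraMap O F r = algebraMap R F (algebraMap O R r) :=
    fun r => IsScalarTower.algebraMap_apply O R F r
  have hp0 : (p : R) ≠ 0 := hirr.ne_zero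
  have hpF : (p : F) ≠ 0 := by
    have h1 : (p : F) = algebraMap R F (p : R) := (map_natCast _ _).symm
    rw [h1, hRKF]
    intro h
    apply hp0
    apply hinj
    rw [map_zero]
    exact (algebraMap K F).injective (by rw [h, map_zero])
  choose al hal hdvd using fun i => exists_root p hp hirr (algebraMap O R (a i)) (ha i)
  choose be hbe using fun i => (hal i).exists_left_inv
  set co : Fin (m + 2) → R := fun i => algebraMap O R (a i) * be i ^ p with hco
  have hco1 : ∀ i, algebraMap O R (a i) = co i * al i ^ p := by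
    intro i
    have h1 : be i ^ p * al i ^ p = 1 := by rw [← mul_pow, hbe i, one_pow]
    rw [hco]
    show _ = algebraMap O R (a i) * be i ^ p * al i ^ p
    rw [mul_assoc, h1, mul_one]
  have hone : ∀ i, (p : R) ∣ co i - 1 := by
    intro i
    have h1 : be i ^ p * al i ^ p = 1 := by rw [← mul_pow, hbe i, one_pow]
    have h2 : co i - 1 = (algebraMap O R (a i) - al i ^ p) * be i ^ p := by
      show algebraMap O R (a i) * be i ^ p - 1 = _
      rw [sub_mul, mul_comm (al i ^ p), h1]
    rw [h2]
    exact Dvd.dvd.mul_right (hdvd i) _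
  obtain ⟨g, hg⟩ := GEX_ok p co hone
  have hcoef : Coef p co g := ⟨hp, hp2, hp0, hone, hg⟩
  have hrel' : ∑ i, algebraMap R F (co i) * (algebraMap R F (al i) * x i ^ e) ^ p = 0 := by
    rw [← hrel]
    refine Finset.sum_congr rfl fun i _ => ?_
    have e1 : (algebraMap R F (al i) * x i ^ e) ^ p = algebraMap R F (al i) ^ p * x i ^ (p * e) := by
      rw [mul_pow, ← pow_mul, mul_comm e p]
    have e2 : algebraMap R F (co i * al i ^ p) = algebraMap R F (co i) * algebraMap R F (al i) ^ p := by
      rw [map_mul (algebraMap R F) (co i) (al i ^ p), map_pow]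
    rw [e1, hOF, hco1 i, e2, mul_assoc]
  have hfin := hF (R := R) p e h hp0 g x (fun i => algebraMap R F (al i) * x i ^ e)
  obtain ⟨D₀, hD₀⟩ := FAM_ok (R := R) p x
    {S | IsFacS p e h g x (fun i => algebraMap R F (al i) * x i ^ e) S} hfin (Or.inl rfl)
    (fun S hS => hD (R := R) p e h hp.one_le hh heh g x al S hS)
  refine ⟨D₀, fun D hDD => ?_⟩
  obtain ⟨κ, _, Φ, hΦ, hH1, k, hH2⟩ := hD₀ D hDD
  have hle : ∀ y ∈ Submodule.span R (∏ k, Φ k), y ∈ Submodule.span R (Set.range x ^ D) := by
    intro y hy
    have h1 : Submodule.span R (∏ k, Φ k) ≤ Submodule.span R (Set.range x ^ D) := by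
      rw [Submodule.span_le]
      exact fun h hh => hH1 h hh
    exact h1 hy
  have hpk : ∀ y ∈ Submodule.span R (Set.range x ^ D),
      (p : F) ^ k * y ∈ Submodule.span R (∏ k, Φ k) := by
    intro y hy
    induction hy using Submodule.span_induction with
    | mem y hy => exact hH2 y hy
    | zero => rw [mul_zero]; exact Submodule.zero_mem _
    | add a b _ _ ha hb => rw [mul_add]; exact Submodule.add_mem _ ha hb
    | smul r a _ ha =>
      rw [mul_smul_comm]
      exact Submodule.smul_mem _ _ ha
  refine ⟨(Submodule.span R (∏ k, Φ k)).restrictScalars O, ?_, ⟨k, ?_⟩, ?_⟩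
  · intro y hy
    exact clear_denom (R := R) 𝔭 (Set.range x ^ D) y (hle y hy)
  · have hmap : 𝔭.map (algebraMap O R) ≤ Ideal.span {(p : R)} := by
      rw [Ideal.map_le_iff_le_comap, ← hirr.maximalIdeal_eq]
      intro c hc
      rw [Ideal.mem_comap]
      exact (IsLocalization.AtPrime.to_map_mem_maximal_iff R 𝔭 c).2 hc
    intro c hc y hy
    have hc1 : ∃ r : R, algebraMap O R c = (p : R) ^ k * r := by
      have h1 : algebraMap O R c ∈ Ideal.span {(p : R) ^ k} := by
        rw [← Ideal.span_singleton_pow]
        apply Ideal.pow_right_mono hmap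
        rw [← Ideal.map_pow]
        exact Ideal.mem_map_of_mem _ hc
      obtain ⟨r, hr⟩ := Ideal.mem_span_singleton.1 h1
      exact ⟨r, hr⟩
    obtain ⟨r, hr⟩ := hc1
    show c • y ∈ Submodule.span R (∏ k, Φ k)
    have hy' : y ∈ Submodule.span R (Set.range x ^ D) := Submodule.span_subset_span O R _ hy
    have h2 : c • y = r • ((p : F) ^ k * y) := by
      rw [Algebra.smul_def, Algebra.smul_def, hOF, hr, map_mul, map_pow, map_natCast]
      ring
    rw [h2]
    exact Submodule.smul_mem _ _ (hpk y hy')
  · intro M hMP hM2 f hfM hf q hqp hq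
    obtain ⟨𝒪, hloc, hR, hRU, hloc2, hG, hreg⟩ := transfer (R := R) 𝔭 M (∏ k, Φ k)
      (fun y hy => hMP hy) (fun y hy => hM2 y hy) f q hq
    apply hreg
    have hLD : LocS 𝒪 p e h co al g x := by
      refine ⟨hloc, hR, hcoef, hirr, ?_, hpF, hh, heh, heU, hal, hrel', ?_, ?_⟩
      · intro h
        apply hirr.not_isUnit
        apply hRU
        rw [map_natCast]
        exact h
      · intro h
        have h1 : ∑ i, (algebraMap R K (al i)) • x i ^ e = 0 := by
          rw [← h]
          refine Finset.sum_congr rfl fun i _ => ?_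
          rw [Algebra.smul_def, ← hRKF]
        have h2 := Fintype.linearIndependent_iff.1 hli (fun i => algebraMap R K (al i)) h1 0
        have h3 : al 0 = 0 := hinj (by rw [map_zero]; exact h2)
        exact (hal 0).ne_zero h3
      · intro s hs
        obtain ⟨j₀, hj₀⟩ := hind_of (K := K) (ι := Fin (m + 2)) (by simp) x hx0 hgen b htb x
          (fun i j => if i = j then 1 else 0) (by
            intro i
            rw [Finset.sum_eq_single i]
            · rw [if_pos rfl, map_one, one_mul]
            · intro j _ hj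
              rw [if_neg (Ne.symm hj), map_zero, zero_mul]
            · intro h
              exact absurd (Finset.mem_univ _) h) s hs
        exact ⟨j₀, hj₀.restrictScalars hinj⟩
    exact hL 𝒪 p e h co al g x hLD Φ hΦ f hf (hMP hfM) hG hloc2

end Pool.Agent.H945R2.S
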