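import Pool.Agent.H945R2.S.Props
import Pool.Agent.H945R2.D.RA

/-! BLRW. Regularity of the blow-up of a nondegenerate quadric, general form. -/

set_option autoImplicit false

open scoped Pointwise

namespace Pool.Agent.H945R2.S

open Pool.Agent.H918R2.Quad Pool.Agent.H945R2.D MvPolynomial

namespace BLRWaux

variable {R κ σ : Type} [CommRing R] [Fintype κ] [DecidableEq κ]

theorem pderiv_Yv (ν : κ → Option σ) (hν : Function.Injective ν) (k : κ) (i : σ)
    (hk : ν k = some i) (k' : κ) :
    pderiv (some i) (Yv (R := R) ν k') = if k' = k then 1 else 0 := by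
  classical
  unfold Yv
  rcases h : ν k' with _ | j
  · have hne : k' ≠ k := by
      rintro rfl
      rw [hk] at h
      exact absurd h (by simp)
    rw [if_neg hne]
    simp
  · simp only [Option.elim_some]
    by_cases hj : j = i
    · subst hj
      have he : k' = k := hν (h.trans hk.symm)
      rw [if_pos he]
      simp
    · have hne : k' ≠ k := by
        rintro rfl
        rw [hk] at h
        exact hj (Option.some_injective _ h).symm
      rw [if_neg hne, pderiv_X_of_ne]
      intro h3
      exact hj (Option.some_injective _ h3)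

theorem pderiv_E (Q : κ → κ → R) (ν : κ → Option σ) (hν : Function.Injective ν) (k₀ : κ) (i : σ)
    (hk : ν k₀ = some i) (G : MvPolynomial (Option σ) R) :
    pderiv (some i) (∑ k, ∑ l, C (Q k l) * Yv ν k * Yv ν l + G) =
      (∑ k, C (Q k k₀ + Q k₀ k) * Yv ν k) + pderiv (some i) G := by
  rw [map_add, map_sum]
  congr 1
  have e2 : ∀ k, pderiv (some i) (∑ l, C (Q k l) * Yv ν k * Yv (R := R) ν l) =
      ∑ l, (C (Q k l) * Yv ν k * (if l = k₀ then 1 else 0) +
        C (Q k l) * Yv ν l * (if k = k₀ then 1 else 0)) := by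
    intro k
    rw [map_sum]
    refine Finset.sum_congr rfl fun l _ => ?_
    rw [Derivation.leibniz, Derivation.leibniz, pderiv_C, pderiv_Yv ν hν k₀ i hk,
      pderiv_Yv ν hν k₀ i hk]
    simp only [smul_eq_mul]
    ring
  simp only [e2, Finset.sum_add_distrib]
  have e3 : ∑ k, ∑ l, C (Q k l) * Yv ν k * (if l = k₀ then 1 else 0) =
      ∑ k, C (Q k k₀) * Yv (R := R) ν k := by
    refine Finset.sum_congr rfl fun k _ => ?_
    simp
  have e4 : ∑ k, ∑ l, C (Q k l) * Yv ν l * (if k = k₀ then 1 else 0) =
      ∑ l, C (Q k₀ l) * Yv (R := R) ν l := by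
    rw [Finset.sum_comm]
    refine Finset.sum_congr rfl fun l _ => ?_
    simp
  rw [e3, e4, ← Finset.sum_add_distrib]
  refine Finset.sum_congr rfl fun k _ => ?_
  rw [C_add]
  ring

end BLRWaux

open BLRWaux

theorem BLRW_ok : S_BLRW := by
  classical
  intro R A κ σ _ _ _ _ _ _ π hπ Q hQ ν hν pr hpr h G hker q _ hX hGq hdG hex
  by_cases hc : ∃ (k : κ) (i : σ), ν k = some i ∧ pr (pderiv (some i)
      (∑ k, ∑ l, C (Q k l) * Yv ν k * Yv ν l + G)) ∉ q
  · obtain ⟨k, i, -, hk'⟩ := hc
    exact RA_ok π hπ pr hpr h _ hker q hX i hk'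
  · exfalso
    push Not at hc
    have hE : pr (∑ k, ∑ l, C (Q k l) * Yv ν k * Yv ν l + G) = 0 := by
      rw [← RingHom.mem_ker, hker]
      exact Ideal.subset_span (by simp)
    have hπE : pr (C π - X none * h) = 0 := by
      rw [← RingHom.mem_ker, hker]
      exact Ideal.subset_span (by simp)
    have hπq : pr (C π) ∈ q := by
      have : pr (C π) = pr (X none) * pr h := by
        rw [map_sub, map_mul, sub_eq_zero] at hπE
        exact hπE
      rw [this]
      exact q.mul_mem_right _ hX
    let f : R →+* A := pr.comp C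
    let v : κ → A := fun k => pr (Yv ν k)
    have hG : ∀ (k' : κ) (i : σ), ν k' = some i →
        (∑ k, f (Q k k' + Q k' k) * v k) ∈ q := by
      intro k' i hi
      have h1 := hc k' i hi
      rw [pderiv_E Q ν hν k' i hi, map_add, map_sum] at h1
      have h2 : (∑ k, pr (C (Q k k' + Q k' k) * Yv ν k)) ∈ q :=
        (Ideal.add_mem_iff_left _ (hdG k' i hi)).1 h1
      simpa [f, v, map_mul] using h2
    have hF : (∑ i, ∑ j, f (Q i j) * v i * v j) ∈ q := by
      have h1 : pr (∑ k, ∑ l, C (Q k l) * Yv ν k * Yv ν l) + pr G ∈ q := by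
        rw [← map_add, hE]
        exact q.zero_mem
      have h2 := (Ideal.add_mem_iff_left _ hGq).1 h1
      simpa [f, v, map_mul, map_sum] using h2
    have euler : ∑ k', (∑ k, f (Q k k' + Q k' k) * v k) * v k' =
        2 * ∑ i, ∑ j, f (Q i j) * v i * v j := by
      have e1 : ∀ k', (∑ k, f (Q k k' + Q k' k) * v k) * v k' =
          ∑ k, f (Q k k') * v k * v k' + ∑ k, f (Q k' k) * v k' * v k := by
        intro k'
        rw [Finset.sum_mul, ← Finset.sum_add_distrib]
        refine Finset.sum_congr rfl fun k _ => ?_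
        rw [map_add]
        ring
      simp only [e1, Finset.sum_add_distrib]
      rw [Finset.sum_comm, two_mul]
    have hall : ∀ k₀ : κ, (∑ k, f (Q k k₀ + Q k₀ k) * v k) ∈ q := by
      intro k₀
      rcases hk₀ : ν k₀ with _ | i
      · have hv0 : v k₀ = 1 := by
          simp only [v, Yv, hk₀, Option.elim_none, map_one]
        have e2 : ∑ k', (∑ k, f (Q k k' + Q k' k) * v k) * v k' =
            (∑ k, f (Q k k₀ + Q k₀ k) * v k) * v k₀ +
              ∑ k' ∈ Finset.univ.erase k₀, (∑ k, f (Q k k' + Q k' k) * v k) * v k' :=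
          (Finset.add_sum_erase _ _ (Finset.mem_univ k₀)).symm
        have e3 : (∑ k' ∈ Finset.univ.erase k₀,
            (∑ k, f (Q k k' + Q k' k) * v k) * v k') ∈ q := by
          refine q.sum_mem fun k' hk' => q.mul_mem_right _ ?_
          rcases hk'' : ν k' with _ | i
          · exact absurd (hν (hk''.trans hk₀.symm)) (Finset.ne_of_mem_erase hk')
          · exact hG k' i hk''
        have e4 : (∑ k', (∑ k, f (Q k k' + Q k' k) * v k) * v k') ∈ q := by
          rw [euler]
          exact q.mul_mem_left _ hF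
        rw [e2, hv0, mul_one] at e4
        exact (Ideal.add_mem_iff_left _ e3).1 e4
      · exact hG k₀ i hk₀
    obtain ⟨k, hk⟩ := hex
    exact hk (hQ A f q hπq v hF hall k)

end Pool.Agent.H945R2.S
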