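import Pool.Agent.H945R2.S.Props

/-! BLS1: principal ideals, transfer 1 (helper778 for helper945). -/

set_option autoImplicit false

open scoped Pointwise

namespace Pool.Agent.H945R2.S

open Pool.Agent.H918R2.Quad Pool.Agent.H945R2.D MvPolynomial

theorem BLS1_ok : S_BLS1 := by
  intro R F _ _ _ 𝒪 hl 𝒲 hW Φ Ψ hPr hE
  obtain ⟨g, hg, hg0, hgΦ⟩ := hPr
  obtain ⟨m, hm0, hm1, hm2⟩ := hE
  obtain ⟨g0, hg0span, hgeq⟩ := hm1 g hg
  have hg00 : g0 ≠ 0 := by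
    rintro rfl
    exact hg0 (by rw [hgeq, mul_zero])
  have hz : ∀ z ∈ Ψ, z / g0 ∈ 𝒪 := by
    intro z hz
    obtain ⟨h, hh, o, ho, he⟩ := hm2 z hz
    have : z / g0 = h / g * o := by
      have h1 : z / g0 = (m * z) / g := by
        rw [hgeq]; field_simp
      rw [h1, he]; ring
    rw [this]
    exact 𝒪.mul_mem (hgΦ h hh) ho
  obtain ⟨z, hzΨ, hU⟩ := exists_U_gen (R := 𝒲) hl (fun r => hW _ r.2) Ψ g0 hg00 hz hg0span
  have hz0 : z ≠ 0 := by
    rintro rfl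
    exact hU.1 (by rw [zero_div])
  refine ⟨z, hzΨ, hz0, fun z' hz' => ?_⟩
  have : z' / z = (z' / g0) * (z / g0)⁻¹ := by
    field_simp
  rw [this]
  exact 𝒪.mul_mem (hz z' hz') hU.2.2

end Pool.Agent.H945R2.S
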