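import Pool.Agent.H945R2.S.Props

/-! BLS2: principal ideals, transfer 2 (helper965 for helper945). -/

set_option autoImplicit false

open scoped Pointwise

namespace Pool.Agent.H945R2.S

open Pool.Agent.H918R2.Quad Pool.Agent.H945R2.D MvPolynomial

theorem BLS2_ok : S_BLS2 := by
  intro R F _ _ _ 𝒪 𝒲 𝒲' hW' hle Φ Ψ hP hE
  obtain ⟨m', hm'0, hm'1, z₀, hz₀, hU⟩ := hP
  obtain ⟨m, hm0, hm1, hm2⟩ := hE
  have hmm : m * m' ≠ 0 := mul_ne_zero hm0 hm'0
  have hspan : ∀ g ∈ Submodule.span 𝒲 Ψ, g / m' ∈ 𝒲' := by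
    intro g hg
    induction hg using Submodule.span_induction with
    | mem x hx => exact hm'1 x hx
    | zero => rw [zero_div]; exact 𝒲'.zero_mem
    | add x y _ _ hx hy => rw [add_div]; exact 𝒲'.add_mem hx hy
    | smul a x _ hx =>
      have h1 : a • x = (a : F) * x := rfl
      rw [h1, mul_div_assoc]
      exact 𝒲'.mul_mem (hle a.2) hx
  have hmem : ∀ h ∈ Φ, h / (m * m') ∈ 𝒲' := by
    intro h hh
    obtain ⟨g, hg, rfl⟩ := hm1 h hh
    rw [mul_div_mul_left _ _ hm0]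
    exact hspan g hg
  refine ⟨m * m', hmm, hmem, ?_⟩
  obtain ⟨h, hh, o, ho, he⟩ := hm2 z₀ hz₀
  refine ⟨h, hh, ?_⟩
  refine U.of_mul_left (y := o) (hW' _ (hmem h hh)) ho ?_
  have h2 : h / (m * m') * o = z₀ / m' := by
    rw [div_mul_eq_mul_div, ← he, mul_div_mul_left _ _ hm0]
  rw [h2]
  exact hU

end Pool.Agent.H945R2.S
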