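import Pool.Agent.H945R2.S.Props

/-! DER. The derived factors at the non exceptional points (MP_4d1008_ag). -/

set_option autoImplicit false

open scoped Pointwise

namespace Pool.Agent.H945R2.S

open Pool.Agent.H918R2.Quad Pool.Agent.H945R2.D MvPolynomial

namespace DERaux

variable {R F : Type} [CommRing R] [Field F] [Algebra R F] (𝒲 : Subalgebra R F)

lemma pow_mem {Y : Set F} (hY : ∀ y ∈ Y, y ∈ 𝒲) : ∀ (k : ℕ) (h : F), h ∈ Y ^ k → h ∈ 𝒲 := by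
  intro k
  induction k with
  | zero =>
    intro h hh
    rw [pow_zero, Set.mem_one] at hh
    rw [hh]
    exact 𝒲.one_mem
  | succ k ih =>
    intro h hh
    rw [pow_succ, Set.mem_mul] at hh
    obtain ⟨a, ha, b, hb, rfl⟩ := hh
    exact 𝒲.mul_mem (ih a ha) (hY b hb)

lemma pow_div {B : Set F} {m : F} (hB : ∀ h ∈ B, h / m ∈ 𝒲) :
    ∀ (k : ℕ) (h : F), h ∈ B ^ k → h / m ^ k ∈ 𝒲 := by
  intro k
  induction k with
  | zero =>
    intro h hh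
    rw [pow_zero, Set.mem_one] at hh
    rw [hh, pow_zero, div_one]
    exact 𝒲.one_mem
  | succ k ih =>
    intro h hh
    rw [pow_succ, Set.mem_mul] at hh
    obtain ⟨a, ha, b, hb, rfl⟩ := hh
    have h1 := 𝒲.mul_mem (ih a ha) (hB b hb)
    rwa [div_mul_div_comm, ← pow_succ] at h1

lemma U_mulx {𝒪 : Subring F} {a b : F} (ha : U 𝒪 a) (hb : U 𝒪 b) : U 𝒪 (a * b) :=
  ⟨mul_ne_zero ha.1 hb.1, 𝒪.mul_mem ha.2.1 hb.2.1, by
    rw [mul_inv]; exact 𝒪.mul_mem ha.2.2 hb.2.2⟩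

end DERaux

open DERaux in
theorem DER_ok : S_DER := by
  intro R F _ _ _ 𝒲 𝒪 hW B V Y μ f n h k hV hY hf hB
  obtain ⟨m, hm, hBm, ⟨h0, hh0, hU⟩, hμ⟩ := hB
  refine ⟨⟨m, hm, ?_, h0, Or.inl hh0, hU⟩, m ^ 3, pow_ne_zero _ hm, ?_, h0 ^ 3, ?_, ?_⟩
  · rintro x (hx | hx)
    · exact hBm x hx
    · obtain ⟨a, ha, b, hb, rfl⟩ := Set.mem_mul.1 hx
      obtain ⟨c, hc, d, hd, rfl⟩ := Set.mem_mul.1 ha
      rw [Set.mem_singleton_iff] at hc
      rw [hc]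
      have h1 := 𝒲.mul_mem (𝒲.mul_mem hμ (pow_mem 𝒲 hY _ _ hd)) (pow_mem 𝒲 hV _ _ hb)
      have e : μ * d * b / m = μ / m * d * b := by ring
      rw [e]
      exact h1
  · rintro x ((((hx | hx) | hx) | hx) | hx)
    · exact pow_div 𝒲 hBm 3 x hx
    · obtain ⟨a, ha, b, hb, rfl⟩ := Set.mem_mul.1 hx
      obtain ⟨c, hc, d, hd, rfl⟩ := Set.mem_mul.1 ha
      obtain ⟨c1, hc1, d1, hd1, rfl⟩ := Set.mem_mul.1 hc
      rw [Set.mem_singleton_iff] at hd1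
      rw [hd1]
      have h1 := 𝒲.mul_mem (𝒲.mul_mem (𝒲.mul_mem (pow_div 𝒲 hBm 2 c1 hc1) hμ) (hY d hd))
        (pow_mem 𝒲 hV _ _ hb)
      have e : c1 * μ * d * b / m ^ 3 = c1 / m ^ 2 * (μ / m) * d * b := by
        field_simp
      rw [e]
      exact h1
    · obtain ⟨a, ha, b, hb, rfl⟩ := Set.mem_mul.1 hx
      obtain ⟨c, hc, d, hd, rfl⟩ := Set.mem_mul.1 ha
      obtain ⟨c1, hc1, d1, hd1, rfl⟩ := Set.mem_mul.1 hc
      rw [Set.mem_singleton_iff] at hd1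
      rw [hd1]
      have h1 := 𝒲.mul_mem (𝒲.mul_mem (𝒲.mul_mem (hBm c1 hc1) (𝒲.pow_mem hμ 2))
        (pow_mem 𝒲 hY _ _ hd)) (pow_mem 𝒲 hV _ _ hb)
      have e : c1 * μ ^ 2 * d * b / m ^ 3 = c1 / m * (μ / m) ^ 2 * d * b := by
        field_simp
      rw [e]
      exact h1
    · obtain ⟨a, ha, b, hb, rfl⟩ := Set.mem_mul.1 hx
      obtain ⟨c, hc, d, hd, rfl⟩ := Set.mem_mul.1 ha
      rw [Set.mem_singleton_iff] at hc
      rw [hc]
      have h1 := 𝒲.mul_mem (𝒲.mul_mem (𝒲.pow_mem hμ 3)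
        (pow_mem 𝒲 hY _ _ hd)) (pow_mem 𝒲 hV _ _ hb)
      have e : μ ^ 3 * d * b / m ^ 3 = (μ / m) ^ 3 * d * b := by
        field_simp
      rw [e]
      exact h1
    · obtain ⟨a, ha, b, hb, rfl⟩ := Set.mem_mul.1 hx
      rw [Set.mem_singleton_iff] at ha
      rw [ha]
      have h1 := 𝒲.mul_mem (𝒲.mul_mem (𝒲.pow_mem hμ 3) hf) (pow_mem 𝒲 hV _ _ hb)
      have e : μ ^ 3 * f * b / m ^ 3 = (μ / m) ^ 3 * f * b := by
        field_simp
      rw [e]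
      exact h1
  · refine Or.inl (Or.inl (Or.inl (Or.inl ?_)))
    exact Set.pow_mem_pow hh0
  · have e : h0 ^ 3 / m ^ 3 = h0 / m * (h0 / m) * (h0 / m) := by
      field_simp
    rw [e]
    exact U_mulx (U_mulx hU hU) hU

end Pool.Agent.H945R2.S
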