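import Pool.Agent.H945R2.S.Props
import Pool.Agent.H945R2.D.PB

/-! EXACTZ: the exact Taylor formula (helper228, after helper9's EXACT). -/

set_option autoImplicit false

open scoped Pointwise

namespace Pool.Agent.H945R2.S

open Pool.Agent.H918R2.Quad Pool.Agent.H945R2.D MvPolynomial

namespace EXACTZaux

/-- the universal case, with `p` cancelled -/
theorem univ_case (hPB : S_PB) {R ι : Type} [CommRing R] [IsDomain R] [Fintype ι] (p : ℕ)
    (hp : p.Prime) (hp2 : p ≠ 2) (hpR : (p : R) ≠ 0) (co : ι → R) (g : MvPolynomial ι R)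
    (hrel : GRel p co g) (c : ι → ℕ) (β : R)
    (hβ : (p : R) * β = aeval (fun i => (c i : R)) g - ∑ i, (c i : R)) (σ : ℕ)
    (hσ : ∑ i, c i = p * σ) (κ δ : ι → R)
    (hκ : ∀ i, co i * (c i : R) ^ (p - 1) = δ i + p * κ i) :
    ∃ (ψ : ι → MvPolynomial ι R) (ψ₀ : MvPolynomial ι R),
    aeval (fun i => (c i : MvPolynomial ι R) + X i) g =
      (p : MvPolynomial ι R) * algebraMap R (MvPolynomial ι R) β +
      ∑ i, (c i : MvPolynomial ι R) + ∑ i, algebraMap R (MvPolynomial ι R) (δ i) * X i +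
      (((p - 1) / 2 : ℕ) : MvPolynomial ι R) * ∑ i, algebraMap R (MvPolynomial ι R) (co i) *
        (c i : MvPolynomial ι R) ^ (p - 2) * X i ^ 2 +
      (p : MvPolynomial ι R) * ∑ i, algebraMap R (MvPolynomial ι R) (κ i) * X i -
      (p : MvPolynomial ι R) ^ (p - 1) * (σ : MvPolynomial ι R) ^ (p - 1) * ∑ i, X i -
      (((p - 1) / 2 : ℕ) : MvPolynomial ι R) * (p : MvPolynomial ι R) ^ (p - 2) * (σ : MvPolynomial ι R) ^ (p - 2) *
        (∑ i, X i) ^ 2 +
      ∑ i, algebraMap R (MvPolynomial ι R) (co i) * X i ^ 3 * ψ i - (∑ i, X i) ^ 3 * ψ₀ + g := by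
  choose ψ hψ using fun i => hPB p hp hp2 (c i : MvPolynomial ι R) (X i)
  obtain ⟨ψ₀, hψ₀⟩ := hPB p hp hp2 ((p : MvPolynomial ι R) * σ) (∑ i, X i)
  refine ⟨ψ, ψ₀, ?_⟩
  have hp0 : (p : MvPolynomial ι R) ≠ 0 := by
    intro h
    apply hpR
    have h2 : C (p : R) = (0 : MvPolynomial ι R) := by rw [map_natCast]; exact h
    exact (map_eq_zero_iff C (C_injective ι R)).1 h2
  apply mul_left_cancel₀ hp0
  -- the relation at `c + X`
  have h1 := congrArg (aeval (fun i => (c i : MvPolynomial ι R) + X i)) hrel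
  simp only [map_mul, map_sub, map_sum, map_pow, aeval_X, aeval_C, map_natCast] at h1
  -- the relation at `c`
  have h2 := congrArg (aeval (fun i => (c i : R))) hrel
  simp only [map_mul, map_sub, map_sum, map_pow, aeval_X, aeval_C, map_natCast,
    Algebra.algebraMap_self, RingHom.id_apply] at h2
  have h2' := congrArg (algebraMap R (MvPolynomial ι R)) h2
  have hβ' := congrArg (algebraMap R (MvPolynomial ι R)) hβ
  simp only [map_mul, map_sub, map_sum, map_pow, map_natCast] at h2' hβ'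
  -- the relation itself
  have h3 : (p : MvPolynomial ι R) * g = ∑ i, algebraMap R (MvPolynomial ι R) (co i) * X i ^ p -
      (∑ i, X i) ^ p := by
    have h := hrel
    unfold GRel at h
    rw [map_natCast] at h
    exact h
  have hσ' : (∑ i, (c i : MvPolynomial ι R)) = p * σ := by
    have := congrArg (Nat.cast : ℕ → MvPolynomial ι R) hσ
    push_cast at this
    exact this
  have hκ' : ∀ i, algebraMap R (MvPolynomial ι R) (co i) * (c i : MvPolynomial ι R) ^ (p - 1) =
      algebraMap R (MvPolynomial ι R) (δ i) + p * algebraMap R (MvPolynomial ι R) (κ i) := by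
    intro i
    have := congrArg (algebraMap R (MvPolynomial ι R)) (hκ i)
    simpa only [map_mul, map_add, map_one, map_pow, map_natCast] using this
  have h4 : ∑ i, algebraMap R (MvPolynomial ι R) (co i) * ((c i : MvPolynomial ι R) + X i) ^ p =
      ∑ i, algebraMap R (MvPolynomial ι R) (co i) * (c i : MvPolynomial ι R) ^ p +
      (p : MvPolynomial ι R) * (∑ i, algebraMap R (MvPolynomial ι R) (δ i) * X i +
        (p : MvPolynomial ι R) * ∑ i, algebraMap R (MvPolynomial ι R) (κ i) * X i) +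
      (p : MvPolynomial ι R) * (((p - 1) / 2 : ℕ) : MvPolynomial ι R) * ∑ i, algebraMap R (MvPolynomial ι R) (co i) *
        (c i : MvPolynomial ι R) ^ (p - 2) * X i ^ 2 +
      (p : MvPolynomial ι R) * ∑ i, algebraMap R (MvPolynomial ι R) (co i) * X i ^ 3 * ψ i +
      ∑ i, algebraMap R (MvPolynomial ι R) (co i) * X i ^ p := by
    simp only [Finset.mul_sum, ← Finset.sum_add_distrib]
    refine Finset.sum_congr rfl fun i _ => ?_
    rw [hψ i]
    linear_combination (p : MvPolynomial ι R) * X i * hκ' i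
  have h5 : (∑ i, ((c i : MvPolynomial ι R) + X i)) =
      (p : MvPolynomial ι R) * (σ : MvPolynomial ι R) + ∑ i, X i := by
    rw [Finset.sum_add_distrib, hσ']
  rw [h4, h5, hψ₀, mul_pow, mul_pow, mul_pow] at h1
  rw [hσ'] at h2' hβ'
  rw [mul_pow] at h2'
  rw [hσ']
  linear_combination h1 - h3 - h2' - (p : MvPolynomial ι R) * hβ'

end EXACTZaux

theorem EXACTZ_ok : S_EXACTZ := by
  intro R ι _ _ _ p hp hp2 hpR co g hrel c β hβ σ hσ κ δ hκ B _ _ η
  obtain ⟨ψ, ψ₀, h⟩ := EXACTZaux.univ_case PB_ok p hp hp2 hpR co g hrel c β hβ σ hσ κ δ hκ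
  refine ⟨fun i => (aeval η : MvPolynomial ι R →ₐ[R] B) (ψ i),
    (aeval η : MvPolynomial ι R →ₐ[R] B) ψ₀, ?_⟩
  have h' := congrArg (aeval η : MvPolynomial ι R →ₐ[R] B) h
  rw [MvPolynomial.comp_aeval_apply] at h'
  simpa only [map_mul, map_sub, map_add, map_sum, map_pow, aeval_X, AlgHom.commutes,
    map_natCast] using h'

end Pool.Agent.H945R2.S
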