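import Pool.Agent.H945R2.S.Props
import Pool.Agent.H945R2.D.EXP0

set_option autoImplicit false

open scoped Pointwise

namespace Pool.Agent.H945R2.S

open Pool.Agent.H918R2.Quad Pool.Agent.H945R2.D MvPolynomial

namespace EXPZ0aux

theorem exists_kappas {R ι : Type} [CommRing R] [Fintype ι] (p : ℕ)
    (co : ι → R) (g : MvPolynomial ι R) (hc : Coef p co g) (s : ι) (c : ι → ℕ) (β : R)
    (hs : SpZ p g s c β) : ∃ κ : ι → R,
      (∀ i, c i ≠ 0 → co i * (c i : R) ^ (p - 1) = 1 + p * κ i) ∧ ∀ i, c i = 0 → κ i = 0 := by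
  have : ∀ i, ∃ κ : R, (c i ≠ 0 → co i * (c i : R) ^ (p - 1) = 1 + p * κ) ∧ (c i = 0 → κ = 0) := by
    intro i
    by_cases h : c i = 0
    · exact ⟨0, fun h' => absurd h h', fun _ => rfl⟩
    · obtain ⟨κ, hκ⟩ := EXP0aux.exists_kappa p hc.prime (co i) (c i) (hc.one i)
        (Nat.one_le_iff_ne_zero.2 h) (hs.lt i)
      exact ⟨κ, fun _ => hκ, fun h' => absurd h' h⟩
  choose κ hκ using this
  exact ⟨κ, fun i => (hκ i).1, fun i => (hκ i).2⟩

/-- The second order expansion of the third relation, in terms of `η_d`. -/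
theorem expandZ (hT : S_TAYZ2) (hS : S_SUMZ) {R ι : Type} [CommRing R] [IsDomain R] [Fintype ι]
    [DecidableEq ι] (p : ℕ) (co : ι → R) (g : MvPolynomial ι R) (hc : Coef p co g) (s : ι)
    (c : ι → ℕ) (β : R) (hs : SpZ p g s c β) (Z : Finset ι) (hZ : ∀ i, i ∈ Z ↔ c i = 0) (d : ι)
    (hsd : s ≠ d) (hd : d ∉ Z) (κ : ι → R)
    (hκ : ∀ i, c i ≠ 0 → co i * (c i : R) ^ (p - 1) = 1 + p * κ i)
    (hκ0 : ∀ i, c i = 0 → κ i = 0) (σ : ℕ) (hσ : ∑ i, c i = p * σ)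
    {B : Type} [CommRing B] [Algebra R B] (𝔲 𝔱 : Ideal B) (a b : B) (v : TT Z s d → B)
    (w : ZT Z → B) (j : ℕ) (hp : (p : B) ∈ 𝔲) (hab : a * b ∈ 𝔲) (hv : ∀ k, v k ∈ 𝔲)
    (hw : ∀ z, w z ∈ 𝔱) :
    TotZ p j g c Z s d a b v w - (p * algebraMap R B β + a * b - ∑ z, w z +
      ((p - 1) / 2 : ℕ) * (∑ k : TT Z s d, algebraMap R B (co k) * (c k : B) ^ (p - 2) * v k ^ 2 +
        algebraMap R B (co d) * (c d : B) ^ (p - 2) *
          (a * b - p * σ - ∑ k, v k - ∑ z, w z) ^ 2) +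
      p * (∑ k : TT Z s d, algebraMap R B (κ k) * v k + algebraMap R B (κ d) *
        (a * b - p * σ - ∑ k, v k - ∑ z, w z)) + a ^ (p - 1 - j) * b ^ (p - j)) ∈
      𝔲 ^ 3 ⊔ 𝔲 * 𝔱 ⊔ 𝔱 ^ 2 := by
  have hsZ : s ∉ Z := by
    rw [hZ, hs.one]
    exact one_ne_zero
  have hp3 : 3 ≤ p := by
    have := hc.prime.two_le
    have := hc.odd
    omega
  have hsum := hS Z s d hsd hsZ hd (fun i => (c i : B)) v w (a * b)
  have hσB : (1 : B) + c d + ∑ k : TT Z s d, (c k : B) = p * σ := by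
    have h1 : ∑ i, (c i : B) = (p : B) * σ := by
      have := congrArg (Nat.cast : ℕ → B) hσ
      push_cast at this
      exact this
    rw [← h1, hsum.2 (fun i => (c i : B)), hs.one]
    have h2 : ∑ z : ZT Z, ((c z : ℕ) : B) = 0 := by
      apply Finset.sum_eq_zero
      intro z _
      rw [(hZ _).1 z.2, Nat.cast_zero]
    rw [h2, add_zero, Nat.cast_one]
  set T := TcZ Z s d (fun i => (c i : B)) v w (a * b) with hTdef
  set η : ι → B := fun i => T i - (c i : B) with hη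
  have es : η s = 0 := by
    simp only [hη, hTdef, TcZ, dif_neg hsZ, dif_pos, hs.one, Nat.cast_one, sub_self]
  have ed : η d = a * b - p * σ - ∑ k, v k - ∑ z, w z := by
    simp only [hη, hTdef, TcZ, dif_neg hd, dif_neg hsd.symm, dif_pos]
    rw [← hσB, Finset.sum_add_distrib]
    ring
  have ek : ∀ k : TT Z s d, η k = v k := by
    intro k
    simp only [hη, hTdef, TcZ, dif_neg k.2.1, dif_neg k.2.2.1, dif_neg k.2.2.2]
    ring
  have ez : ∀ z : ZT Z, η z = w z := by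
    intro z
    simp only [hη, hTdef, TcZ, dif_pos z.2, (hZ _).1 z.2, Nat.cast_zero, sub_zero]
  have hηmem : ∀ i, η i ∈ 𝔲 ⊔ 𝔱 := by
    intro i
    by_cases h1 : i ∈ Z
    · exact Ideal.mem_sup_right (by rw [ez ⟨i, h1⟩]; exact hw _)
    · by_cases h2 : i = s
      · rw [h2, es]
        exact Ideal.zero_mem _
      · by_cases h3 : i = d
        · rw [h3, ed]
          apply Ideal.sub_mem
          · apply Ideal.mem_sup_left
            exact 𝔲.sub_mem (𝔲.sub_mem hab (𝔲.mul_mem_right _ hp)) (𝔲.sum_mem fun k _ => hv k)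
          · exact Ideal.mem_sup_right (𝔱.sum_mem fun z _ => hw z)
        · exact Ideal.mem_sup_left (by
            have := ek ⟨i, h1, h2, h3⟩
            rw [this]
            exact hv _)
  have hmain := hT p co g hc s c β hs κ hκ hκ0 𝔲 𝔱 η hp hηmem
  have hTη : (fun i => (c i : B) + η i) = T := by
    funext i
    simp only [hη]
    ring
  have h0 : (((0 : ℕ) : B)) ^ (p - 2) = 0 := by
    rw [Nat.cast_zero]
    exact zero_pow (by omega)
  rw [hTη] at hmain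
  have e1 : Finset.univ.sum T = a * b := hsum.1
  have e2 : ∑ i, (if c i = 0 then η i else 0) = ∑ z, w z := by
    rw [hsum.2 (fun i => if c i = 0 then η i else 0)]
    have h2 : c s ≠ 0 := by rw [hs.one]; exact one_ne_zero
    have h3 : c d ≠ 0 := fun h => hd ((hZ d).2 h)
    rw [if_neg h2, if_neg h3]
    have h4 : ∑ k : TT Z s d, (if c k = 0 then η k else 0) = 0 := by
      apply Finset.sum_eq_zero
      intro k _
      rw [if_neg (fun h => k.2.1 ((hZ _).2 h))]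
    rw [h4]
    simp only [zero_add]
    apply Finset.sum_congr rfl
    intro z _
    rw [if_pos ((hZ _).1 z.2), ez]
  have e3 : ∑ i, algebraMap R B (co i) * (c i : B) ^ (p - 2) * η i ^ 2 =
      ∑ k : TT Z s d, algebraMap R B (co k) * (c k : B) ^ (p - 2) * v k ^ 2 +
        algebraMap R B (co d) * (c d : B) ^ (p - 2) *
          (a * b - p * σ - ∑ k, v k - ∑ z, w z) ^ 2 := by
    rw [hsum.2 (fun i => algebraMap R B (co i) * (c i : B) ^ (p - 2) * η i ^ 2)]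
    have h4 : ∑ z : ZT Z, algebraMap R B (co z) * ((c z : ℕ) : B) ^ (p - 2) * η z ^ 2 = 0 := by
      apply Finset.sum_eq_zero
      intro z _
      rw [(hZ _).1 z.2, h0]
      ring
    rw [h4]
    simp only [es, ed, ek]
    ring
  have e4 : ∑ i, algebraMap R B (κ i) * η i =
      ∑ k : TT Z s d, algebraMap R B (κ k) * v k + algebraMap R B (κ d) *
        (a * b - p * σ - ∑ k, v k - ∑ z, w z) := by
    rw [hsum.2 (fun i => algebraMap R B (κ i) * η i)]
    have h4 : ∑ z : ZT Z, algebraMap R B (κ z) * η z = 0 := by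
      apply Finset.sum_eq_zero
      intro z _
      rw [hκ0 _ ((hZ _).1 z.2), map_zero, zero_mul]
    rw [h4]
    simp only [es, ed, ek]
    ring
  rw [e1, e2, e3, e4] at hmain
  unfold TotZ
  rw [← hTdef]
  convert hmain using 1
  ring

section mem
variable {B : Type} [CommRing B] {𝔲 𝔱 : Ideal B}

theorem uuu {x y z : B} (hx : x ∈ 𝔲) (hy : y ∈ 𝔲) (hz : z ∈ 𝔲) (r : B) :
    x * y * z * r ∈ 𝔲 ^ 3 ⊔ 𝔲 * 𝔱 ⊔ 𝔱 ^ 2 := by
  apply Ideal.mem_sup_left
  apply Ideal.mem_sup_left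
  apply Ideal.mul_mem_right
  rw [show 𝔲 ^ 3 = 𝔲 * 𝔲 * 𝔲 by ring]
  exact Ideal.mul_mem_mul (Ideal.mul_mem_mul hx hy) hz

theorem ut {x y : B} (hx : x ∈ 𝔲) (hy : y ∈ 𝔱) (r : B) :
    x * y * r ∈ 𝔲 ^ 3 ⊔ 𝔲 * 𝔱 ⊔ 𝔱 ^ 2 := by
  apply Ideal.mem_sup_left
  apply Ideal.mem_sup_right
  apply Ideal.mul_mem_right
  exact Ideal.mul_mem_mul hx hy

theorem tt {x y : B} (hx : x ∈ 𝔱) (hy : y ∈ 𝔱) (r : B) :
    x * y * r ∈ 𝔲 ^ 3 ⊔ 𝔲 * 𝔱 ⊔ 𝔱 ^ 2 := by
  apply Ideal.mem_sup_right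
  apply Ideal.mul_mem_right
  rw [sq]
  exact Ideal.mul_mem_mul hx hy

end mem

end EXPZ0aux

open EXPZ0aux in
theorem EXPZ0_ok (hT : S_TAYZ2) (hS : S_SUMZ) : S_EXPZ0 := by
  intro R ι _ _ _ _ p co g hc s c β hs Z hZ d hsd hd
  obtain ⟨κ, hκ, hκ0⟩ := exists_kappas p co g hc s c β hs
  obtain ⟨σ, hσ⟩ := hs.sum
  have hp3 : 3 ≤ p := by
    have := hc.prime.two_le
    have := hc.odd
    omega
  refine ⟨((p - 1) / 2 : ℕ) * (co d * (c d : R) ^ (p - 2)) * (β + σ) ^ 2 - κ d * (β + σ) +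
    (if p = 3 then - β ^ 3 else 0),
    fun k => 2 * ((p - 1) / 2 : ℕ) * (co d * (c d : R) ^ (p - 2)) * (β + σ) + κ k - κ d, ?_⟩
  intro B _ _ Y w hpB
  have hpB' : (p : B) = Y none := by
    rw [hpB]
    ring
  have hY : ∀ k, Y k ∈ Ideal.span (Set.range Y) := fun k => Ideal.subset_span ⟨k, rfl⟩
  have hw : ∀ z, w z ∈ Ideal.span (Set.range w) := fun z => Ideal.subset_span ⟨z, rfl⟩
  have hmain := expandZ hT hS p co g hc s c β hs Z hZ d hsd hd κ hκ hκ0 σ hσ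
    (Ideal.span (Set.range Y)) (Ideal.span (Set.range w)) (Y none)
    (Y (some none) - algebraMap R B β) (fun k => Y (some (some k))) w 0 (hpB' ▸ hY none)
    (Ideal.mul_mem_right _ _ (hY none)) (fun k => hY _) hw
  set 𝔲 := Ideal.span (Set.range Y) with h𝔲
  set 𝔱 := Ideal.span (Set.range w) with h𝔱
  have hlast : Y none ^ (p - 1 - 0) * (Y (some none) - algebraMap R B β) ^ (p - 0) -
      algebraMap R B (if p = 3 then - β ^ 3 else 0) * Y none ^ 2 ∈
        𝔲 ^ 3 ⊔ 𝔲 * 𝔱 ⊔ 𝔱 ^ 2 := by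
    by_cases h3 : p = 3
    · rw [if_pos h3, h3]
      have e : Y none ^ (3 - 1 - 0) * (Y (some none) - algebraMap R B β) ^ (3 - 0) -
        algebraMap R B (- β ^ 3) * Y none ^ 2 = Y none * Y none * Y (some none) *
        ((Y (some none) - algebraMap R B β) ^ 2 -
        (Y (some none) - algebraMap R B β) * algebraMap R B β + (algebraMap R B β) ^ 2) := by
        simp only [map_neg, map_pow]
        norm_num
        ring
      rw [e]
      exact uuu (hY _) (hY _) (hY _) _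
    · obtain ⟨n, hn⟩ : ∃ n, p = n + 4 := ⟨p - 4, by omega⟩
      rw [if_neg h3]
      have e : Y none ^ (p - 1 - 0) * (Y (some none) - algebraMap R B β) ^ (p - 0) -
        algebraMap R B 0 * Y none ^ 2 = Y none * Y none * Y none *
        (Y none ^ n * (Y (some none) - algebraMap R B β) ^ (n + 4)) := by
        rw [hn]
        have : n + 4 - 1 - 0 = n + 3 := by omega
        rw [this, Nat.sub_zero, map_zero]
        ring
      rw [e]
      exact uuu (hY _) (hY _) (hY _) _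
  have hS1 : ∑ k : TT Z s d, Y (some (some k)) ∈ 𝔲 := 𝔲.sum_mem fun k _ => hY _
  have hW1 : ∑ z, w z ∈ 𝔱 := 𝔱.sum_mem fun z _ => hw z
  unfold PhiZ
  simp only [map_add, map_sub, map_mul, map_pow, map_natCast, map_one, map_ofNat]
  have es : ∑ k : TT Z s d, (2 * (((p - 1) / 2 : ℕ) : B) * (algebraMap R B (co d) *
      (c d : B) ^ (p - 2)) * (algebraMap R B β + (σ : B)) + algebraMap R B (κ k) -
      algebraMap R B (κ d)) * Y (some (some k)) =
      (2 * (((p - 1) / 2 : ℕ) : B) * (algebraMap R B (co d) *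
      (c d : B) ^ (p - 2)) * (algebraMap R B β + (σ : B)) - algebraMap R B (κ d)) *
        ∑ k : TT Z s d, Y (some (some k)) +
      ∑ k : TT Z s d, algebraMap R B (κ k) * Y (some (some k)) := by
    rw [Finset.mul_sum, ← Finset.sum_add_distrib]
    apply Finset.sum_congr rfl
    intro k _
    ring
  rw [es]
  have hY0 := hY none
  have hY1 := hY (some none)
  rw [hpB'] at hmain
  generalize TotZ p 0 g c Z s d (Y none) (Y (some none) - algebraMap R B β)
    (fun k => Y (some (some k))) w = Tot at hmain ⊢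
  generalize (∑ k : TT Z s d, Y (some (some k))) = S at hmain hS1 ⊢
  generalize (∑ z, w z) = W at hmain hW1 ⊢
  generalize (∑ k : TT Z s d, algebraMap R B (κ k) * Y (some (some k))) = SK at hmain ⊢
  generalize (∑ k : TT Z s d, algebraMap R B (co k) * (c k : B) ^ (p - 2) *
    Y (some (some k)) ^ 2) = SW at hmain ⊢
  generalize algebraMap R B (if p = 3 then -β ^ 3 else 0) = Zc at hlast ⊢
  generalize (((p - 1) / 2 : ℕ) : B) = K at hmain ⊢
  generalize algebraMap R B (co d) = CD at hmain ⊢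
  generalize (c d : B) ^ (p - 2) = CC at hmain ⊢
  generalize algebraMap R B (κ d) = KD at hmain ⊢
  generalize Y none ^ (p - 1 - 0) * (Y (some none) - algebraMap R B β) ^ (p - 0) = L
    at hmain hlast ⊢
  generalize algebraMap R B β = be at hmain ⊢
  generalize (σ : B) = sg at hmain ⊢
  generalize Y none = al at hmain hlast hY0 ⊢
  generalize Y (some none) = ga at hmain hY1 ⊢
  have hm : al * (be + sg) + S ∈ 𝔲 := 𝔲.add_mem (𝔲.mul_mem_right _ hY0) hS1
  -- the error terms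
  have t1 : al * al * ga * (ga * (K * (CD * CC)) + KD) ∈ 𝔲 ^ 3 ⊔ 𝔲 * 𝔱 ⊔ 𝔱 ^ 2 :=
    uuu hY0 hY0 hY1 _
  have t2 : al * ga * (al * (be + sg) + S) * (-2 * (K * (CD * CC))) ∈
    𝔲 ^ 3 ⊔ 𝔲 * 𝔱 ⊔ 𝔱 ^ 2 := uuu hY0 hY1 hm _
  have t3 : al * W * (-2 * ga * (K * (CD * CC)) - KD) ∈ 𝔲 ^ 3 ⊔ 𝔲 * 𝔱 ⊔ 𝔱 ^ 2 := ut hY0 hW1 _
  have t4 : (al * (be + sg) + S) * W * (2 * (K * (CD * CC))) ∈ 𝔲 ^ 3 ⊔ 𝔲 * 𝔱 ⊔ 𝔱 ^ 2 :=
    ut hm hW1 _
  have t5 : W * W * (K * (CD * CC)) ∈ 𝔲 ^ 3 ⊔ 𝔲 * 𝔱 ⊔ 𝔱 ^ 2 := tt hW1 hW1 _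
  have hsum := add_mem (add_mem (add_mem (add_mem (add_mem (add_mem hmain hlast) t1) t2) t3) t4) t5
  convert hsum using 1
  ring

end Pool.Agent.H945R2.S
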