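import Pool.Agent.H945R2.S.Props2
import Pool.Agent.H945R2.D.FINAL

/-! Final assembly: regular models of diagonal hypersurfaces of odd degree over number
fields (MP_4d1008_ag). -/

set_option autoImplicit false

open AlgebraicGeometry CategoryTheory NumberField

namespace Pool.Agent.H945R2.S

open Pool.Agent.H918R2.Quad Pool.Agent.H945R2.D MvPolynomial

theorem badM (h1 : S_BAD) (h2 : S_BADS) : BadM := by
  intro O R K F _ _ _ _ _ _ _ _ _ _ _ _ _ 𝔭 _ _ _ _ _ _ n p e hp hp2 hirr he heU a ha x hx0 hrel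
    hgen hlin b htb
  by_cases h : e = 1
  · subst h
    simp only [mul_one] at hrel
    simp only [pow_one] at hlin
    exact h1 (R := R) (K := K) 𝔭 p hp hp2 hirr a ha x hx0 hrel hgen hlin b htb
  · exact h2 (R := R) (K := K) 𝔭 p e hp hp2 hirr (by omega) heU a ha x hx0 hrel hgen hlin b htb

theorem final (hGLO : S_GLOM) (hFLD : S_FLDM) (hIRR : S_IRRM) {K : Type} [Field K] [NumberField K]
    (m : ℕ) (hm3 : 3 ≤ m) (hodd : Odd m) (n : ℕ) (hn : 1 ≤ n) (a : Fin (n + 2) → 𝓞 K)
    (hsq : Squarefree (Ideal.span {(m : 𝓞 K) * ∏ i, a i}))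
    {F : Type} [Field F] (e : F ≃+* FractionRing (MvPolynomial (Fin (n + 1)) K ⧸
      Ideal.span {(C (algebraMap (𝓞 K) K (a 0)) +
        ∑ i : Fin (n + 1), C (algebraMap (𝓞 K) K (a i.succ)) * X i ^ m :
          MvPolynomial (Fin (n + 1)) K)})) :
    ∃ (X' : Scheme.{0}) (_ : IsIntegral X') (g : X' ⟶ Spec (CommRingCat.of ℤ)),
      IsProper g ∧
      (∀ x : X',
        (((Module.finrank (IsLocalRing.ResidueField (X'.presheaf.stalk x))
            (IsLocalRing.CotangentSpace (X'.presheaf.stalk x)) : ℕ∞)) : WithBot ℕ∞)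
          = ringKrullDim (X'.presheaf.stalk x)) ∧
      Nonempty (X'.functionField ≃+* F) := by
  have hOK : Function.Injective (algebraMap (𝓞 K) K) := IsFractionRing.injective (𝓞 K) K
  have hne : (m : 𝓞 K) * ∏ i, a i ≠ 0 := by
    intro h0
    rw [h0, Ideal.span_singleton_eq_bot.2 rfl] at hsq
    exact not_squarefree_zero hsq
  have ha : ∀ i, a i ≠ 0 := by
    intro i
    exact (Finset.prod_ne_zero_iff.1 (right_ne_zero_of_mul hne)) i (Finset.mem_univ i)
  have haK : ∀ i, algebraMap (𝓞 K) K (a i) ≠ 0 := by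
    intro i h0
    exact ha i (hOK (by rw [h0, map_zero]))
  obtain ⟨alg, x, b, hx0, hrel, hgen, hlin, htb⟩ := hFLD n m (by omega)
    (fun i => algebraMap (𝓞 K) K (a i)) haK
    (hIRR n hn m (by omega) (fun i => algebraMap (𝓞 K) K (a i)) haK) e
  let _ : Algebra (𝓞 K) F := ((algebraMap K F).comp (algebraMap (𝓞 K) K)).toAlgebra
  have _ : IsScalarTower (𝓞 K) K F := IsScalarTower.of_algebraMap_eq fun _ => rfl
  have hOF : Function.Injective (algebraMap (𝓞 K) F) := by
    rw [IsScalarTower.algebraMap_eq (𝓞 K) K F]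
    exact (algebraMap K F).injective.comp hOK
  refine model_of_hasModule hOF (hGLO (K := K) (fun 𝔭 _ h => Ideal.finiteQuotientOfFreeOfNeBot 𝔭 h)
    m hm3 hodd a (not_mem_sq _ hsq) x hx0 ?_ hgen hlin b htb)
  simpa only [← IsScalarTower.algebraMap_apply (𝓞 K) K F] using hrel

end Pool.Agent.H945R2.S
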