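import Pool.Agent.H945R2.S.Props2

/-! FINS: finitely many factors (helper642, adapted from D/FIN). -/

set_option autoImplicit false

open scoped Pointwise

namespace Pool.Agent.H945R2.S

open Pool.Agent.H918R2.Quad Pool.Agent.H945R2.D MvPolynomial

namespace FINSaux

/-- The finitely many base factors with their data. -/
theorem finite_base {F ι : Type} [Field F] [Fintype ι] (p e : ℕ) (x X : ι → F) (s : ι)
    (c : ι → ℕ) (β : F) :
    {t : Set F × F × ℕ | IsBase p e x X s c β t.1 t.2.1 t.2.2}.Finite := by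
  have h1 : {t : Set F × F × ℕ | IsBase p e x X s c β t.1 t.2.1 t.2.2} ⊆
      ({(B0 p e x X s c β, (p : F), e)} ∪
        (fun j => (Bj p e x X s c j, (p : F) * (∑ i, X i) ^ j, e * (j + 1))) '' (Set.Iio p)) ∪
        {(Bl p e x X s c, (p : F), e * p)} := by
    rintro ⟨B, μ, n⟩ h
    rcases h with ⟨h1, h2, h3⟩ | ⟨j, hj1, hj2, h1, h2, h3⟩ | ⟨h1, h2, h3⟩
    · refine Or.inl (Or.inl ?_)
      simp only at h1 h2 h3
      rw [h1, h2, h3]
      exact Set.mem_singleton _
    · refine Or.inl (Or.inr ⟨j, ?_, ?_⟩)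
      · rw [Set.mem_Iio]
        omega
      · simp only at h1 h2 h3
        rw [h1, h2, h3]
    · refine Or.inr ?_
      simp only at h1 h2 h3
      rw [h1, h2, h3]
      exact Set.mem_singleton _
  exact Set.Finite.subset (((Set.finite_singleton _).union ((Set.finite_Iio p).image _)).union
    (Set.finite_singleton _)) h1

end FINSaux

theorem FINS_ok : S_FINS := by
  intro R F ι _ _ _ _ _ _ p e h hp g x X
  have h1 : {S | IsFacS p e h g x X S} ⊆
      ({Set.range x} ∪ (fun j => Ifs p e x X j) '' (Set.Iio p)) ∪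
      ⋃ s ∈ (Set.univ : Set ι), ⋃ c ∈ Set.pi Set.univ (fun _ : ι => Set.Iio p),
        ⋃ β ∈ {β : R | SpZ p g s c β},
        ⋃ t ∈ {t : Set F × F × ℕ | IsBase p e x X s c (algebraMap R F β) t.1 t.2.1 t.2.2},
          ((fun k => Nd t.1 t.2.1 (Set.range x) (Yc x c) t.2.2 k) '' (Set.Iic h) ∪
            {Cd t.1 t.2.1 (fc X c) (Set.range x) (Yc x c) t.2.2 h}) := by
    intro S hS
    rcases hS with hS | ⟨j, hj1, hj2, hS⟩ | ⟨s, c, β, hsp, hlt, B, μ, n, hB, hS⟩
    · exact Or.inl (Or.inl hS)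
    · exact Or.inl (Or.inr ⟨j, hj2, hS.symm⟩)
    · refine Or.inr ?_
      simp only [Set.mem_iUnion]
      refine ⟨s, Set.mem_univ s, c, fun i _ => hsp.lt i, β, hsp, (B, μ, n), hB, ?_⟩
      rcases hS with ⟨k, hk1, hk2, hS⟩ | ⟨he, hS⟩
      · exact Or.inl ⟨k, hk2, hS.symm⟩
      · exact Or.inr hS
  refine Set.Finite.subset ?_ h1
  refine Set.Finite.union (Set.Finite.union (Set.finite_singleton _)
    ((Set.finite_Iio p).image _)) ?_
  refine Set.Finite.biUnion Set.finite_univ fun s _ => ?_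
  refine Set.Finite.biUnion
    (Set.Finite.pi (t := fun _ : ι => Set.Iio p) fun _ => Set.finite_Iio p) fun c _ => ?_
  refine Set.Finite.biUnion ?_ fun β _ => ?_
  · apply Set.Subsingleton.finite
    intro β hβ β' hβ'
    have h2 : (p : R) * β = (p : R) * β' := by
      rw [hβ.val, hβ'.val]
    exact mul_left_cancel₀ hp h2
  · refine Set.Finite.biUnion (FINSaux.finite_base p e x X s c _) fun t _ => ?_
    exact Set.Finite.union ((Set.finite_Iic h).image _) (Set.finite_singleton _)

end Pool.Agent.H945R2.S
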