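import Pool.Agent.H945R2.S.Props2

/-! # The function field of a diagonal hypersurface (task FLDM, adapted from FLD) -/

set_option autoImplicit false

open scoped Pointwise

namespace Pool.Agent.H945R2.S

open Pool.Agent.H918R2.Quad Pool.Agent.H945R2.D MvPolynomial

/-- FLDM. -/
theorem FLDM_ok : S_FLDM := by
  intro K _ _ m p hp2 a ha hirr F _ e
  classical
  set q : MvPolynomial (Fin (m + 1)) K := C (a 0) + ∑ i : Fin (m + 1), C (a i.succ) * X i ^ p with hq
  set I : Ideal (MvPolynomial (Fin (m + 1)) K) := Ideal.span {q} with hI
  let A := MvPolynomial (Fin (m + 1)) K ⧸ I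
  let φ : MvPolynomial (Fin (m + 1)) K →+* F :=
    (e.symm : FractionRing A →+* F).comp
      ((algebraMap A (FractionRing A)).comp (Ideal.Quotient.mk I))
  have hinj : Function.Injective (algebraMap A (FractionRing A)) :=
    IsLocalization.injective (FractionRing A) (le_refl (nonZeroDivisors A))
  have hker : ∀ P, φ P = 0 → q ∣ P := by
    intro P hP
    have h1 : algebraMap A (FractionRing A) (Ideal.Quotient.mk I P) = 0 := by
      have : e.symm (algebraMap A (FractionRing A) (Ideal.Quotient.mk I P)) = 0 := hP
      exact (map_eq_zero_iff e.symm e.symm.injective).1 this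
    have h2 : Ideal.Quotient.mk I P = 0 := hinj (by rw [h1, map_zero])
    rw [Ideal.Quotient.eq_zero_iff_mem, hI, Ideal.mem_span_singleton] at h2
    exact h2
  have hφq : φ q = 0 := by
    have : Ideal.Quotient.mk I q = 0 := by
      rw [Ideal.Quotient.eq_zero_iff_mem, hI, Ideal.mem_span_singleton]
    simp [φ, this]
  let alg : Algebra K F := (φ.comp C).toAlgebra
  have halg : ∀ c : K, algebraMap K F c = φ (C c) := fun c => rfl
  let x : Fin (m + 2) → F := Fin.cons 1 (fun i => φ (X i))
  have hx0 : x 0 = 1 := rfl
  have hxs : ∀ i : Fin (m + 1), x i.succ = φ (X i) := fun i => rfl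
  have hfrac : ∀ y : F, ∃ P s, φ s ≠ 0 ∧ y = φ P / φ s := by
    intro y
    obtain ⟨u, v, hv, huv⟩ : ∃ (u v : A), v ∈ nonZeroDivisors A ∧
        e y * algebraMap A (FractionRing A) v = algebraMap A (FractionRing A) u := by
      obtain ⟨⟨u, v⟩, h⟩ := IsLocalization.surj (nonZeroDivisors A) (e y)
      exact ⟨u, v, v.2, h⟩
    obtain ⟨P, rfl⟩ := Ideal.Quotient.mk_surjective u
    obtain ⟨s, rfl⟩ := Ideal.Quotient.mk_surjective v
    have hnt : Nontrivial A := by
      have : Nontrivial (FractionRing A) := e.symm.toEquiv.nontrivial
      exact (algebraMap A (FractionRing A)).domain_nontrivial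
    have hs : φ s ≠ 0 := by
      intro h
      have h1 : algebraMap A (FractionRing A) (Ideal.Quotient.mk I s) = 0 := by
        have : e.symm (algebraMap A (FractionRing A) (Ideal.Quotient.mk I s)) = 0 := h
        exact (map_eq_zero_iff e.symm e.symm.injective).1 this
      have h2 : Ideal.Quotient.mk I s = 0 := hinj (by rw [h1, map_zero])
      rw [h2] at hv
      exact zero_notMem_nonZeroDivisors hv
    refine ⟨P, s, hs, ?_⟩
    rw [eq_div_iff hs]
    apply e.injective
    rw [map_mul]
    have h3 : e (φ s) = algebraMap A (FractionRing A) (Ideal.Quotient.mk I s) :=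
      e.apply_symm_apply _
    have h4 : e (φ P) = algebraMap A (FractionRing A) (Ideal.Quotient.mk I P) :=
      e.apply_symm_apply _
    rw [h3, h4]
    exact huv
  have hmem : ∀ (L : IntermediateField K F), (∀ i, φ (X i) ∈ L) → ∀ P, φ P ∈ L := by
    intro L hL P
    induction P using MvPolynomial.induction_on with
    | C c => rw [← halg]; exact L.algebraMap_mem c
    | add P Q hP hQ => rw [map_add]; exact L.add_mem hP hQ
    | mul_X P i hP => rw [map_mul]; exact L.mul_mem hP (hL i)
  have hgen : IntermediateField.adjoin K (Set.range x) = ⊤ := by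
    rw [eq_top_iff]
    intro y _
    obtain ⟨P, s, hs, rfl⟩ := hfrac y
    have hL : ∀ i, φ (X i) ∈ IntermediateField.adjoin K (Set.range x) := fun i =>
      IntermediateField.subset_adjoin K _ ⟨i.succ, rfl⟩
    exact IntermediateField.div_mem _ (hmem _ hL P) (hmem _ hL s)
  have hrel : ∑ i, algebraMap K F (a i) * x i ^ p = 0 := by
    rw [Fin.sum_univ_succ, hx0]
    have : φ q = algebraMap K F (a 0) * 1 ^ p + ∑ i : Fin (m + 1), algebraMap K F (a i.succ) * x i.succ ^ p := by
      rw [hq, map_add, map_sum]
      simp only [map_mul, map_pow, hxs, halg, one_pow, mul_one]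
    rw [← this, hφq]
  set x' : Fin m → F := fun i => x i.succ.succ with hx'
  have hdq : degreeOf 0 q = p := by
    have h1 : finSuccEquiv K m q = Polynomial.C (C (a 0) + ∑ i : Fin m, C (a i.succ.succ) * X i ^ p)
        + Polynomial.C (C (a 1)) * Polynomial.X ^ p := by
      rw [hq, map_add, map_sum, Fin.sum_univ_succ]
      simp only [map_mul, map_pow, finSuccEquiv_X_zero, finSuccEquiv_X_succ, map_add, map_sum]
      have hC : ∀ c : K, finSuccEquiv K m (C c) = Polynomial.C (C c) := by
        intro c
        have := AlgEquiv.commutes (finSuccEquiv K m) c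
        simpa using! this
      simp only [hC]
      rw [show (Fin.succ (0 : Fin (m + 1))) = 1 from rfl]
      ring
    rw [← natDegree_finSuccEquiv, h1]
    have hne : (C (a 1) : MvPolynomial (Fin m) K) ≠ 0 := by
      rw [Ne, MvPolynomial.C_eq_zero]; exact ha 1
    rw [Polynomial.natDegree_add_eq_right_of_natDegree_lt]
    · exact Polynomial.natDegree_C_mul_X_pow _ _ hne
    · rw [Polynomial.natDegree_C_mul_X_pow _ _ hne, Polynomial.natDegree_C]; omega
  have hq0 : q ≠ 0 := by
    intro h; rw [h, degreeOf_zero] at hdq; omega
  refine ⟨alg, x, x', hx0, hrel, hgen, ?_, ?_⟩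
  · intro k hk1 hk2
    rw [Fintype.linearIndependent_iff]
    intro v hv
    set P : MvPolynomial (Fin (m + 1)) K := C (v 0) + ∑ i : Fin (m + 1), C (v i.succ) * X i ^ k with hP
    have hφP : φ P = 0 := by
      rw [← hv, Fin.sum_univ_succ, hx0, hP, map_add, map_sum]
      simp only [Algebra.smul_def, halg, hxs, map_mul, map_pow, one_pow, mul_one]
    have hP0 : P = 0 := by
      by_contra hne
      obtain ⟨r, hr⟩ := hker P hφP
      have hr0 : r ≠ 0 := by
        rintro rfl
        exact hne (by rw [hr, mul_zero])
      have hd := degreeOf_mul_eq (n := (0 : Fin (m + 1))) hq0 hr0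
      rw [← hr, hdq] at hd
      have h1 : degreeOf 0 P ≤ k := by
        rw [hP]
        refine (degreeOf_add_le _ _ _).trans (max_le ?_ ?_)
        · rw [degreeOf_C]; exact Nat.zero_le _
        · refine (degreeOf_sum_le _ _ _).trans (Finset.sup_le fun i _ => ?_)
          refine (degreeOf_C_mul_le _ _ _).trans ?_
          refine (degreeOf_pow_le _ _ _).trans ?_
          rw [degreeOf_X]
          split_ifs <;> simp
      omega
    intro i
    refine Fin.cases ?_ (fun j => ?_) i
    · have h := congrArg (coeff 0) hP0
      rw [hP, coeff_add, coeff_sum, coeff_C, if_pos rfl, coeff_zero] at h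
      rw [Finset.sum_eq_zero, add_zero] at h
      · exact h
      · intro l _
        rw [coeff_C_mul, coeff_X_pow, if_neg, mul_zero]
        intro hh
        have := congrArg (fun f => f l) hh
        simp at this
        omega
    · have h := congrArg (coeff (Finsupp.single j k)) hP0
      rw [hP, coeff_add, coeff_sum, coeff_C, if_neg, zero_add, coeff_zero,
        Finset.sum_eq_single j] at h
      · rwa [coeff_C_mul, coeff_X_pow, if_pos rfl, mul_one] at h
      · intro l _ hl
        rw [coeff_C_mul, coeff_X_pow, if_neg, mul_zero]
        intro hh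
        exact hl (Finsupp.single_left_injective (by omega) hh)
      · intro hh
        exact absurd (Finset.mem_univ _) hh
      · intro hh
        have := congrArg (fun f => f j) hh
        simp at this
        omega
  have hind : AlgebraicIndependent K x' := by
    rw [algebraicIndependent_iff]
    intro P hp
    have h1 : aeval x' P = φ (rename Fin.succ P) := by
      have : (aeval x' : MvPolynomial (Fin m) K →ₐ[K] F).toRingHom =
          φ.comp (rename Fin.succ : MvPolynomial (Fin m) K →ₐ[K] _).toRingHom := by
        apply MvPolynomial.ringHom_ext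
        · intro c; simp [halg]
        · intro i; simp [hx', hxs]
      exact RingHom.congr_fun this P
    rw [h1] at hp
    obtain ⟨r, hr⟩ := hker _ hp
    by_contra hp0
    have hrp : rename Fin.succ P ≠ (0 : MvPolynomial (Fin (m + 1)) K) := by
      intro h
      exact hp0 (rename_injective _ (Fin.succ_injective m) (by rw [h, map_zero]))
    have hr0 : r ≠ 0 := by
      rintro rfl
      exact hrp (by rw [hr, mul_zero])
    have hd := degreeOf_mul_eq (n := (0 : Fin (m + 1))) hq0 hr0
    rw [← hr, hdq] at hd
    have h0 : degreeOf 0 (rename Fin.succ P : MvPolynomial (Fin (m + 1)) K) = 0 := by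
      rw [← natDegree_finSuccEquiv]
      have : finSuccEquiv K m (rename Fin.succ P) = Polynomial.C P := by
        have : ((finSuccEquiv K m : _ →ₐ[K] _).comp
            (rename Fin.succ : MvPolynomial (Fin m) K →ₐ[K] _)).toRingHom =
            (Polynomial.C : MvPolynomial (Fin m) K →+* _) := by
          apply MvPolynomial.ringHom_ext
          · intro c
            have := AlgEquiv.commutes (finSuccEquiv K m) c
            simpa using! this
          · intro i; simp [finSuccEquiv_X_succ]
        exact RingHom.congr_fun this P
      rw [this, Polynomial.natDegree_C]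
    omega
  rw [isTranscendenceBasis_iff_algebraicIndependent_isAlgebraic]
  refine ⟨hind, ?_⟩
  have halgL : Algebra.IsAlgebraic (IntermediateField.adjoin K (Set.range x')) F := by
    set L := IntermediateField.adjoin K (Set.range x') with hL
    have hx'L : ∀ i, x' i ∈ L := fun i => IntermediateField.subset_adjoin K _ ⟨i, rfl⟩
    have hx1 : IsAlgebraic L (x 1) := by
      have hc : algebraMap K F (a 0) + ∑ i : Fin m, algebraMap K F (a i.succ.succ) * x' i ^ p ∈ L :=
        L.add_mem (L.algebraMap_mem _) (L.sum_mem fun i _ => L.mul_mem (L.algebraMap_mem _)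
          (pow_mem (hx'L i) p))
      refine ⟨Polynomial.C (algebraMap K L (a 1)) * Polynomial.X ^ p + Polynomial.C ⟨_, hc⟩, ?_, ?_⟩
      · intro h
        have := congrArg (fun f => Polynomial.coeff f p) h
        simp only [Polynomial.coeff_add, Polynomial.coeff_C_mul, Polynomial.coeff_X_pow,
          Polynomial.coeff_C, Polynomial.coeff_zero] at this
        rw [if_pos trivial, mul_one, if_neg (by omega : ¬ p = 0), add_zero, map_eq_zero] at this
        exact ha 1 this
      · have h2 : (∑ i, algebraMap K F (a i) * x i ^ p) = algebraMap K F (a 0) +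
            (algebraMap K F (a 1) * x 1 ^ p +
              ∑ i : Fin m, algebraMap K F (a i.succ.succ) * x' i ^ p) := by
          rw [Fin.sum_univ_succ, Fin.sum_univ_succ, hx0]
          simp [hx']
        rw [hrel] at h2
        simp only [map_add, map_mul, Polynomial.aeval_C, map_pow, Polynomial.aeval_X]
        rw [← IsScalarTower.algebraMap_apply K L F]
        have h3 : algebraMap L F ⟨_, hc⟩ = algebraMap K F (a 0) +
          ∑ i : Fin m, algebraMap K F (a i.succ.succ) * x' i ^ p := rfl
        rw [h3]
        linear_combination -h2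
    have htop : (algebraicClosure L F).restrictScalars K = ⊤ := by
      rw [eq_top_iff, ← hgen, IntermediateField.adjoin_le_iff]
      rintro _ ⟨i, rfl⟩
      rw [SetLike.mem_coe, IntermediateField.mem_restrictScalars, mem_algebraicClosure_iff]
      refine Fin.cases ?_ (fun i => Fin.cases ?_ (fun i => ?_) i) i
      · rw [hx0]; exact isAlgebraic_one
      · exact hx1
      · exact isAlgebraic_algebraMap (⟨x' i, hx'L i⟩ : L)
    refine ⟨fun y => ?_⟩
    have : y ∈ (algebraicClosure L F).restrictScalars K := by rw [htop]; trivial
    rw [IntermediateField.mem_restrictScalars, mem_algebraicClosure_iff] at this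
    exact this
  open scoped IntermediateField.algebraAdjoinAdjoin in
  exact (IsFractionRing.comap_isAlgebraic_iff (A := Algebra.adjoin K (Set.range x'))
    (K := IntermediateField.adjoin K (Set.range x')) (C := F)).2 halgL


end Pool.Agent.H945R2.S
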