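import Pool.Agent.H945R2.S.Props2
import Pool.Agent.H945R2.D.GD1

/-! GD1M: good primes, any degree. -/

set_option autoImplicit false

open scoped Pointwise

namespace Pool.Agent.H945R2.S

open Pool.Agent.H918R2.Quad Pool.Agent.H945R2.D MvPolynomial

theorem GD1M_ok : S_GD1M := by
  intro R F ι _ _ _ _ _ _ _ 𝒪 hloc hR p hpu hp a ha x hrel hind D hD f hf hfG hG hloc2
  have hp0 : p ≠ 0 := by omega
  obtain ⟨g, hg, hU⟩ := exists_U_gen hloc hR _ f hf hG hfG
  obtain ⟨s, hs, hz, hfh⟩ := Pool.Agent.H945R2.D.GD1aux.exists_coord 𝒪 x D hD f hG g hg hU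
  obtain ⟨j₀, hj₀⟩ := hind s hs
  set t : ι → F := fun j => x j / x s with ht
  have hts : t s = 1 := div_self hs
  let E : MvPolynomial {j : ι // j ≠ s} R := ∑ i, C (a i) * tau s i ^ p
  let I : Ideal (MvPolynomial {j : ι // j ≠ s} R) := Ideal.span {E}
  let eW : MvPolynomial {j : ι // j ≠ s} R →ₐ[R] F :=
    aeval (fun j : {j : ι // j ≠ s} => t j)
  have heC : ∀ r, eW (C r) = algebraMap R F r := fun r => aeval_C _ r
  have heX : ∀ j, eW (X j) = t j := fun j => aeval_X _ j
  have heW : ∀ w, eW w ∈ 𝒪 := by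
    intro w
    induction w using MvPolynomial.induction_on with
    | C r => rw [heC]; exact hR r
    | add p q hp hq => rw [map_add]; exact 𝒪.add_mem hp hq
    | mul_X p j hp => rw [map_mul, heX]; exact 𝒪.mul_mem hp (hz _)
  have hmap : ∀ j, eW (tau s j) = t j := fun j => Pool.Agent.H945R2.D.GD1aux.aeval_tau' s t hts j
  have hEt : eW E = 0 := by
    simp only [E, map_sum, map_mul, map_pow, heC, hmap]
    have h1 : ∀ i, algebraMap R F (a i) * t i ^ p =
        (algebraMap R F (a i) * x i ^ p) * ((x s)⁻¹) ^ p := by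
      intro i
      simp only [ht]
      rw [div_eq_mul_inv, mul_pow, mul_assoc]
    simp only [h1]
    rw [← Finset.sum_mul, hrel, zero_mul]
  have hI : ∀ w ∈ I, eW w = 0 := by
    intro w hw
    obtain ⟨c, rfl⟩ := Ideal.mem_span_singleton.1 hw
    rw [map_mul, hEt, zero_mul]
  have hzt : ∀ j, x j = x s * eW (tau s j) := by
    intro j
    rw [hmap]
    simp only [ht]
    field_simp
  have hG' : ∀ g ∈ Set.range x ^ D, ∃ w, g = x s ^ D * eW w := by
    intro g hg
    obtain ⟨φ, rfl⟩ := (Pool.Agent.H945R2.D.GD1aux.mem_range_pow x D g).1 hg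
    refine ⟨∏ i, tau s (φ i), ?_⟩
    rw [map_prod]
    have h1 : ∏ i, x (φ i) = ∏ i, (x s * eW (tau s (φ i))) :=
      Finset.prod_congr rfl fun i _ => hzt (φ i)
    rw [h1, Finset.prod_mul_distrib, Finset.prod_const, Finset.card_univ, Fintype.card_fin]
  have hfrac := frac_of_chart eW heW (Set.range x ^ D) f (x s ^ D) (pow_ne_zero D hs) hG' hfG hfh
    hloc2
  have hE0 : constantCoeff E = a s := by
    simp only [E, map_sum, map_mul, map_pow, constantCoeff_C]
    rw [Finset.sum_eq_single s]
    · simp [tau]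
    · intro j _ hj
      simp [tau, hj, hp0]
    · intro h
      exact absurd (Finset.mem_univ s) h
  have hEne : E ≠ 0 := by
    intro h
    rw [h, map_zero] at hE0
    exact (ha s).ne_zero hE0.symm
  have hpd : ∀ j : {j : ι // j ≠ s}, pderiv j E = C ((p : R) * a j) * X j ^ (p - 1) := by
    intro j
    simp only [E, map_sum]
    rw [Finset.sum_eq_single (j : ι)]
    · have h1 : tau (R := R) s (j : ι) = X j := by
        unfold tau
        rw [dif_neg j.2]
      rw [h1, Derivation.leibniz, pderiv_C, Derivation.leibniz_pow, pderiv_X_self]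
      simp only [smul_zero, add_zero, smul_eq_mul, C_mul, nsmul_eq_mul, mul_one]
      rw [show (C (p : R) : MvPolynomial {j : ι // j ≠ s} R) = (p : MvPolynomial _ R) from
        map_natCast C p]
      ring
    · intro i _ hi
      have h1 : pderiv j (tau (R := R) s i) = 0 := by
        unfold tau
        by_cases h : i = s
        · rw [dif_pos h]; simp
        · rw [dif_neg h, pderiv_X_of_ne]
          intro h2
          exact hi (congrArg Subtype.val h2)
      rw [Derivation.leibniz, pderiv_C, Derivation.leibniz_pow, h1]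
      simp
    · intro h
      exact absurd (Finset.mem_univ _) h
  obtain ⟨A, _, _, pr, hpr, hprk, hpr0⟩ := exists_quot (R := R) I
  have haev : ∀ p : MvPolynomial {j : ι // j ≠ s} R,
      aeval (fun j : {j : ι // j ≠ s} => (X j : MvPolynomial {j : ι // j ≠ s} R)) p = p := by
    intro p
    rw [aeval_X_left_apply]
  refine regular_of_pres 𝒪 hloc pr hpr eW ?_ heW hfrac ?_
    (fun j : {j : ι // j ≠ s} => X j) E hEne ?_ j₀ ?_ ?_
  · intro w hw
    exact hI w ((hpr0 w).1 hw)
  · intro q hq hqm
    by_cases hall : ∀ j : {j : ι // j ≠ s}, pr (X j) ∈ q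
    · exfalso
      have h1 : pr E = 0 := (hpr0 E).2 (Ideal.mem_span_singleton_self _)
      have h2 : pr E = pr (C (a s)) + ∑ i ∈ Finset.univ.erase s, pr (C (a i) * tau s i ^ p) := by
        simp only [E]
        rw [map_sum, ← Finset.add_sum_erase _ _ (Finset.mem_univ s)]
        congr 1
        unfold tau
        rw [dif_pos rfl]
        simp
      have h3 : pr (C (a s)) ∈ q := by
        have h4 : ∑ i ∈ Finset.univ.erase s, pr (C (a i) * tau s i ^ p) ∈ q := by
          refine q.sum_mem fun i hi => ?_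
          have hi' := (Finset.mem_erase.1 hi).1
          rw [map_mul, map_pow]
          apply q.mul_mem_left
          apply Ideal.pow_mem_of_mem _ _ _ (Nat.pos_of_ne_zero hp0)
          unfold tau
          rw [dif_neg hi']
          exact hall ⟨i, hi'⟩
        rw [h1] at h2
        have h5 : pr (C (a s)) = - ∑ i ∈ Finset.univ.erase s, pr (C (a i) * tau s i ^ p) :=
          eq_neg_of_add_eq_zero_left h2.symm
        rw [h5]
        exact q.neg_mem h4
      exact Ideal.IsPrime.ne_top hq (Ideal.eq_top_of_isUnit_mem q h3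
        (((ha s).map (C (σ := {j : ι // j ≠ s}))).map pr))
    · push Not at hall
      obtain ⟨j, hj⟩ := hall
      refine regular_of_pderiv E (pr : _ →+* A) hpr hprk q j ?_
      rw [hpd]
      intro h
      have h1 : pr (C ((p : R) * a j)) * pr (X j) ^ (p - 1) ∈ q := by
        rw [← map_pow, ← map_mul]; exact h
      rcases Ideal.IsPrime.mem_or_mem hq h1 with h2 | h2
      · exact Ideal.IsPrime.ne_top hq (Ideal.eq_top_of_isUnit_mem q h2
          (((hpu.mul (ha j)).map (C (σ := {j : ι // j ≠ s}))).map pr))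
      · exact hj (Ideal.IsPrime.mem_of_pow_mem hq _ h2)
  · rw [haev, hpr0]
    exact Ideal.mem_span_singleton_self _
  · convert hj₀ using 2 with j
    exact heX _
  · intro w
    refine ⟨w, 1, by simp, ?_⟩
    rw [haev 1, one_mul, haev]

end Pool.Agent.H945R2.S
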