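import Pool.Agent.H945R2.S.Props2
import Pool.Agent.H945R2.D.GD2
import Pool.Agent.H945R2.D.HT

/-! GD2M: primes dividing one coefficient, any degree. -/

set_option autoImplicit false

open scoped Pointwise

namespace Pool.Agent.H945R2.S

open Pool.Agent.H918R2.Quad Pool.Agent.H945R2.D MvPolynomial

open Pool.Agent.H945R2.D.GD2aux in
theorem GD2M_ok : S_GD2M := by
  have hHT : S_HT := HT_ok
  intro R F ι _ _ _ _ _ _ _ 𝒪 hloc hR p hpu hp a i₁ hirr hnU ha x hrel hind D hD f hf hfG hG hloc2
  obtain ⟨g, hg, hU⟩ := exists_U_gen hloc hR _ f hf hG hfG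
  obtain ⟨s, hs, hz, hfh⟩ := exists_s 𝒪 x D hD f hG g hg hU
  obtain ⟨j₀, hj₀⟩ := hind s hs
  set t : ι → F := fun j => x j / x s with ht
  have hts : t s = 1 := div_self hs
  let E : MvPolynomial {j : ι // j ≠ s} R := ∑ i, C (a i) * tau s i ^ p
  let I : Ideal (MvPolynomial {j : ι // j ≠ s} R) := Ideal.span {E}
  let eW : MvPolynomial {j : ι // j ≠ s} R →ₐ[R] F :=
    aeval (fun j : {j : ι // j ≠ s} => t j)
  have heC : ∀ r, eW (C r) = algebraMap R F r := fun r => aeval_C _ r
  have heX : ∀ j, eW (X j) = t j := fun j => aeval_X _ j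
  have heW : ∀ w, eW w ∈ 𝒪 := by
    intro w
    induction w using MvPolynomial.induction_on with
    | C r => rw [heC]; exact hR r
    | add p q hp hq => rw [map_add]; exact 𝒪.add_mem hp hq
    | mul_X p j hp => rw [map_mul, heX]; exact 𝒪.mul_mem hp (hz _)
  have hmap : ∀ j, eW (tau s j) = t j := fun j => aeval_tau' s t hts j
  have hEt : eW E = 0 := by
    simp only [E, map_sum, map_mul, map_pow, heC, hmap]
    have h1 : ∀ i, algebraMap R F (a i) * t i ^ p =
        (algebraMap R F (a i) * x i ^ p) * ((x s)⁻¹) ^ p := by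
      intro i
      simp only [ht]
      rw [div_eq_mul_inv, mul_pow, mul_assoc]
    simp only [h1]
    rw [← Finset.sum_mul, hrel, zero_mul]
  have hI : ∀ w ∈ I, eW w = 0 := by
    intro w hw
    obtain ⟨c, rfl⟩ := Ideal.mem_span_singleton.1 hw
    rw [map_mul, hEt, zero_mul]
  have hzt : ∀ j, x j = x s * eW (tau s j) := by
    intro j
    rw [hmap]
    simp only [ht]
    field_simp
  have hG' : ∀ g ∈ Set.range x ^ D, ∃ w, g = x s ^ D * eW w := by
    intro g hg
    obtain ⟨k, rfl⟩ := (mem_rp x D g).1 hg
    refine ⟨∏ i, tau s (k i), ?_⟩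
    rw [map_prod]
    have h1 : ∏ i, x (k i) = ∏ i, (x s * eW (tau s (k i))) :=
      Finset.prod_congr rfl fun i _ => hzt (k i)
    rw [h1, Finset.prod_mul_distrib, Finset.prod_const, Finset.card_univ, Fintype.card_fin]
  have hfrac := frac_of_chart eW heW (Set.range x ^ D) f (x s ^ D) (pow_ne_zero D hs) hG' hfG hfh
    hloc2
  have hp0 : p ≠ 0 := by omega
  have hane : ∀ i, a i ≠ 0 := by
    intro i
    by_cases h : i = i₁
    · rw [h]; exact hirr.ne_zero
    · exact (ha i h).ne_zero
  have hE0 : constantCoeff E = a s := by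
    simp only [E, map_sum, map_mul, map_pow, constantCoeff_C]
    rw [Finset.sum_eq_single s]
    · simp [tau]
    · intro j _ hj
      simp [tau, hj, hp0]
    · intro h
      exact absurd (Finset.mem_univ s) h
  have hEne : E ≠ 0 := by
    intro h
    rw [h, map_zero] at hE0
    exact hane s hE0.symm
  have hpd : ∀ j : {j : ι // j ≠ s}, pderiv j E = C ((p : R) * a j) * X j ^ (p - 1) := by
    intro j
    simp only [E, map_sum]
    rw [Finset.sum_eq_single (j : ι)]
    · have h1 : tau (R := R) s (j : ι) = X j := by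
        unfold tau
        rw [dif_neg j.2]
      rw [h1, Derivation.leibniz, pderiv_C, Derivation.leibniz_pow, pderiv_X_self]
      simp only [smul_zero, add_zero, smul_eq_mul, C_mul, map_natCast, nsmul_eq_mul, mul_one]
      ring
    · intro i _ hi
      have h1 : pderiv j (tau (R := R) s i) = 0 := by
        unfold tau
        by_cases h : i = s
        · rw [dif_pos h]; simp
        · rw [dif_neg h, pderiv_X_of_ne]
          intro h2
          exact hi (congrArg Subtype.val h2)
      rw [Derivation.leibniz, pderiv_C, Derivation.leibniz_pow, h1]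
      simp
    · intro h
      exact absurd (Finset.mem_univ _) h
  obtain ⟨A, _, _, pr, hpr, hprk, hpr0⟩ := exists_quot (R := R) I
  have haev : ∀ p : MvPolynomial {j : ι // j ≠ s} R,
      aeval (fun j : {j : ι // j ≠ s} => (X j : MvPolynomial {j : ι // j ≠ s} R)) p = p := by
    intro p
    rw [aeval_X_left_apply]
  refine regular_of_pres 𝒪 hloc pr hpr eW ?_ heW hfrac ?_
    (fun j : {j : ι // j ≠ s} => X j) E hEne ?_ j₀ ?_ ?_
  · intro w hw
    exact hI w ((hpr0 w).1 hw)
  · intro q hq hqm
    have hunit : ∀ r : R, IsUnit r → pr (C r) ∉ q := by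
      intro r hr h
      exact Ideal.IsPrime.ne_top hq (Ideal.eq_top_of_isUnit_mem q h
        ((hr.map (C (σ := {j : ι // j ≠ s}))).map pr))
    have hi₁ : pr (C (a i₁)) ∈ q := by
      rw [hqm, heC]
      exact hnU
    have h1 : pr E = 0 := (hpr0 E).2 (Ideal.mem_span_singleton_self _)
    have h2 : pr (C (a s)) = - ∑ i ∈ Finset.univ.erase s, pr (C (a i) * tau s i ^ p) := by
      have h3 : pr E = pr (C (a s)) + ∑ i ∈ Finset.univ.erase s, pr (C (a i) * tau s i ^ p) := by
        simp only [E]
        rw [map_sum, ← Finset.add_sum_erase _ _ (Finset.mem_univ s)]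
        congr 1
        unfold tau
        rw [dif_pos rfl]
        simp
      rw [h1] at h3
      exact eq_neg_of_add_eq_zero_left h3.symm
    by_cases hall : ∀ j : {j : ι // j ≠ s}, (j : ι) ≠ i₁ → pr (X j) ∈ q
    · have hterm : ∀ i ∈ Finset.univ.erase s, pr (C (a i) * tau s i ^ p) ∈ q := by
        intro i hi
        have hi' := (Finset.mem_erase.1 hi).1
        rw [map_mul]
        by_cases h : i = i₁
        · rw [h]
          exact q.mul_mem_right _ hi₁
        · apply q.mul_mem_left
          rw [map_pow]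
          apply Ideal.pow_mem_of_mem _ _ _ (Nat.pos_of_ne_zero hp0)
          unfold tau
          rw [dif_neg hi']
          exact hall ⟨i, hi'⟩ h
      have h4 : pr (C (a s)) ∈ q := by
        rw [h2]
        exact q.neg_mem (q.sum_mem hterm)
      have hsi : s = i₁ := by
        by_contra h
        exact hunit _ (ha s h) h4
      subst hsi
      have hall' : ∀ j : {j : ι // j ≠ s}, pr (X j) ∈ q := fun j => hall j j.2
      refine reg_origin hHT (a s) hirr (pr : _ →+* A) hpr E hprk q hall' hi₁ ?_
      have h5 : pr (C (a s)) ∈ Ideal.span (Set.range fun j : {j : ι // j ≠ s} => pr (X j)) := by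
        rw [h2]
        refine Ideal.neg_mem_iff _ |>.2 (Ideal.sum_mem _ fun i hi => ?_)
        have hi' := (Finset.mem_erase.1 hi).1
        rw [map_mul, map_pow]
        apply Ideal.mul_mem_left
        apply Ideal.pow_mem_of_mem _ _ _ (Nat.pos_of_ne_zero hp0)
        unfold tau
        rw [dif_neg hi']
        exact Ideal.subset_span ⟨⟨i, hi'⟩, rfl⟩
      exact h5
    · push Not at hall
      obtain ⟨j, hj1, hj⟩ := hall
      refine regular_of_pderiv E (pr : _ →+* A) hpr hprk q j ?_
      rw [hpd]
      intro h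
      have h1 : pr (C ((p : R) * a j)) * pr (X j) ^ (p - 1) ∈ q := by
        rw [← map_pow, ← map_mul]; exact h
      rcases Ideal.IsPrime.mem_or_mem hq h1 with h2 | h2
      · exact hunit _ (hpu.mul (ha j hj1)) h2
      · exact hj (hq.mem_of_pow_mem _ h2)
  · rw [haev, hpr0]
    exact Ideal.mem_span_singleton_self _
  · have h1 : (fun j : {j : {j : ι // j ≠ s} // j ≠ j₀} => eW (X (j : {j : ι // j ≠ s}))) =
        fun j : {j : {j : ι // j ≠ s} // j ≠ j₀} => x j / x s := by
      funext j
      exact heX _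
    rw [h1]
    exact hj₀
  · intro w
    refine ⟨w, 1, by simp, ?_⟩
    rw [haev 1, one_mul, haev]

end Pool.Agent.H945R2.S
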