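import Pool.Agent.H945R2.S.Props2

/-! # The global module (task GLOM) -/

set_option autoImplicit false

open scoped Pointwise

namespace Pool.Agent.H945R2.S

open Pool.Agent.H918R2.Quad Pool.Agent.H945R2.D MvPolynomial

namespace GLOMaux

section

variable {O K F : Type} [CommRing O] [IsDedekindDomain O] [Field K] [Algebra O K]
  [IsFractionRing O K] [Field F] [Algebra K F] [Algebra O F] [IsScalarTower O K F]

theorem good' (hG : S_GOODM) (hA : S_ARIM) (𝔭 : Ideal O) [𝔭.IsPrime] {n : ℕ} (m : ℕ)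
    (hm : 3 ≤ m) (hm𝔭 : (m : O) ∉ 𝔭) (a : Fin (n + 2) → O)
    (ha : ∀ 𝔭 : Ideal O, 𝔭.IsPrime → (m : O) * ∏ i, a i ∉ 𝔭 ^ 2)
    (x : Fin (n + 2) → F) (hx0 : x 0 = 1)
    (hrel : ∑ i, algebraMap O F (a i) * x i ^ m = 0)
    (hgen : IntermediateField.adjoin K (Set.range x) = ⊤)
    (b : Fin n → F) (htb : IsTranscendenceBasis K b) (D : ℕ) (hD : 1 ≤ D)
    (M : Submodule O F) (hM : M ≤ Submodule.span O (Set.range x ^ D))
    (hM2 : ∀ y ∈ Submodule.span O (Set.range x ^ D), ∃ s, s ∉ 𝔭 ∧ s • y ∈ M) : RegAt 𝔭 M := by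
  let R := Localization.subalgebra.ofField K 𝔭.primeCompl 𝔭.primeCompl_le_nonZeroDivisors
  have : IsLocalization.AtPrime R 𝔭 := Localization.subalgebra.isLocalization_ofField K _ _
  have : IsFractionRing R K := Localization.subalgebra.isFractionRing_ofField K _ _
  have : IsDedekindDomain R := IsLocalization.isDedekindDomain O
    𝔭.primeCompl_le_nonZeroDivisors R
  have : IsScalarTower O R F := IsScalarTower.of_algebraMap_eq fun r => by
    rw [IsScalarTower.algebraMap_apply O K F]; rfl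
  have : IsScalarTower R K F := IsScalarTower.of_algebraMap_eq fun r => rfl
  obtain ⟨h1, h2⟩ := (hA m (by omega) a ha 𝔭 (R := R)).2 hm𝔭
  exact hG (R := R) (K := K) 𝔭 (IsFractionRing.injective R K) m (by omega) h1 a h2 x hx0 hrel
    hgen b htb D hD M hM hM2

theorem bad' [CharZero K] (hB : BadM) (hA : S_ARIM) (𝔭 : Ideal O) [𝔭.IsPrime]
    (hfin : 𝔭 ≠ ⊥ → Finite (O ⧸ 𝔭)) {n : ℕ} (m : ℕ) (hm : 3 ≤ m) (hodd : Odd m)
    (hm𝔭 : (m : O) ∈ 𝔭) (a : Fin (n + 2) → O)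
    (ha : ∀ 𝔭 : Ideal O, 𝔭.IsPrime → (m : O) * ∏ i, a i ∉ 𝔭 ^ 2)
    (x : Fin (n + 2) → F) (hx0 : x 0 = 1)
    (hrel : ∑ i, algebraMap O F (a i) * x i ^ m = 0)
    (hgen : IntermediateField.adjoin K (Set.range x) = ⊤)
    (hlin : ∀ e : ℕ, 1 ≤ e → e < m → LinearIndependent K (fun i => x i ^ e))
    (b : Fin n → F) (htb : IsTranscendenceBasis K b) :
    ∃ D₀ : ℕ, ∀ D, D₀ ≤ D → ∃ P : Submodule O F,
      (∀ y ∈ P, ∃ s, s ∉ 𝔭 ∧ s • y ∈ Submodule.span O (Set.range x ^ D)) ∧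
      (∃ k : ℕ, ∀ c ∈ 𝔭 ^ k, ∀ y ∈ Submodule.span O (Set.range x ^ D), c • y ∈ P) ∧
      ∀ M : Submodule O F, M ≤ P → (∀ y ∈ P, ∃ s, s ∉ 𝔭 ∧ s • y ∈ M) → RegAt 𝔭 M := by
  let R := Localization.subalgebra.ofField K 𝔭.primeCompl 𝔭.primeCompl_le_nonZeroDivisors
  have : IsLocalization.AtPrime R 𝔭 := Localization.subalgebra.isLocalization_ofField K _ _
  have : IsFractionRing R K := Localization.subalgebra.isFractionRing_ofField K _ _
  obtain ⟨h0, ⟨p, e, hp, hpe, h1, hu⟩, h2⟩ := (hA m (by omega) a ha 𝔭 (R := R)).1 hm𝔭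
  have hdvr : IsDiscreteValuationRing R :=
    IsLocalization.AtPrime.isDiscreteValuationRing_of_dedekind_domain O h0 R
  have : IsScalarTower O R F := IsScalarTower.of_algebraMap_eq fun r => by
    rw [IsScalarTower.algebraMap_apply O K F]; rfl
  have : IsScalarTower R K F := IsScalarTower.of_algebraMap_eq fun r => rfl
  have hmax : 𝔭.IsMaximal := Ideal.IsPrime.isMaximal ‹_› h0
  have := hfin h0
  have hfin' : Finite (IsLocalRing.ResidueField R) :=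
    Finite.of_equiv _ (IsLocalization.AtPrime.equivQuotMaximalIdeal 𝔭 R).toEquiv
  have hp2 : p ≠ 2 := by
    rintro rfl
    rw [hpe] at hodd
    exact (Nat.not_odd_iff_even.2 (even_two_mul e)) hodd
  have he : 1 ≤ e := by
    rcases Nat.eq_zero_or_pos e with h | h
    · rw [h, mul_zero] at hpe
      omega
    · exact h
  have hem : e < m := by
    rw [hpe]
    have := hp.two_le
    nlinarith
  rw [hpe] at hrel
  exact hB (R := R) (K := K) 𝔭 p e hp hp2 h1 he hu a h2 x hx0 hrel hgen (hlin e he hem) b htb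

end

end GLOMaux

/-- GLOM. -/
theorem GLOM_ok (hB : BadM) (hG : S_GOODM) (hA : S_ARIM) : S_GLOM := by
  intro O K F _ _ _ _ _ _ _ _ _ _ hfin n m hm hodd a ha x hx0 hrel hgen hlin b htb
  classical
  have hOK : Function.Injective (algebraMap O K) := IsFractionRing.injective O K
  have hOF : Function.Injective (algebraMap O F) := by
    rw [IsScalarTower.algebraMap_eq O K F]
    exact (algebraMap K F).injective.comp hOK
  have hchar : CharZero O := by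
    constructor
    intro i j hij
    have h1 := congrArg (algebraMap O K) hij
    simpa using h1
  have hD0 : (m : O) ≠ 0 := by exact_mod_cast (show m ≠ 0 by omega)
  have hDspan : Ideal.span {(m : O)} ≠ ⊥ := by
    rw [Ne, Ideal.span_singleton_eq_bot]
    exact hD0
  let S : Finset (Ideal O) :=
    (UniqueFactorizationMonoid.normalizedFactors (Ideal.span {(m : O)})).toFinset
  have hS : ∀ 𝔭, 𝔭 ∈ S ↔ 𝔭.IsPrime ∧ (m : O) ∈ 𝔭 := by
    intro 𝔭
    rw [Multiset.mem_toFinset, Ideal.mem_normalizedFactors_iff hDspan,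
      Ideal.span_singleton_le_iff_mem]
  have hS0 : ∀ 𝔭 ∈ S, 𝔭 ≠ ⊥ := by
    intro 𝔭 h𝔭 h
    have h1 := ((hS 𝔭).1 h𝔭).2
    rw [h] at h1
    exact hD0 h1
  have hSmax : ∀ 𝔭 ∈ S, 𝔭.IsMaximal := fun 𝔭 h𝔭 =>
    Ideal.IsPrime.isMaximal ((hS 𝔭).1 h𝔭).1 (hS0 𝔭 h𝔭)
  -- the degree
  have hdeg : ∀ 𝔭 : Ideal O, ∃ D₀ : ℕ, 𝔭 ∈ S → ∀ D, D₀ ≤ D → ∃ P : Submodule O F,
      (∀ y ∈ P, ∃ s, s ∉ 𝔭 ∧ s • y ∈ Submodule.span O (Set.range x ^ D)) ∧
      (∃ k : ℕ, ∀ c ∈ 𝔭 ^ k, ∀ y ∈ Submodule.span O (Set.range x ^ D), c • y ∈ P) ∧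
      ∀ M : Submodule O F, M ≤ P → (∀ y ∈ P, ∃ s, s ∉ 𝔭 ∧ s • y ∈ M) → RegAt 𝔭 M := by
    intro 𝔭
    by_cases h𝔭 : 𝔭 ∈ S
    · have hpp := ((hS 𝔭).1 h𝔭).1
      obtain ⟨D₀, hD₀⟩ := GLOMaux.bad' hB hA 𝔭 (fun h => hfin 𝔭 hpp h) m hm hodd ((hS 𝔭).1 h𝔭).2
        a ha x hx0 hrel hgen hlin b htb
      exact ⟨D₀, fun _ => hD₀⟩
    · exact ⟨0, fun h => absurd h h𝔭⟩
  choose D₀ hD₀ using hdeg
  set D : ℕ := max 1 (S.sup D₀) with hD
  have hD1 : 1 ≤ D := le_max_left _ _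
  have hDS : ∀ 𝔭 ∈ S, D₀ 𝔭 ≤ D := fun 𝔭 h𝔭 => (Finset.le_sup h𝔭).trans (le_max_right _ _)
  have hbad : ∀ 𝔭 : Ideal O, ∃ P : Submodule O F, 𝔭 ∈ S →
      ((∀ y ∈ P, ∃ s, s ∉ 𝔭 ∧ s • y ∈ Submodule.span O (Set.range x ^ D)) ∧
      (∃ k : ℕ, ∀ c ∈ 𝔭 ^ k, ∀ y ∈ Submodule.span O (Set.range x ^ D), c • y ∈ P) ∧
      ∀ M : Submodule O F, M ≤ P → (∀ y ∈ P, ∃ s, s ∉ 𝔭 ∧ s • y ∈ M) → RegAt 𝔭 M) := by
    intro 𝔭
    by_cases h𝔭 : 𝔭 ∈ S
    · obtain ⟨P, hP⟩ := hD₀ 𝔭 h𝔭 D (hDS 𝔭 h𝔭)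
      exact ⟨P, fun _ => hP⟩
    · exact ⟨⊥, fun h => absurd h h𝔭⟩
  choose P hP using hbad
  obtain ⟨M, hMN, hMP, hM1, hM2⟩ := glue (Submodule.span O (Set.range x ^ D)) S hSmax P
    (fun 𝔭 h𝔭 => (hP 𝔭 h𝔭).1) (fun 𝔭 h𝔭 => (hP 𝔭 h𝔭).2.1)
  have hbotS : (⊥ : Ideal O) ∉ S := fun h => hS0 ⊥ h rfl
  have hMbot : ∀ y ∈ Submodule.span O (Set.range x ^ D), ∃ s : O, s ≠ 0 ∧ s • y ∈ M := by
    intro y hy
    obtain ⟨s, hs, hsy⟩ := hM2 ⊥ Ideal.isPrime_bot hbotS y hy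
    exact ⟨s, fun h => hs (by rw [h]; exact Ideal.zero_mem _), hsy⟩
  have hxG : ∀ i, x i ∈ Submodule.span O (Set.range x ^ D) := by
    intro i
    apply Submodule.subset_span
    obtain ⟨k, hk⟩ : ∃ k, D = k + 1 := ⟨D - 1, by omega⟩
    rw [hk, pow_succ]
    have h0 : (1 : F) ∈ Set.range x := ⟨0, hx0⟩
    have h1 : (1 : F) ^ k ∈ Set.range x ^ k := Set.pow_mem_pow h0
    rw [one_pow] at h1
    have h2 : (1 : F) * x i ∈ Set.range x ^ k * Set.range x :=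
      Set.mul_mem_mul h1 (Set.mem_range_self i)
    rwa [one_mul] at h2
  have h1G : (1 : F) ∈ Submodule.span O (Set.range x ^ D) := by
    have := hxG 0
    rwa [hx0] at this
  obtain ⟨t, ht0, htM⟩ := hMbot 1 h1G
  have htF : algebraMap O F t ≠ 0 := fun h => ht0 (hOF (by rw [h, map_zero]))
  refine ⟨M, ?_, ⟨t • 1, htM, ?_⟩, ?_, ?_⟩
  · have hG3 : (Set.range x ^ D).Finite := by
      generalize D = k
      induction k with
      | zero => rw [pow_zero]; exact Set.finite_one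
      | succ k ih => rw [pow_succ]; exact ih.mul (Set.finite_range x)
    exact Submodule.FG.of_le (Submodule.fg_span hG3) hMN
  · rw [Algebra.smul_def, mul_one]
    exact htF
  · intro f hfM hf0 y
    have hdivM : ∀ u ∈ M, u / f ∈ chart O M f := fun u hu =>
      Algebra.subset_adjoin ⟨u, hu, rfl⟩
    have hy : y ∈ IntermediateField.adjoin K (Set.range x) := by
      rw [hgen]; trivial
    induction hy using IntermediateField.adjoin_induction with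
    | mem y hy =>
      obtain ⟨i, rfl⟩ := hy
      obtain ⟨s, hs0, hsM⟩ := hMbot (x i) (hxG i)
      have hsF : algebraMap O F s ≠ 0 := fun h => hs0 (hOF (by rw [h, map_zero]))
      refine ⟨(s • x i) / f * algebraMap O F t,
        Subalgebra.mul_mem _ (hdivM _ hsM) (Subalgebra.algebraMap_mem _ _),
        (t • 1) / f * algebraMap O F s,
        Subalgebra.mul_mem _ (hdivM _ htM) (Subalgebra.algebraMap_mem _ _), ?_, ?_⟩
      · rw [Algebra.smul_def, mul_one]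
        exact mul_ne_zero (div_ne_zero htF hf0) hsF
      · rw [Algebra.smul_def, Algebra.smul_def, mul_one]
        field_simp
    | algebraMap k =>
      obtain ⟨b, c, hc, rfl⟩ := IsFractionRing.div_surjective (A := O) k
      have hc0 : c ≠ 0 := nonZeroDivisors.ne_zero hc
      refine ⟨algebraMap O F b, Subalgebra.algebraMap_mem _ _, algebraMap O F c,
        Subalgebra.algebraMap_mem _ _, fun h => hc0 (hOF (by rw [h, map_zero])), ?_⟩
      rw [map_div₀, ← IsScalarTower.algebraMap_apply, ← IsScalarTower.algebraMap_apply]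
    | add y z _ _ hy hz =>
      obtain ⟨b, hb, c, hc, hc0, rfl⟩ := hy
      obtain ⟨b', hb', c', hc', hc0', rfl⟩ := hz
      refine ⟨b * c' + b' * c, Subalgebra.add_mem _ (Subalgebra.mul_mem _ hb hc')
        (Subalgebra.mul_mem _ hb' hc), c * c', Subalgebra.mul_mem _ hc hc',
        mul_ne_zero hc0 hc0', ?_⟩
      field_simp
    | inv y _ hy =>
      obtain ⟨b, hb, c, hc, hc0, rfl⟩ := hy
      by_cases hb0 : b = 0
      · refine ⟨0, Subalgebra.zero_mem _, 1, Subalgebra.one_mem _, one_ne_zero, ?_⟩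
        rw [hb0]; simp
      · exact ⟨c, hc, b, hb, hb0, by rw [inv_div]⟩
    | mul y z _ _ hy hz =>
      obtain ⟨b, hb, c, hc, hc0, rfl⟩ := hy
      obtain ⟨b', hb', c', hc', hc0', rfl⟩ := hz
      refine ⟨b * b', Subalgebra.mul_mem _ hb hb', c * c', Subalgebra.mul_mem _ hc hc',
        mul_ne_zero hc0 hc0', ?_⟩
      field_simp
  · intro f hfM hf0 q hq
    have hpp : (q.comap (algebraMap O (chart O M f))).IsPrime := inferInstance
    by_cases h𝔭 : q.comap (algebraMap O (chart O M f)) ∈ S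
    · exact (hP _ h𝔭).2.2 M (hMP _ h𝔭) (hM1 _ h𝔭) f hfM hf0 q rfl
    · refine GLOMaux.good' (K := K) hG hA (q.comap (algebraMap O (chart O M f))) m hm ?_ a ha x hx0
        hrel hgen b htb D hD1 M hMN (hM2 _ hpp h𝔭) f hfM hf0 q rfl
      intro hmem
      exact h𝔭 ((hS _).2 ⟨hpp, hmem⟩)

end Pool.Agent.H945R2.S
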