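import Pool.Agent.H945R2.S.Props2
import Pool.Agent.H945R2.D.IRR

/-!
# Irreducibility of the diagonal polynomials of arbitrary degree
-/

set_option autoImplicit false

open scoped Pointwise

namespace Pool.Agent.H945R2.S

open Pool.Agent.H918R2.Quad Pool.Agent.H945R2.D MvPolynomial

open Pool.Agent.H945R2.D.IRRaux in
theorem IRRM_ok' {K : Type} [Field K] [CharZero K] (m p : ℕ) (hm : 1 ≤ m) (hp : 1 ≤ p)
    (a : Fin (m + 2) → K) (ha : ∀ i, a i ≠ 0) :
    Irreducible (C (a 0) + ∑ i : Fin (m + 1), C (a i.succ) * X i ^ p :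
      MvPolynomial (Fin (m + 1)) K) := by
  have hp0 : p ≠ 0 := by omega
  rw [← MulEquiv.irreducible_iff (MvPolynomial.finSuccEquiv K m)]
  have hj : 0 < m := hm
  have key : MvPolynomial.finSuccEquiv K m
      (C (a 0) + ∑ i : Fin (m + 1), C (a i.succ) * X i ^ p) =
      Polynomial.C (C (a 1)) * Polynomial.X ^ p +
        Polynomial.C (hpoly m p (a 0) (fun i => a i.succ.succ)) := by
    have hC : ∀ r : K, MvPolynomial.finSuccEquiv K m (C r) = Polynomial.C (C r) := by
      intro r
      rw [finSuccEquiv_apply, coe_eval₂Hom, eval₂_C]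
      rfl
    rw [map_add, map_sum, Fin.sum_univ_succ, hC]
    simp only [map_mul, map_pow, hC, finSuccEquiv_X_zero, finSuccEquiv_X_succ]
    unfold hpoly
    rw [map_add, map_sum]
    simp only [map_mul, map_pow]
    have : (0 : Fin (m + 1)).succ = (1 : Fin (m + 2)) := rfl
    rw [this]
    ring
  rw [key]
  have hb : (fun i : Fin m => a i.succ.succ) ⟨0, hj⟩ ≠ 0 := ha _
  have hne := hpoly_ne_zero m p hp0 (a 0) (ha 0) (fun i => a i.succ.succ)
  have hnu := hpoly_not_unit m p hp0 (a 0) (fun i => a i.succ.succ) ⟨0, hj⟩ hb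
  obtain ⟨π, hπ, hd⟩ := WfDvdMonoid.exists_irreducible_factor hnu hne
  have hπp : Prime π := hπ.prime
  have hsq := sq_not_dvd m p hp0 (a 0) (ha 0) (fun i => a i.succ.succ) ⟨0, hj⟩ hb π hπp
  generalize hpoly m p (a 0) (fun i => a i.succ.succ) = h at hne hnu hd hsq
  have hc1 : (C (a 1) : MvPolynomial (Fin m) K) ≠ 0 := by
    rw [Ne, C_eq_zero]; exact ha 1
  have hu1 : IsUnit (C (a 1) : MvPolynomial (Fin m) K) :=
    (isUnit_iff_ne_zero.mpr (ha 1)).map C
  have hdeg : (Polynomial.C (C (a 1)) * Polynomial.X ^ p + Polynomial.C h :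
      Polynomial (MvPolynomial (Fin m) K)).degree = p := by
    rw [Polynomial.degree_add_C]
    · exact Polynomial.degree_C_mul_X_pow p hc1
    · rw [Polynomial.degree_C_mul_X_pow p hc1]
      exact_mod_cast hp
  have hnat : (Polynomial.C (C (a 1)) * Polynomial.X ^ p + Polynomial.C h :
      Polynomial (MvPolynomial (Fin m) K)).natDegree = p :=
    Polynomial.natDegree_eq_of_degree_eq_some hdeg
  have hcoeff : ∀ n : ℕ, (Polynomial.C (C (a 1)) * Polynomial.X ^ p + Polynomial.C h :
      Polynomial (MvPolynomial (Fin m) K)).coeff n =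
      (if n = p then C (a 1) else 0) + (if n = 0 then h else 0) := by
    intro n
    rw [Polynomial.coeff_add, Polynomial.coeff_C_mul, Polynomial.coeff_X_pow,
      Polynomial.coeff_C]
    split_ifs <;> simp
  have hlc : (Polynomial.C (C (a 1)) * Polynomial.X ^ p + Polynomial.C h :
      Polynomial (MvPolynomial (Fin m) K)).leadingCoeff = C (a 1) := by
    rw [Polynomial.leadingCoeff, hnat, hcoeff, if_pos rfl, if_neg hp0, add_zero]
  refine Polynomial.irreducible_of_eisenstein_criterion (P := Ideal.span {π}) ?_ ?_ ?_ ?_ ?_ ?_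
  · exact (Ideal.span_singleton_prime hπp.ne_zero).mpr hπp
  · rw [hlc, Ideal.mem_span_singleton]
    intro hdv
    exact hπ.not_isUnit (isUnit_of_dvd_unit hdv hu1)
  · intro n hn
    rw [hdeg] at hn
    have hn' : n ≠ p := by
      have : n < p := by exact_mod_cast hn
      omega
    rw [hcoeff, if_neg hn', zero_add, Ideal.mem_span_singleton]
    split_ifs
    · exact hd
    · exact dvd_zero _
  · rw [hdeg]; exact_mod_cast hp
  · rw [hcoeff, if_neg hp0.symm, if_pos rfl, zero_add, Ideal.span_singleton_pow,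
      Ideal.mem_span_singleton]
    exact hsq
  · intro r hr
    have : r ∣ (Polynomial.C (C (a 1)) * Polynomial.X ^ p + Polynomial.C h :
      Polynomial (MvPolynomial (Fin m) K)).coeff p := by
      obtain ⟨q, hq⟩ := hr
      rw [hq, Polynomial.coeff_C_mul]
      exact dvd_mul_right _ _
    rw [hcoeff, if_pos rfl, if_neg hp0, add_zero] at this
    exact isUnit_of_dvd_unit this hu1

theorem IRRM_ok : S_IRRM := fun n hn m hm a ha => IRRM_ok' n m hn hm a ha

end Pool.Agent.H945R2.S
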