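import Pool.Agent.H945R2.S.Props

/-! PREZ: regularity from a presentation of a chart (helper642, adapted from D/PRE). -/

set_option autoImplicit false

open scoped Pointwise

namespace Pool.Agent.H945R2.S

open Pool.Agent.H918R2.Quad Pool.Agent.H945R2.D MvPolynomial

namespace PREZaux

theorem map_Tz {R B B' : Type} {ι : Type} [DecidableEq ι] [CommRing R] [CommRing B]
    [CommRing B'] [Algebra R B] [Algebra R B'] (Z : Finset ι) (r : ι → R) (e : ℕ)
    (φ : B →ₐ[R] B') (y : ι → B) (i : ι) :
    φ (Tz Z r e y i) = Tz Z r e (fun i => φ (y i)) i := by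
  unfold Tz
  split_ifs with h
  · rw [map_mul, map_pow, AlgHom.commutes]
  · rfl

end PREZaux

open PREZaux

theorem PREZ_ok : S_PREZ := by
  intro R F ι W A _ _ _ _ _ _ _ _ _ _ _ 𝒪 p e j co r g Z y s a b hD pr hpr eW hker hW hlof
    Y a' b' hY ha' hb' hYs hsum hp hrel hfrc hreg
  obtain ⟨j₀, hind⟩ := hD.hind
  have hp0 : p ≠ 0 := hD.coef.prime.ne_zero
  have he0 : e ≠ 0 := by
    have := hD.he
    omega
  have hjp := hD.hj
  refine regular_of_pres 𝒪 hD.loc pr hpr eW hker hW ?_ hreg (fun i : {i : ι // i ≠ s} => Y i)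
    (∑ i, C (co i) * Tz Z r e (tau (R := R) s) i ^ p) ?_ ?_ j₀ ?_ ?_
  · intro x hx
    obtain ⟨u, ⟨w, rfl⟩, v, ⟨w', rfl⟩, hU, h⟩ := hlof.2 x hx
    exact ⟨w, w', hU.1, hU.2.2, h⟩
  · intro h0
    have h1 : constantCoeff (∑ i, C (co i) * Tz Z r e (tau (R := R) s) i ^ p :
        MvPolynomial {i : ι // i ≠ s} R) = co s := by
      rw [map_sum, Finset.sum_eq_single s]
      · rw [map_mul, map_pow, constantCoeff_C]
        have : Tz Z r e (tau (R := R) s) s = 1 := by
          unfold Tz
          rw [if_neg hD.hsZ]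
          unfold tau
          rw [dif_pos rfl]
        rw [this, map_one, one_pow, mul_one]
      · intro i _ hi
        have h2 : constantCoeff (tau (R := R) s i) = 0 := by
          unfold tau
          rw [dif_neg hi, constantCoeff_X]
        have h3 : constantCoeff (Tz Z r e (tau (R := R) s) i) = 0 := by
          unfold Tz
          split_ifs with hiZ
          · rw [map_mul, map_pow, h2, zero_pow he0, mul_zero]
          · exact h2
        rw [map_mul, map_pow, h3, zero_pow hp0, mul_zero]
      · intro h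
        exact absurd (Finset.mem_univ s) h
    rw [h0, map_zero] at h1
    have h2 := hD.coef.one s
    rw [← h1, zero_sub, dvd_neg] at h2
    exact hD.irr.not_isUnit (isUnit_of_dvd_one h2)
  · have h1 : aeval (fun i : {i : ι // i ≠ s} => Y i)
        (∑ i, C (co i) * Tz Z r e (tau (R := R) s) i ^ p : MvPolynomial {i : ι // i ≠ s} R) =
        ∑ i, algebraMap R W (co i) * Tz Z r e Y i ^ p := by
      rw [map_sum]
      refine Finset.sum_congr rfl fun i _ => ?_
      rw [map_mul, map_pow, aeval_C, map_Tz]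
      have : (fun i => aeval (fun i : {i : ι // i ≠ s} => Y i) (tau (R := R) s i)) = Y := by
        funext i
        exact aeval_tau' s Y hYs i
      rw [this]
    have h2 := congrArg (aeval (Tz Z r e Y)) hD.coef.rel
    rw [map_mul, aeval_C, map_sub, map_sum, map_pow, map_sum, map_natCast] at h2
    simp only [map_mul, map_pow, aeval_C, aeval_X] at h2
    have h3 : ∑ i, algebraMap R W (co i) * Tz Z r e Y i ^ p =
        (p : W) * aeval (Tz Z r e Y) g + (∑ i, Tz Z r e Y i) ^ p := by
      rw [h2]
      ring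
    have h4 : pr (aeval (Tz Z r e Y) g) = -(pr a' ^ (p - 1 - j) * pr b' ^ (p - j)) := by
      rw [map_add, map_mul, map_pow, map_pow] at hrel
      exact eq_neg_of_add_eq_zero_left hrel
    rw [h1, h3, map_add, map_mul, map_pow, hsum, hp, h4, map_mul, map_mul, map_pow, map_pow]
    have e1 : pr a' ^ (j + 1) * pr a' ^ (p - 1 - j) = pr a' ^ p := by
      rw [← pow_add]
      congr 1
      omega
    have e2 : pr b' ^ j * pr b' ^ (p - j) = pr b' ^ p := by
      rw [← pow_add]
      congr 1
      omega
    have e3 : pr a' ^ (j + 1) * pr b' ^ j * -(pr a' ^ (p - 1 - j) * pr b' ^ (p - j)) =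
        -((pr a' ^ (j + 1) * pr a' ^ (p - 1 - j)) * (pr b' ^ j * pr b' ^ (p - j))) := by ring
    rw [e3, e1, e2, mul_pow]
    ring
  · have h1 : (fun i : {i : {i : ι // i ≠ s} // i ≠ j₀} => eW (Y i)) =
        fun i : {i : {i : ι // i ≠ s} // i ≠ j₀} => y i := by
      funext i
      exact hY _
    rw [h1]
    exact hind
  · intro w
    exact hfrc w

end Pool.Agent.H945R2.S
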