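import Pool.Agent.H945R2.S.Props

/-! Task PT1 (MP_4d1008_ag). -/

set_option autoImplicit false

open scoped Pointwise

namespace Pool.Agent.H945R2.S

open Pool.Agent.H918R2.Quad Pool.Agent.H945R2.D MvPolynomial

namespace PT1aux

variable {R F : Type} [CommRing R] [Field F] [Algebra R F] (𝒱 : Subalgebra R F)

theorem mul_mem {ε x x' : F} {i j : ℕ} (hx : x / ε ^ i ∈ 𝒱) (hx' : x' / ε ^ j ∈ 𝒱) :
    x * x' / ε ^ (i + j) ∈ 𝒱 := by
  rw [pow_add, ← div_mul_div_comm]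
  exact 𝒱.mul_mem hx hx'

theorem le_mem {ε x : F} {i j : ℕ} (hε : ε ≠ 0) (hε' : ε ∈ 𝒱) (hx : x / ε ^ i ∈ 𝒱) (hj : j ≤ i) :
    x / ε ^ j ∈ 𝒱 := by
  obtain ⟨k, rfl⟩ := Nat.exists_eq_add_of_le hj
  have h : x / ε ^ j = x / ε ^ (j + k) * ε ^ k := by
    rw [pow_add]
    field_simp
  rw [h]
  exact 𝒱.mul_mem hx (𝒱.pow_mem hε' k)

theorem pow_mem {ε : F} {S : Set F} (hS : ∀ x ∈ S, x / ε ∈ 𝒱) (n : ℕ) :
    ∀ x ∈ S ^ n, x / ε ^ n ∈ 𝒱 := by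
  induction n with
  | zero =>
    intro x hx
    rw [pow_zero, Set.mem_one] at hx
    rw [hx, pow_zero, div_one]
    exact 𝒱.one_mem
  | succ n ih =>
    intro x hx
    rw [pow_succ, Set.mem_mul] at hx
    obtain ⟨a, ha, b, hb, rfl⟩ := hx
    exact mul_mem 𝒱 (ih a ha) (by rw [pow_one]; exact hS b hb)

end PT1aux

open PT1aux

theorem PT1_ok : S_PT1 := by
  intro R F κ ζ _ _ _ _ 𝒱 𝒪 hV q y r h e hh he l hC hG
  have hε : q l ≠ 0 := hC.ql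
  have hε' : q l ∈ 𝒱 := hG _ (Or.inl (Or.inl rfl))
  have hq : ∀ x ∈ Set.range q, x / q l ∈ 𝒱 := by
    rintro _ ⟨m, rfl⟩
    exact hG _ (Or.inl (Or.inr ⟨m, rfl⟩))
  have hy : ∀ x ∈ Set.range y, x / q l ∈ 𝒱 := by
    rintro _ ⟨z, rfl⟩
    exact hG _ (Or.inr ⟨z, rfl⟩)
  have hone : U 𝒪 (q l / q l) := by
    rw [div_self hε]
    exact U_one
  refine ⟨fun m => ?_, fun z => ?_, fun k hk hk' => ?_, fun heo => ?_⟩
  · have := 𝒱.mul_mem (hq _ ⟨m, rfl⟩) hε'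
    rwa [div_mul_cancel₀ _ hε] at this
  · have := 𝒱.mul_mem (hy _ ⟨z, rfl⟩) hε'
    rwa [div_mul_cancel₀ _ hε] at this
  · refine ⟨q l, hε, fun x hx => ?_, q l, Or.inl ⟨l, rfl⟩, hone⟩
    rcases hx with hx | hx
    · exact hq x hx
    · have := le_mem 𝒱 hε hε' (pow_mem 𝒱 hy k x hx) hk
      rwa [pow_one] at this
  · refine ⟨q l ^ 3, pow_ne_zero 3 hε, fun x hx => ?_, q l ^ 3, ?_, ?_⟩
    · rcases hx with (((hx | hx) | hx) | hx) | hx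
      · exact pow_mem 𝒱 hq 3 x hx
      · rw [Set.mem_mul] at hx
        obtain ⟨a, ha, b, hb, rfl⟩ := hx
        exact mul_mem 𝒱 (i := 2) (j := 1) (pow_mem 𝒱 hq 2 a ha) (by rw [pow_one]; exact hy b hb)
      · rw [Set.mem_mul] at hx
        obtain ⟨a, ha, b, hb, rfl⟩ := hx
        exact le_mem 𝒱 hε hε' (mul_mem 𝒱 (i := 1) (j := h + 1) (by rw [pow_one]; exact hq a ha)
          (pow_mem 𝒱 hy (h + 1) b hb)) (by omega)
      · exact le_mem 𝒱 hε hε' (pow_mem 𝒱 hy (2 * h + 2) x hx) (by omega)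
      · rw [Set.mem_singleton_iff] at hx
        rw [hx, fY, Finset.sum_div]
        refine 𝒱.sum_mem fun z _ => ?_
        rw [mul_div_assoc]
        refine 𝒱.mul_mem (𝒱.algebraMap_mem _) ?_
        exact le_mem 𝒱 hε hε' (pow_mem 𝒱 hy e _ (Set.pow_mem_pow ⟨z, rfl⟩)) (by omega)
    · exact Or.inl (Or.inl (Or.inl (Or.inl (Set.pow_mem_pow ⟨l, rfl⟩))))
    · rw [div_self (pow_ne_zero 3 hε)]
      exact U_one

end Pool.Agent.H945R2.S
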