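import Pool.Agent.H945R2.S.Props

/-! Task PT2: all ideals are principal in chart 2 (MP_4d1008_ag). -/

set_option autoImplicit false

open scoped Pointwise

namespace Pool.Agent.H945R2.S

open Pool.Agent.H918R2.Quad Pool.Agent.H945R2.D MvPolynomial

namespace PT2aux

variable {R F : Type} [CommRing R] [Field F] [Algebra R F] {𝒱 : Subalgebra R F} {𝒪 : Subring F}

theorem prin_mem {Φ : Set F} {m : F} (hm : m ≠ 0) (hmΦ : m ∈ Φ)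
    (h : ∀ x ∈ Φ, ∃ v ∈ 𝒱, x = m * v) : Prin 𝒱 𝒪 Φ := by
  refine ⟨m, hm, fun x hx => ?_, m, hmΦ, ?_⟩
  · obtain ⟨v, hv, rfl⟩ := h x hx
    rwa [mul_div_cancel_left₀ _ hm]
  · rw [div_self hm]
    exact U_one

theorem pw {S : Set F} {τ : F} (hS : ∀ x ∈ S, ∃ v ∈ 𝒱, x = τ * v) (n : ℕ) :
    ∀ x ∈ S ^ n, ∃ v ∈ 𝒱, x = τ ^ n * v := by
  induction n with
  | zero =>
    intro x hx
    rw [pow_zero, Set.mem_one] at hx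
    exact ⟨1, 𝒱.one_mem, by rw [hx, pow_zero, mul_one]⟩
  | succ n ih =>
    intro x hx
    rw [pow_succ, Set.mem_mul] at hx
    obtain ⟨u, hu, v, hv, rfl⟩ := hx
    obtain ⟨u', hu', rfl⟩ := ih u hu
    obtain ⟨v', hv', rfl⟩ := hS v hv
    exact ⟨u' * v', 𝒱.mul_mem hu' hv', by ring⟩

theorem ml {S T : Set F} {σ τ : F} (hS : ∀ x ∈ S, ∃ v ∈ 𝒱, x = σ * v)
    (hT : ∀ x ∈ T, ∃ v ∈ 𝒱, x = τ * v) : ∀ x ∈ S * T, ∃ v ∈ 𝒱, x = σ * τ * v := by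
  intro x hx
  rw [Set.mem_mul] at hx
  obtain ⟨u, hu, v, hv, rfl⟩ := hx
  obtain ⟨u', hu', rfl⟩ := hS u hu
  obtain ⟨v', hv', rfl⟩ := hT v hv
  exact ⟨u' * v', 𝒱.mul_mem hu' hv', by ring⟩

theorem fY_mem {ζ : Type} [Fintype ζ] {y : ζ → F} {τ : F} (r : ζ → R) (e : ℕ)
    (hy : ∀ z, ∃ v ∈ 𝒱, y z = τ * v) : ∃ v ∈ 𝒱, fY y r e = τ ^ e * v := by
  choose v hv hyv using hy
  refine ⟨∑ z, algebraMap R F (r z) * v z ^ e, ?_, ?_⟩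
  · exact 𝒱.sum_mem (fun z _ => 𝒱.mul_mem (𝒱.algebraMap_mem _) (𝒱.pow_mem (hv z) e))
  · unfold fY
    rw [Finset.mul_sum]
    refine Finset.sum_congr rfl (fun z _ => ?_)
    rw [hyv z]
    ring

end PT2aux

open PT2aux

theorem PT2_ok : S_PT2 := by
  intro R F κ ζ _ _ _ _ 𝒱 𝒪 h𝒱 q y r h e hh he k z₀ l hk1 hkh hC hG
  have hτ0 := hC.yz
  have hq0 := hC.ql
  obtain ⟨τ, hτ⟩ : ∃ τ : F, τ = y z₀ := ⟨_, rfl⟩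
  obtain ⟨ε, hε⟩ : ∃ ε : F, ε = q l / y z₀ ^ k := ⟨_, rfl⟩
  obtain ⟨ω, hω⟩ : ∃ ω : F, ω = y z₀ ^ (k + 1) / q l := ⟨_, rfl⟩
  have hε𝒱 : ε ∈ 𝒱 := hG _ (Or.inl (Or.inl (Or.inl hε)))
  have hω𝒱 : ω ∈ 𝒱 := hG _ (Or.inl (Or.inl (Or.inr hω)))
  have hqv : ∀ m, q m / q l ∈ 𝒱 := fun m => hG _ (Or.inl (Or.inr ⟨m, rfl⟩))
  have hyv : ∀ z, y z / y z₀ ∈ 𝒱 := fun z => hG _ (Or.inr ⟨z, rfl⟩)
  rw [← hτ] at hτ0 hε hω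
  have e1 : τ = ε * ω := by
    rw [hε, hω]
    field_simp
    ring
  have e2 : q l = τ ^ k * ε := by
    rw [hε]
    field_simp
  have e3 : τ ^ (k + 1) = q l * ω := by
    rw [hω]
    field_simp
  have hτ𝒱 : τ ∈ 𝒱 := by
    rw [e1]
    exact 𝒱.mul_mem hε𝒱 hω𝒱
  have hQ : ∀ x ∈ Set.range q, ∃ v ∈ 𝒱, x = q l * v := by
    rintro _ ⟨m, rfl⟩
    exact ⟨q m / q l, hqv m, by field_simp⟩
  have hy' : ∀ z, ∃ v ∈ 𝒱, y z = τ * v := fun z =>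
    ⟨y z / y z₀, hyv z, by rw [← hτ]; field_simp⟩
  have hY : ∀ x ∈ Set.range y, ∃ v ∈ 𝒱, x = τ * v := by
    rintro _ ⟨z, rfl⟩
    exact hy' z
  have hτY : τ ∈ Set.range y := ⟨z₀, hτ.symm⟩
  refine ⟨?_, ?_, ?_, ?_⟩
  · intro m
    obtain ⟨v, hv, e4⟩ := hQ _ ⟨m, rfl⟩
    rw [e4, e2]
    exact 𝒱.mul_mem (𝒱.mul_mem (𝒱.pow_mem hτ𝒱 _) hε𝒱) hv
  · intro z
    obtain ⟨v, hv, e4⟩ := hy' z
    rw [e4]
    exact 𝒱.mul_mem hτ𝒱 hv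
  · intro k' _ _
    by_cases hkk : k' ≤ k
    · obtain ⟨i, rfl⟩ : ∃ i, k = k' + i := ⟨k - k', by omega⟩
      refine prin_mem (m := τ ^ k') (pow_ne_zero _ hτ0) (Or.inr (Set.pow_mem_pow hτY)) ?_
      rintro x (hx | hx)
      · obtain ⟨v, hv, rfl⟩ := hQ x hx
        refine ⟨τ ^ i * ε * v, 𝒱.mul_mem (𝒱.mul_mem (𝒱.pow_mem hτ𝒱 _) hε𝒱) hv, ?_⟩
        rw [e2]
        ring
      · exact pw hY k' x hx
    · obtain ⟨i, rfl⟩ : ∃ i, k' = k + 1 + i := ⟨k' - k - 1, by omega⟩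
      refine prin_mem (m := q l) hq0 (Or.inl ⟨l, rfl⟩) ?_
      rintro x (hx | hx)
      · exact hQ x hx
      · obtain ⟨v, hv, rfl⟩ := pw hY _ x hx
        refine ⟨ω * τ ^ i * v, 𝒱.mul_mem (𝒱.mul_mem hω𝒱 (𝒱.pow_mem hτ𝒱 _)) hv, ?_⟩
        rw [pow_add, e3]
        ring
  · intro he'
    obtain ⟨i, rfl⟩ : ∃ i, h = k + 1 + i := ⟨h - k - 1, by omega⟩
    obtain ⟨k0, rfl⟩ : ∃ k0, k = k0 + 1 := ⟨k - 1, by omega⟩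
    refine prin_mem (m := q l ^ 2 * τ) (mul_ne_zero (pow_ne_zero _ hq0) hτ0) ?_ ?_
    · refine Or.inl (Or.inl (Or.inl (Or.inr ?_)))
      exact Set.mul_mem_mul (Set.pow_mem_pow ⟨l, rfl⟩) hτY
    · rintro x ((((hx | hx) | hx) | hx) | hx)
      · obtain ⟨v, hv, rfl⟩ := pw hQ 3 x hx
        refine ⟨τ ^ k0 * ε * v, 𝒱.mul_mem (𝒱.mul_mem (𝒱.pow_mem hτ𝒱 _) hε𝒱) hv, ?_⟩
        have : q l ^ 3 = q l ^ 2 * (τ ^ (k0 + 1) * ε) := by rw [← e2]; ring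
        rw [this]
        ring
      · obtain ⟨v, hv, e4⟩ := ml (pw hQ 2) hY x hx
        exact ⟨v, hv, e4⟩
      · obtain ⟨v, hv, rfl⟩ := ml hQ (pw hY _) x hx
        refine ⟨ω * τ ^ i * v, 𝒱.mul_mem (𝒱.mul_mem hω𝒱 (𝒱.pow_mem hτ𝒱 _)) hv, ?_⟩
        have : τ ^ (k0 + 1 + 1 + i + 1) = q l * ω * τ ^ (i + 1) := by rw [← e3]; ring
        rw [this]
        ring
      · obtain ⟨v, hv, rfl⟩ := pw hY _ x hx
        refine ⟨ω ^ 2 * τ ^ (2 * i + 1) * v,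
          𝒱.mul_mem (𝒱.mul_mem (𝒱.pow_mem hω𝒱 _) (𝒱.pow_mem hτ𝒱 _)) hv, ?_⟩
        have : τ ^ (2 * (k0 + 1 + 1 + i) + 2) = (q l * ω) ^ 2 * τ ^ (2 * i + 2) := by
          rw [← e3]; ring
        rw [this]
        ring
      · obtain ⟨v, hv, e4⟩ := fY_mem r e hy'
        rw [Set.mem_singleton_iff] at hx
        refine ⟨ω ^ 2 * τ ^ (2 * i) * v,
          𝒱.mul_mem (𝒱.mul_mem (𝒱.pow_mem hω𝒱 _) (𝒱.pow_mem hτ𝒱 _)) hv, ?_⟩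
        have : τ ^ (2 * (k0 + 1 + 1 + i) + 1) = (q l * ω) ^ 2 * τ ^ (2 * i + 1) := by
          rw [← e3]; ring
        rw [hx, e4, he', this]
        ring

end Pool.Agent.H945R2.S
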