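import Pool.Agent.H945R2.S.Props

/-! PT3: all ideals are principal in chart 3. -/

set_option autoImplicit false

open scoped Pointwise

namespace Pool.Agent.H945R2.S

open Pool.Agent.H918R2.Quad Pool.Agent.H945R2.D MvPolynomial

namespace PT3aux

variable {R F : Type} [CommRing R] [Field F] [Algebra R F]

/-- `w` is divisible by `τ ^ n` in `𝒱`. -/
def Dv (𝒱 : Subalgebra R F) (τ : F) (n : ℕ) (w : F) : Prop := w / τ ^ n ∈ 𝒱

variable {𝒱 : Subalgebra R F} {τ : F}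

theorem Dv.mul {m n : ℕ} {v w : F} (hv : Dv 𝒱 τ m v) (hw : Dv 𝒱 τ n w) :
    Dv 𝒱 τ (m + n) (v * w) := by
  unfold Dv at *
  rw [pow_add, mul_div_mul_comm]
  exact 𝒱.mul_mem hv hw

theorem Dv.mono (hτ0 : τ ≠ 0) (hτ : τ ∈ 𝒱) {m n : ℕ} {w : F} (hw : Dv 𝒱 τ n w) (h : m ≤ n) :
    Dv 𝒱 τ m w := by
  unfold Dv at *
  obtain ⟨k, rfl⟩ := Nat.exists_eq_add_of_le h
  have e : w / τ ^ m = w / τ ^ (m + k) * τ ^ k := by
    field_simp
    ring
  rw [e]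
  exact 𝒱.mul_mem hw (𝒱.pow_mem hτ k)

theorem Dv.set_pow {S : Set F} {m : ℕ} (hS : ∀ w ∈ S, Dv 𝒱 τ m w) (n : ℕ) :
    ∀ w ∈ S ^ n, Dv 𝒱 τ (m * n) w := by
  induction n with
  | zero =>
    intro w hw
    rw [pow_zero, Set.mem_one] at hw
    subst hw
    unfold Dv
    simp [𝒱.one_mem]
  | succ n ih =>
    intro w hw
    rw [pow_succ] at hw
    obtain ⟨u, hu, v, hv, rfl⟩ := Set.mem_mul.1 hw
    rw [mul_add, mul_one]
    exact (ih u hu).mul (hS v hv)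

end PT3aux

open PT3aux in
theorem PT3_ok : S_PT3 := by
  intro R F κ ζ _ _ _ _ 𝒱 𝒪 h𝒱 q y r h e hh he k z₀ hk1 hkh hC hU hG
  have hτ0 : y z₀ ≠ 0 := hC.yz
  have hτ : y z₀ ∈ 𝒱 := hG _ (Or.inl (Or.inl rfl))
  have hq : ∀ w ∈ Set.range q, Dv 𝒱 (y z₀) k w := by
    rintro _ ⟨m, rfl⟩
    exact hG _ (Or.inl (Or.inr ⟨m, rfl⟩))
  have hy : ∀ w ∈ Set.range y, Dv 𝒱 (y z₀) 1 w := by
    rintro _ ⟨z, rfl⟩
    have := hG (y z / y z₀) (Or.inr ⟨z, rfl⟩)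
    unfold Dv
    rwa [pow_one]
  have hyp : ∀ n : ℕ, ∀ w ∈ Set.range y ^ n, Dv 𝒱 (y z₀) n w := by
    intro n w hw
    have := Dv.set_pow hy n w hw
    rwa [one_mul] at this
  have hqp : ∀ n : ℕ, ∀ w ∈ Set.range q ^ n, Dv 𝒱 (y z₀) (k * n) w := Dv.set_pow hq
  have dv0 : ∀ w, Dv 𝒱 (y z₀) 0 w → w ∈ 𝒱 := by
    intro w hw
    unfold Dv at hw
    simpa using hw
  refine ⟨fun m => dv0 _ ((hq _ ⟨m, rfl⟩).mono hτ0 hτ (Nat.zero_le _)),
    fun z => dv0 _ ((hy _ ⟨z, rfl⟩).mono hτ0 hτ (Nat.zero_le _)), ?_, ?_⟩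
  · intro k' hk'1 hk'h
    by_cases hle : k' ≤ k
    · refine ⟨y z₀ ^ k', pow_ne_zero _ hτ0, ?_, y z₀ ^ k', Or.inr ?_, ?_⟩
      · rintro w (hw | hw)
        · exact (hq w hw).mono hτ0 hτ hle
        · exact hyp k' w hw
      · exact Set.pow_mem_pow ⟨z₀, rfl⟩
      · rw [div_self (pow_ne_zero _ hτ0)]
        exact U_one
    · have hlt : k < k' := not_le.1 hle
      have hkh' : k ≠ h := by omega
      obtain ⟨m, hm⟩ : ∃ m, U 𝒪 (q m / y z₀ ^ k) := by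
        rcases hU with hU | hU
        · exact hU
        · exact absurd hU.1 hkh'
      refine ⟨y z₀ ^ k, pow_ne_zero _ hτ0, ?_, q m, Or.inl ⟨m, rfl⟩, hm⟩
      rintro w (hw | hw)
      · exact hq w hw
      · exact (hyp k' w hw).mono hτ0 hτ hlt.le
  · intro he'
    have hf : Dv 𝒱 (y z₀) e (fY y r e) := by
      unfold Dv fY
      rw [Finset.sum_div]
      refine 𝒱.sum_mem fun z _ => ?_
      rw [mul_div_assoc, ← div_pow]
      have h1 := hy _ ⟨z, rfl⟩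
      unfold Dv at h1
      rw [pow_one] at h1
      exact 𝒱.mul_mem (𝒱.algebraMap_mem _) (𝒱.pow_mem h1 e)
    have hall : ∀ w ∈ CS (Set.range q) (Set.range y) (fY y r e) h,
        Dv 𝒱 (y z₀) (2 * k + 1) w := by
      rintro w ((((hw | hw) | hw) | hw) | hw)
      · exact (hqp 3 w hw).mono hτ0 hτ (by omega)
      · obtain ⟨u, hu, v, hv, rfl⟩ := Set.mem_mul.1 hw
        exact ((hqp 2 u hu).mul (hy v hv)).mono hτ0 hτ (by omega)
      · obtain ⟨u, hu, v, hv, rfl⟩ := Set.mem_mul.1 hw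
        exact ((hq u hu).mul (hyp _ v hv)).mono hτ0 hτ (by omega)
      · exact (hyp _ w hw).mono hτ0 hτ (by omega)
      · have : w = fY y r e := hw
        rw [this]
        exact hf.mono hτ0 hτ (by omega)
    refine ⟨y z₀ ^ (2 * k + 1), pow_ne_zero _ hτ0, hall, ?_⟩
    rcases hU with ⟨m, hm⟩ | ⟨hk, hU⟩
    · refine ⟨q m ^ 2 * y z₀, Or.inl (Or.inl (Or.inl (Or.inr ?_))), ?_⟩
      · exact Set.mul_mem_mul (Set.pow_mem_pow ⟨m, rfl⟩) ⟨z₀, rfl⟩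
      · have e1 : q m ^ 2 * y z₀ / y z₀ ^ (2 * k + 1) = (q m / y z₀ ^ k) ^ 2 := by
          rw [pow_succ, div_pow, ← pow_mul, mul_comm k 2]
          field_simp
          ring
        rw [e1]
        exact hm.pow 2
    · rcases hU with hU | hU
      · omega
      · refine ⟨fY y r e, Or.inr rfl, ?_⟩
        rw [hk, ← he']
        exact hU

end Pool.Agent.H945R2.S
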