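import Pool.Agent.H945R2.S.PT2

/-! Task PT4: all ideals are principal in chart 4 (MP_4d1008_ag). -/

set_option autoImplicit false

open scoped Pointwise

namespace Pool.Agent.H945R2.S

open Pool.Agent.H918R2.Quad Pool.Agent.H945R2.D MvPolynomial PT2aux

theorem PT4_ok : S_PT4 := by
  intro R F κ ζ _ _ _ _ 𝒱 𝒪 h𝒱 q y r h e hh he z₀ k₁ hC hk1 hk2 hG
  have hτ0 := hC.yz
  obtain ⟨τ, hτ⟩ : ∃ τ : F, τ = y z₀ := ⟨_, rfl⟩
  obtain ⟨f, hf⟩ : ∃ f : F, f = fY y r e := ⟨_, rfl⟩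
  rw [← hf] at hk1 hk2 hG ⊢
  obtain ⟨ε, hε⟩ : ∃ ε : F, ε = zst q y f h e z₀ k₁ := ⟨_, rfl⟩
  have hε𝒱 : ε ∈ 𝒱 := hG _ (Or.inl (Or.inl hε))
  have hzv : ∀ k, zst q y f h e z₀ k / zst q y f h e z₀ k₁ ∈ 𝒱 :=
    fun k => hG _ (Or.inl (Or.inr ⟨k, rfl⟩))
  have hyv : ∀ z, y z / y z₀ ∈ 𝒱 := fun z => hG _ (Or.inr ⟨z, rfl⟩)
  rw [← hτ] at hτ0
  rw [← hε] at hk1
  have hz : ∀ k, ∃ v ∈ 𝒱, zst q y f h e z₀ k = ε * v := fun k =>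
    ⟨_, hzv k, by rw [← hε]; field_simp⟩
  obtain ⟨v₀, hv₀, e0⟩ := hz none
  obtain ⟨φ, hφ, e1⟩ := hz (some none)
  have e0' : τ = ε * v₀ := by rw [hτ]; exact e0
  have e1' : f = τ ^ e * (ε * φ) := by
    rw [← e1]
    change f = τ ^ e * (f / y z₀ ^ e)
    rw [← hτ]
    field_simp
  have hq' : ∀ m, ∃ v ∈ 𝒱, q m = τ ^ h * ε * v := by
    intro m
    obtain ⟨v, hv, e2⟩ := hz (some (some m))
    refine ⟨v, hv, ?_⟩
    rw [mul_assoc, ← e2]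
    change q m = τ ^ h * (q m / y z₀ ^ h)
    rw [← hτ]
    field_simp
  have hτ𝒱 : τ ∈ 𝒱 := by
    rw [e0']
    exact 𝒱.mul_mem hε𝒱 hv₀
  have hQ : ∀ x ∈ Set.range q, ∃ v ∈ 𝒱, x = τ ^ h * ε * v := by
    rintro _ ⟨m, rfl⟩
    exact hq' m
  have hy' : ∀ z, ∃ v ∈ 𝒱, y z = τ * v := fun z =>
    ⟨y z / y z₀, hyv z, by rw [← hτ]; field_simp⟩
  have hY : ∀ x ∈ Set.range y, ∃ v ∈ 𝒱, x = τ * v := by
    rintro _ ⟨z, rfl⟩
    exact hy' z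
  have hτY : τ ∈ Set.range y := ⟨z₀, hτ.symm⟩
  refine ⟨?_, ?_, ?_, ?_⟩
  · intro m
    obtain ⟨v, hv, e4⟩ := hq' m
    rw [e4]
    exact 𝒱.mul_mem (𝒱.mul_mem (𝒱.pow_mem hτ𝒱 _) hε𝒱) hv
  · intro z
    obtain ⟨v, hv, e4⟩ := hy' z
    rw [e4]
    exact 𝒱.mul_mem hτ𝒱 hv
  · intro k' _ hk'
    obtain ⟨i, rfl⟩ : ∃ i, h = k' + i := ⟨h - k', by omega⟩
    refine prin_mem (m := τ ^ k') (pow_ne_zero _ hτ0) (Or.inr (Set.pow_mem_pow hτY)) ?_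
    rintro x (hx | hx)
    · obtain ⟨v, hv, rfl⟩ := hQ x hx
      refine ⟨τ ^ i * ε * v, 𝒱.mul_mem (𝒱.mul_mem (𝒱.pow_mem hτ𝒱 _) hε𝒱) hv, ?_⟩
      ring
    · exact pw hY k' x hx
  · intro _
    obtain ⟨i, rfl⟩ : ∃ i, h = i + 1 := ⟨h - 1, by omega⟩
    subst he
    refine prin_mem (m := τ ^ (2 * (i + 1) + 1) * ε) (mul_ne_zero (pow_ne_zero _ hτ0) hk1) ?_ ?_
    · rcases k₁ with _ | _ | m₀
      · -- `ε = τ`
        have hετ : ε = τ := by rw [hε, hτ]; rfl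
        refine Or.inl (Or.inr ?_)
        have : τ ^ (2 * (i + 1) + 1) * ε = τ ^ (2 * (i + 1) + 2) := by rw [hετ]; ring
        rw [this]
        exact Set.pow_mem_pow hτY
      · -- `ε = f / τ ^ e`
        have hεf : τ ^ (2 * (i + 1) + 1) * ε = f := by
          rw [hε]
          change τ ^ (2 * (i + 1) + 1) * (f / y z₀ ^ (2 * (i + 1) + 1)) = f
          rw [← hτ]
          field_simp
        exact Or.inr hεf
      · -- `ε = q_{m₀} / τ ^ h`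
        have hεq : τ ^ (2 * (i + 1) + 1) * ε = q m₀ * τ ^ (i + 1 + 1) := by
          rw [hε]
          change τ ^ (2 * (i + 1) + 1) * (q m₀ / y z₀ ^ (i + 1)) = q m₀ * τ ^ (i + 1 + 1)
          rw [← hτ]
          field_simp
          ring
        refine Or.inl (Or.inl (Or.inr ?_))
        rw [hεq]
        exact Set.mul_mem_mul ⟨m₀, rfl⟩ (Set.pow_mem_pow hτY)
    · rintro x ((((hx | hx) | hx) | hx) | hx)
      · obtain ⟨v, hv, rfl⟩ := pw hQ 3 x hx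
        refine ⟨τ ^ i * ε ^ 2 * v, 𝒱.mul_mem (𝒱.mul_mem (𝒱.pow_mem hτ𝒱 _)
          (𝒱.pow_mem hε𝒱 _)) hv, ?_⟩
        ring
      · obtain ⟨v, hv, rfl⟩ := ml (pw hQ 2) hY x hx
        refine ⟨ε * v, 𝒱.mul_mem hε𝒱 hv, ?_⟩
        ring
      · obtain ⟨v, hv, rfl⟩ := ml hQ (pw hY _) x hx
        refine ⟨v, hv, ?_⟩
        ring
      · obtain ⟨v, hv, rfl⟩ := pw hY _ x hx
        refine ⟨v₀ * v, 𝒱.mul_mem hv₀ hv, ?_⟩
        have : τ ^ (2 * (i + 1) + 2) = τ ^ (2 * (i + 1) + 1) * (ε * v₀) := by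
          rw [← e0']; ring
        rw [this]
        ring
      · rw [Set.mem_singleton_iff] at hx
        refine ⟨φ, hφ, ?_⟩
        rw [hx, e1']
        ring

end Pool.Agent.H945R2.S
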