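import Pool.Agent.H945R2.S.Props

/-! QC2: chart 2 of the resolution. -/

set_option autoImplicit false

open scoped Pointwise

namespace Pool.Agent.H945R2.S

open Pool.Agent.H918R2.Quad Pool.Agent.H945R2.D MvPolynomial

namespace QC2aux

theorem map_TcZ {ι B B' : Type} [Fintype ι] [DecidableEq ι] [CommRing B] [CommRing B']
    (f : B →+* B') (Z : Finset ι) (s d : ι) (c : ι → B) (v : TT Z s d → B) (w : ZT Z → B) (l : B)
    (i : ι) :
    f (TcZ Z s d c v w l i) =
      TcZ Z s d (fun i => f (c i)) (fun k => f (v k)) (fun z => f (w z)) (f l) i := by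
  unfold TcZ
  split_ifs
  · rfl
  · simp
  · simp
  · simp

theorem map_TotZ {R ι B B' : Type} [Fintype ι] [DecidableEq ι] [CommRing R] [CommRing B]
    [Algebra R B] [CommRing B'] [Algebra R B'] (f : B →ₐ[R] B') (p j : ℕ) (g : MvPolynomial ι R)
    (c : ι → ℕ) (Z : Finset ι) (s d : ι) (a b : B) (v : TT Z s d → B) (w : ZT Z → B) :
    f (TotZ p j g c Z s d a b v w) =
      TotZ p j g c Z s d (f a) (f b) (fun k => f (v k)) (fun z => f (w z)) := by
  unfold TotZ
  rw [map_add, map_mul, map_pow, map_pow]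
  congr 1
  have h1 : f (aeval (TcZ Z s d (fun i => (c i : B)) v w (a * b)) g) =
      (f.comp (aeval (TcZ Z s d (fun i => (c i : B)) v w (a * b)))) g := rfl
  rw [h1]
  congr 1
  apply MvPolynomial.algHom_ext
  intro i
  rw [AlgHom.comp_apply, aeval_X, aeval_X]
  have h3 := map_TcZ (f : B →+* B') Z s d (fun i => (c i : B)) v w (a * b) i
  have h4 : f (TcZ Z s d (fun i => (c i : B)) v w (a * b) i) =
    TcZ Z s d (fun i => f (c i : B)) (fun k => f (v k)) (fun z => f (w z)) (f (a * b)) i := h3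
  rw [h4, map_mul]
  simp only [map_natCast]

theorem ideal_bound {B κ ζ : Type} [CommRing B] (τ ε ω : B) (hτ : τ = ε * ω) (k m : ℕ)
    (Y : κ → B) (w : ζ → B) (hY : ∀ i, ∃ v, Y i = τ ^ k * ε * v)
    (hw : ∀ z, ∃ v, w z = τ ^ (2 * k + 2 + m) * v) :
    Ideal.span (Set.range Y) ^ 3 ⊔ Ideal.span (Set.range Y) * Ideal.span (Set.range w) ⊔
      Ideal.span (Set.range w) ^ 2 ≤ Ideal.span {τ ^ (2 * k) * ε ^ 2 * ε} := by
  have h1 : Ideal.span (Set.range Y) ≤ Ideal.span {τ ^ k * ε} := by
    rw [Ideal.span_le]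
    rintro _ ⟨i, rfl⟩
    obtain ⟨v, hv⟩ := hY i
    exact Ideal.mem_span_singleton'.2 ⟨v, by rw [hv]; ring⟩
  have h2 : Ideal.span (Set.range w) ≤ Ideal.span {τ ^ (2 * k + 2 + m)} := by
    rw [Ideal.span_le]
    rintro _ ⟨i, rfl⟩
    obtain ⟨v, hv⟩ := hw i
    exact Ideal.mem_span_singleton'.2 ⟨v, by rw [hv]; ring⟩
  refine sup_le (sup_le ?_ ?_) ?_
  · refine (Ideal.pow_right_mono h1 3).trans ?_
    rw [Ideal.span_singleton_pow, Ideal.span_singleton_le_span_singleton]
    exact ⟨τ ^ k, by ring⟩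
  · refine (Ideal.mul_mono h1 h2).trans ?_
    rw [Ideal.span_singleton_mul_span_singleton, Ideal.span_singleton_le_span_singleton]
    refine ⟨ω ^ 2 * τ ^ k * τ ^ m, ?_⟩
    have e1 : τ ^ (2 * k + 2 + m) = τ ^ (2 * k) * (ε * ω) ^ 2 * τ ^ m := by
      rw [pow_add, pow_add, ← hτ]
    rw [e1]; ring
  · refine (Ideal.pow_right_mono h2 2).trans ?_
    rw [Ideal.span_singleton_pow, Ideal.span_singleton_le_span_singleton]
    refine ⟨ε * ω ^ 4 * τ ^ (2 * k) * τ ^ m * τ ^ m, ?_⟩
    have e1 : τ ^ (2 * k + 2 + m) = τ ^ (2 * k) * (ε * ω) ^ 2 * τ ^ m := by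
      rw [pow_add, pow_add, ← hτ]
    rw [e1]; ring

end QC2aux

open QC2aux

open Classical in
theorem QC2_ok (hP : S_QPRE) (hF : S_QTF) (hX : S_QEX) (hB : S_BLRW) : S_QC2 := by
  intro R F ι _ _ _ _ _ _ _ 𝒪 p e h j co r g Z y s d a b c β b₀ hQC q η hq hη k z₀ l hk1 hkh hC hloc
  obtain ⟨Q, hQ, hexp⟩ := hX p co g hQC.data.coef s c β hQC.spec Z hQC.hZ d hQC.hd hQC.hdZ j b₀
    hQC.kind
  obtain ⟨hq0, hqp, hqT⟩ := hF 𝒪 p e h j co r g Z y s d a b c β b₀ hQC q hq
  obtain ⟨m, hm⟩ : ∃ m, e = 2 * k + 2 + m := ⟨e - (2 * k + 2), by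
    rcases hQC.heh with h1 | h1 <;> omega⟩
  have hy0 := hC.yz
  have hql := hC.ql
  -- the polynomial ring
  let σ : Type := {m : KT Z s d // m ≠ l} ⊕ Option {z : ZT Z // z ≠ z₀}
  let W : Type := MvPolynomial (Option σ) R
  let ν : KT Z s d → Option σ := fun m => if h : m = l then none else some (Sum.inl ⟨m, h⟩)
  let H : ZT Z → W := fun z => if h : z = z₀ then 1 else X (some (Sum.inr (some ⟨z, h⟩)))
  let ε : W := X none
  let ω : W := X (some (Sum.inr none))
  let τ : W := ε * ω
  let Yq : KT Z s d → W := fun m => τ ^ k * ε * Yv ν m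
  let Yy : ZT Z → W := fun z => τ * H z
  let pt : Option σ → F := fun o => o.elim (q l / η z₀ ^ k) (fun i => Sum.elim
    (fun m => q m.1 / q l) (fun o' => o'.elim (η z₀ ^ (k + 1) / q l) (fun z => η z.1 / η z₀)) i)
  let eW : W →ₐ[R] F := aeval pt
  have heε : eW ε = q l / η z₀ ^ k := by
    show aeval pt (X none) = _
    rw [aeval_X]; rfl
  have heω : eW ω = η z₀ ^ (k + 1) / q l := by
    show aeval pt (X (some (Sum.inr none))) = _
    rw [aeval_X]; rfl
  have heτ : eW τ = η z₀ := by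
    show eW (ε * ω) = _
    rw [map_mul, heε, heω]
    field_simp
    exact pow_succ _ _
  have heH : ∀ z, eW (H z) = η z / η z₀ := by
    intro z
    show aeval pt (if h : z = z₀ then 1 else X (some (Sum.inr (some ⟨z, h⟩)))) = _
    split_ifs with h
    · rw [h, div_self hy0, map_one]
    · rw [aeval_X]; rfl
  have heYv : ∀ m, eW (Yv ν m) = q m / q l := by
    intro m
    show aeval pt ((if h : m = l then none else some (Sum.inl ⟨m, h⟩) : Option σ).elim 1
      (fun i => X (some i))) = _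
    split_ifs with h
    · rw [h, div_self hql]
      show aeval pt 1 = 1
      rw [map_one]
    · show aeval pt (X (some (Sum.inl ⟨m, h⟩))) = _
      rw [aeval_X]; rfl
  have heYq : ∀ m, eW (Yq m) = q m := by
    intro m
    show eW (τ ^ k * ε * Yv ν m) = q m
    rw [map_mul, map_mul, map_pow, heτ, heε, heYv]
    field_simp
  have heYy : ∀ z, eW (Yy z) = η z := by
    intro z
    show eW (τ * H z) = η z
    rw [map_mul, heτ, heH]
    field_simp
  -- the first relation
  let hh : W := τ ^ k * Yv ν none * (Yq none ^ j * (Yq (some none) - algebraMap R W b₀) ^ j)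
  let R1 : W := C (p : R) - X none * hh
  have hR1 : R1 = (p : W) - Yq none ^ (j + 1) * (Yq (some none) - algebraMap R W b₀) ^ j := by
    show C (p : R) - X none * (τ ^ k * Yv ν none * (Yq none ^ j *
      (Yq (some none) - algebraMap R W b₀) ^ j)) = _
    rw [map_natCast]
    have : Yq none ^ (j + 1) = (τ ^ k * ε * Yv ν none) * Yq none ^ j := by
      rw [pow_succ, mul_comm]
    rw [this]
    show (p : W) - ε * (τ ^ k * Yv ν none * (Yq none ^ j *
      (Yq (some none) - algebraMap R W b₀) ^ j)) = _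
    ring
  have heR1 : eW R1 = 0 := by
    rw [hR1, map_sub, map_natCast, map_mul, map_pow, map_pow, map_sub, heYq, heYq, AlgHom.commutes,
      ← hqp, sub_self]
  -- the third relation in W
  let Tot : W := TotZ p j g c Z s d (Yq none) (Yq (some none) - algebraMap R W b₀)
    (fun k => Yq (some (some k))) (fun z => algebraMap R W (r z) * Yy z ^ e)
  have heTot : eW Tot = 0 := by
    show eW (TotZ p j g c Z s d (Yq none) (Yq (some none) - algebraMap R W b₀)
      (fun k => Yq (some (some k))) (fun z => algebraMap R W (r z) * Yy z ^ e)) = 0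
    rw [map_TotZ, map_sub, AlgHom.commutes, heYq, heYq]
    simp only [heYq, map_mul, map_pow, heYy, AlgHom.commutes]
    rw [hη]
    exact hqT
  -- the quotient by the first relation
  obtain ⟨B, iB1, iB2, mk, hmks, hmkk, hmk⟩ := exists_quot (R := R) (Ideal.span {R1} : Ideal W)
  have hmkR1 : (p : B) = mk (Yq none) ^ (j + 1) *
      (mk (Yq (some none)) - algebraMap R B b₀) ^ j := by
    have h1 : mk R1 = 0 := (hmk R1).2 (Ideal.subset_span rfl)
    rw [hR1, map_sub, map_natCast, map_mul, map_pow, map_pow, map_sub, AlgHom.commutes] at h1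
    exact sub_eq_zero.1 h1
  have hmkYq : ∀ m, mk (Yq m) = mk τ ^ k * mk ε * mk (Yv ν m) := by
    intro m
    show mk (τ ^ k * ε * Yv ν m) = _
    rw [map_mul, map_mul, map_pow]
  have hmkYy : ∀ z, mk (Yy z) = mk τ * mk (H z) := fun z => map_mul _ _ _
  have hmkτ : mk τ = mk ε * mk ω := map_mul _ _ _
  have hex := hexp (B := B) (fun m => mk (Yq m)) (fun z => algebraMap R B (r z) * mk (Yy z) ^ e)
    hmkR1
  have hex2 := ideal_bound (mk τ) (mk ε) (mk ω) hmkτ k m (fun m => mk (Yq m))
    (fun z : ZT Z => algebraMap R B (r z) * mk (Yy z) ^ e)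
    (fun i => ⟨mk (Yv ν i), hmkYq i⟩)
    (fun z => ⟨algebraMap R B (r z) * mk (H z) ^ e, by
      show algebraMap R B (r z) * mk (Yy z) ^ e = _
      rw [hmkYy, mul_pow, ← hm]; ring⟩) hex
  obtain ⟨hBB, hhB⟩ := Ideal.mem_span_singleton'.1 hex2
  obtain ⟨h', hh'⟩ := hmks hBB
  let G : W := -(ω ^ 2 * τ ^ m * ∑ z : ZT Z, C (r z) * H z ^ e) + X none * h'
  let E : W := ∑ i, ∑ i', C (Q i i') * Yv ν i * Yv ν i' + G
  let Dd : W := τ ^ (2 * k) * ε ^ 2
  have hmTot : mk Tot = TotZ p j g c Z s d (mk (Yq none)) (mk (Yq (some none)) - algebraMap R B b₀)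
      (fun k => mk (Yq (some (some k)))) (fun z => algebraMap R B (r z) * mk (Yy z) ^ e) := by
    show mk (TotZ p j g c Z s d (Yq none) (Yq (some none) - algebraMap R W b₀)
      (fun k => Yq (some (some k))) (fun z => algebraMap R W (r z) * Yy z ^ e)) = _
    rw [map_TotZ, map_sub, AlgHom.commutes]
    simp only [map_mul, map_pow, AlgHom.commutes]
  have hmE : mk (Tot - Dd * E) = 0 := by
    have e1 : mk (Dd * E) = (mk τ ^ (2 * k) * mk ε ^ 2) * (∑ i, ∑ i', algebraMap R B (Q i i') *
        mk (Yv ν i) * mk (Yv ν i') +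
        (-(mk ω ^ 2 * mk τ ^ m * ∑ z : ZT Z, algebraMap R B (r z) * mk (H z) ^ e) +
          mk ε * hBB)) := by
      show mk ((τ ^ (2 * k) * ε ^ 2) * (∑ i, ∑ i', C (Q i i') * Yv ν i * Yv ν i' +
        (-(ω ^ 2 * τ ^ m * ∑ z : ZT Z, C (r z) * H z ^ e) + X none * h'))) = _
      have hC' : ∀ x : R, mk (C x) = algebraMap R B x := fun x => mk.commutes x
      simp only [map_mul, map_pow, map_add, map_sum, map_neg, hC', hh']
      rfl
    have e2 : ∑ i, ∑ i', algebraMap R B (Q i i') * mk (Yq i) * mk (Yq i') =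
        (mk τ ^ (2 * k) * mk ε ^ 2) * ∑ i, ∑ i', algebraMap R B (Q i i') *
        mk (Yv ν i) * mk (Yv ν i') := by
      rw [Finset.mul_sum]
      apply Finset.sum_congr rfl
      intro i _
      rw [Finset.mul_sum]
      apply Finset.sum_congr rfl
      intro i' _
      rw [hmkYq, hmkYq]
      ring
    have e3 : ∑ z : ZT Z, algebraMap R B (r z) * mk (Yy z) ^ e =
        (mk τ ^ (2 * k) * mk ε ^ 2) * (mk ω ^ 2 * mk τ ^ m * ∑ z : ZT Z, algebraMap R B (r z) *
          mk (H z) ^ e) := by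
      have e4 : mk τ ^ e = (mk τ ^ (2 * k) * mk ε ^ 2) * (mk ω ^ 2 * mk τ ^ m) := by
        rw [hm, pow_add, pow_add]
        have : mk τ ^ 2 = mk ε ^ 2 * mk ω ^ 2 := by rw [hmkτ, mul_pow]
        rw [this]; ring
      rw [← mul_assoc, ← e4, Finset.mul_sum]
      apply Finset.sum_congr rfl
      intro z _
      rw [hmkYy, mul_pow]
      ring
    have e5 : mk Tot = (∑ i, ∑ i', algebraMap R B (Q i i') * mk (Yq i) * mk (Yq i') -
        ∑ z : ZT Z, algebraMap R B (r z) * mk (Yy z) ^ e) +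
        hBB * (mk τ ^ (2 * k) * mk ε ^ 2 * mk ε) := by
      rw [hmTot, hhB]; ring
    rw [map_sub, e1, e5, e2, e3]
    ring
  obtain ⟨rr, hrr⟩ := Ideal.mem_span_singleton'.1 ((hmk _).1 hmE)
  have hD0 : eW Dd ≠ 0 := by
    show eW (τ ^ (2 * k) * ε ^ 2) ≠ 0
    rw [map_mul, map_pow, map_pow, heτ, heε]
    exact mul_ne_zero (pow_ne_zero _ hy0) (pow_ne_zero _ (div_ne_zero hql (pow_ne_zero _ hy0)))
  have hE0 : eW E = 0 := by
    have h1 : eW (Dd * E) = 0 := by
      have h2 : Dd * E = Tot - rr * R1 := by rw [hrr]; ring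
      rw [h2, map_sub, map_mul, heR1, heTot]; simp
    rw [map_mul] at h1
    exact (mul_eq_zero.1 h1).resolve_left hD0
  obtain ⟨A, iA1, iA2, pr, hprs, hprk, hpr⟩ := exists_quot (R := R) (Ideal.span {R1, E} : Ideal W)
  have hprR1 : pr R1 = 0 := (hpr R1).2 (Ideal.subset_span (by simp))
  have hprE : pr E = 0 := (hpr E).2 (Ideal.subset_span (by simp))
  have hker : ∀ w, pr w = 0 → eW w = 0 := by
    intro w hw
    have h1 := (hpr w).1 hw
    obtain ⟨x, y, hxy⟩ := Ideal.mem_span_pair.1 h1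
    rw [← hxy, map_add, map_mul, map_mul, heR1, hE0]
    simp
  -- the range
  have hrange : (Algebra.adjoin R (G2 q η k z₀ l)) = eW.range := by
    show _ = (aeval pt).range
    rw [← Algebra.adjoin_range_eq_range_aeval]
    apply le_antisymm
    · apply Algebra.adjoin_le
      rintro x (((rfl | rfl) | ⟨m, rfl⟩) | ⟨z, rfl⟩)
      · exact Algebra.subset_adjoin ⟨none, rfl⟩
      · exact Algebra.subset_adjoin ⟨some (Sum.inr none), rfl⟩
      · by_cases hm : m = l
        · show q m / q l ∈ _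
          rw [hm, div_self hql]
          exact one_mem _
        · exact Algebra.subset_adjoin ⟨some (Sum.inl ⟨m, hm⟩), rfl⟩
      · by_cases hz : z = z₀
        · show η z / η z₀ ∈ _
          rw [hz, div_self hy0]
          exact one_mem _
        · exact Algebra.subset_adjoin ⟨some (Sum.inr (some ⟨z, hz⟩)), rfl⟩
    · apply Algebra.adjoin_mono
      rintro x ⟨o, rfl⟩
      rcases o with _ | (m | _ | z)
      · exact Or.inl (Or.inl (Or.inl rfl))
      · exact Or.inl (Or.inr ⟨m.1, rfl⟩)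
      · exact Or.inl (Or.inl (Or.inr rfl))
      · exact Or.inr ⟨z.1, rfl⟩
  have hlocOf' : IsLocOf 𝒪 (eW.range : Set F) := by
    rw [← hrange]; exact hloc
  have hW : ∀ w, eW w ∈ 𝒪 := fun w => hlocOf'.1 _ ⟨w, rfl⟩
  have hprp : pr (p : W) = pr (Yq none ^ (j + 1) * (Yq (some none) - algebraMap R W b₀) ^ j) := by
    rw [hR1, map_sub] at hprR1
    exact sub_eq_zero.1 hprR1
  have hprTot : pr Tot = 0 := by
    have h2 : Tot = Dd * E + rr * R1 := by rw [hrr]; ring
    rw [h2, map_add, map_mul pr Dd, map_mul pr rr, hprE, hprR1]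
    simp
  refine hP 𝒪 p e h j co r g Z y s d a b c β b₀ hQC pr hprs eW hker hW hlocOf' Yq Yy
    (fun m => by rw [heYq, hq]) (fun z => by rw [heYy, hη]) hprp hprTot ?_ ?_
  · -- generation
    intro P hPr hPS hPa hPm _ hPd
    have gτ : P τ := by
      have h1 : P (Yy z₀) := hPS _ (Or.inr ⟨z₀, rfl⟩)
      have h2 : Yy z₀ = τ := by
        show τ * H z₀ = τ
        have : H z₀ = 1 := by
          show (if h : z₀ = z₀ then (1 : W) else X (some (Sum.inr (some ⟨z₀, h⟩)))) = 1
          rw [dif_pos rfl]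
        rw [this, mul_one]
      rwa [h2] at h1
    have gτk : ∀ n : ℕ, P (τ ^ n) := by
      intro n
      induction n with
      | zero => rw [pow_zero]; simpa using hPr 1
      | succ n ih => rw [pow_succ]; exact hPm _ _ ih gτ
    have hν : Yv ν l = (1 : W) := by
      show ((if h : l = l then none else some (Sum.inl ⟨l, h⟩) : Option σ).elim 1
        (fun i => X (some i))) = (1 : W)
      rw [dif_pos rfl]; rfl
    have gτε : P (τ ^ k * ε) := by
      have h1 : P (Yq l) := hPS _ (Or.inl ⟨l, rfl⟩)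
      have h2 : Yq l = τ ^ k * ε := by
        show τ ^ k * ε * Yv ν l = τ ^ k * ε
        rw [hν, mul_one]
      rwa [h2] at h1
    have hτ0 : eW (τ ^ k) ≠ 0 := by
      rw [map_pow, heτ]; exact pow_ne_zero _ hy0
    have hε0 : eW ε ≠ 0 := by
      rw [heε]; exact div_ne_zero hql (pow_ne_zero _ hy0)
    have gε : P ε := hPd _ _ hτ0 (gτk k) gτε
    have gω : P ω := hPd _ _ hε0 gε gτ
    have gYv : ∀ m, P (Yv ν m) := by
      intro m
      refine hPd (τ ^ k * ε) _ ?_ gτε (hPS _ (Or.inl ⟨m, rfl⟩))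
      rw [map_mul]; exact mul_ne_zero hτ0 hε0
    have gH : ∀ z, P (H z) := by
      intro z
      refine hPd τ _ ?_ gτ (hPS _ (Or.inr ⟨z, rfl⟩))
      rw [heτ]; exact hy0
    have gX : ∀ o : Option σ, P (X o) := by
      intro o
      rcases o with _ | (m | _ | z)
      · exact gε
      · have h1 := gYv m.1
        have h2 : Yv ν m.1 = (X (some (Sum.inl m)) : W) := by
          show ((if h : m.1 = l then none else some (Sum.inl ⟨m.1, h⟩) : Option σ).elim 1
            (fun i => X (some i))) = (X (some (Sum.inl m)) : W)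
          rw [dif_neg m.2]; rfl
        rwa [h2] at h1
      · exact gω
      · have h1 := gH z.1
        have h2 : H z.1 = (X (some (Sum.inr (some z))) : W) := by
          show (if h : z.1 = z₀ then (1 : W) else X (some (Sum.inr (some ⟨z.1, h⟩)))) = _
          rw [dif_neg z.2]
        rwa [h2] at h1
    intro w
    induction w using MvPolynomial.induction_on with
    | C x => exact hPr x
    | add w w' h1 h2 => exact hPa _ _ h1 h2
    | mul_X w o h1 => exact hPm _ _ h1 (gX o)
  · intro 𝔮 _ h𝔮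
    have hεq : pr ε ∈ 𝔮 := by
      rw [h𝔮, heε]; exact hC.hεU
    have hωq : pr ω ∈ 𝔮 := by
      rw [h𝔮, heω]; exact hC.hωU
    have hνinj : Function.Injective ν := by
      intro m m' hmm
      simp only [ν] at hmm
      split_ifs at hmm with h1 h2 h2
      · rw [h1, h2]
      · have := Option.some.inj hmm
        have := Sum.inl.inj this
        exact congrArg Subtype.val this
    refine hB (p : R) hQC.data.irr Q hQ ν hνinj (pr : W →+* A) hprs hh G hprk 𝔮 hεq ?_ ?_ ?_
    · show pr G ∈ 𝔮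
      show pr (-(ω ^ 2 * τ ^ m * ∑ z : ZT Z, C (r z) * H z ^ e) + X none * h') ∈ 𝔮
      rw [map_add, map_neg, map_mul pr (X none)]
      refine 𝔮.add_mem (𝔮.neg_mem ?_) (𝔮.mul_mem_right _ hεq)
      rw [mul_assoc, pow_two, mul_assoc, map_mul]
      exact 𝔮.mul_mem_right _ hωq
    · intro m' i hi
      have hi' : ∃ i₁, i = Sum.inl i₁ := by
        simp only [ν] at hi
        split_ifs at hi with h1
        exact ⟨_, (Option.some.inj hi).symm⟩
      obtain ⟨i₁, rfl⟩ := hi'
      have hdω : pderiv (some (Sum.inl i₁)) ω = 0 := by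
        show pderiv (some (Sum.inl i₁)) (X (some (Sum.inr none)) : W) = 0
        exact pderiv_X_of_ne (by simp)
      have hdε : pderiv (some (Sum.inl i₁)) ε = 0 := by
        show pderiv (some (Sum.inl i₁)) (X none : W) = 0
        exact pderiv_X_of_ne (by simp)
      have hdτ : pderiv (some (Sum.inl i₁)) τ = 0 := by
        show pderiv (some (Sum.inl i₁)) (ε * ω) = 0
        rw [pderiv_mul, hdω, hdε]; simp
      have hdH : ∀ z, pderiv (some (Sum.inl i₁)) (H z) = 0 := by
        intro z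
        show pderiv (some (Sum.inl i₁))
          (if h : z = z₀ then (1 : W) else X (some (Sum.inr (some ⟨z, h⟩)))) = 0
        split_ifs with h
        · simp
        · exact pderiv_X_of_ne (by simp)
      have hdG : pderiv (some (Sum.inl i₁)) G = ε * pderiv (some (Sum.inl i₁)) h' := by
        show pderiv (some (Sum.inl i₁)) (-(ω ^ 2 * τ ^ m * ∑ z : ZT Z, C (r z) * H z ^ e) +
          X none * h') = _
        rw [map_add, map_neg, pderiv_mul, pderiv_mul, pderiv_mul, pderiv_pow, pderiv_pow, hdω, hdτ,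
          map_sum]
        have h1 : ∑ z : ZT Z, pderiv (some (Sum.inl i₁)) (C (r z) * H z ^ e) = 0 := by
          apply Finset.sum_eq_zero
          intro z _
          rw [pderiv_C_mul, pderiv_pow, hdH]
          simp
        rw [h1]
        have h2 : pderiv (some (Sum.inl i₁)) (X none : W) = 0 := hdε
        rw [h2]
        simp
        exact Or.inl rfl
      show pr (pderiv (some (Sum.inl i₁)) G) ∈ 𝔮
      rw [hdG, map_mul]
      exact 𝔮.mul_mem_right _ hεq
    · refine ⟨l, ?_⟩
      have hν : Yv ν l = (1 : W) := by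
        show ((if h : l = l then none else some (Sum.inl ⟨l, h⟩) : Option σ).elim 1
          (fun i => X (some i))) = (1 : W)
        rw [dif_pos rfl]; rfl
      show pr (Yv ν l) ∉ 𝔮
      rw [hν, map_one]
      exact fun h1 => (Ideal.IsPrime.ne_top ‹𝔮.IsPrime›) ((Ideal.eq_top_iff_one 𝔮).2 h1)

end Pool.Agent.H945R2.S
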