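import Pool.Agent.H945R2.S.Props

/-! QC3: chart 3 of the resolution, unit case. -/

set_option autoImplicit false

open scoped Pointwise

namespace Pool.Agent.H945R2.S

open Pool.Agent.H918R2.Quad Pool.Agent.H945R2.D MvPolynomial

namespace QC3aux

theorem TotZ_map {R B B' ι : Type} [CommRing R] [CommRing B] [Algebra R B] [CommRing B']
    [Algebra R B'] [Fintype ι] [DecidableEq ι] (f : B →ₐ[R] B') (p j : ℕ)
    (g : MvPolynomial ι R) (c : ι → ℕ) (Z : Finset ι) (s d : ι) (a b : B) (v : TT Z s d → B)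
    (w : ZT Z → B) :
    f (TotZ p j g c Z s d a b v w) =
      TotZ p j g c Z s d (f a) (f b) (fun k => f (v k)) (fun z => f (w z)) := by
  unfold TotZ
  rw [map_add, map_mul, map_pow, map_pow]
  congr 1
  have h1 : f (aeval (TcZ Z s d (fun i => (c i : B)) v w (a * b)) g) =
    (f.comp (aeval (TcZ Z s d (fun i => (c i : B)) v w (a * b)))) g := rfl
  rw [h1]
  congr 1
  apply MvPolynomial.algHom_ext
  intro i
  rw [AlgHom.comp_apply, aeval_X, aeval_X]
  unfold TcZ
  split_ifs
  · rfl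
  · simp
  · simp
  · simp

/-- The place of the coordinate `m` among the variables. -/
def nu {κ ζ : Type} (z₀ : ζ) (m : κ) : Option (κ ⊕ {z : ζ // z ≠ z₀}) := some (Sum.inl m)

theorem nu_inj {κ ζ : Type} (z₀ : ζ) : Function.Injective (nu (κ := κ) z₀) := by
  intro m m' h
  unfold nu at h
  simpa using h

theorem nu_some {κ ζ : Type} (z₀ : ζ) (k : κ) (i : κ ⊕ {z : ζ // z ≠ z₀})
    (h : nu z₀ k = some i) : ∃ m, i = Sum.inl m :=
  ⟨k, (Option.some.inj h).symm⟩

/-- The point of chart 3. -/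
def pt {F κ ζ : Type} [Field F] (q : κ → F) (η : ζ → F) (k : ℕ) (z₀ : ζ) :
    Option (κ ⊕ {z : ζ // z ≠ z₀}) → F :=
  fun o => o.elim (η z₀) (fun i => Sum.elim (fun m => q m / η z₀ ^ k) (fun z => η z.1 / η z₀) i)

/-- The coordinates `y_z / y_{z₀}`. -/
noncomputable def Hz {R κ ζ : Type} [CommRing R] [DecidableEq ζ] (z₀ z : ζ) :
    MvPolynomial (Option (κ ⊕ {z : ζ // z ≠ z₀})) R :=
  if h : z = z₀ then 1 else X (some (Sum.inr ⟨z, h⟩))

theorem eval_Hz {R F κ ζ : Type} [CommRing R] [DecidableEq ζ] [Field F] [Algebra R F]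
    (q : κ → F) (η : ζ → F) (k : ℕ) (z₀ : ζ) (h0 : η z₀ ≠ 0) (z : ζ) :
    aeval (pt q η k z₀) (Hz (R := R) (κ := κ) z₀ z) = η z / η z₀ := by
  unfold Hz
  split_ifs with h
  · rw [h, div_self h0, map_one]
  · rw [aeval_X]
    rfl

theorem pderiv_Hz {R κ ζ : Type} [CommRing R] [DecidableEq ζ] (z₀ z : ζ) (m : κ) :
    pderiv (some (Sum.inl m)) (Hz (R := R) (κ := κ) z₀ z) = 0 := by
  unfold Hz
  split_ifs with h
  · exact pderiv_one
  · exact pderiv_X_of_ne (by simp)

end QC3aux

open QC3aux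

theorem QC3_ok (hP : S_QPRE) (hF : S_QTF) (hX : S_QEX) (hB : S_BLRW) : S_QC3 := by
  intro R F ι _ _ _ _ _ _ _ 𝒪 p e h j co r g Z y s d a b c β b₀ hD q η hq hη n z₀ hn1 hnh hne hC
    hunit hlocOf
  obtain ⟨hq0, hqp, hqT⟩ := hF 𝒪 p e h j co r g Z y s d a b c β b₀ hD q hq
  obtain ⟨Q, hQ, hQE⟩ := hX p co g hD.data.coef s c β hD.spec Z hD.hZ d hD.hd hD.hdZ j b₀ hD.kind
  have he2 : 2 * n + 1 ≤ e := by
    have h1 := hD.heh
    omega
  let κ : Type := KT Z s d
  let σ : Type := κ ⊕ {z : ZT Z // z ≠ z₀}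
  let W : Type := MvPolynomial (Option σ) R
  let ν : κ → Option σ := nu z₀
  let τ : W := X none
  let H : ZT Z → W := Hz z₀
  let Yq : κ → W := fun m => τ ^ n * Yv ν m
  let Yy : ZT Z → W := fun z => τ * H z
  let eW : W →ₐ[R] F := aeval (pt q η n z₀)
  have hτn0 : η z₀ ^ n ≠ 0 := pow_ne_zero n hC.yz
  have hYvX : ∀ m, (Yv ν m : W) = X (some (Sum.inl m)) := fun m => rfl
  have hHz0 : H z₀ = 1 := by
    show Hz z₀ z₀ = 1
    unfold Hz
    rw [dif_pos rfl]
  have heτ : eW τ = η z₀ := by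
    show aeval (pt q η n z₀) (X none) = η z₀
    rw [aeval_X]; rfl
  have heYv : ∀ m, eW (Yv ν m) = q m / η z₀ ^ n := by
    intro m
    show aeval (pt q η n z₀) (X (some (Sum.inl m))) = _
    rw [aeval_X]; rfl
  have heYq : ∀ m, eW (Yq m) = q m := by
    intro m
    show eW (τ ^ n * Yv ν m) = q m
    rw [map_mul, map_pow, heτ, heYv, mul_div_cancel₀ _ hτn0]
  have heH : ∀ z : ZT Z, eW (H z) = η z / η z₀ := fun z => eval_Hz q η n z₀ hC.yz z
  have heYy : ∀ z : ZT Z, eW (Yy z) = η z := by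
    intro z
    show eW (τ * H z) = _
    rw [map_mul, heτ, heH, mul_div_cancel₀ _ hC.yz]
  let wW : ZT Z → W := fun z => algebraMap R W (r z) * Yy z ^ e
  let Tot : W := TotZ p j g c Z s d (Yq none) (Yq (some none) - algebraMap R W b₀)
    (fun k => Yq (some (some k))) wW
  have heTot : eW Tot = 0 := by
    have h1 := TotZ_map eW p j g c Z s d (Yq none) (Yq (some none) - algebraMap R W b₀)
      (fun k => Yq (some (some k))) wW
    have h2 : eW (Yq (some none) - algebraMap R W b₀) = q (some none) - algebraMap R F b₀ := by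
      rw [map_sub, heYq, AlgHom.commutes]
    have h3 : (fun k => eW (Yq (some (some k)))) = fun k => q (some (some k)) :=
      funext fun k => heYq _
    have h4 : (fun z => eW (wW z)) = fun z : ZT Z => algebraMap R F (r z) * y z ^ e := by
      funext z
      show eW (algebraMap R W (r z) * Yy z ^ e) = _
      rw [map_mul, AlgHom.commutes, map_pow, heYy, hη]
    show eW (TotZ p j g c Z s d (Yq none) (Yq (some none) - algebraMap R W b₀)
      (fun k => Yq (some (some k))) wW) = 0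
    rw [h1, h2, h3, h4, heYq]
    exact hqT
  -- the first relation
  let hh : W := (τ ^ (n - 1) * Yv ν none) *
    (Yq none ^ j * (Yq (some none) - algebraMap R W b₀) ^ j)
  let R1 : W := C (p : R) - X none * hh
  have hτn : τ ^ n = τ * τ ^ (n - 1) := by
    rw [← pow_succ']; congr 1; omega
  have hR1 : R1 = (p : W) - Yq none ^ (j + 1) * (Yq (some none) - algebraMap R W b₀) ^ j := by
    show C (p : R) - X none * ((τ ^ (n - 1) * Yv ν none) *
      (Yq none ^ j * (Yq (some none) - algebraMap R W b₀) ^ j)) = _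
    rw [map_natCast]
    have h1 : Yq none ^ (j + 1) = X none * (τ ^ (n - 1) * Yv ν none) * Yq none ^ j := by
      have h2 : Yq none = X none * (τ ^ (n - 1) * Yv ν none) := by
        show τ ^ n * Yv ν none = X none * (τ ^ (n - 1) * Yv ν none)
        rw [hτn]; ring
      rw [pow_succ]
      nth_rewrite 2 [h2]
      rw [mul_comm]
    rw [h1]; ring
  have heR1 : eW R1 = 0 := by
    rw [hR1, map_sub, map_natCast, map_mul, map_pow, map_pow, map_sub, heYq, heYq,
      AlgHom.commutes, ← hqp, sub_self]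
  -- the quotient by the first relation
  obtain ⟨B, iB1, iB2, mk, hmks, hmkk, hmk⟩ := exists_quot (R := R) (Ideal.span {R1} : Ideal W)
  have hmkR1 : (p : B) = mk (Yq none) ^ (j + 1) *
      (mk (Yq (some none)) - algebraMap R B b₀) ^ j := by
    have h1 : mk R1 = 0 := (hmk R1).2 (Ideal.subset_span rfl)
    rw [hR1, map_sub, map_natCast, map_mul, map_pow, map_pow, map_sub, AlgHom.commutes] at h1
    exact sub_eq_zero.1 h1
  have hexp := hQE (B := B) (fun k => mk (Yq k)) (fun z => mk (wW z)) hmkR1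
  have hmTot : mk Tot = TotZ p j g c Z s d (mk (Yq none)) (mk (Yq (some none)) - algebraMap R B b₀)
      (fun k => mk (Yq (some (some k)))) (fun z => mk (wW z)) := by
    have h1 := TotZ_map mk p j g c Z s d (Yq none) (Yq (some none) - algebraMap R W b₀)
      (fun k => Yq (some (some k))) wW
    rw [map_sub, AlgHom.commutes] at h1
    exact h1
  have hmem : mk Tot - (∑ k, ∑ k', algebraMap R B (Q k k') * mk (Yq k) * mk (Yq k') -
      ∑ z, mk (wW z)) ∈ Ideal.span {mk τ ^ (2 * n + 1)} := by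
    rw [hmTot]
    refine (show _ ≤ Ideal.span {mk τ ^ (2 * n + 1)} from ?_) hexp
    have h1 : Ideal.span (Set.range (fun k => mk (Yq k))) ≤ Ideal.span {mk τ ^ n} := by
      rw [Ideal.span_le]
      rintro x ⟨k, rfl⟩
      exact Ideal.mem_span_singleton'.2 ⟨mk (Yv ν k), by
        show mk (Yv ν k) * mk τ ^ n = mk (τ ^ n * Yv ν k)
        rw [map_mul, map_pow, mul_comm]⟩
    have h2 : Ideal.span (Set.range (fun z => mk (wW z))) ≤ Ideal.span {mk τ ^ e} := by
      rw [Ideal.span_le]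
      rintro x ⟨z, rfl⟩
      refine Ideal.mem_span_singleton'.2 ⟨mk (algebraMap R W (r z) * H z ^ e), ?_⟩
      show mk (algebraMap R W (r z) * H z ^ e) * mk τ ^ e =
        mk (algebraMap R W (r z) * (τ * H z) ^ e)
      rw [← map_pow, ← map_mul]
      congr 1
      rw [mul_pow]
      ring
    refine sup_le (sup_le ?_ ?_) ?_
    · refine (Ideal.pow_right_mono h1 3).trans ?_
      rw [Ideal.span_singleton_pow]
      apply Ideal.span_singleton_le_span_singleton.2
      rw [← pow_mul]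
      exact pow_dvd_pow _ (by omega)
    · refine (Ideal.mul_mono h1 h2).trans ?_
      rw [Ideal.span_singleton_mul_span_singleton]
      apply Ideal.span_singleton_le_span_singleton.2
      rw [← pow_add]
      exact pow_dvd_pow _ (by omega)
    · refine (Ideal.pow_right_mono h2 2).trans ?_
      rw [Ideal.span_singleton_pow]
      apply Ideal.span_singleton_le_span_singleton.2
      rw [← pow_mul]
      exact pow_dvd_pow _ (by omega)
  obtain ⟨hBB, hhB⟩ := Ideal.mem_span_singleton'.1 hmem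
  obtain ⟨h', hh'⟩ := hmks hBB
  let G0 : W := ∑ z : ZT Z, C (r z) * H z ^ e
  let G : W := X none * h' - X none ^ (e - 2 * n) * G0
  let E : W := ∑ k, ∑ l, C (Q k l) * Yv ν k * Yv ν l + G
  have hsumw : ∑ z, wW z = τ ^ (2 * n) * (τ ^ (e - 2 * n) * G0) := by
    show ∑ z : ZT Z, algebraMap R W (r z) * (τ * H z) ^ e = τ ^ (2 * n) * (τ ^ (e - 2 * n) *
      ∑ z : ZT Z, (C (r z) : W) * H z ^ e)
    rw [← mul_assoc, Finset.mul_sum]
    apply Finset.sum_congr rfl
    intro z _
    rw [mul_pow]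
    have h1 : τ ^ e = τ ^ (2 * n) * τ ^ (e - 2 * n) := by rw [← pow_add]; congr 1; omega
    rw [h1, MvPolynomial.algebraMap_eq]; ring
  have hsumq : ∑ k, ∑ k', algebraMap R W (Q k k') * Yq k * Yq k' =
      τ ^ (2 * n) * ∑ k, ∑ k', C (Q k k') * Yv ν k * Yv ν k' := by
    rw [Finset.mul_sum]
    apply Finset.sum_congr rfl
    intro k _
    rw [Finset.mul_sum]
    apply Finset.sum_congr rfl
    intro k' _
    show algebraMap R W (Q k k') * (τ ^ n * Yv ν k) * (τ ^ n * Yv ν k') = _
    have h1 : τ ^ (2 * n) = τ ^ n * τ ^ n := by rw [← pow_add]; congr 1; omega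
    rw [h1, MvPolynomial.algebraMap_eq]; ring
  have hmE : mk (Tot - τ ^ (2 * n) * E) = 0 := by
    have h1 : τ ^ (2 * n) * E =
        (∑ k, ∑ k', algebraMap R W (Q k k') * Yq k * Yq k' - ∑ z, wW z) +
        h' * τ ^ (2 * n + 1) := by
      rw [hsumq, hsumw]
      show τ ^ (2 * n) * (∑ k, ∑ l, C (Q k l) * Yv ν k * Yv ν l +
        (τ * h' - τ ^ (e - 2 * n) * G0)) = _
      rw [pow_succ τ (2 * n)]
      ring
    have h2 : mk (∑ k, ∑ k', algebraMap R W (Q k k') * Yq k * Yq k' - ∑ z, wW z) =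
        (∑ k, ∑ k', algebraMap R B (Q k k') * mk (Yq k) * mk (Yq k') - ∑ z, mk (wW z)) := by
      rw [map_sub, map_sum, map_sum]
      congr 1
      apply Finset.sum_congr rfl
      intro k _
      rw [map_sum]
      apply Finset.sum_congr rfl
      intro k' _
      rw [map_mul, map_mul, AlgHom.commutes]
    rw [h1, map_sub, map_add, h2, map_mul, map_pow, hh', hhB]
    ring
  obtain ⟨ρ, hρ⟩ := Ideal.mem_span_singleton'.1 ((hmk _).1 hmE)
  have hE0 : eW E = 0 := by
    have h1 : eW (τ ^ (2 * n) * E) = 0 := by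
      have h2 : τ ^ (2 * n) * E = Tot - ρ * R1 := by
        rw [hρ]; ring
      rw [h2, map_sub, map_mul, heR1, mul_zero, sub_zero, heTot]
    rw [map_mul, map_pow, heτ] at h1
    exact (mul_eq_zero.1 h1).resolve_left (pow_ne_zero _ hC.yz)
  obtain ⟨A, iA1, iA2, pr, hprs, hprk, hpr⟩ := exists_quot (R := R) (Ideal.span {R1, E} : Ideal W)
  have hprR1 : pr R1 = 0 := (hpr R1).2 (Ideal.subset_span (by simp))
  have hprE : pr E = 0 := (hpr E).2 (Ideal.subset_span (by simp))
  have hker : ∀ w, pr w = 0 → eW w = 0 := by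
    intro w hw
    have h1 := (hpr w).1 hw
    obtain ⟨x, y, hxy⟩ := Ideal.mem_span_pair.1 h1
    rw [← hxy, map_add, map_mul, map_mul, heR1, hE0]
    simp
  -- the range
  have hrange : Algebra.adjoin R (G3 q η n z₀) = eW.range := by
    show _ = (aeval (pt q η n z₀)).range
    rw [← Algebra.adjoin_range_eq_range_aeval]
    apply le_antisymm
    · apply Algebra.adjoin_le
      rintro x ((hx | ⟨k, rfl⟩) | ⟨z, rfl⟩)
      · rw [Set.mem_singleton_iff] at hx
        rw [hx]
        exact Algebra.subset_adjoin ⟨none, rfl⟩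
      · exact Algebra.subset_adjoin ⟨some (Sum.inl k), rfl⟩
      · by_cases hz : z = z₀
        · show η z / η z₀ ∈ _
          rw [hz, div_self hC.yz]
          exact one_mem _
        · exact Algebra.subset_adjoin ⟨some (Sum.inr ⟨z, hz⟩), rfl⟩
    · apply Algebra.adjoin_mono
      rintro x ⟨o, rfl⟩
      rcases o with _ | (k | z)
      · exact Or.inl (Or.inl rfl)
      · exact Or.inl (Or.inr ⟨k, rfl⟩)
      · exact Or.inr ⟨z.1, rfl⟩
  have hlocOf' : IsLocOf 𝒪 (eW.range : Set F) := by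
    rw [← hrange]; exact hlocOf
  have hW : ∀ w, eW w ∈ 𝒪 := fun w => hlocOf'.1 _ ⟨w, rfl⟩
  have hprp : pr (p : W) = pr (Yq none ^ (j + 1) * (Yq (some none) - algebraMap R W b₀) ^ j) := by
    rw [hR1, map_sub] at hprR1
    exact sub_eq_zero.1 hprR1
  have hprTot : pr Tot = 0 := by
    have h2 : Tot = τ ^ (2 * n) * E + ρ * R1 := by
      rw [hρ]; ring
    rw [h2, map_add, map_mul, map_mul, hprE, hprR1]
    simp
  refine hP 𝒪 p e h j co r g Z y s d a b c β b₀ hD pr hprs eW hker hW hlocOf' Yq Yy ?_ ?_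
    hprp hprTot ?_ ?_
  · intro m
    rw [heYq, hq]
  · intro z
    rw [heYy, hη]
  · intro P hPr hPS hPa hPm hPe hPd w
    have hPτ : P τ := by
      have h1 := hPS (Yy z₀) (Or.inr ⟨z₀, rfl⟩)
      have h2 : Yy z₀ = τ := by
        show τ * H z₀ = τ
        rw [hHz0, mul_one]
      rwa [h2] at h1
    have heτ0 : eW τ ≠ 0 := by rw [heτ]; exact hC.yz
    have hP1 : P 1 := by
      have h1 := hPr 1
      rwa [map_one] at h1
    have hPpow : ∀ i : ℕ, P (τ ^ i) := by
      intro i
      induction i with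
      | zero => rw [pow_zero]; exact hP1
      | succ i ih => rw [pow_succ]; exact hPm _ _ ih hPτ
    have heτn0 : eW (τ ^ n) ≠ 0 := by
      rw [map_pow, heτ]; exact hτn0
    have hPv : ∀ m, P (Yv ν m) := fun m => hPd (τ ^ n) (Yv ν m) heτn0 (hPpow n)
      (hPS _ (Or.inl ⟨m, rfl⟩))
    have hPz : ∀ z : ZT Z, P (H z) := fun z =>
      hPd τ _ heτ0 hPτ (hPS _ (Or.inr ⟨z, rfl⟩))
    have hPX : ∀ o, P (X o) := by
      intro o
      rcases o with _ | (k | z)
      · exact hPτ
      · exact hPv k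
      · have h1 := hPz z.1
        have h2 : H z.1 = X (some (Sum.inr z)) := by
          show Hz z₀ z.1 = _
          unfold Hz
          rw [dif_neg z.2]
        rwa [h2] at h1
    induction w using MvPolynomial.induction_on with
    | C r => exact hPr r
    | add p q hp hq => exact hPa _ _ hp hq
    | mul_X p n hp => exact hPm _ _ hp (hPX n)
  · intro 𝔮 _ h𝔮
    have h1 : pr (X none) ∈ 𝔮 := by
      rw [h𝔮]
      show ¬ U 𝒪 (eW τ)
      rw [heτ, hη]
      exact hD.data.hyZ _ z₀.2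
    obtain ⟨m₀, hm₀⟩ := hunit
    refine hB (p : R) hD.data.irr Q hQ ν (nu_inj z₀) (pr : W →+* A) hprs hh G hprk 𝔮 h1 ?_ ?_
      ⟨m₀, ?_⟩
    · show pr (X none * h' - X none ^ (e - 2 * n) * G0) ∈ 𝔮
      rw [map_sub, map_mul, map_mul, map_pow]
      exact 𝔮.sub_mem (Ideal.mul_mem_right _ _ h1)
        (Ideal.mul_mem_right _ _ (Ideal.pow_mem_of_mem _ h1 _ (by omega)))
    · intro k i hki
      obtain ⟨m, rfl⟩ := nu_some z₀ k i hki
      have hd1 : pderiv (some (Sum.inl m)) (X none : W) = 0 := pderiv_X_of_ne (by simp)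
      have hd2 : pderiv (some (Sum.inl m)) G0 = 0 := by
        show pderiv (some (Sum.inl m)) (∑ z : ZT Z, (C (r z) : W) * H z ^ e) = 0
        rw [map_sum]
        apply Finset.sum_eq_zero
        intro z _
        have h3 : pderiv (some (Sum.inl m)) (H z) = 0 := pderiv_Hz z₀ z m
        rw [pderiv_C_mul, pderiv_pow, h3]
        simp
      have hd : pderiv (some (Sum.inl m)) G = X none * pderiv (some (Sum.inl m)) h' := by
        show pderiv (some (Sum.inl m)) (X none * h' - X none ^ (e - 2 * n) * G0) = _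
        rw [map_sub, pderiv_mul, pderiv_mul, pderiv_pow, hd1, hd2]
        simp
      show pr (pderiv (some (Sum.inl m)) G) ∈ 𝔮
      rw [hd, map_mul]
      exact Ideal.mul_mem_right _ _ h1
    · intro hmem'
      have h2 : pr (Yv ν m₀) ∈ 𝔮 := hmem'
      rw [h𝔮, heYv] at h2
      exact h2 hm₀

end Pool.Agent.H945R2.S
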