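import Pool.Agent.H945R2.S.Props

set_option autoImplicit false

open scoped Pointwise

namespace Pool.Agent.H945R2.S

open Pool.Agent.H918R2.Quad Pool.Agent.H945R2.D MvPolynomial

/-- QEX. The second order expansion, for all kinds of singular points. -/
theorem QEX_ok (h0 : S_EXPZ0) (hJ : S_EXPZJ) (hB : S_EXPZB) (hN : S_NDZ) : S_QEX := by
  intro R ι _ _ _ _ p co g hco s c β hs Z hZ d hsd hdZ j b₀ hk
  obtain ⟨v, lα, l, hv, hE⟩ : ∃ (v lα : R) (l : TT Z s d → R), IsUnit v ∧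
      ExpZ p co g c Z s d j b₀ v lα l := by
    rcases hk with ⟨rfl, rfl⟩ | ⟨h1, h2, rfl⟩ | ⟨h1, rfl⟩
    · obtain ⟨lα, l, h⟩ := h0 p co g hco s c b₀ hs Z hZ d hsd hdZ
      exact ⟨1, lα, l, isUnit_one, h⟩
    · exact ⟨1, 0, fun _ => 0, isUnit_one, hJ p co g hco s c β hs Z hZ d hsd hdZ j h1 h2⟩
    · obtain ⟨lα, l, h⟩ := hB p co g hco s c β hs Z hZ d hsd hdZ
      obtain rfl : j = p - 2 := by omega
      exact ⟨-1, lα, l, isUnit_one.neg, h⟩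
  obtain ⟨Q, hQ, hQe⟩ := hN p co g hco s c β hs Z hZ d hsd hdZ v lα l hv
  refine ⟨Q, hQ, ?_⟩
  intro B _ _ Y w hp
  rw [← hQe Y]
  exact hE Y w hp

end Pool.Agent.H945R2.S
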