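import Pool.Agent.H945R2.S.Props

/-! QS. The charts of the resolution of `Q(q) = f(y)`. -/

set_option autoImplicit false

open scoped Pointwise

namespace Pool.Agent.H945R2.S

open Pool.Agent.H918R2.Quad Pool.Agent.H945R2.D MvPolynomial

namespace QSaux

variable {F κ ζ : Type} [Field F] {𝒪 : Subring F}

theorem pow_div_mem {y : ζ → F} {τ : F} (hy : ∀ z, y z / τ ∈ 𝒪) (n : ℕ) :
    ∀ v ∈ Set.range y ^ n, v / τ ^ n ∈ 𝒪 := by
  induction n with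
  | zero =>
    intro v hv
    rw [pow_zero, Set.mem_one] at hv
    rw [hv, pow_zero, div_one]
    exact 𝒪.one_mem
  | succ n ih =>
    intro v hv
    rw [pow_succ, Set.mem_mul] at hv
    obtain ⟨a, ha, b, ⟨z, rfl⟩, rfl⟩ := hv
    rw [pow_succ, mul_div_mul_comm]
    exact 𝒪.mul_mem (ih a ha) (hy z)

theorem pow_mem_pow {y : ζ → F} (z₀ : ζ) (n : ℕ) : y z₀ ^ n ∈ Set.range y ^ n :=
  Set.pow_mem_pow ⟨z₀, rfl⟩

/-- The first step. -/
theorem step1 {q : κ → F} {y : ζ → F} (h1 : Pr 𝒪 (NS (Set.range q) (Set.range y) 1)) :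
    (∃ l, C1 𝒪 q y l) ∨ ∃ z₀, y z₀ ≠ 0 ∧ (∀ z, y z / y z₀ ∈ 𝒪) ∧ ∀ m, q m / y z₀ ∈ 𝒪 := by
  obtain ⟨g, hg, hg0, hgen⟩ := h1
  unfold NS at hg hgen
  rw [pow_one] at hg hgen
  have hq : ∀ m, q m / g ∈ 𝒪 := fun m => hgen _ (Or.inl ⟨m, rfl⟩)
  have hy : ∀ z, y z / g ∈ 𝒪 := fun z => hgen _ (Or.inr ⟨z, rfl⟩)
  rcases hg with ⟨l, rfl⟩ | ⟨z₀, rfl⟩
  · by_cases hex : ∃ z₀, U 𝒪 (y z₀ / q l)
    · obtain ⟨z₀, hU⟩ := hex
      have hz0 : y z₀ ≠ 0 := fun h => hU.1 (by rw [h, zero_div])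
      refine Or.inr ⟨z₀, hz0, fun z => ?_, fun m => ?_⟩
      · have e1 : y z / y z₀ = (y z / q l) * (y z₀ / q l)⁻¹ := by field_simp
        rw [e1]
        exact 𝒪.mul_mem (hy z) hU.2.2
      · have e1 : q m / y z₀ = (q m / q l) * (y z₀ / q l)⁻¹ := by field_simp
        rw [e1]
        exact 𝒪.mul_mem (hq m) hU.2.2
    · push Not at hex
      exact Or.inl ⟨l, hg0, hq, hy, hex⟩
  · exact Or.inr ⟨z₀, hg0, hy, hq⟩

/-- The middle step. -/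
theorem step2 {q : κ → F} {y : ζ → F} {z₀ : ζ} {k : ℕ} (hz0 : y z₀ ≠ 0)
    (hy : ∀ z, y z / y z₀ ∈ 𝒪) (hk : ∀ m, q m / y z₀ ^ k ∈ 𝒪)
    (hk1 : ¬ ∀ m, q m / y z₀ ^ (k + 1) ∈ 𝒪)
    (h1 : Pr 𝒪 (NS (Set.range q) (Set.range y) (k + 1))) :
    (∃ l, C2 𝒪 q y k z₀ l) ∨ ∃ m, U 𝒪 (q m / y z₀ ^ k) := by
  obtain ⟨g, hg, hg0, hgen⟩ := h1
  unfold NS at hg hgen
  have hq : ∀ m, q m / g ∈ 𝒪 := fun m => hgen _ (Or.inl ⟨m, rfl⟩)
  rcases hg with ⟨l, rfl⟩ | hg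
  · have hω : y z₀ ^ (k + 1) / q l ∈ 𝒪 := hgen _ (Or.inr (pow_mem_pow z₀ (k + 1)))
    by_cases hU : U 𝒪 (q l / y z₀ ^ k)
    · exact Or.inr ⟨l, hU⟩
    · refine Or.inl ⟨l, hz0, hg0, hy, hq, hk l, hU, hω, fun hωU => hk1 fun m => ?_⟩
      have e1 : q m / y z₀ ^ (k + 1) = (q m / q l) * (y z₀ ^ (k + 1) / q l)⁻¹ := by field_simp
      rw [e1]
      exact 𝒪.mul_mem (hq m) hωU.2.2
  · exfalso
    refine hk1 fun m => ?_
    have e1 : q m / y z₀ ^ (k + 1) = (q m / g) * (g / y z₀ ^ (k + 1)) := by field_simp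
    rw [e1]
    exact 𝒪.mul_mem (hq m) (pow_div_mem hy (k + 1) g hg)

/-- The last step. -/
theorem step3 {q : κ → F} {y : ζ → F} {f : F} {z₀ : ζ} {h e : ℕ} (hh : 1 ≤ h) (he : e = 2 * h + 1)
    (hz0 : y z₀ ≠ 0) (hy : ∀ z, y z / y z₀ ∈ 𝒪) (hq : ∀ m, q m / y z₀ ^ h ∈ 𝒪)
    (hy0 : y z₀ ∈ 𝒪) (h1 : Pr 𝒪 (CS (Set.range q) (Set.range y) f h)) :
    ∃ k₁, zst q y f h e z₀ k₁ ≠ 0 ∧ ∀ k, zst q y f h e z₀ k / zst q y f h e z₀ k₁ ∈ 𝒪 := by
  obtain ⟨g, hg, hg0, hgen⟩ := h1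
  have hT : y z₀ ^ e ≠ 0 := pow_ne_zero _ hz0
  have hτh : y z₀ ^ h ≠ 0 := pow_ne_zero _ hz0
  -- all `T zst k` are in `CS`
  have hmem : ∀ k, y z₀ ^ e * zst q y f h e z₀ k ∈ CS (Set.range q) (Set.range y) f h := by
    intro k
    rcases k with _ | _ | m
    · refine Or.inl (Or.inr ?_)
      have e1 : y z₀ ^ e * zst q y f h e z₀ none = y z₀ ^ (2 * h + 2) := by
        rw [he]
        exact (pow_succ _ _).symm
      rw [e1]
      exact pow_mem_pow z₀ _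
    · refine Or.inr ?_
      have e1 : y z₀ ^ e * zst q y f h e z₀ (some none) = f := by
        show y z₀ ^ e * (f / y z₀ ^ e) = f
        field_simp
      rw [e1]
      rfl
    · refine Or.inl (Or.inl (Or.inr ?_))
      have e1 : y z₀ ^ e * zst q y f h e z₀ (some (some m)) = q m * y z₀ ^ (h + 1) := by
        show y z₀ ^ e * (q m / y z₀ ^ h) = _
        rw [he]
        have e2 : y z₀ ^ (2 * h + 1) = y z₀ ^ h * y z₀ ^ (h + 1) := by
          rw [← pow_add]; congr 1; ring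
        rw [e2]
        field_simp
      rw [e1]
      exact Set.mul_mem_mul ⟨m, rfl⟩ (pow_mem_pow z₀ _)
  -- all elements of `CS` are multiples
  have hform : ∀ v ∈ CS (Set.range q) (Set.range y) f h, ∃ w ∈ 𝒪, ∃ k,
      v = y z₀ ^ e * w * zst q y f h e z₀ k := by
    intro v hv
    rcases hv with (((hv | hv) | hv) | hv) | hv
    · have e3 : Set.range q ^ 3 = Set.range q * Set.range q * Set.range q := by
        rw [pow_succ, pow_succ, pow_one]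
      rw [e3] at hv
      obtain ⟨v', ⟨_, ⟨m₁, rfl⟩, _, ⟨m₂, rfl⟩, rfl⟩, _, ⟨m₃, rfl⟩, rfl⟩ := hv
      refine ⟨y z₀ ^ (h - 1) * (q m₂ / y z₀ ^ h) * (q m₃ / y z₀ ^ h),
        𝒪.mul_mem (𝒪.mul_mem (𝒪.pow_mem hy0 _) (hq _)) (hq _), some (some m₁), ?_⟩
      show q m₁ * q m₂ * q m₃ = y z₀ ^ e * (y z₀ ^ (h - 1) * (q m₂ / y z₀ ^ h) *
        (q m₃ / y z₀ ^ h)) * (q m₁ / y z₀ ^ h)
      obtain ⟨h', rfl⟩ : ∃ h', h = h' + 1 := ⟨h - 1, by omega⟩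
      rw [he, Nat.add_sub_cancel]
      field_simp
      ring
    · rw [sq] at hv
      obtain ⟨v', ⟨_, ⟨m₁, rfl⟩, _, ⟨m₂, rfl⟩, rfl⟩, _, ⟨z, rfl⟩, rfl⟩ := hv
      refine ⟨(q m₂ / y z₀ ^ h) * (y z / y z₀), 𝒪.mul_mem (hq _) (hy _), some (some m₁), ?_⟩
      show q m₁ * q m₂ * y z = y z₀ ^ e * ((q m₂ / y z₀ ^ h) * (y z / y z₀)) * (q m₁ / y z₀ ^ h)
      rw [he]
      field_simp
      ring
    · obtain ⟨_, ⟨m₁, rfl⟩, v', hv', rfl⟩ := hv
      refine ⟨v' / y z₀ ^ (h + 1), pow_div_mem hy _ _ hv', some (some m₁), ?_⟩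
      show q m₁ * v' = y z₀ ^ e * (v' / y z₀ ^ (h + 1)) * (q m₁ / y z₀ ^ h)
      rw [he]
      field_simp
      ring
    · refine ⟨v / y z₀ ^ (2 * h + 2), pow_div_mem hy _ _ hv, none, ?_⟩
      show v = y z₀ ^ e * (v / y z₀ ^ (2 * h + 2)) * y z₀
      rw [he]
      field_simp
      ring
    · refine ⟨1, 𝒪.one_mem, some none, ?_⟩
      rw [Set.mem_singleton_iff] at hv
      show v = y z₀ ^ e * 1 * (f / y z₀ ^ e)
      rw [hv]
      field_simp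
  obtain ⟨w, hw, k₁, hgk⟩ := hform g hg
  have hw0 : w ≠ 0 := by
    rintro rfl
    exact hg0 (by rw [hgk]; ring)
  have hk0 : zst q y f h e z₀ k₁ ≠ 0 := by
    intro h0
    exact hg0 (by rw [hgk, h0]; ring)
  refine ⟨k₁, hk0, fun k => ?_⟩
  have e1 : zst q y f h e z₀ k / zst q y f h e z₀ k₁ =
      (y z₀ ^ e * zst q y f h e z₀ k / g) * w := by
    rw [hgk]
    field_simp
  rw [e1]
  exact 𝒪.mul_mem (hgen _ (hmem k)) hw

end QSaux

open QSaux in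
theorem QS_ok : S_QS := by
  intro F κ ζ _ 𝒪 hloc q y f h e hh hq hy hf hN hC
  classical
  rcases step1 (hN 1 le_rfl hh) with h1 | ⟨z₀, hz0, hyz, hqz⟩
  · exact Or.inl h1
  · -- the maximal `k`
    let P : ℕ → Prop := fun k => ∀ m, q m / y z₀ ^ k ∈ 𝒪
    have hP1 : P 1 := by
      intro m
      rw [pow_one]
      exact hqz m
    by_cases hPh : P h
    · have hC3 : C3 𝒪 q y h z₀ := ⟨hz0, hyz, hPh⟩
      rcases hC with he | ⟨he, hCS⟩
      · exact Or.inr (Or.inr (Or.inr (Or.inl ⟨z₀, he, hC3⟩)))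
      · by_cases hu : ∃ m, U 𝒪 (q m / y z₀ ^ h)
        · exact Or.inr (Or.inr (Or.inl ⟨h, z₀, hh, le_rfl, Or.inr he, hC3, hu⟩))
        · push Not at hu
          by_cases hfu : U 𝒪 (f / y z₀ ^ e)
          · exact Or.inr (Or.inr (Or.inr (Or.inr (Or.inl ⟨z₀, he, hC3, hu, hfu⟩))))
          · obtain ⟨k₁, h5, h6⟩ := step3 hh he hz0 hyz hPh (hy z₀).1 hCS
            exact Or.inr (Or.inr (Or.inr (Or.inr (Or.inr ⟨z₀, k₁, he, hC3, hu, hfu, h5, h6⟩))))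
    · have hex : ∃ k, 1 ≤ k ∧ ¬ P (k + 1) := by
        obtain ⟨h', rfl⟩ : ∃ h', h = h' + 1 := ⟨h - 1, by omega⟩
        refine ⟨h', ?_, hPh⟩
        rcases Nat.eq_zero_or_pos h' with h0 | h0
        · subst h0
          exact absurd hP1 hPh
        · exact h0
      obtain ⟨hk1, hk2⟩ := Nat.find_spec hex
      set k := Nat.find hex with hkdef
      have hkh : k < h := by
        by_contra hcon
        push Not at hcon
        obtain ⟨h', rfl⟩ : ∃ h', h = h' + 1 := ⟨h - 1, by omega⟩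
        refine Nat.find_min hex (m := h') (by omega) ⟨?_, hPh⟩
        rcases Nat.eq_zero_or_pos h' with h0 | h0
        · subst h0
          exact absurd hP1 hPh
        · exact h0
      have hPk : P k := by
        rcases Nat.lt_or_ge k 2 with h2 | h2
        · have : k = 1 := by omega
          rw [this]
          exact hP1
        · by_contra hcon
          obtain ⟨k', hk'⟩ : ∃ k', k = k' + 1 := ⟨k - 1, by omega⟩
          refine Nat.find_min hex (m := k') (by omega) ⟨by omega, ?_⟩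
          rw [← hk']
          exact hcon
      rcases step2 hz0 hyz hPk hk2 (hN (k + 1) (by omega) (by omega)) with ⟨l, hl⟩ | hu
      · exact Or.inr (Or.inl ⟨k, z₀, l, hk1, hkh, hl⟩)
      · exact Or.inr (Or.inr (Or.inl ⟨k, z₀, hk1, hkh.le, Or.inl hkh, ⟨hz0, hyz, hPk⟩, hu⟩))

end Pool.Agent.H945R2.S
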