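import Pool.Agent.H945R2.S.Props

/-! SIM: similar factors (helper778 for helper945). -/

set_option autoImplicit false

open scoped Pointwise

namespace Pool.Agent.H945R2.S

open Pool.Agent.H918R2.Quad Pool.Agent.H945R2.D MvPolynomial

theorem SIMaux.unit_ne {R F : Type} [CommRing R] [Field F] [Algebra R F] (ν : Rˣ) :
    algebraMap R F ν ≠ 0 := (ν.isUnit.map (algebraMap R F)).ne_zero

theorem SIMaux.inv_eq {R F : Type} [CommRing R] [Field F] [Algebra R F] (ν : Rˣ) :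
    (algebraMap R F ν)⁻¹ = algebraMap R F (ν⁻¹ : Rˣ) := by
  rw [inv_eq_one_div, div_eq_iff (SIMaux.unit_ne ν), ← map_mul, Units.inv_mul, map_one]

theorem SIM_ok : S_SIM := by
  intro R F _ _ _ 𝒪 hR Φ Φ' hS
  obtain ⟨μ, hμ, h1, h2⟩ := hS
  constructor
  · rintro ⟨g, hg, hg0, hgΦ⟩
    obtain ⟨g', hg', νg, hgeq⟩ := h1 g hg
    have hg'0 : g' ≠ 0 := by
      rintro rfl
      exact hg0 (by rw [hgeq, mul_zero])
    refine ⟨g', hg', hg'0, fun h' hh' => ?_⟩
    obtain ⟨h, hh, ν, heq⟩ := h2 h' hh'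
    have hν := SIMaux.unit_ne (F := F) ν
    have hνg := SIMaux.unit_ne (F := F) νg
    have : h' / g' = (h / g) * algebraMap R F νg * algebraMap R F (ν⁻¹ : Rˣ) := by
      rw [← SIMaux.inv_eq, heq, hgeq]
      field_simp
    rw [this]
    exact 𝒪.mul_mem (𝒪.mul_mem (hgΦ h hh) (hR _)) (hR _)
  · rintro 𝒲 ⟨m, hm, hm1, h', hh', hU⟩
    refine ⟨μ * m, mul_ne_zero hμ hm, fun h hh => ?_, ?_⟩
    · obtain ⟨k', hk', ν, heq⟩ := h1 h hh
      have : h / (μ * m) = algebraMap R F ν * (k' / m) := by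
        rw [heq]; field_simp
      rw [this]
      exact 𝒲.mul_mem (𝒲.algebraMap_mem _) (hm1 k' hk')
    · obtain ⟨h, hh, ν, heq⟩ := h2 h' hh'
      refine ⟨h, hh, ?_⟩
      have : h / (μ * m) = algebraMap R F ν * (h' / m) := by
        rw [heq]; field_simp
      rw [this]
      refine U.mul ⟨SIMaux.unit_ne ν, hR _, ?_⟩ hU
      rw [SIMaux.inv_eq]
      exact hR _

end Pool.Agent.H945R2.S
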