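import Pool.Agent.H945R2.S.Props

set_option autoImplicit false

namespace Pool.Agent.H945R2.S

open Pool.Agent.H918R2.Quad Pool.Agent.H945R2.D MvPolynomial

theorem SUMZ_ok : S_SUMZ := by
  intro ι B _ _ _ Z s d hsd hs hd c v w l
  have key : ∀ f : ι → B, ∑ i, f i = f s + f d + ∑ k : TT Z s d, f k + ∑ z : ZT Z, f z := by
    intro f
    have h1 : ∑ k : TT Z s d, f k = ∑ k ∈ (Zᶜ.erase s).erase d, f k := by
      rw [← Finset.sum_subtype ((Zᶜ.erase s).erase d) (p := fun i => i ∉ Z ∧ i ≠ s ∧ i ≠ d)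
        (by intro x; simp only [Finset.mem_erase, Finset.mem_compl]; tauto) f]
    have h2 : ∑ z : ZT Z, f z = ∑ z ∈ Z, f z := by
      rw [← Finset.sum_subtype Z (p := fun i => i ∈ Z) (by intro x; rfl) f]
    rw [h1, h2, add_assoc (f s), Finset.add_sum_erase _ _ (by simp [hsd.symm, hd]),
      Finset.add_sum_erase _ _ (by simp [hs]), add_comm, Finset.sum_add_sum_compl]
  refine ⟨?_, key⟩
  rw [key]
  have h1 : TcZ Z s d c v w l s = 1 := by
    unfold TcZ; rw [dif_neg hs, dif_pos rfl]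
  have h2 : TcZ Z s d c v w l d = l - 1 - ∑ k : TT Z s d, (c k + v k) - ∑ z, w z := by
    unfold TcZ; rw [dif_neg hd, dif_neg (fun h => hsd h.symm), dif_pos rfl]
  have h3 : ∀ k : TT Z s d, TcZ Z s d c v w l k = c k + v k := by
    intro k
    unfold TcZ
    rw [dif_neg k.2.1, dif_neg k.2.2.1, dif_neg k.2.2.2]
  have h4 : ∀ z : ZT Z, TcZ Z s d c v w l z = w z := by
    intro z
    unfold TcZ
    rw [dif_pos z.2]
  rw [h1, h2, Finset.sum_congr rfl (fun k _ => h3 k), Finset.sum_congr rfl (fun z _ => h4 z)]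
  ring

end Pool.Agent.H945R2.S
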