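import Pool.Agent.H945R2.S.Props
import Pool.Agent.H945R2.D.TAY1
import Pool.Agent.H945R2.D.HOM

set_option autoImplicit false

open scoped Pointwise

namespace Pool.Agent.H945R2.S

open Pool.Agent.H918R2.Quad Pool.Agent.H945R2.D MvPolynomial

namespace TAYZ1aux

theorem exists_kappas {R ι : Type} [CommRing R] [Fintype ι] {p : ℕ} {co : ι → R}
    {g : MvPolynomial ι R} (hco : Coef p co g) {s : ι} {c : ι → ℕ} {β : R}
    (hsp : SpZ p g s c β) : ∃ κ : ι → R, ∀ i,
      co i * (c i : R) ^ (p - 1) = (if c i = 0 then 0 else 1) + p * κ i := by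
  have hp2 := hco.prime.two_le
  have h : ∀ i, ∃ κ : R, co i * (c i : R) ^ (p - 1) = (if c i = 0 then 0 else 1) + p * κ := by
    intro i
    by_cases hc : c i = 0
    · refine ⟨0, ?_⟩
      rw [if_pos hc, hc, Nat.cast_zero, zero_pow (by omega)]
      ring
    · obtain ⟨κ, hκ⟩ := TAY1aux.exists_kappa p hco.prime (co i) (hco.one i) (c i)
        (Nat.one_le_iff_ne_zero.2 hc) (hsp.lt i)
      refine ⟨κ, ?_⟩
      rw [if_neg hc]
      exact hκ
  choose κ hκ using h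
  exact ⟨κ, hκ⟩

end TAYZ1aux

open TAYZ1aux in
theorem TAYZ1_ok (h : S_EXACTZ) : S_TAYZ1 := by
  intro R ι _ _ _ p co g hco s c β hsp B _ _ J η hη
  obtain ⟨κ, hκ⟩ := exists_kappas hco hsp
  obtain ⟨σ, hσ⟩ := hsp.sum
  obtain ⟨ψ, ψ₀, h⟩ := h p hco.prime hco.odd hco.ne co g hco.rel c β hsp.val σ hσ κ
    (fun i => if c i = 0 then 0 else 1) hκ η (B := B)
  have hp3 : 3 ≤ p := by
    have := hco.prime.two_le
    have := hco.odd
    omega
  set K : Ideal B := Ideal.span {(p : B)} * J ⊔ J ^ 2 with hK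
  have hJ2 : J ^ 2 ≤ K := le_sup_right
  have hpJ : ∀ x ∈ J, (p : B) * x ∈ K := fun x hx =>
    Ideal.mem_sup_left (Ideal.mul_mem_mul (Ideal.mem_span_singleton_self _) hx)
  have hsumη : ∑ i, η i ∈ J := J.sum_mem (fun i _ => hη i)
  have hsq : ∀ x ∈ J, x ^ 2 ∈ K := fun x hx => hJ2 (Ideal.pow_mem_pow hx 2)
  have t1 : (((p - 1) / 2 : ℕ) : B) * ∑ i, algebraMap R B (co i) * (c i : B) ^ (p - 2) * η i ^ 2
      ∈ K :=
    K.mul_mem_left _ (K.sum_mem (fun i _ => K.mul_mem_left _ (hsq _ (hη i))))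
  have t2 : (p : B) * ∑ i, algebraMap R B (κ i) * η i ∈ K :=
    hpJ _ (J.sum_mem (fun i _ => J.mul_mem_left _ (hη i)))
  have t3 : (p : B) ^ (p - 1) * (σ : B) ^ (p - 1) * ∑ i, η i ∈ K := by
    have h1 : (p : B) ^ (p - 1) = p * (p : B) ^ (p - 2) := by
      rw [← pow_succ']
      congr 1
      omega
    rw [h1]
    have h2 := hpJ _ (J.mul_mem_left ((p : B) ^ (p - 2) * (σ : B) ^ (p - 1)) hsumη)
    convert h2 using 1
    ring
  have t4 : (((p - 1) / 2 : ℕ) : B) * (p : B) ^ (p - 2) * (σ : B) ^ (p - 2) * (∑ i, η i) ^ 2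
      ∈ K := K.mul_mem_left _ (hsq _ hsumη)
  have t5 : ∑ i, algebraMap R B (co i) * η i ^ 3 * ψ i ∈ K := by
    refine K.sum_mem (fun i _ => ?_)
    have h1 := K.mul_mem_left (algebraMap R B (co i) * η i * ψ i) (hsq _ (hη i))
    convert h1 using 1
    ring
  have t6 : (∑ i, η i) ^ 3 * ψ₀ ∈ K := by
    have h1 := K.mul_mem_left ((∑ i, η i) * ψ₀) (hsq _ hsumη)
    convert h1 using 1
    ring
  have t7 : aeval η g ∈ K := by
    apply hJ2
    exact Ideal.pow_le_pow_right (by omega : 2 ≤ p) (HOM_ok p hco.ne co g hco.rel J η hη)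
  have hfin := K.add_mem (K.sub_mem (K.add_mem (K.sub_mem (K.sub_mem (K.add_mem t1 t2) t3) t4)
    t5) t6) t7
  have e1 : ∑ i, ((c i : B) + η i) = ∑ i, (c i : B) + ∑ i, η i := Finset.sum_add_distrib
  have e2 : ∑ i, algebraMap R B (if c i = 0 then 0 else 1) * η i +
      ∑ i, (if c i = 0 then η i else 0) = ∑ i, η i := by
    rw [← Finset.sum_add_distrib]
    refine Finset.sum_congr rfl fun i _ => ?_
    by_cases hc : c i = 0
    · simp [hc]
    · simp [hc]
  convert hfin using 1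
  rw [h, e1]
  linear_combination e2

end Pool.Agent.H945R2.S
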