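import Pool.Agent.H945R2.S.Props
import Pool.Agent.H945R2.D.HOM

/-! TAYZ2: second order Taylor formula, ideal form (helper228). -/

set_option autoImplicit false

open scoped Pointwise

namespace Pool.Agent.H945R2.S

open Pool.Agent.H918R2.Quad Pool.Agent.H945R2.D MvPolynomial

namespace TAYZ2aux

theorem le_l {B : Type} [CommRing B] (I J : Ideal B) : I * J ≤ J :=
  Ideal.mul_le.2 fun r _ _ hs => J.mul_mem_left r hs

theorem le_r {B : Type} [CommRing B] (I J : Ideal B) : I * J ≤ I :=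
  Ideal.mul_le.2 fun _ hr s _ => I.mul_mem_right s hr

theorem sq_le {B : Type} [CommRing B] (u t : Ideal B) :
    (u ⊔ t) ^ 2 ≤ u ^ 2 ⊔ u * t ⊔ t ^ 2 := by
  rw [pow_two, Ideal.sup_mul, Ideal.mul_sup, Ideal.mul_sup, ← pow_two, ← pow_two]
  refine sup_le (sup_le ?_ ?_) (sup_le ?_ ?_)
  · exact le_sup_of_le_left le_sup_left
  · exact le_sup_of_le_left le_sup_right
  · rw [mul_comm]; exact le_sup_of_le_left le_sup_right
  · exact le_sup_right

theorem u2_le {B : Type} [CommRing B] (u t : Ideal B) :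
    u ^ 2 * (u ⊔ t) ≤ u ^ 3 ⊔ u * t ⊔ t ^ 2 := by
  rw [Ideal.mul_sup]
  refine sup_le ?_ ?_
  · rw [← pow_succ]; exact le_sup_of_le_left le_sup_left
  · refine le_sup_of_le_left (le_sup_of_le_right ?_)
    rw [pow_two, mul_assoc]
    exact le_l _ _

theorem u1_le {B : Type} [CommRing B] (u t : Ideal B) :
    u * (u ⊔ t) ^ 2 ≤ u ^ 3 ⊔ u * t ⊔ t ^ 2 := by
  refine (Ideal.mul_mono_right (sq_le u t)).trans ?_
  rw [Ideal.mul_sup, Ideal.mul_sup]
  refine sup_le (sup_le ?_ ?_) ?_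
  · rw [← pow_succ']; exact le_sup_of_le_left le_sup_left
  · refine le_sup_of_le_left (le_sup_of_le_right ?_)
    exact le_l _ _
  · refine le_sup_of_le_right ?_
    exact le_l _ _

theorem cube_le {B : Type} [CommRing B] (u t : Ideal B) :
    (u ⊔ t) ^ 3 ≤ u ^ 3 ⊔ u * t ⊔ t ^ 2 := by
  rw [pow_succ', Ideal.sup_mul]
  refine sup_le (u1_le u t) ?_
  refine (Ideal.mul_mono_right (sq_le u t)).trans ?_
  rw [Ideal.mul_sup, Ideal.mul_sup]
  refine sup_le (sup_le ?_ ?_) ?_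
  · refine le_sup_of_le_left (le_sup_of_le_right ?_)
    rw [pow_two, ← mul_assoc, mul_comm t u]
    exact le_r _ _
  · refine le_sup_of_le_left (le_sup_of_le_right ?_)
    exact le_l _ _
  · refine le_sup_of_le_right ?_
    exact le_l _ _

end TAYZ2aux

open TAYZ2aux in
theorem TAYZ2_ok (h : S_EXACTZ) : S_TAYZ2 := by
  intro R ι _ _ _ p co g hco s c β hsp κ hκ hκ0 B _ _ u t η hpu hη
  classical
  have hp3 : 3 ≤ p := by
    have := hco.prime.two_le
    have := hco.odd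
    omega
  obtain ⟨σ, hσ⟩ := hsp.sum
  obtain ⟨ψ, ψ₀, hE⟩ := h p hco.prime hco.odd hco.ne co g hco.rel c β hsp.val σ hσ κ
    (fun i => if c i = 0 then 0 else 1) (fun i => by
      by_cases hc : c i = 0
      · simp only [hc, if_true, hκ0 i hc]
        have : p - 1 ≠ 0 := by omega
        simp [this]
      · simp only [hc, if_false]
        exact hκ i hc) η (B := B)
  set A : Ideal B := u ^ 3 ⊔ u * t ⊔ t ^ 2 with hA
  have hsumη : ∑ i, η i ∈ u ⊔ t := Ideal.sum_mem _ (fun i _ => hη i)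
  have hcub : ∀ x ∈ u ⊔ t, x ^ 3 ∈ A := fun x hx => cube_le u t (Ideal.pow_mem_pow hx 3)
  have t3 : (p : B) ^ (p - 1) * (σ : B) ^ (p - 1) * ∑ i, η i ∈ A := by
    have h1 : (p : B) ^ (p - 1) = (p : B) ^ 2 * (p : B) ^ (p - 3) := by
      rw [← pow_add]
      congr 1
      omega
    have h2 : (p : B) ^ 2 * ∑ i, η i ∈ A :=
      u2_le u t (Ideal.mul_mem_mul (Ideal.pow_mem_pow hpu 2) hsumη)
    have h3 := A.mul_mem_left ((p : B) ^ (p - 3) * (σ : B) ^ (p - 1)) h2
    rw [h1]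
    convert h3 using 1
    ring
  have t4 : (((p - 1) / 2 : ℕ) : B) * (p : B) ^ (p - 2) * (σ : B) ^ (p - 2) * (∑ i, η i) ^ 2
      ∈ A := by
    have h1 : (p : B) ^ (p - 2) = (p : B) * (p : B) ^ (p - 3) := by
      rw [← pow_succ']
      congr 1
      omega
    have h2 : (p : B) * (∑ i, η i) ^ 2 ∈ A :=
      u1_le u t (Ideal.mul_mem_mul hpu (Ideal.pow_mem_pow hsumη 2))
    have h3 := A.mul_mem_left ((((p - 1) / 2 : ℕ) : B) * (p : B) ^ (p - 3) * (σ : B) ^ (p - 2)) h2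
    rw [h1]
    convert h3 using 1
    ring
  have t5 : ∑ i, algebraMap R B (co i) * η i ^ 3 * ψ i ∈ A := by
    refine A.sum_mem (fun i _ => ?_)
    have h1 := A.mul_mem_left (algebraMap R B (co i) * ψ i) (hcub _ (hη i))
    convert h1 using 1
    ring
  have t6 : (∑ i, η i) ^ 3 * ψ₀ ∈ A := A.mul_mem_right _ (hcub _ hsumη)
  have t7 : aeval η g ∈ A :=
    cube_le u t (Ideal.pow_le_pow_right hp3 (HOM_ok p hco.ne co g hco.rel (u ⊔ t) η hη))
  have hδ : ∑ i, (c i : B) + ∑ i, algebraMap R B (if c i = 0 then 0 else 1) * η i =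
      ∑ i, ((c i : B) + η i) - ∑ i, (if c i = 0 then η i else 0) := by
    rw [← Finset.sum_add_distrib, ← Finset.sum_sub_distrib]
    refine Finset.sum_congr rfl fun i _ => ?_
    by_cases hc : c i = 0
    · simp [hc]
    · simp [hc]
  rw [hE]
  have key := A.add_mem (A.sub_mem (A.add_mem (A.neg_mem (A.add_mem t3 t4)) t5) t6) t7
  convert key using 1
  linear_combination hδ

end Pool.Agent.H945R2.S
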