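import Pool.Agent.H945R2.S.Props

/-! TB0: the table for `B_0` (adapted from D/T0.lean of helper459). -/

set_option autoImplicit false

open scoped Pointwise

namespace Pool.Agent.H945R2.S

open Pool.Agent.H918R2.Quad Pool.Agent.H945R2.D MvPolynomial

namespace TB0aux

theorem mem_pow {R F ι : Type} [CommRing R] [Field F] [Algebra R F] {𝒲 : Subalgebra R F}
    {t : ι → F} (ht : ∀ i, t i ∈ 𝒲) (k : ℕ) : ∀ y ∈ Set.range t ^ k, y ∈ 𝒲 := by
  induction k with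
  | zero =>
    intro y hy
    rw [pow_zero, Set.mem_one] at hy
    rw [hy]
    exact 𝒲.one_mem
  | succ k ih =>
    intro y hy
    rw [pow_succ, Set.mem_mul] at hy
    obtain ⟨u, hu, v, ⟨i, rfl⟩, rfl⟩ := hy
    exact 𝒲.mul_mem (ih u hu) (ht i)

end TB0aux

theorem TB0_ok : S_TB0 := by
  intro R F ι _ _ _ _ 𝒲 𝒪 p e j x t s a b hc i₀ c β hβ hu
  have ht : ∀ i, t i ∈ 𝒲 := by
    intro i
    obtain ⟨ρ, hρ, h⟩ := hc.ht i
    rw [h]
    exact 𝒲.mul_mem hρ (𝒲.pow_mem (hc.hx i) _)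
  have hy : ∀ y ∈ Set.range x ^ e, y ∈ 𝒲 := TB0aux.mem_pow hc.hx e
  have hpa : (p : F) = a ^ (j + 1) * b ^ j := hc.hp
  have ha0 : a ≠ 0 := hc.ha0
  have hb0 : b ≠ 0 := hc.hb0
  have hcn : ∀ n : ℕ, (n : F) ∈ 𝒲 := fun n => natCast_mem 𝒲 n
  rcases Nat.eq_zero_or_pos j with hj0 | hj1
  · -- the case `j = 0`
    subst hj0
    have hpa' : (p : F) = a := by rw [hpa]; simp
    have e1 : ∀ y : F, (p : F) ^ 2 * y / a = a * y := by
      intro y; rw [hpa']; field_simp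
    have e2 : ((∑ i, t i) + (p : F) * β * t i₀) / a = b + β * t i₀ := by
      rw [hpa', hc.hL]; field_simp
    have e3 : ∀ i, (p : F) * (t i - (c i : F) * t i₀) / a = t i - (c i : F) * t i₀ := by
      intro i; rw [hpa']; field_simp
    refine ⟨a, ha0, ?_, ?_, ?_⟩
    · rintro h (⟨y, hy', rfl⟩ | rfl | ⟨i, rfl⟩)
      · rw [e1]; exact 𝒲.mul_mem hc.ha (hy y hy')
      · rw [e2]; exact 𝒲.add_mem hc.hb (𝒲.mul_mem hβ (ht _))
      · rw [e3]; exact 𝒲.sub_mem (ht i) (𝒲.mul_mem (hcn _) (ht _))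
    · rcases hu with h | h | ⟨i, h⟩
      · omega
      · exact ⟨_, Or.inr (Or.inl rfl), by rw [e2]; exact h⟩
      · exact ⟨_, Or.inr (Or.inr ⟨i, rfl⟩), by rw [e3]; exact h⟩
    · rw [hpa', div_self ha0]
      exact 𝒲.one_mem
  · -- the case `1 ≤ j`
    obtain ⟨k, rfl⟩ : ∃ k, j = k + 1 := ⟨j - 1, by omega⟩
    have hab : a * b ≠ 0 := mul_ne_zero ha0 hb0
    have e1 : ∀ y : F, (p : F) ^ 2 * y / (a * b) = a ^ (2 * k + 3) * b ^ (2 * k + 1) * y := by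
      intro y; rw [hpa, div_eq_iff hab]; ring
    have e2 : ((∑ i, t i) + (p : F) * β * t i₀) / (a * b) =
        1 + a * (a ^ k * b ^ k * (β * t i₀)) := by
      rw [hpa, hc.hL, div_eq_iff hab]; ring
    have e3 : ∀ i, (p : F) * (t i - (c i : F) * t i₀) / (a * b) =
        a ^ (k + 1) * b ^ k * (t i - (c i : F) * t i₀) := by
      intro i; rw [hpa, div_eq_iff hab]; ring
    have hpw : ∀ m n : ℕ, a ^ m * b ^ n ∈ 𝒲 := fun m n =>
      𝒲.mul_mem (𝒲.pow_mem hc.ha m) (𝒲.pow_mem hc.hb n)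
    have hw : a ^ k * b ^ k * (β * t i₀) ∈ 𝒲 := 𝒲.mul_mem (hpw _ _) (𝒲.mul_mem hβ (ht _))
    refine ⟨a * b, hab, ?_, ?_, ?_⟩
    · rintro h (⟨y, hy', rfl⟩ | rfl | ⟨i, rfl⟩)
      · rw [e1]; exact 𝒲.mul_mem (hpw _ _) (hy y hy')
      · rw [e2]; exact 𝒲.add_mem 𝒲.one_mem (𝒲.mul_mem hc.ha hw)
      · rw [e3]; exact 𝒲.mul_mem (hpw _ _) (𝒲.sub_mem (ht i) (𝒲.mul_mem (hcn _) (ht _)))
    · refine ⟨_, Or.inr (Or.inl rfl), ?_⟩
      rw [e2]
      have haO : a ∈ 𝒪 := hc.hW _ hc.ha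
      have hwO : a ^ k * b ^ k * (β * t i₀) ∈ 𝒪 := hc.hW _ hw
      have h1 : U 𝒪 ((1 + a * (a ^ k * b ^ k * (β * t i₀))) +
          -(a * (a ^ k * b ^ k * (β * t i₀)))) := by
        have : (1 + a * (a ^ k * b ^ k * (β * t i₀))) + -(a * (a ^ k * b ^ k * (β * t i₀))) =
            (1 : F) := by ring
        rw [this]
        exact U_one
      rcases hc.loc _ _ (𝒪.add_mem 𝒪.one_mem (𝒪.mul_mem haO hwO))
        (𝒪.neg_mem (𝒪.mul_mem haO hwO)) h1 with h2 | h2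
      · exact h2
      · exfalso
        apply hc.haU
        have h3 : -(a * (a ^ k * b ^ k * (β * t i₀))) = a * (-(a ^ k * b ^ k * (β * t i₀))) := by
          ring
        rw [h3] at h2
        exact h2.of_mul_left haO (𝒪.neg_mem hwO)
    · have : (p : F) / (a * b) = a ^ (k + 1) * b ^ k := by
        rw [hpa, div_eq_iff hab]
        ring
      rw [this]
      exact hpw _ _

end Pool.Agent.H945R2.S
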