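import Pool.Agent.H945R2.S.Props

/-! Task XB0: the exceptional table, base factor of kind `0` (MP_4d1008_ag). -/

set_option autoImplicit false

open scoped Pointwise

namespace Pool.Agent.H945R2.S

open Pool.Agent.H918R2.Quad Pool.Agent.H945R2.D MvPolynomial

namespace XB0aux

variable {R F ι : Type} [CommRing R] [Field F] [Algebra R F] [Fintype ι] [DecidableEq ι]
  {𝒲 : Subalgebra R F} {𝒪 : Subring F} {p e j : ℕ} {x t : ι → F} {s d : ι} {a b : F}

omit [DecidableEq ι] in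
theorem range_pow_mem (hC : CtxZ 𝒲 𝒪 p e j x t s a b) (n : ℕ) :
    ∀ y ∈ Set.range x ^ n, y ∈ 𝒲 := by
  induction n with
  | zero =>
    intro y hy
    rw [pow_zero, Set.mem_one] at hy
    rw [hy]; exact 𝒲.one_mem
  | succ n ih =>
    intro y hy
    rw [pow_succ, Set.mem_mul] at hy
    obtain ⟨u, hu, v, ⟨i, rfl⟩, rfl⟩ := hy
    exact 𝒲.mul_mem (ih u hu) (hC.hx i)

omit [DecidableEq ι] in
theorem one_mem_pow (hC : CtxZ 𝒲 𝒪 p e j x t s a b) (n : ℕ) : (1 : F) ∈ Set.range x ^ n := by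
  induction n with
  | zero => rw [pow_zero]; exact Set.mem_one.2 rfl
  | succ n ih =>
    rw [pow_succ, Set.mem_mul]
    exact ⟨1, ih, 1, ⟨s, hC.hxs⟩, one_mul 1⟩

omit [Fintype ι] [DecidableEq ι] in
theorem smul_span {S : Set F} {w z : F} (hw : w ∈ 𝒲) (hz : z ∈ Submodule.span 𝒲 S) :
    w * z ∈ Submodule.span 𝒲 S :=
  Submodule.smul_mem (Submodule.span 𝒲 S) (⟨w, hw⟩ : 𝒲) hz

/-- the differences `t_i - c_i t_s` -/
theorem lin (hS : S_SUMZ) (hC : CtxZ 𝒲 𝒪 p e j x t s a b) (hd : s ≠ d) (c : ι → ℕ)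
    (hc : p ∣ ∑ i, c i) (hc0 : c s = 1) (Z : Finset ι) (hZ : ∀ i, i ∈ Z ↔ c i = 0) (hdZ : d ∉ Z)
    (B : F) (i : ι) :
    t i - (c i : F) * t s ∈
      Submodule.span 𝒲 (Set.range (zq a B t c : KT Z s d → F) ∪ (Yc x c) ^ e) := by
  have hsZ : s ∉ Z := by rw [hZ, hc0]; exact one_ne_zero
  have hrest : ∀ k : TT Z s d, t k - (c k : F) ∈
      Submodule.span 𝒲 (Set.range (zq a B t c : KT Z s d → F) ∪ (Yc x c) ^ e) := fun k =>
    Submodule.subset_span (Or.inl ⟨some (some k), rfl⟩)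
  have hz : ∀ i : ι, c i = 0 → t i ∈
      Submodule.span 𝒲 (Set.range (zq a B t c : KT Z s d → F) ∪ (Yc x c) ^ e) := fun i hi => by
    obtain ⟨ρ, hρ, he⟩ := hC.ht i
    rw [he]
    exact smul_span hρ (Submodule.subset_span (Or.inr (Set.pow_mem_pow ⟨i, hi, rfl⟩)))
  rw [hC.hs, mul_one]
  by_cases h0 : i ∈ Z
  · have h1 : c i = 0 := (hZ i).1 h0
    rw [h1, Nat.cast_zero, sub_zero]
    exact hz i h1
  · by_cases h1 : i = s
    · subst h1
      rw [hc0, hC.hs, Nat.cast_one, sub_self]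
      exact Submodule.zero_mem _
    · by_cases h2 : i = d
      · subst h2
        obtain ⟨σ, hσ⟩ := hc
        have e1 := (hS (B := F) Z s i hd hsZ hdZ (fun _ => 0) (fun _ => 0) (fun _ => 0) 0).2 t
        have e2 := (hS (B := F) Z s i hd hsZ hdZ (fun _ => 0) (fun _ => 0) (fun _ => 0) 0).2
          (fun i => (c i : F))
        have e3 : (∑ i, (c i : F)) = a ^ (j + 1) * b ^ j * (σ : F) := by
          rw [← hC.hp]
          have := congrArg (fun n : ℕ => (n : F)) hσ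
          push_cast at this
          exact this
        have e5 : ∑ z : ZT Z, (c z : F) = 0 := by
          apply Finset.sum_eq_zero
          intro z _
          rw [(hZ z).1 z.2, Nat.cast_zero]
        rw [hC.hL, hC.hs] at e1
        rw [e3, e5] at e2
        simp only [hc0, Nat.cast_one] at e2
        have e4 : t i - (c i : F) = (b - a ^ j * b ^ j * (σ : F)) * a -
            ∑ k : TT Z s i, (t k - (c k : F)) - ∑ z : ZT Z, t z := by
          rw [Finset.sum_sub_distrib]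
          have e6 : (b - a ^ j * b ^ j * (σ : F)) * a = a * b - a ^ (j + 1) * b ^ j * (σ : F) := by
            ring
          rw [e6, e1, e2]
          ring
        rw [e4]
        apply Submodule.sub_mem
        · apply Submodule.sub_mem
          · apply smul_span
            · exact 𝒲.sub_mem hC.hb (𝒲.mul_mem (𝒲.mul_mem (𝒲.pow_mem hC.ha _)
                (𝒲.pow_mem hC.hb _)) (natCast_mem 𝒲 σ))
            · exact Submodule.subset_span (Or.inl ⟨none, rfl⟩)
          · exact Submodule.sum_mem _ fun k _ => hrest k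
        · exact Submodule.sum_mem _ fun z _ => hz z ((hZ z).1 z.2)
      · exact hrest ⟨i, h0, h1, h2⟩

end XB0aux

open XB0aux

theorem XB0_ok (hS : S_SUMZ) : S_XB0 := by
  intro R F ι _ _ _ _ _ 𝒲 𝒪 p e x t s d a b hC hd c hc hc0 Z hZ hdZ β hβ
  have hp : (p : F) = a := by have := hC.hp; simpa using this
  refine ⟨?_, ?_⟩
  · rintro h (⟨y, hy, rfl⟩ | rfl | ⟨i, rfl⟩)
    · refine ⟨y * a, smul_span (range_pow_mem hC e y hy)
        (Submodule.subset_span (Or.inl ⟨none, rfl⟩)), ?_⟩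
      rw [hp]; ring
    · refine ⟨b + β, Submodule.subset_span (Or.inl ⟨some none, rfl⟩), ?_⟩
      rw [hp, hC.hL, hC.hs]; ring
    · exact ⟨_, lin hS hC hd c hc hc0 Z hZ hdZ (b + β) i, rfl⟩
  · rintro _ ⟨(_ | _ | k), rfl⟩
    · refine ⟨(p : F) ^ 2 * 1, Or.inl ⟨1, one_mem_pow hC e, rfl⟩, 1, 𝒪.one_mem, ?_⟩
      simp only [zq, Option.elim]
      rw [hp]; ring
    · refine ⟨(∑ i, t i) + (p : F) * β * t s, Or.inr (Or.inl rfl), 1, 𝒪.one_mem, ?_⟩
      simp only [zq, Option.elim]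
      rw [hp, hC.hs, hC.hL]; ring
    · refine ⟨(p : F) * (t k - (c k : F) * t s), Or.inr (Or.inr ⟨k, rfl⟩), 1, 𝒪.one_mem, ?_⟩
      simp only [zq, Option.elim]
      rw [hC.hs]; ring

end Pool.Agent.H945R2.S

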