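import Pool.Agent.H945R2.S.Props

/-! Task XBJ: exceptional table for `Bj` (MP_4d1008_ag). -/

set_option autoImplicit false

open scoped Pointwise

namespace Pool.Agent.H945R2.S

open Pool.Agent.H918R2.Quad Pool.Agent.H945R2.D MvPolynomial

namespace XBJaux

variable {R F ι : Type} [CommRing R] [Field F] [Algebra R F] [Fintype ι] [DecidableEq ι]
  {𝒲 : Subalgebra R F} {𝒪 : Subring F} {p e j : ℕ} {x t : ι → F} {s d : ι} {a b : F}

theorem mul_mem' {S : Submodule 𝒲 F} {w g : F} (hw : w ∈ 𝒲) (hg : g ∈ S) : w * g ∈ S :=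
  S.smul_mem ⟨w, hw⟩ hg

omit [DecidableEq ι] in
theorem range_pow_mem (hC : CtxZ 𝒲 𝒪 p e j x t s a b) (n : ℕ) :
    ∀ y ∈ Set.range x ^ n, y ∈ 𝒲 := by
  induction n with
  | zero =>
    intro y hy
    rw [pow_zero, Set.mem_one] at hy
    rw [hy]; exact 𝒲.one_mem
  | succ n ih =>
    intro y hy
    rw [pow_succ, Set.mem_mul] at hy
    obtain ⟨u, hu, v, ⟨i, rfl⟩, rfl⟩ := hy
    exact 𝒲.mul_mem (ih u hu) (hC.hx i)

omit [DecidableEq ι] in
theorem one_mem_pow (hC : CtxZ 𝒲 𝒪 p e j x t s a b) (n : ℕ) : (1 : F) ∈ Set.range x ^ n := by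
  induction n with
  | zero => rw [pow_zero]; exact Set.mem_one.2 rfl
  | succ n ih =>
    rw [pow_succ, Set.mem_mul]
    exact ⟨1, ih, 1, ⟨s, hC.hxs⟩, one_mul 1⟩

omit [DecidableEq ι] in
theorem ht_mem (hC : CtxZ 𝒲 𝒪 p e j x t s a b) (i : ι) : t i ∈ 𝒲 := by
  obtain ⟨ρ, hρ, h⟩ := hC.ht i
  rw [h]
  exact 𝒲.mul_mem hρ (𝒲.pow_mem (hC.hx i) _)

/-- the module generated by the coordinates -/
abbrev Sp (𝒲 : Subalgebra R F) (e : ℕ) (x t : ι → F) (s d : ι) (a B : F) (c : ι → ℕ)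
    (Z : Finset ι) : Submodule 𝒲 F :=
  Submodule.span 𝒲 (Set.range (zq a B t c : KT Z s d → F) ∪ Yc x c ^ e)

omit [Fintype ι] [DecidableEq ι] in
theorem in_a (B : F) (c : ι → ℕ) (Z : Finset ι) : a ∈ Sp 𝒲 e x t s d a B c Z :=
  Submodule.subset_span (Or.inl ⟨none, rfl⟩)

omit [Fintype ι] [DecidableEq ι] in
theorem in_b (B : F) (c : ι → ℕ) (Z : Finset ι) : B ∈ Sp 𝒲 e x t s d a B c Z :=
  Submodule.subset_span (Or.inl ⟨some none, rfl⟩)

omit [DecidableEq ι] in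
theorem in_t (hC : CtxZ 𝒲 𝒪 p e j x t s a b) (B : F) (c : ι → ℕ) (Z : Finset ι) (i : ι)
    (hi : c i = 0) : t i ∈ Sp 𝒲 e x t s d a B c Z := by
  obtain ⟨ρ, hρ, h⟩ := hC.ht i
  rw [h]
  refine mul_mem' hρ (Submodule.subset_span (Or.inr ?_))
  exact Set.pow_mem_pow ⟨i, hi, rfl⟩

/-- the differences `t_i - c_i t_s` are in the module -/
theorem lin (hS : S_SUMZ) (hC : CtxZ 𝒲 𝒪 p e j x t s a b) (hd : s ≠ d) (c : ι → ℕ)
    (hc : p ∣ ∑ i, c i) (hc0 : c s = 1) (Z : Finset ι) (hZ : ∀ i, i ∈ Z ↔ c i = 0) (hdZ : d ∉ Z)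
    (B : F) (i : ι) : t i - (c i : F) * t s ∈ Sp 𝒲 e x t s d a B c Z := by
  have hk : ∀ k : TT Z s d, t k - (c k : F) ∈ Sp 𝒲 e x t s d a B c Z := fun k =>
    Submodule.subset_span (Or.inl ⟨some (some k), rfl⟩)
  by_cases hiZ : i ∈ Z
  · have hci := (hZ i).1 hiZ
    rw [hci, Nat.cast_zero, zero_mul, sub_zero]
    exact in_t hC B c Z i hci
  · by_cases h1 : i = s
    · subst h1
      rw [hc0, Nat.cast_one, one_mul, sub_self]
      exact Submodule.zero_mem _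
    · by_cases h2 : i = d
      · subst h2
        obtain ⟨σ, hσ⟩ := hc
        have hsZ : s ∉ Z := fun h => by
          have := (hZ s).1 h
          omega
        have e1 := (hS (B := F) Z s i hd hsZ hdZ (fun _ => 0) (fun _ => 0) (fun _ => 0) 0).2 t
        have e2 := (hS (B := F) Z s i hd hsZ hdZ (fun _ => 0) (fun _ => 0) (fun _ => 0) 0).2
          (fun i => (c i : F))
        have e3 : (∑ i, (c i : F)) = a ^ (j + 1) * b ^ j * (σ : F) := by
          rw [← hC.hp]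
          have := congrArg (fun n : ℕ => (n : F)) hσ
          push_cast at this
          exact this
        have e4 : ∑ z : ZT Z, (c z : F) = 0 :=
          Finset.sum_eq_zero (fun z _ => by rw [(hZ z).1 z.2, Nat.cast_zero])
        rw [hC.hL, hC.hs] at e1
        rw [e3, e4] at e2
        simp only [hc0, Nat.cast_one] at e2
        have e5 : t i - (c i : F) * t s = (b - a ^ j * b ^ j * (σ : F)) * a -
            ∑ k : TT Z s i, (t k - (c k : F)) - ∑ z : ZT Z, t z := by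
          rw [hC.hs, Finset.sum_sub_distrib]
          linear_combination (-1 : F) * e1 + e2
        rw [e5]
        refine Submodule.sub_mem _ (Submodule.sub_mem _ (mul_mem' ?_ (in_a B c Z)) ?_) ?_
        · exact 𝒲.sub_mem hC.hb (𝒲.mul_mem (𝒲.mul_mem (𝒲.pow_mem hC.ha _) (𝒲.pow_mem hC.hb _))
            (natCast_mem 𝒲 σ))
        · exact Submodule.sum_mem _ (fun k _ => hk k)
        · exact Submodule.sum_mem _ (fun z _ => in_t hC B c Z z ((hZ z).1 z.2))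
      · rw [hC.hs, mul_one]
        exact hk ⟨i, hiZ, h1, h2⟩

end XBJaux

open XBJaux

theorem XBJ_ok (hS : S_SUMZ) : S_XBJ := by
  intro R F ι _ _ _ _ _ 𝒲 𝒪 p e j x t s d a b hC hd c hc hc0 Z hZ hdZ
  have hp := hC.hp
  refine ⟨?_, ?_⟩
  · rintro h (⟨y, hy, rfl⟩ | rfl | ⟨i, y, hy, rfl⟩)
    · refine ⟨y * a, mul_mem' (range_pow_mem hC _ y hy) (in_a b c Z), ?_⟩
      rw [hp, hC.hL]; ring
    · refine ⟨b, in_b b c Z, ?_⟩
      rw [hp, hC.hL]; ring
    · refine ⟨y * (t i - (c i : F) * t s), mul_mem' (range_pow_mem hC _ y hy)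
        (lin hS hC hd c hc hc0 Z hZ hdZ b i), ?_⟩
      ring
  · rintro _ ⟨_ | _ | k, rfl⟩
    · refine ⟨(p : F) ^ 2 * 1, Or.inl ⟨1, one_mem_pow hC _, rfl⟩, 1, 𝒪.one_mem, ?_⟩
      simp only [zq, Option.elim]
      rw [hp, hC.hL]; ring
    · refine ⟨(∑ i, t i) ^ (2 * j + 1), Or.inr (Or.inl rfl), 1, 𝒪.one_mem, ?_⟩
      simp only [zq, Option.elim]
      rw [hp, hC.hL]; ring
    · refine ⟨(p : F) * (∑ i, t i) ^ j * (t k - (c k : F) * t s) * 1,
        Or.inr (Or.inr ⟨k, 1, one_mem_pow hC _, rfl⟩), 1, 𝒪.one_mem, ?_⟩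
      simp only [zq, Option.elim]
      rw [hC.hs]; ring

end Pool.Agent.H945R2.S
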