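import Pool.Agent.H945R2.S.XBJ

/-! Task XBL: exceptional table for `Bl` (MP_4d1008_ag). -/

set_option autoImplicit false

open scoped Pointwise

namespace Pool.Agent.H945R2.S

open Pool.Agent.H918R2.Quad Pool.Agent.H945R2.D MvPolynomial XBJaux

theorem XBL_ok (hS : S_SUMZ) : S_XBL := by
  intro R F ι _ _ _ _ _ 𝒲 𝒪 p e j x t s d a b hC hd hj hU c hc hc0 Z hZ hdZ
  subst hj
  have hp := hC.hp
  have hp1 : j + 2 - 1 = j + 1 := rfl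
  obtain ⟨q, hq⟩ : ∃ q : F, q = ((j + 2 : ℕ) : F) := ⟨_, rfl⟩
  rw [← hq] at hp
  have hLb : (a * b) ^ (j + 1) = q * b := by rw [hp]; ring
  refine ⟨?_, ?_⟩
  · rintro h (⟨y, hy, rfl⟩ | ⟨y, hy, rfl⟩ | ⟨i, rfl⟩ | ⟨i, y, hy, rfl⟩)
    · refine ⟨(a ^ j * b ^ j * y) * a, mul_mem' (𝒲.mul_mem (𝒲.mul_mem (𝒲.pow_mem hC.ha _)
        (𝒲.pow_mem hC.hb _)) (range_pow_mem hC _ y hy)) (in_a (b + 1) c Z), ?_⟩
      rw [← hq]
      have : a ^ j * b ^ j * y * a = q * y := by rw [hp]; ring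
      rw [this]; ring
    · refine ⟨(b * y) * a, mul_mem' (𝒲.mul_mem hC.hb (range_pow_mem hC _ y hy))
        (in_a (b + 1) c Z), ?_⟩
      rw [← hq, hC.hL]; ring
    · refine ⟨t i * (b + 1), mul_mem' (ht_mem hC i) (in_b (b + 1) c Z), ?_⟩
      rw [← hq, hC.hL, hC.hs, hp1, hLb]; ring
    · refine ⟨y * (t i - (c i : F) * t s), mul_mem' (range_pow_mem hC _ y hy)
        (lin hS hC hd c hc hc0 Z hZ hdZ (b + 1) i), ?_⟩
      rw [← hq]; ring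
  · rintro _ ⟨_ | _ | k, rfl⟩
    · refine ⟨((j + 2 : ℕ) : F) * (∑ i, t i) * 1, Or.inr (Or.inl ⟨1, one_mem_pow hC _, rfl⟩), b⁻¹,
        hU.2.2, ?_⟩
      simp only [zq, Option.elim]
      rw [← hq, hC.hL, mul_one]
      field_simp [hC.hb0]
    · refine ⟨(((j + 2 : ℕ) : F) * t s ^ (j + 2 - 1) + (∑ i, t i) ^ (j + 2 - 1)) * t s,
        Or.inr (Or.inr (Or.inl ⟨s, rfl⟩)), 1, 𝒪.one_mem, ?_⟩
      simp only [zq, Option.elim]
      rw [← hq, hC.hs, hC.hL, hp1, hLb]; ring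
    · refine ⟨((j + 2 : ℕ) : F) * (t k - (c k : F) * t s) * 1,
        Or.inr (Or.inr (Or.inr ⟨k, 1, one_mem_pow hC _, rfl⟩)), 1, 𝒪.one_mem, ?_⟩
      simp only [zq, Option.elim]
      rw [← hq, hC.hs]; ring

end Pool.Agent.H945R2.S
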