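import Pool.Agent.H945R2.D.All
import Pool.Agent.H945R2.S.ARIM
import Pool.Agent.H945R2.S.BADS
import Pool.Agent.H945R2.S.BL4
import Pool.Agent.H945R2.S.BLRW
import Pool.Agent.H945R2.S.BLS1
import Pool.Agent.H945R2.S.BLS2
import Pool.Agent.H945R2.S.CH1Z
import Pool.Agent.H945R2.S.CH2Z
import Pool.Agent.H945R2.S.DEGS
import Pool.Agent.H945R2.S.DER
import Pool.Agent.H945R2.S.EC
import Pool.Agent.H945R2.S.EN
import Pool.Agent.H945R2.S.ET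
import Pool.Agent.H945R2.S.EXACTZ
import Pool.Agent.H945R2.S.EXPLZ
import Pool.Agent.H945R2.S.EXPZ0
import Pool.Agent.H945R2.S.EXPZB
import Pool.Agent.H945R2.S.EXPZJ
import Pool.Agent.H945R2.S.FABZ
import Pool.Agent.H945R2.S.FINAL
import Pool.Agent.H945R2.S.FINS
import Pool.Agent.H945R2.S.FLDM
import Pool.Agent.H945R2.S.GD1M
import Pool.Agent.H945R2.S.GD2M
import Pool.Agent.H945R2.S.GLOM
import Pool.Agent.H945R2.S.GOODM
import Pool.Agent.H945R2.S.INDZ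
import Pool.Agent.H945R2.S.IRRM
import Pool.Agent.H945R2.S.LOCS
import Pool.Agent.H945R2.S.NDZ
import Pool.Agent.H945R2.S.PREZ
import Pool.Agent.H945R2.S.PT1
import Pool.Agent.H945R2.S.PT2
import Pool.Agent.H945R2.S.PT3
import Pool.Agent.H945R2.S.PT4
import Pool.Agent.H945R2.S.QC1
import Pool.Agent.H945R2.S.QC2
import Pool.Agent.H945R2.S.QC3
import Pool.Agent.H945R2.S.QC4
import Pool.Agent.H945R2.S.QC5
import Pool.Agent.H945R2.S.QC6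
import Pool.Agent.H945R2.S.QEX
import Pool.Agent.H945R2.S.QPRE
import Pool.Agent.H945R2.S.QS
import Pool.Agent.H945R2.S.QTF
import Pool.Agent.H945R2.S.RA2
import Pool.Agent.H945R2.S.RLW
import Pool.Agent.H945R2.S.SCZ
import Pool.Agent.H945R2.S.SIM
import Pool.Agent.H945R2.S.SUMZ
import Pool.Agent.H945R2.S.TAYZ1
import Pool.Agent.H945R2.S.TAYZ2
import Pool.Agent.H945R2.S.TB0
import Pool.Agent.H945R2.S.TBJ
import Pool.Agent.H945R2.S.TBL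
import Pool.Agent.H945R2.S.TIZ
import Pool.Agent.H945R2.S.XB0
import Pool.Agent.H945R2.S.XBJ
import Pool.Agent.H945R2.S.XBL

/-! Regular models of diagonal hypersurfaces of odd degree: everything together. -/

set_option autoImplicit false

namespace Pool.Agent.H945R2.S

open Pool.Agent.H945R2.D

theorem tayz1' : S_TAYZ1 := TAYZ1_ok EXACTZ_ok
theorem tayz2' : S_TAYZ2 := TAYZ2_ok EXACTZ_ok
theorem qex' : S_QEX :=
  QEX_ok (EXPZ0_ok tayz2' SUMZ_ok) (EXPZJ_ok tayz2' SUMZ_ok) (EXPZB_ok tayz2' SUMZ_ok) NDZ_ok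
theorem qpre' : S_QPRE := QPRE_ok SUMZ_ok PREZ_ok FABZ_ok
theorem qtf' : S_QTF := QTF_ok SUMZ_ok
theorem bl4' : S_BL4 := BL4_ok RA2_ok

theorem locs' : S_LOCS :=
  LOCS_ok CL_ok MAS_ok PRA_ok SIM_ok SCZ_ok BLS1_ok BLS2_ok EN_ok EC_ok QS_ok
    PT1_ok PT2_ok PT3_ok PT4_ok TIZ_ok TB0_ok TBJ_ok TBL_ok DER_ok (XB0_ok SUMZ_ok)
    (XBJ_ok SUMZ_ok) (XBL_ok SUMZ_ok) SUMZ_ok ET_ok INDZ_ok
    (CH1Z_ok SUMZ_ok PREZ_ok FABZ_ok)
    (CH2Z_ok (EXPLZ_ok tayz1' SUMZ_ok) SUMZ_ok PREZ_ok FABZ_ok)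
    (QC1_ok qpre' qtf' qex' BLRW_ok) (QC2_ok qpre' qtf' qex' BLRW_ok)
    (QC3_ok qpre' qtf' qex' BLRW_ok) (QC4_ok qpre' qtf' qex' bl4')
    (QC5_ok qpre' qtf' qex' RLW_ok) (QC6_ok qpre' qtf' qex')

theorem bad' : S_BAD := BAD_ok loc' DEG_ok FIN_ok FAM_ok GEX_ok

theorem glom' : S_GLOM :=
  GLOM_ok (badM bad' (BADS_ok locs' DEGS_ok FINS_ok)) (GOODM_ok GD1M_ok GD2M_ok) ARIM_ok

end Pool.Agent.H945R2.S
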