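import Pool.Agent.H945R2.D.Props2

/-! Definitions for the models of diagonal hypersurfaces of squarefree degree (MP_4d1008_ag).
`m = p e` with `p` an odd prime, `e ≥ 2` prime to `p`; `X_i = u_i x_i ^ e`. -/

set_option autoImplicit false

open scoped Pointwise

namespace Pool.Agent.H945R2.S

open Pool.Agent.H918R2.Quad Pool.Agent.H945R2.D MvPolynomial

section factors

variable {F : Type} [Field F] {ι : Type} [Fintype ι]

/-- The factor `I_j`. -/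
def Ifs (p e : ℕ) (x X : ι → F) (j : ℕ) : Set F :=
  {h | (∃ y ∈ Set.range x ^ (e * j), h = (p : F) * y) ∨ h = (∑ i, X i) ^ j}

/-- The base factor of kind `0`. -/
def B0 (p e : ℕ) (x X : ι → F) (s : ι) (c : ι → ℕ) (β : F) : Set F :=
  {h | (∃ y ∈ Set.range x ^ e, h = (p : F) ^ 2 * y) ∨ h = (∑ i, X i) + (p : F) * β * X s ∨
    ∃ i, h = (p : F) * (X i - (c i : F) * X s)}

/-- The base factor of kind `j`, `1 ≤ j ≤ p - 2`. -/
def Bj (p e : ℕ) (x X : ι → F) (s : ι) (c : ι → ℕ) (j : ℕ) : Set F :=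
  {h | (∃ y ∈ Set.range x ^ (e * (2 * j + 1)), h = (p : F) ^ 2 * y) ∨
    h = (∑ i, X i) ^ (2 * j + 1) ∨
    ∃ i, ∃ y ∈ Set.range x ^ (e * j),
      h = (p : F) * (∑ i, X i) ^ j * (X i - (c i : F) * X s) * y}

/-- The base factor of the last kind. -/
def Bl (p e : ℕ) (x X : ι → F) (s : ι) (c : ι → ℕ) : Set F :=
  {h | (∃ y ∈ Set.range x ^ (e * p), h = (p : F) ^ 2 * y) ∨
    (∃ y ∈ Set.range x ^ (e * (p - 1)), h = (p : F) * (∑ i, X i) * y) ∨
    (∃ i, h = ((p : F) * X s ^ (p - 1) + (∑ i, X i) ^ (p - 1)) * X i) ∨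
    ∃ i, ∃ y ∈ Set.range x ^ (e * (p - 1)), h = (p : F) * (X i - (c i : F) * X s) * y}

/-- The derived factors `N_k`. -/
def Nd (B : Set F) (μ : F) (V Y : Set F) (n k : ℕ) : Set F :=
  B ∪ {μ} * Y ^ k * V ^ (n - k)

/-- The derived factor `C` (for `e = 2 h + 1`). -/
def Cd (B : Set F) (μ f : F) (V Y : Set F) (n h : ℕ) : Set F :=
  B ^ 3 ∪ B ^ 2 * {μ} * Y * V ^ (n - 1) ∪ B * {μ ^ 2} * Y ^ (h + 1) * V ^ (2 * n - h - 1) ∪
    {μ ^ 3} * Y ^ (2 * h + 2) * V ^ (3 * n - 2 * h - 2) ∪ {μ ^ 3 * f} * V ^ (3 * n - 2 * h - 1)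

/-- The coordinates vanishing at the point `c`. -/
def Yc (x : ι → F) (c : ι → ℕ) : Set F := {h | ∃ i, c i = 0 ∧ h = x i}

/-- The form `∑_{c_i = 0} X_i`. -/
def fc (X : ι → F) (c : ι → ℕ) : F := ∑ i, if c i = 0 then X i else 0

/-- The generators of the ideals `N_k` in a chart. -/
def NS (Q Y : Set F) (k : ℕ) : Set F := Q ∪ Y ^ k

/-- The generators of the ideal `C` in a chart. -/
def CS (Q Y : Set F) (f : F) (h : ℕ) : Set F :=
  Q ^ 3 ∪ Q ^ 2 * Y ∪ Q * Y ^ (h + 1) ∪ Y ^ (2 * h + 2) ∪ {f}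

variable {R : Type} [CommRing R] [Algebra R F]

/-- `Φ` is, up to the factor `m`, the ideal generated by `Ψ`. -/
def ExcS (𝒲 : Subalgebra R F) (𝒪 : Subring F) (Φ Ψ : Set F) : Prop :=
  ∃ m : F, m ≠ 0 ∧ (∀ h ∈ Φ, ∃ g ∈ Submodule.span 𝒲 Ψ, h = m * g) ∧
    ∀ z ∈ Ψ, ∃ h ∈ Φ, ∃ o ∈ 𝒪, m * z = h * o

/-- The base factor at the exceptional point: `B = μ (Q, Y ^ e)`. -/
def ExcB (𝒲 : Subalgebra R F) (𝒪 : Subring F) (B : Set F) (μ : F) (Q Y : Set F) (e : ℕ) : Prop :=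
  (∀ h ∈ B, ∃ g ∈ Submodule.span 𝒲 (Q ∪ Y ^ e), h = μ * g) ∧
    ∀ z ∈ Q, ∃ h ∈ B, ∃ o ∈ 𝒪, μ * z = h * o

/-- The base factor at the other points. -/
def PrinB (𝒲 : Subalgebra R F) (𝒪 : Subring F) (B : Set F) (μ : F) : Prop :=
  ∃ m : F, m ≠ 0 ∧ (∀ h ∈ B, h / m ∈ 𝒲) ∧ (∃ h ∈ B, U 𝒪 (h / m)) ∧ μ / m ∈ 𝒲

/-- Equality up to a factor and units of `R`. -/
def Sim (R : Type) {F : Type} [CommRing R] [Field F] [Algebra R F] (Φ Φ' : Set F) : Prop :=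
  ∃ μ : F, μ ≠ 0 ∧ (∀ h ∈ Φ, ∃ h' ∈ Φ', ∃ ν : Rˣ, h = μ * algebraMap R F ν * h') ∧
    ∀ h' ∈ Φ', ∃ h ∈ Φ, ∃ ν : Rˣ, h = μ * algebraMap R F ν * h'

/-- The three kinds of base factors: `n` is the degree of `B` minus the degree of `μ`. -/
def IsBase (p e : ℕ) (x X : ι → F) (s : ι) (c : ι → ℕ) (β : F) (B : Set F) (μ : F) (n : ℕ) :
    Prop :=
  (B = B0 p e x X s c β ∧ μ = (p : F) ∧ n = e) ∨
  (∃ j, 1 ≤ j ∧ j + 2 ≤ p ∧ B = Bj p e x X s c j ∧ μ = (p : F) * (∑ i, X i) ^ j ∧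
    n = e * (j + 1)) ∨
  (B = Bl p e x X s c ∧ μ = (p : F) ∧ n = e * p)

end factors

section poly

variable {R : Type} [CommRing R] {ι : Type} [Fintype ι]

/-- The special points. -/
structure SpZ (p : ℕ) (g : MvPolynomial ι R) (s : ι) (c : ι → ℕ) (β : R) : Prop where
  lt : ∀ i, c i < p
  one : c s = 1
  sum : p ∣ ∑ i, c i
  val : (p : R) * β = aeval (fun i => (c i : R)) g - ∑ i, (c i : R)

/-- The factors (`h = e / 2`). -/
def IsFacS {F : Type} [Field F] [Algebra R F] [LinearOrder ι] (p e h : ℕ) (g : MvPolynomial ι R)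
    (x X : ι → F) (Φ : Set F) : Prop :=
  Φ = Set.range x ∨ (∃ j, 1 ≤ j ∧ j < p ∧ Φ = Ifs p e x X j) ∨
    ∃ (s : ι) (c : ι → ℕ) (β : R), SpZ p g s c β ∧ (∀ i, i < s → c i = 0) ∧
      ∃ (B : Set F) (μ : F) (n : ℕ), IsBase p e x X s c (algebraMap R F β) B μ n ∧
        ((∃ k, 1 ≤ k ∧ k ≤ h ∧ Φ = Nd B μ (Set.range x) (Yc x c) n k) ∨
          (e = 2 * h + 1 ∧ Φ = Cd B μ (fc X c) (Set.range x) (Yc x c) n h))

end poly

section charts

variable {ι : Type}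

/-- The coordinates which are units, but `s` and `d`. -/
abbrev TT (Z : Finset ι) (s d : ι) : Type := {i : ι // i ∉ Z ∧ i ≠ s ∧ i ≠ d}

/-- The coordinates which are not units. -/
abbrev ZT (Z : Finset ι) : Type := {i : ι // i ∈ Z}

/-- `none ↦ a`, `some none ↦ b`, `some (some k) ↦ t_k`. -/
abbrev KT (Z : Finset ι) (s d : ι) : Type := Option (Option (TT Z s d))

variable [Fintype ι] [DecidableEq ι]

/-- The values `t_i` from the mixed coordinates: `r_i y_i ^ e` for `i ∈ Z`, `y_i` for `i ∉ Z`. -/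
def Tz {R B : Type} [CommRing R] [CommRing B] [Algebra R B] (Z : Finset ι) (r : ι → R) (e : ℕ)
    (y : ι → B) (i : ι) : B :=
  if i ∈ Z then algebraMap R B (r i) * y i ^ e else y i

/-- The values `t_i`: `w_i` for `i ∈ Z`, `t_s = 1`, `c_i + v_i` for the others, and `t_d` such that
their sum is `l`. -/
def TcZ {B : Type} [CommRing B] (Z : Finset ι) (s d : ι) (c : ι → B) (v : TT Z s d → B)
    (w : ZT Z → B) (l : B) (i : ι) : B :=
  if hZ : i ∈ Z then w ⟨i, hZ⟩ else if h : i = s then 1 else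
    if h' : i = d then l - 1 - ∑ k : TT Z s d, (c k + v k) - ∑ z, w z
      else c i + v ⟨i, hZ, h, h'⟩

/-- The third relation. -/
noncomputable def TotZ {R B : Type} [CommRing R] [CommRing B] [Algebra R B] (p j : ℕ)
    (g : MvPolynomial ι R) (c : ι → ℕ) (Z : Finset ι) (s d : ι) (a b : B) (v : TT Z s d → B)
    (w : ZT Z → B) : B :=
  aeval (TcZ Z s d (fun i => (c i : B)) v w (a * b)) g + a ^ (p - 1 - j) * b ^ (p - j)

/-- The quadratic part. -/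
def PhiZ {R B : Type} [CommRing R] [CommRing B] [Algebra R B] (p : ℕ)
    (co : ι → R) (c : ι → ℕ) (Z : Finset ι) (s d : ι) (v lα : R) (l : TT Z s d → R)
    (Y : KT Z s d → B) : B :=
  Y none * (algebraMap R B v * Y (some none) + algebraMap R B lα * Y none +
      ∑ k, algebraMap R B (l k) * Y (some (some k))) +
    ((p - 1) / 2 : ℕ) * (∑ k : TT Z s d, algebraMap R B (co k) * (c k : B) ^ (p - 2) *
        Y (some (some k)) ^ 2 +
      algebraMap R B (co d) * (c d : B) ^ (p - 2) * (∑ k : TT Z s d, Y (some (some k))) ^ 2)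

/-- The conclusion of the second order expansion. -/
def ExpZ {R : Type} [CommRing R] (p : ℕ) (co : ι → R) (g : MvPolynomial ι R) (c : ι → ℕ)
    (Z : Finset ι) (s d : ι) (j : ℕ) (b₀ : R) (v lα : R) (l : TT Z s d → R) : Prop :=
  ∀ {B : Type} [CommRing B] [Algebra R B] (Y : KT Z s d → B) (w : ZT Z → B),
    (p : B) = Y none ^ (j + 1) * (Y (some none) - algebraMap R B b₀) ^ j →
    TotZ p j g c Z s d (Y none) (Y (some none) - algebraMap R B b₀)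
        (fun k => Y (some (some k))) w - (PhiZ p co c Z s d v lα l Y - ∑ z, w z) ∈
      Ideal.span (Set.range Y) ^ 3 ⊔ Ideal.span (Set.range Y) * Ideal.span (Set.range w) ⊔
        Ideal.span (Set.range w) ^ 2

/-- The coordinates at a singular point. -/
def zq {F : Type} [Field F] {Z : Finset ι} {s d : ι} (a b : F) (y : ι → F) (c : ι → ℕ) :
    KT Z s d → F :=
  fun k => k.elim a (fun k' => k'.elim b (fun i => y i - (c i : F)))

end charts

section cases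

variable {F : Type} [Field F] {κ ζ : Type} (𝒪 : Subring F) (q : κ → F) (y : ζ → F)

/-- Chart 1. -/
structure C1 (l : κ) : Prop where
  ql : q l ≠ 0
  hq : ∀ m, q m / q l ∈ 𝒪
  hy : ∀ z, y z / q l ∈ 𝒪
  hyU : ∀ z, ¬ U 𝒪 (y z / q l)

/-- Chart 2. -/
structure C2 (k : ℕ) (z₀ : ζ) (l : κ) : Prop where
  yz : y z₀ ≠ 0
  ql : q l ≠ 0
  hy : ∀ z, y z / y z₀ ∈ 𝒪
  hq : ∀ m, q m / q l ∈ 𝒪
  hε : q l / y z₀ ^ k ∈ 𝒪
  hεU : ¬ U 𝒪 (q l / y z₀ ^ k)
  hω : y z₀ ^ (k + 1) / q l ∈ 𝒪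
  hωU : ¬ U 𝒪 (y z₀ ^ (k + 1) / q l)

/-- Chart 3. -/
structure C3 (k : ℕ) (z₀ : ζ) : Prop where
  yz : y z₀ ≠ 0
  hy : ∀ z, y z / y z₀ ∈ 𝒪
  hq : ∀ m, q m / y z₀ ^ k ∈ 𝒪

/-- Generators of chart 1. -/
def G1 (l : κ) : Set F := {q l} ∪ Set.range (fun m => q m / q l) ∪ Set.range (fun z => y z / q l)

/-- Generators of chart 2. -/
def G2 (k : ℕ) (z₀ : ζ) (l : κ) : Set F :=
  {q l / y z₀ ^ k, y z₀ ^ (k + 1) / q l} ∪ Set.range (fun m => q m / q l) ∪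
    Set.range (fun z => y z / y z₀)

/-- Generators of chart 3. -/
def G3 (k : ℕ) (z₀ : ζ) : Set F :=
  {y z₀} ∪ Set.range (fun m => q m / y z₀ ^ k) ∪ Set.range (fun z => y z / y z₀)

/-- The form `∑ r_z y_z ^ e`. -/
def fY {R : Type} [CommRing R] [Algebra R F] [Fintype ζ] (r : ζ → R) (e : ℕ) : F :=
  ∑ z, algebraMap R F (r z) * y z ^ e

/-- The centre of the last blow-up. -/
def zst (f : F) (h e : ℕ) (z₀ : ζ) : Option (Option κ) → F :=
  fun k => k.elim (y z₀) (fun k' => k'.elim (f / y z₀ ^ e) (fun m => q m / y z₀ ^ h))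

/-- Generators of chart 4. -/
def G4 (f : F) (h e : ℕ) (z₀ : ζ) (k₁ : Option (Option κ)) : Set F :=
  {zst q y f h e z₀ k₁} ∪ Set.range (fun k => zst q y f h e z₀ k / zst q y f h e z₀ k₁) ∪
    Set.range (fun z => y z / y z₀)

end cases

end Pool.Agent.H945R2.S
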