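import Pool.Agent.H945R2.S.Props
import Pool.Agent.H968R2.FL.Param
import Pool.Agent.H968R2.Quad.RegSub
import Pool.Agent.H918R2.Quad.Reg1

set_option autoImplicit false

namespace Pool.Agent.H945R2.S

namespace ETaux

open Pool.Agent.H918R2.Quad Polynomial IsLocalRing

variable {F : Type} [Field F]

theorem isUnit_iff_U (O : Subring F) (x : O) : IsUnit x ↔ U O (x : F) := by
  constructor
  · rintro ⟨u, rfl⟩
    have h1 : ((u : O) : F) * (((u⁻¹ : Oˣ) : O) : F) = 1 := by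
      exact congrArg (Subtype.val) (Units.mul_inv u)
    have h0 : ((u : O) : F) ≠ 0 := left_ne_zero_of_mul_eq_one h1
    refine ⟨h0, (u : O).2, ?_⟩
    rw [inv_eq_of_mul_eq_one_right h1]
    exact ((u⁻¹ : Oˣ) : O).2
  · rintro ⟨h0, h1, h2⟩
    refine IsUnit.of_mul_eq_one (⟨(x : F)⁻¹, h2⟩ : O) ?_
    apply Subtype.ext
    simp [h0]

/-- the algebraic key: a simple root -/
theorem key {B : Type} [CommRing B] [IsLocalRing B] (E : B[X]) (P : Ideal B[X]) [P.IsPrime]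
    (hmP : ∀ a ∈ maximalIdeal B, C a ∈ P) (hE : E ∈ P) (hder : derivative E ∉ P) :
    ∀ f ∈ P, ∃ g u : B[X], g ∉ P ∧ g * f - E * u ∈ (maximalIdeal B).map C := by
  let φ : B[X] →+* (ResidueField B)[X] := mapRingHom (residue B)
  have hφs : Function.Surjective φ := Polynomial.map_surjective _ IsLocalRing.residue_surjective
  have hker : RingHom.ker φ = (maximalIdeal B).map C := by
    have h := Polynomial.ker_mapRingHom (residue B)
    rw [IsLocalRing.ker_residue] at h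
    exact h
  have hkerP : RingHom.ker φ ≤ P := by
    rw [hker, Ideal.map_le_iff_le_comap]
    intro a ha
    exact hmP a ha
  have hPm : ∀ f, φ f ∈ P.map φ → f ∈ P := by
    intro f hf
    obtain ⟨g, hg, hgf⟩ := (Ideal.mem_map_iff_of_surjective φ hφs).1 hf
    have h1 : f - g ∈ RingHom.ker φ := by
      rw [RingHom.mem_ker, map_sub, hgf, sub_self]
    have h2 := P.add_mem (hkerP h1) hg
    simpa using h2
  obtain ⟨h, hh⟩ : ∃ h, P.map φ = Ideal.span {h} :=
    (IsPrincipalIdealRing.principal (P.map φ)).principal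
  have hEm : φ E ∈ Ideal.span {h} := by
    rw [← hh]
    exact Ideal.mem_map_of_mem _ hE
  obtain ⟨g, hg⟩ := Ideal.mem_span_singleton'.1 hEm
  have hgP : g ∉ P.map φ := by
    intro hgP
    rw [hh] at hgP
    obtain ⟨g', hg'⟩ := Ideal.mem_span_singleton'.1 hgP
    apply hder
    apply hPm
    have h1 : φ (derivative E) = derivative (φ E) := by
      simp only [φ, coe_mapRingHom]
      exact (derivative_map E (residue B)).symm
    rw [h1, ← hg, ← hg', hh, Ideal.mem_span_singleton']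
    refine ⟨derivative g' * h + 2 * (g' * derivative h), ?_⟩
    simp only [derivative_mul]
    ring
  intro f hf
  have hfm : φ f ∈ Ideal.span {h} := by
    rw [← hh]
    exact Ideal.mem_map_of_mem _ hf
  obtain ⟨u, hu⟩ := Ideal.mem_span_singleton'.1 hfm
  obtain ⟨g1, hg1⟩ := hφs g
  obtain ⟨u1, hu1⟩ := hφs u
  refine ⟨g1, u1, ?_, ?_⟩
  · intro hc
    apply hgP
    rw [← hg1]
    exact Ideal.mem_map_of_mem _ hc
  · rw [← hker, RingHom.mem_ker, map_sub, map_mul, map_mul, hg1, hu1, ← hu, ← hg]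
    ring

/-- one step -/
theorem step (O1 O2 : Subring F) (hle : ∀ w ∈ O1, w ∈ O2) (h2 : IsLoc O2)
    (hU : ∀ w ∈ O1, U O2 w → U O1 w) (e : ℕ) (he1 : 1 ≤ e) (he : U O2 (e : F)) (ξ : F)
    (hξ : U O2 ξ) (θ : O1) (hθ : (θ : F) = ξ ^ e)
    (hfr : ∀ x ∈ O2, ∃ a b : O1[X], U O2 (aeval ξ b) ∧ x = aeval ξ a / aeval ξ b)
    (hreg : IsRegularLocalRing O1) : IsRegularLocalRing O2 := by
  classical
  have hOm : ∀ w : O1, algebraMap O1 F w = (w : F) := fun w => rfl
  let E : O1[X] := X ^ e - C θ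
  have hEm : E.Monic := monic_X_pow_sub_C θ (by omega)
  have hEξ : E.eval₂ (Algebra.ofId O1 F) ξ = 0 := by
    simp only [E, eval₂_sub, eval₂_X_pow, eval₂_C]
    rw [← hθ]
    exact sub_self _
  let A := AdjoinRoot E
  have hfree : Module.Free O1 A := hEm.free_adjoinRoot
  have hfin : Module.Finite O1 A := hEm.finite_adjoinRoot
  have hnoeth : IsNoetherianRing A := IsNoetherianRing.of_finite O1 A
  let eA : A →ₐ[O1] F := AdjoinRoot.liftAlgHom E (Algebra.ofId O1 F) ξ hEξ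
  have heA : ∀ f : O1[X], eA (AdjoinRoot.mk E f) = aeval ξ f := fun f => rfl
  have haev : ∀ f : O1[X], aeval ξ f ∈ O2 := by
    intro f
    rw [aeval_eq_sum_range]
    refine Subring.sum_mem _ fun i _ => ?_
    rw [Algebra.smul_def]
    exact O2.mul_mem (hle _ (f.coeff i).2) (O2.pow_mem hξ.2.1 i)
  have heO : ∀ a : A, eA a ∈ O2 := by
    intro a
    obtain ⟨f, rfl⟩ := AdjoinRoot.mk_surjective a
    exact haev f
  let q : Ideal A := primeOf h2 (eA : A →+* F) heO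
  have hqp : q.IsPrime := primeOf_isPrime h2 (eA : A →+* F) heO
  have hmemq : ∀ a : A, a ∈ q ↔ ¬ U O2 (eA a) := fun a => mem_primeOf h2 (eA : A →+* F) heO a
  have hUU : ∀ w : O1, IsUnit w ↔ U O2 (w : F) := by
    intro w
    rw [isUnit_iff_U]
    exact ⟨fun h => ⟨h.1, hle _ h.2.1, hle _ h.2.2⟩, hU _ w.2⟩
  have hlo : q.LiesOver (maximalIdeal O1) := by
    constructor
    ext w
    rw [Ideal.under_def, Ideal.mem_comap, hmemq, mem_maximalIdeal, mem_nonunits_iff, hUU,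
      AlgHom.commutes]
    rfl
  have hheight : (maximalIdeal O1).height ≤ q.height := by
    have hgd : Algebra.HasGoingDown O1 A := Algebra.HasGoingDown.of_flat
    rw [Ideal.height_eq_height_add_of_liesOver_of_hasGoingDown (maximalIdeal O1) (P := q)]
    exact le_self_add
  obtain ⟨d, z, hd, hz⟩ := Pool.Agent.H968R2.FL.exists_param (B := O1)
  have hregq : IsRegularLocalRing (Localization.AtPrime q) := by
    apply regular_of_gens q (Finset.univ.image fun i => algebraMap O1 A (z i))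
    · intro g hg
      obtain ⟨i, _, rfl⟩ := Finset.mem_image.1 hg
      have h1 : z i ∈ maximalIdeal O1 := by
        rw [← hz]
        exact Ideal.subset_span ⟨i, rfl⟩
      rw [hlo.over] at h1
      exact h1
    · intro x hx
      have hspan : Ideal.span ((Finset.univ.image fun i => algebraMap O1 A (z i) : Finset A) : Set A)
          = (maximalIdeal O1).map (algebraMap O1 A) := by
        rw [← hz, Ideal.map_span]
        congr 1
        ext a
        simp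
      rw [hspan]
      obtain ⟨f, rfl⟩ := AdjoinRoot.mk_surjective x
      let P : Ideal O1[X] := q.comap (AdjoinRoot.mk E)
      have hmemP : ∀ g, g ∈ P ↔ ¬ U O2 (aeval ξ g) := by
        intro g
        rw [Ideal.mem_comap, hmemq, heA]
      obtain ⟨g, u, hgP, hgu⟩ := key E P (by
          intro a ha
          rw [hmemP, aeval_C, hOm, ← hUU]
          exact ha) (by
          rw [hmemP]
          intro hc
          apply hc.1
          exact hEξ) (by
          rw [hmemP, not_not]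
          have : aeval ξ (derivative E) = (e : F) * ξ ^ (e - 1) := by
            simp [E, derivative_X_pow]
          rw [this]
          exact he.mul (hξ.pow _)) f (by
          rw [hmemP, ← heA, ← hmemq]
          exact hx)
      refine ⟨AdjoinRoot.mk E g, ?_, ?_⟩
      · intro hc
        exact hgP hc
      · have h1 : AdjoinRoot.mk E (g * f - E * u) ∈
            ((maximalIdeal O1).map C).map (AdjoinRoot.mk E) := Ideal.mem_map_of_mem _ hgu
        rw [Ideal.map_map] at h1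
        rw [map_sub, map_mul, map_mul, AdjoinRoot.mk_self, zero_mul, sub_zero] at h1
        exact h1
    · refine le_trans ?_ hheight
      have h1 := maximalIdeal_height_eq_ringKrullDim (R := O1)
      rw [hd] at h1
      have h2 : (maximalIdeal O1).height = d := by exact_mod_cast h1
      rw [h2]
      have h3 : (Finset.univ.image fun i => algebraMap O1 A (z i)).card ≤ d := by
        refine Finset.card_image_le.trans ?_
        simp
      exact_mod_cast h3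
  have hdomq : IsDomain (Localization.AtPrime q) := regular_isDomain _
  have hθ0 : θ ≠ 0 := by
    intro h0
    rw [h0] at hθ
    exact (hξ.pow e).1 hθ.symm
  refine Pool.Agent.H968R2.Quad.regular_subring_of_isDomain (R := O1) O2 eA heO ?_ q
    (fun a => mem_primeOf' h2 (eA : A →+* F) heO a) hregq hdomq (ρ := Unit)
    (fun _ => AdjoinRoot.root E) (MvPolynomial.X () ^ e - MvPolynomial.C θ) ?_ ?_ () ?_ ?_
  · intro x hx
    obtain ⟨a, b, hb, rfl⟩ := hfr x hx
    exact ⟨AdjoinRoot.mk E a, AdjoinRoot.mk E b, hb.1, hb.2.2, rfl⟩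
  · intro h0
    apply hθ0
    have h1 := congrArg (MvPolynomial.aeval (fun _ : Unit => (0 : O1))) h0
    simp only [map_sub, map_pow, MvPolynomial.aeval_X, map_zero, MvPolynomial.aeval_C] at h1
    rw [zero_pow (by omega), zero_sub, neg_eq_zero] at h1
    exact h1
  · simp only [map_sub, map_pow, MvPolynomial.aeval_X, MvPolynomial.aeval_C]
    have h1 := AdjoinRoot.mk_self (f := E)
    simp only [E, map_sub, map_pow] at h1
    exact h1
  · have : IsEmpty {j : Unit // j ≠ ()} := ⟨fun j => j.2 rfl⟩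
    rw [algebraicIndependent_empty_type_iff]
    exact Subtype.val_injective
  · intro a
    obtain ⟨f, rfl⟩ := AdjoinRoot.mk_surjective a
    refine ⟨aeval (MvPolynomial.X ()) f, 1, by simp, ?_⟩
    rw [map_one, one_mul]
    rw [← AdjoinRoot.aeval_eq]
    rw [← Polynomial.aeval_algHom_apply, MvPolynomial.aeval_X]

/-- fractions with denominators units of `𝒪` -/
def Lo (𝒪 V : Subring F) (_hV : ∀ w ∈ V, w ∈ 𝒪) : Subring F where
  carrier := {x | ∃ a ∈ V, ∃ b ∈ V, U 𝒪 b ∧ x = a / b}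
  mul_mem' := by
    rintro x y ⟨a, ha, b, hb, hUb, rfl⟩ ⟨a', ha', b', hb', hUb', rfl⟩
    refine ⟨a * a', V.mul_mem ha ha', b * b', V.mul_mem hb hb', hUb.mul hUb', ?_⟩
    rw [div_mul_div_comm]
  one_mem' := ⟨1, V.one_mem, 1, V.one_mem, U_one, by simp⟩
  add_mem' := by
    rintro x y ⟨a, ha, b, hb, hUb, rfl⟩ ⟨a', ha', b', hb', hUb', rfl⟩
    refine ⟨a * b' + b * a', V.add_mem (V.mul_mem ha hb') (V.mul_mem hb ha'), b * b',
      V.mul_mem hb hb', hUb.mul hUb', ?_⟩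
    rw [div_add_div _ _ hUb.1 hUb'.1]
  zero_mem' := ⟨0, V.zero_mem, 1, V.one_mem, U_one, by simp⟩
  neg_mem' := by
    rintro x ⟨a, ha, b, hb, hUb, rfl⟩
    exact ⟨-a, V.neg_mem ha, b, hb, hUb, by rw [neg_div]⟩

section Lo

variable {𝒪 V : Subring F} {hV : ∀ w ∈ V, w ∈ 𝒪}

theorem Lo_le : ∀ w ∈ Lo 𝒪 V hV, w ∈ 𝒪 := by
  rintro x ⟨a, ha, b, hb, hUb, rfl⟩
  rw [div_eq_mul_inv]
  exact 𝒪.mul_mem (hV a ha) hUb.2.2

theorem le_Lo : ∀ w ∈ V, w ∈ Lo 𝒪 V hV :=
  fun w hw => ⟨w, hw, 1, V.one_mem, U_one, by simp⟩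

theorem Lo_U : ∀ w ∈ Lo 𝒪 V hV, U 𝒪 w → U (Lo 𝒪 V hV) w := by
  rintro w hw hU
  refine ⟨hU.1, hw, ?_⟩
  obtain ⟨a, ha, b, hb, hUb, rfl⟩ := hw
  have hUa : U 𝒪 a := by
    have : a = (a / b) * b := by
      have := hUb.1
      field_simp
    rw [this]
    exact hU.mul hUb
  exact ⟨b, hb, a, ha, hUa, by rw [inv_div]⟩

theorem U_Lo {w : F} (h : U (Lo 𝒪 V hV) w) : U 𝒪 w :=
  ⟨h.1, Lo_le _ h.2.1, Lo_le _ h.2.2⟩

theorem Lo_isLoc (h : IsLoc 𝒪) : IsLoc (Lo 𝒪 V hV) := by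
  intro x y hx hy hxy
  rcases h x y (Lo_le _ hx) (Lo_le _ hy) (U_Lo hxy) with h1 | h1
  · exact Or.inl (Lo_U _ hx h1)
  · exact Or.inr (Lo_U _ hy h1)

theorem Lo_isLocOf : IsLocOf (Lo 𝒪 V hV) (V : Set F) := by
  refine ⟨fun a ha => le_Lo a ha, ?_⟩
  rintro x ⟨a, ha, b, hb, hUb, rfl⟩
  exact ⟨a, ha, b, hb, Lo_U _ (le_Lo b hb) hUb, rfl⟩

end Lo

theorem main {R σ : Type} [CommRing R] [Algebra R F] [Finite σ]
    (𝒪 : Subring F) (hloc : IsLoc 𝒪) (𝒱₁ : Subalgebra R F) (e : ℕ) (he1 : 1 ≤ e)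
    (he : U 𝒪 (e : F)) (ξ : σ → F) (hξ : ∀ i, U 𝒪 (ξ i)) (hξe : ∀ i, ξ i ^ e ∈ 𝒱₁)
    (s : Finset σ)
    (hV0 : ∀ w ∈ (Algebra.adjoin R ((𝒱₁ : Set F) ∪ ξ '' ((∅ : Finset σ) : Set σ))).toSubring,
      w ∈ 𝒪)
    (hV : ∀ w ∈ (Algebra.adjoin R ((𝒱₁ : Set F) ∪ ξ '' (s : Set σ))).toSubring, w ∈ 𝒪)
    (hreg : IsRegularLocalRing (Lo 𝒪 _ hV0)) : IsRegularLocalRing (Lo 𝒪 _ hV) := by
  classical
  induction s using Finset.induction_on with
  | empty => exact hreg
  | insert i s hi ih =>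
    have hmono : Algebra.adjoin R ((𝒱₁ : Set F) ∪ ξ '' (s : Set σ)) ≤
        Algebra.adjoin R ((𝒱₁ : Set F) ∪ ξ '' ((insert i s : Finset σ) : Set σ)) := by
      apply Algebra.adjoin_mono
      apply Set.union_subset_union_right
      apply Set.image_mono
      intro j hj
      exact Finset.mem_insert_of_mem hj
    have hVs : ∀ w ∈ (Algebra.adjoin R ((𝒱₁ : Set F) ∪ ξ '' (s : Set σ))).toSubring, w ∈ 𝒪 :=
      fun w hw => hV w (hmono hw)
    have hO1 := ih hVs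
    have hξi : ξ i ∈ (Algebra.adjoin R
        ((𝒱₁ : Set F) ∪ ξ '' ((insert i s : Finset σ) : Set σ))).toSubring :=
      Algebra.subset_adjoin (Or.inr ⟨i, Finset.mem_insert_self i s, rfl⟩)
    have hV1 : ∀ w ∈ 𝒱₁, w ∈ (Algebra.adjoin R ((𝒱₁ : Set F) ∪ ξ '' (s : Set σ))).toSubring :=
      fun w hw => Algebra.subset_adjoin (Or.inl hw)
    have hle : ∀ w ∈ Lo 𝒪 _ hVs, w ∈ Lo 𝒪 _ hV := by
      rintro w ⟨a, ha, b, hb, hUb, rfl⟩
      exact ⟨a, hmono ha, b, hmono hb, hUb, rfl⟩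
    refine step (Lo 𝒪 _ hVs) (Lo 𝒪 _ hV) hle (Lo_isLoc hloc) (fun w hw hU => Lo_U w hw (U_Lo hU)) e
      he1 (Lo_U _ (le_Lo _ (natCast_mem _ e)) he) (ξ i) (Lo_U _ (le_Lo _ hξi) (hξ i))
      ⟨ξ i ^ e, le_Lo _ (hV1 _ (hξe i))⟩ rfl ?_ hO1
    have key : ∀ a ∈ Algebra.adjoin R ((𝒱₁ : Set F) ∪ ξ '' ((insert i s : Finset σ) : Set σ)),
        ∃ f : (Lo 𝒪 _ hVs)[X], a = aeval (ξ i) f := by
      intro a ha
      induction ha using Algebra.adjoin_induction with
      | mem x hx =>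
        rcases hx with hx | ⟨j, hj, rfl⟩
        · refine ⟨C ⟨x, le_Lo _ (hV1 _ hx)⟩, ?_⟩
          rw [aeval_C]
          rfl
        · rcases Finset.mem_insert.1 hj with rfl | hj
          · exact ⟨X, by rw [aeval_X]⟩
          · refine ⟨C ⟨ξ j, le_Lo _ (Algebra.subset_adjoin (Or.inr ⟨j, hj, rfl⟩))⟩, ?_⟩
            rw [aeval_C]
            rfl
      | algebraMap r =>
        refine ⟨C ⟨algebraMap R F r, le_Lo _ (Subalgebra.algebraMap_mem _ r)⟩, ?_⟩
        rw [aeval_C]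
        rfl
      | add x y _ _ hx hy =>
        obtain ⟨f, rfl⟩ := hx
        obtain ⟨g, rfl⟩ := hy
        exact ⟨f + g, by rw [map_add]⟩
      | mul x y _ _ hx hy =>
        obtain ⟨f, rfl⟩ := hx
        obtain ⟨g, rfl⟩ := hy
        exact ⟨f * g, by rw [map_mul]⟩
    rintro x ⟨a, ha, b, hb, hUb, rfl⟩
    obtain ⟨f, hf⟩ := key a ha
    obtain ⟨g, hg⟩ := key b hb
    refine ⟨f, g, ?_, ?_⟩
    · rw [← hg]
      exact Lo_U _ (le_Lo _ hb) hUb
    · rw [← hg, ← hf]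

end ETaux

open Pool.Agent.H918R2.Quad in
theorem ET_ok : S_ET := by
  intro R F σ _ _ _ _ 𝒪 hloc 𝒱₁ hV₁ e he1 he ξ hξ hξe hL
  have hsub : Algebra.adjoin R ((𝒱₁ : Set F) ∪ ξ '' ((∅ : Finset σ) : Set σ)) = 𝒱₁ := by
    rw [Finset.coe_empty, Set.image_empty, Set.union_empty, Algebra.adjoin_eq]
  have hV0 : ∀ w ∈ (Algebra.adjoin R ((𝒱₁ : Set F) ∪ ξ '' ((∅ : Finset σ) : Set σ))).toSubring,
      w ∈ 𝒪 := by
    intro w hw
    rw [hsub] at hw
    exact hV₁ w hw
  have hVu : ∀ w ∈ 𝒱₁.toSubring, w ∈ 𝒪 := hV₁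
  have : Fintype σ := Fintype.ofFinite σ
  have huniv : Algebra.adjoin R ((𝒱₁ : Set F) ∪ ξ '' ((Finset.univ : Finset σ) : Set σ)) =
      Algebra.adjoin R ((𝒱₁ : Set F) ∪ Set.range ξ) := by
    rw [Finset.coe_univ, Set.image_univ]
  have hV : ∀ w ∈ (Algebra.adjoin R
      ((𝒱₁ : Set F) ∪ ξ '' ((Finset.univ : Finset σ) : Set σ))).toSubring, w ∈ 𝒪 := by
    intro w hw
    rw [huniv] at hw
    exact hL.1 w hw
  refine ⟨ETaux.Lo 𝒪 _ hVu, ETaux.Lo_isLoc hloc, ETaux.Lo_le,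
    fun w hw => ETaux.le_Lo w hw, ETaux.Lo_U,
    ETaux.Lo_isLocOf, ?_⟩
  intro hreg
  have h0 : ETaux.Lo 𝒪 _ hV0 = ETaux.Lo 𝒪 _ hVu := by
    ext x
    constructor
    · rintro ⟨a, ha, b, hb, h⟩
      rw [hsub] at ha hb
      exact ⟨a, ha, b, hb, h⟩
    · rintro ⟨a, ha, b, hb, h⟩
      refine ⟨a, ?_, b, ?_, h⟩
      · rw [hsub]; exact ha
      · rw [hsub]; exact hb
  have h1 : ETaux.Lo 𝒪 _ hV = 𝒪 := by
    ext x
    constructor
    · exact ETaux.Lo_le x
    · intro hx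
      obtain ⟨a, ha, b, hb, hUb, h⟩ := hL.2 x hx
      refine ⟨a, ?_, b, ?_, hUb, h⟩
      · rw [huniv]; exact ha
      · rw [huniv]; exact hb
  have h2 := ETaux.main 𝒪 hloc 𝒱₁ e he1 he ξ hξ hξe Finset.univ hV0 hV (by rw [h0]; exact hreg)
  rw [h1] at h2
  exact h2

end Pool.Agent.H945R2.S
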