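import Pool.Agent.H945R2.S.Props

/-! Task INDZ (MP_4d1008_ag). -/

set_option autoImplicit false

open scoped Pointwise

namespace Pool.Agent.H945R2.S

open Pool.Agent.H918R2.Quad Pool.Agent.H945R2.D MvPolynomial

theorem INDZ_ok : S_INDZ := by
  intro R F σ _ _ _ _ x y hx hy
  have h : ∀ i, ∃ f : Polynomial R, Transcendental R f ∧ y i = Polynomial.aeval (x i) f := by
    intro i
    rcases hy i with h | ⟨r, e, hr, he, h⟩
    · exact ⟨Polynomial.X, Polynomial.transcendental_X R, by rw [h, Polynomial.aeval_X]⟩
    · refine ⟨Polynomial.C r * Polynomial.X ^ e, ?_, ?_⟩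
      · apply Polynomial.transcendental
        · rw [Polynomial.natDegree_C_mul_X_pow _ _ hr]
          omega
        · rw [Polynomial.leadingCoeff_C_mul_X_pow]
          exact mem_nonZeroDivisors_of_ne_zero hr
      · rw [h, map_mul, map_pow, Polynomial.aeval_C, Polynomial.aeval_X]
  choose f hf hfy using h
  have := hx.polynomial_aeval_of_transcendental hf
  have e : y = fun i => Polynomial.aeval (x i) (f i) := funext hfy
  rw [e]
  exact this

end Pool.Agent.H945R2.S
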