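import Pool.Agent.H945R2.S.Defs

/-! Statements of the tasks (MP_4d1008_ag, diagonal hypersurfaces of squarefree degree), part 1. -/

set_option autoImplicit false

open scoped Pointwise

namespace Pool.Agent.H945R2.S

open Pool.Agent.H918R2.Quad Pool.Agent.H945R2.D MvPolynomial

/-! ### Regularity lemmas -/

/-- RA2. Jacobian criterion with two relations. -/
def S_RA2 : Prop := ∀ {R A σ : Type} [CommRing R] [IsDomain R] [IsDiscreteValuationRing R]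
  [Finite σ] [CommRing A] (π : R), Irreducible π →
  ∀ (pr : MvPolynomial (Option σ) R →+* A), Function.Surjective pr →
  ∀ h E₁ E₂ : MvPolynomial (Option σ) R,
  RingHom.ker pr = Ideal.span {C π - X none * h, E₁, E₂} →
  ∀ (q : Ideal A) [q.IsPrime], pr (X none) ∈ q → ∀ i₁ i₂ : σ,
  pr (pderiv (some i₁) E₁ * pderiv (some i₂) E₂ -
    pderiv (some i₂) E₁ * pderiv (some i₁) E₂) ∉ q → IsRegularLocalRing (Localization.AtPrime q)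

/-- RLW. Regularity from a linear term; the variables in `ζ` are free. -/
def S_RLW : Prop := ∀ {R A τ ζ : Type} [CommRing R] [IsDomain R] [IsDiscreteValuationRing R]
  [Fintype τ] [Finite ζ] [CommRing A] (π : R), Irreducible π →
  ∀ (pr : MvPolynomial (Option (τ ⊕ ζ)) R →+* A), Function.Surjective pr →
  ∀ (h v : MvPolynomial (Option (τ ⊕ ζ)) R) (μ : τ → MvPolynomial (Option (τ ⊕ ζ)) R),
  RingHom.ker pr =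
    Ideal.span {C π - X none * h, X none * v + ∑ k, X (some (Sum.inl k)) * μ k} →
  ∀ (q : Ideal A) [q.IsPrime], pr (X none) ∈ q → (∀ k, pr (X (some (Sum.inl k))) ∈ q) →
  pr v ∉ q → IsRegularLocalRing (Localization.AtPrime q)

/-- A variable or `1`. -/
noncomputable def Yv {R κ σ : Type} [CommRing R] (ν : κ → Option σ) (k : κ) :
    MvPolynomial (Option σ) R :=
  (ν k).elim 1 (fun i => X (some i))

/-- BLRW. Regularity of the blow-up of a nondegenerate quadric. -/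
def S_BLRW : Prop := ∀ {R A κ σ : Type} [CommRing R] [IsDomain R] [IsDiscreteValuationRing R]
  [Fintype κ] [Finite σ] [CommRing A] (π : R), Irreducible π →
  ∀ (Q : κ → κ → R), RadI π Q → ∀ ν : κ → Option σ, Function.Injective ν →
  ∀ (pr : MvPolynomial (Option σ) R →+* A), Function.Surjective pr →
  ∀ h G : MvPolynomial (Option σ) R, RingHom.ker pr = Ideal.span {C π - X none * h,
    ∑ k, ∑ l, C (Q k l) * Yv ν k * Yv ν l + G} →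
  ∀ (q : Ideal A) [q.IsPrime], pr (X none) ∈ q → pr G ∈ q →
  (∀ k i, ν k = some i → pr (pderiv (some i) G) ∈ q) → (∃ k, pr (Yv ν k) ∉ q) →
  IsRegularLocalRing (Localization.AtPrime q)

/-- BL4. The same with an additional smooth relation. -/
def S_BL4 : Prop := ∀ {R A κ σ : Type} [CommRing R] [IsDomain R] [IsDiscreteValuationRing R]
  [Fintype κ] [Finite σ] [CommRing A] (π : R), Irreducible π →
  ∀ (Q : κ → κ → R), RadI π Q → ∀ ν : κ → Option σ, Function.Injective ν →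
  ∀ (pr : MvPolynomial (Option σ) R →+* A), Function.Surjective pr →
  ∀ h h₁ E₁ G : MvPolynomial (Option σ) R, RingHom.ker pr = Ideal.span {C π - X none * h,
    E₁ + X none * h₁, ∑ k, ∑ l, C (Q k l) * Yv ν k * Yv ν l + G} →
  ∀ (q : Ideal A) [q.IsPrime], pr (X none) ∈ q → pr G ∈ q →
  (∀ k i, ν k = some i → pr (pderiv (some i) G) ∈ q) → (∃ k, pr (Yv ν k) ∉ q) →
  ∀ i₁ : σ, pr (pderiv (some i₁) E₁) ∉ q →
  (∀ k i, ν k = some i → pr (pderiv (some i) E₁) ∈ q) →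
  IsRegularLocalRing (Localization.AtPrime q)

/-! ### Expansions -/

/-- EXACTZ. Exact Taylor formula (`∑ c_i = p σ`, `co_i c_i ^ (p-1) = δ_i + p κ_i`). -/
def S_EXACTZ : Prop := ∀ {R ι : Type} [CommRing R] [IsDomain R] [Fintype ι] (p : ℕ), p.Prime →
  p ≠ 2 → (p : R) ≠ 0 → ∀ (co : ι → R) (g : MvPolynomial ι R), GRel p co g →
  ∀ (c : ι → ℕ) (β : R), (p : R) * β = aeval (fun i => (c i : R)) g - ∑ i, (c i : R) →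
  ∀ σ : ℕ, ∑ i, c i = p * σ → ∀ κ δ : ι → R,
  (∀ i, co i * (c i : R) ^ (p - 1) = δ i + p * κ i) →
  ∀ {B : Type} [CommRing B] [Algebra R B] (η : ι → B), ∃ (ψ : ι → B) (ψ₀ : B),
    aeval (fun i => (c i : B) + η i) g = p * algebraMap R B β + ∑ i, (c i : B) +
      ∑ i, algebraMap R B (δ i) * η i +
      ((p - 1) / 2 : ℕ) * ∑ i, algebraMap R B (co i) * (c i : B) ^ (p - 2) * η i ^ 2 +
      p * ∑ i, algebraMap R B (κ i) * η i - (p : B) ^ (p - 1) * (σ : B) ^ (p - 1) * ∑ i, η i -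
      ((p - 1) / 2 : ℕ) * (p : B) ^ (p - 2) * (σ : B) ^ (p - 2) * (∑ i, η i) ^ 2 +
      ∑ i, algebraMap R B (co i) * η i ^ 3 * ψ i - (∑ i, η i) ^ 3 * ψ₀ + aeval η g

/-- TAYZ1. First order Taylor formula. -/
def S_TAYZ1 : Prop := ∀ {R ι : Type} [CommRing R] [IsDomain R] [Fintype ι] (p : ℕ)
  (co : ι → R) (g : MvPolynomial ι R), Coef p co g → ∀ (s : ι) (c : ι → ℕ) (β : R),
  SpZ p g s c β → ∀ {B : Type} [CommRing B] [Algebra R B] (J : Ideal B) (η : ι → B),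
  (∀ i, η i ∈ J) → aeval (fun i => (c i : B) + η i) g - (p * algebraMap R B β +
    ∑ i, ((c i : B) + η i) - ∑ i, (if c i = 0 then η i else 0)) ∈
      Ideal.span {(p : B)} * J ⊔ J ^ 2

/-- TAYZ2. Second order Taylor formula. -/
def S_TAYZ2 : Prop := ∀ {R ι : Type} [CommRing R] [IsDomain R] [Fintype ι] (p : ℕ)
  (co : ι → R) (g : MvPolynomial ι R), Coef p co g → ∀ (s : ι) (c : ι → ℕ) (β : R),
  SpZ p g s c β → ∀ κ : ι → R, (∀ i, c i ≠ 0 → co i * (c i : R) ^ (p - 1) = 1 + p * κ i) →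
  (∀ i, c i = 0 → κ i = 0) →
  ∀ {B : Type} [CommRing B] [Algebra R B] (𝔲 𝔱 : Ideal B) (η : ι → B), (p : B) ∈ 𝔲 →
  (∀ i, η i ∈ 𝔲 ⊔ 𝔱) →
  aeval (fun i => (c i : B) + η i) g - (p * algebraMap R B β +
    ∑ i, ((c i : B) + η i) - ∑ i, (if c i = 0 then η i else 0) +
      ((p - 1) / 2 : ℕ) * ∑ i, algebraMap R B (co i) * (c i : B) ^ (p - 2) * η i ^ 2 +
      p * ∑ i, algebraMap R B (κ i) * η i) ∈ 𝔲 ^ 3 ⊔ 𝔲 * 𝔱 ⊔ 𝔱 ^ 2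

/-- SUMZ. The coordinates `TcZ` sum to `l`. -/
def S_SUMZ : Prop := ∀ {ι B : Type} [Fintype ι] [DecidableEq ι] [CommRing B] (Z : Finset ι)
  (s d : ι), s ≠ d → s ∉ Z → d ∉ Z → ∀ (c : ι → B) (v : TT Z s d → B) (w : ZT Z → B) (l : B),
  (∑ i, TcZ Z s d c v w l i = l) ∧
    ∀ f : ι → B, ∑ i, f i = f s + f d + ∑ k : TT Z s d, f k + ∑ z : ZT Z, f z

/-- EXPLZ. First order expansion of the third relation. -/
def S_EXPLZ : Prop := ∀ {R ι : Type} [CommRing R] [IsDomain R] [Fintype ι] [DecidableEq ι] (p : ℕ)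
  (co : ι → R) (g : MvPolynomial ι R), Coef p co g → ∀ (s : ι) (c : ι → ℕ) (β : R),
  SpZ p g s c β → ∀ Z : Finset ι, (∀ i, i ∈ Z ↔ c i = 0) → ∀ d : ι, s ≠ d → d ∉ Z →
  ∀ {B : Type} [CommRing B] [Algebra R B] (a b : B) (v : TT Z s d → B) (w : ZT Z → B) (j : ℕ),
  j + 2 ≤ p → (p : B) = a ^ (j + 1) * b ^ j →
  ∃ (v₁ : B) (μ : TT Z s d → B) (μ' : ZT Z → B),
    TotZ p j g c Z s d a b v w = a * v₁ + ∑ k, v k * μ k + ∑ z, w z * μ' z ∧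
    v₁ - v0 p j b (algebraMap R B β) ∈ Ideal.span ({a} ∪ Set.range v ∪ Set.range w)

/-- EXPZ0. -/
def S_EXPZ0 : Prop := ∀ {R ι : Type} [CommRing R] [IsDomain R] [Fintype ι] [DecidableEq ι] (p : ℕ)
  (co : ι → R) (g : MvPolynomial ι R), Coef p co g → ∀ (s : ι) (c : ι → ℕ) (β : R),
  SpZ p g s c β → ∀ Z : Finset ι, (∀ i, i ∈ Z ↔ c i = 0) → ∀ d : ι, s ≠ d → d ∉ Z →
  ∃ (lα : R) (l : TT Z s d → R), ExpZ p co g c Z s d 0 β 1 lα l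

/-- EXPZJ. -/
def S_EXPZJ : Prop := ∀ {R ι : Type} [CommRing R] [IsDomain R] [Fintype ι] [DecidableEq ι] (p : ℕ)
  (co : ι → R) (g : MvPolynomial ι R), Coef p co g → ∀ (s : ι) (c : ι → ℕ) (β : R),
  SpZ p g s c β → ∀ Z : Finset ι, (∀ i, i ∈ Z ↔ c i = 0) → ∀ d : ι, s ≠ d → d ∉ Z →
  ∀ j : ℕ, 1 ≤ j → j + 2 ≤ p → ExpZ p co g c Z s d j 0 1 0 (fun _ => 0)

/-- EXPZB. -/
def S_EXPZB : Prop := ∀ {R ι : Type} [CommRing R] [IsDomain R] [Fintype ι] [DecidableEq ι] (p : ℕ)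
  (co : ι → R) (g : MvPolynomial ι R), Coef p co g → ∀ (s : ι) (c : ι → ℕ) (β : R),
  SpZ p g s c β → ∀ Z : Finset ι, (∀ i, i ∈ Z ↔ c i = 0) → ∀ d : ι, s ≠ d → d ∉ Z →
  ∃ (lα : R) (l : TT Z s d → R), ExpZ p co g c Z s d (p - 2) 1 (-1) lα l

/-- NDZ. The quadratic part is nondegenerate. -/
def S_NDZ : Prop := ∀ {R ι : Type} [CommRing R] [IsDomain R] [Fintype ι] [DecidableEq ι] (p : ℕ)
  (co : ι → R) (g : MvPolynomial ι R), Coef p co g → ∀ (s : ι) (c : ι → ℕ) (β : R),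
  SpZ p g s c β → ∀ Z : Finset ι, (∀ i, i ∈ Z ↔ c i = 0) → ∀ d : ι, s ≠ d → d ∉ Z →
  ∀ (v lα : R) (l : TT Z s d → R), IsUnit v →
    ∃ Q : KT Z s d → KT Z s d → R, RadI (p : R) Q ∧
      ∀ {B : Type} [CommRing B] [Algebra R B] (Y : KT Z s d → B),
        PhiZ p co c Z s d v lα l Y = ∑ k, ∑ k', algebraMap R B (Q k k') * Y k * Y k'

/-! ### Local subrings -/

/-- BLS1. -/
def S_BLS1 : Prop := ∀ {R F : Type} [CommRing R] [Field F] [Algebra R F] (𝒪 : Subring F),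
  IsLoc 𝒪 → ∀ 𝒲 : Subalgebra R F, (∀ w ∈ 𝒲, w ∈ 𝒪) → ∀ Φ Ψ : Set F, Pr 𝒪 Φ →
  ExcS 𝒲 𝒪 Φ Ψ → Pr 𝒪 Ψ

/-- BLS2. -/
def S_BLS2 : Prop := ∀ {R F : Type} [CommRing R] [Field F] [Algebra R F] (𝒪 : Subring F)
  (𝒲 𝒲' : Subalgebra R F), (∀ w ∈ 𝒲', w ∈ 𝒪) → 𝒲 ≤ 𝒲' → ∀ Φ Ψ : Set F,
  Prin 𝒲' 𝒪 Ψ → ExcS 𝒲 𝒪 Φ Ψ → Prin 𝒲' 𝒪 Φ

/-- ET. Adjoining `e`-th roots of units. -/
def S_ET : Prop := ∀ {R F σ : Type} [CommRing R] [Field F] [Algebra R F] [Finite σ]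
  (𝒪 : Subring F), IsLoc 𝒪 → ∀ 𝒱₁ : Subalgebra R F, (∀ w ∈ 𝒱₁, w ∈ 𝒪) → ∀ e : ℕ, 1 ≤ e →
  U 𝒪 (e : F) → ∀ ξ : σ → F, (∀ i, U 𝒪 (ξ i)) → (∀ i, ξ i ^ e ∈ 𝒱₁) →
  IsLocOf 𝒪 (Algebra.adjoin R ((𝒱₁ : Set F) ∪ Set.range ξ) : Set F) →
  ∃ 𝒪₁ : Subring F, IsLoc 𝒪₁ ∧ (∀ w ∈ 𝒪₁, w ∈ 𝒪) ∧ (∀ w ∈ 𝒱₁, w ∈ 𝒪₁) ∧
    (∀ w ∈ 𝒪₁, U 𝒪 w → U 𝒪₁ w) ∧ IsLocOf 𝒪₁ (𝒱₁ : Set F) ∧
    (IsRegularLocalRing 𝒪₁ → IsRegularLocalRing 𝒪)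

/-- SIM. -/
def S_SIM : Prop := ∀ {R F : Type} [CommRing R] [Field F] [Algebra R F] (𝒪 : Subring F),
  (∀ r : R, algebraMap R F r ∈ 𝒪) → ∀ Φ Φ' : Set F, Sim R Φ Φ' →
  (Pr 𝒪 Φ → Pr 𝒪 Φ') ∧ ∀ 𝒲 : Subalgebra R F, Prin 𝒲 𝒪 Φ' → Prin 𝒲 𝒪 Φ

/-- SCZ. Homogeneity of the factors. -/
def S_SCZ : Prop := ∀ {R F ι : Type} [CommRing R] [Field F] [Algebra R F] [Fintype ι]
  [LinearOrder ι] (p e h : ℕ), 1 ≤ p → 1 ≤ h → (e = 2 * h ∨ e = 2 * h + 1) →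
  ∀ (g : MvPolynomial ι R) (ξ t : ι → F) (lam Lam : F) (ν : Rˣ), lam ≠ 0 →
  Lam = lam ^ e * algebraMap R F ν →
  (∀ Φ, IsFacS p e h g (fun i => lam * ξ i) (fun i => Lam * t i) Φ →
    ∃ Φ', IsFacS p e h g ξ t Φ' ∧ Sim R Φ Φ') ∧
  ∀ Φ', IsFacS p e h g ξ t Φ' →
    ∃ Φ, IsFacS p e h g (fun i => lam * ξ i) (fun i => Lam * t i) Φ ∧ Sim R Φ Φ'

/-- The situation in the tables. -/
structure CtxZ {R F ι : Type} [CommRing R] [Field F] [Algebra R F] [Fintype ι]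
    (𝒲 : Subalgebra R F) (𝒪 : Subring F) (p e j : ℕ) (x t : ι → F) (s : ι) (a b : F) : Prop where
  loc : IsLoc 𝒪
  hW : ∀ w ∈ 𝒲, w ∈ 𝒪
  hx : ∀ i, x i ∈ 𝒲
  hxs : x s = 1
  ht : ∀ i, ∃ ρ ∈ 𝒲, t i = ρ * x i ^ e
  hs : t s = 1
  ha : a ∈ 𝒲
  hb : b ∈ 𝒲
  ha0 : a ≠ 0
  hb0 : b ≠ 0
  haU : ¬ U 𝒪 a
  hL : ∑ i, t i = a * b
  hp : (p : F) = a ^ (j + 1) * b ^ j
  hj : j < p

/-- TIZ. -/
def S_TIZ : Prop := ∀ {R F ι : Type} [CommRing R] [Field F] [Algebra R F] [Fintype ι]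
  (𝒲 : Subalgebra R F) (𝒪 : Subring F) (p e j : ℕ) (x t : ι → F) (s : ι) (a b : F),
  CtxZ 𝒲 𝒪 p e j x t s a b → Prin 𝒲 𝒪 (Set.range x) ∧ ∀ j', Prin 𝒲 𝒪 (Ifs p e x t j')

/-- TB0. -/
def S_TB0 : Prop := ∀ {R F ι : Type} [CommRing R] [Field F] [Algebra R F] [Fintype ι]
  (𝒲 : Subalgebra R F) (𝒪 : Subring F) (p e j : ℕ) (x t : ι → F) (s : ι) (a b : F),
  CtxZ 𝒲 𝒪 p e j x t s a b → ∀ (s' : ι) (c : ι → ℕ) (β : F), β ∈ 𝒲 →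
  (1 ≤ j ∨ U 𝒪 (b + β * t s') ∨ ∃ i, U 𝒪 (t i - (c i : F) * t s')) →
  PrinB 𝒲 𝒪 (B0 p e x t s' c β) (p : F)

/-- TBJ. -/
def S_TBJ : Prop := ∀ {R F ι : Type} [CommRing R] [Field F] [Algebra R F] [Fintype ι]
  (𝒲 : Subalgebra R F) (𝒪 : Subring F) (p e j : ℕ) (x t : ι → F) (s : ι) (a b : F),
  CtxZ 𝒲 𝒪 p e j x t s a b → ∀ (s' : ι) (c : ι → ℕ) (j' : ℕ),
  (j' ≠ j ∨ U 𝒪 b ∨ ∃ i, U 𝒪 (t i - (c i : F) * t s')) →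
  PrinB 𝒲 𝒪 (Bj p e x t s' c j') ((p : F) * (∑ i, t i) ^ j')

/-- TBL. -/
def S_TBL : Prop := ∀ {R F ι : Type} [CommRing R] [Field F] [Algebra R F] [Fintype ι]
  (𝒲 : Subalgebra R F) (𝒪 : Subring F) (p e j : ℕ) (x t : ι → F) (s : ι) (a b : F),
  CtxZ 𝒲 𝒪 p e j x t s a b → 2 ≤ p → ∀ (s' : ι) (c : ι → ℕ),
  (j + 2 ≠ p ∨ U 𝒪 (t s' ^ (p - 1) + b) ∨ ∃ i, U 𝒪 (t i - (c i : F) * t s')) →
  PrinB 𝒲 𝒪 (Bl p e x t s' c) (p : F)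

/-- DER. The derived factors at the non exceptional points. -/
def S_DER : Prop := ∀ {R F : Type} [CommRing R] [Field F] [Algebra R F] (𝒲 : Subalgebra R F)
  (𝒪 : Subring F), (∀ w ∈ 𝒲, w ∈ 𝒪) → ∀ (B V Y : Set F) (μ f : F) (n h k : ℕ),
  (∀ y ∈ V, y ∈ 𝒲) → (∀ y ∈ Y, y ∈ 𝒲) → f ∈ 𝒲 → PrinB 𝒲 𝒪 B μ →
  Prin 𝒲 𝒪 (Nd B μ V Y n k) ∧ Prin 𝒲 𝒪 (Cd B μ f V Y n h)

/-- XB0. -/
def S_XB0 : Prop := ∀ {R F ι : Type} [CommRing R] [Field F] [Algebra R F] [Fintype ι]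
  [DecidableEq ι] (𝒲 : Subalgebra R F) (𝒪 : Subring F) (p e : ℕ) (x t : ι → F) (s d : ι)
  (a b : F), CtxZ 𝒲 𝒪 p e 0 x t s a b → s ≠ d → ∀ c : ι → ℕ, p ∣ ∑ i, c i → c s = 1 →
  ∀ Z : Finset ι, (∀ i, i ∈ Z ↔ c i = 0) → d ∉ Z → ∀ β : F, β ∈ 𝒲 →
  ExcB 𝒲 𝒪 (B0 p e x t s c β) (p : F)
    (Set.range (zq a (b + β) t c : KT Z s d → F)) (Yc x c) e

/-- XBJ. -/
def S_XBJ : Prop := ∀ {R F ι : Type} [CommRing R] [Field F] [Algebra R F] [Fintype ι]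
  [DecidableEq ι] (𝒲 : Subalgebra R F) (𝒪 : Subring F) (p e j : ℕ) (x t : ι → F) (s d : ι)
  (a b : F), CtxZ 𝒲 𝒪 p e j x t s a b → s ≠ d → ∀ c : ι → ℕ, p ∣ ∑ i, c i → c s = 1 →
  ∀ Z : Finset ι, (∀ i, i ∈ Z ↔ c i = 0) → d ∉ Z →
  ExcB 𝒲 𝒪 (Bj p e x t s c j) ((p : F) * (∑ i, t i) ^ j)
    (Set.range (zq a b t c : KT Z s d → F)) (Yc x c) e

/-- XBL. -/
def S_XBL : Prop := ∀ {R F ι : Type} [CommRing R] [Field F] [Algebra R F] [Fintype ι]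
  [DecidableEq ι] (𝒲 : Subalgebra R F) (𝒪 : Subring F) (p e j : ℕ) (x t : ι → F) (s d : ι)
  (a b : F), CtxZ 𝒲 𝒪 p e j x t s a b → s ≠ d → j + 2 = p → U 𝒪 b →
  ∀ c : ι → ℕ, p ∣ ∑ i, c i → c s = 1 →
  ∀ Z : Finset ι, (∀ i, i ∈ Z ↔ c i = 0) → d ∉ Z →
  ExcB 𝒲 𝒪 (Bl p e x t s c) (p : F)
    (Set.range (zq a (b + 1) t c : KT Z s d → F)) (Yc x c) e

/-- EN. -/
def S_EN : Prop := ∀ {R F : Type} [CommRing R] [Field F] [Algebra R F] (𝒲 : Subalgebra R F)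
  (𝒪 : Subring F), (∀ w ∈ 𝒲, w ∈ 𝒪) → ∀ (B Q V Y : Set F) (μ : F) (e n k : ℕ), μ ≠ 0 →
  (∀ y ∈ V, y ∈ 𝒲) → (∀ y ∈ Y, y ∈ 𝒲) → (1 : F) ∈ V → ExcB 𝒲 𝒪 B μ Q Y e → k ≤ e →
  ExcS 𝒲 𝒪 (Nd B μ V Y n k) (NS Q Y k)

/-- EC. -/
def S_EC : Prop := ∀ {R F : Type} [CommRing R] [Field F] [Algebra R F] (𝒲 : Subalgebra R F)
  (𝒪 : Subring F), (∀ w ∈ 𝒲, w ∈ 𝒪) → ∀ (B Q V Y : Set F) (μ f : F) (n h : ℕ), μ ≠ 0 →
  (∀ y ∈ V, y ∈ 𝒲) → (∀ y ∈ Y, y ∈ 𝒲) → (1 : F) ∈ V → ExcB 𝒲 𝒪 B μ Q Y (2 * h + 1) →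
  (∀ q ∈ Q, q ∈ 𝒲) → ExcS 𝒲 𝒪 (Cd B μ f V Y n h) (CS Q Y f h)

/-- QS. The charts of the resolution of `Q(q) = f(y)`. -/
def S_QS : Prop := ∀ {F κ ζ : Type} [Field F] (𝒪 : Subring F), IsLoc 𝒪 →
  ∀ (q : κ → F) (y : ζ → F) (f : F) (h e : ℕ), 1 ≤ h →
  (∀ m, q m ∈ 𝒪 ∧ ¬ U 𝒪 (q m)) → (∀ z, y z ∈ 𝒪 ∧ ¬ U 𝒪 (y z)) →
  (∀ z₀, y z₀ ≠ 0 → (∀ z, y z / y z₀ ∈ 𝒪) → f / y z₀ ^ e ∈ 𝒪) →
  (∀ k, 1 ≤ k → k ≤ h → Pr 𝒪 (NS (Set.range q) (Set.range y) k)) →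
  (e = 2 * h ∨ (e = 2 * h + 1 ∧ Pr 𝒪 (CS (Set.range q) (Set.range y) f h))) →
  (∃ l, C1 𝒪 q y l) ∨
  (∃ k z₀ l, 1 ≤ k ∧ k < h ∧ C2 𝒪 q y k z₀ l) ∨
  (∃ k z₀, 1 ≤ k ∧ k ≤ h ∧ (k < h ∨ e = 2 * h + 1) ∧ C3 𝒪 q y k z₀ ∧
    ∃ m, U 𝒪 (q m / y z₀ ^ k)) ∨
  (∃ z₀, e = 2 * h ∧ C3 𝒪 q y h z₀) ∨
  (∃ z₀, e = 2 * h + 1 ∧ C3 𝒪 q y h z₀ ∧ (∀ m, ¬ U 𝒪 (q m / y z₀ ^ h)) ∧
    U 𝒪 (f / y z₀ ^ e)) ∨
  (∃ z₀ k₁, e = 2 * h + 1 ∧ C3 𝒪 q y h z₀ ∧ (∀ m, ¬ U 𝒪 (q m / y z₀ ^ h)) ∧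
    ¬ U 𝒪 (f / y z₀ ^ e) ∧ zst q y f h e z₀ k₁ ≠ 0 ∧
    ∀ k, zst q y f h e z₀ k / zst q y f h e z₀ k₁ ∈ 𝒪)

/-- All ideals are principal. -/
def PTC {R F κ ζ : Type} [CommRing R] [Field F] [Algebra R F] (𝒱 : Subalgebra R F)
    (𝒪 : Subring F) (q : κ → F) (y : ζ → F) (f : F) (h e : ℕ) : Prop :=
  (∀ m, q m ∈ 𝒱) ∧ (∀ z, y z ∈ 𝒱) ∧
    (∀ k, 1 ≤ k → k ≤ h → Prin 𝒱 𝒪 (NS (Set.range q) (Set.range y) k)) ∧
    (e = 2 * h + 1 → Prin 𝒱 𝒪 (CS (Set.range q) (Set.range y) f h))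

/-- PT1. -/
def S_PT1 : Prop := ∀ {R F κ ζ : Type} [CommRing R] [Field F] [Algebra R F] [Fintype ζ]
  (𝒱 : Subalgebra R F) (𝒪 : Subring F), (∀ w ∈ 𝒱, w ∈ 𝒪) → ∀ (q : κ → F) (y : ζ → F)
  (r : ζ → R) (h e : ℕ), 1 ≤ h → (e = 2 * h ∨ e = 2 * h + 1) → ∀ l, C1 𝒪 q y l →
  (∀ w ∈ G1 q y l, w ∈ 𝒱) → PTC 𝒱 𝒪 q y (fY y r e) h e

/-- PT2. -/
def S_PT2 : Prop := ∀ {R F κ ζ : Type} [CommRing R] [Field F] [Algebra R F] [Fintype ζ]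
  (𝒱 : Subalgebra R F) (𝒪 : Subring F), (∀ w ∈ 𝒱, w ∈ 𝒪) → ∀ (q : κ → F) (y : ζ → F)
  (r : ζ → R) (h e : ℕ), 1 ≤ h → (e = 2 * h ∨ e = 2 * h + 1) → ∀ k z₀ l, 1 ≤ k → k < h →
  C2 𝒪 q y k z₀ l → (∀ w ∈ G2 q y k z₀ l, w ∈ 𝒱) → PTC 𝒱 𝒪 q y (fY y r e) h e

/-- PT3. -/
def S_PT3 : Prop := ∀ {R F κ ζ : Type} [CommRing R] [Field F] [Algebra R F] [Fintype ζ]
  (𝒱 : Subalgebra R F) (𝒪 : Subring F), (∀ w ∈ 𝒱, w ∈ 𝒪) → ∀ (q : κ → F) (y : ζ → F)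
  (r : ζ → R) (h e : ℕ), 1 ≤ h → (e = 2 * h ∨ e = 2 * h + 1) → ∀ k z₀, 1 ≤ k → k ≤ h →
  C3 𝒪 q y k z₀ → ((∃ m, U 𝒪 (q m / y z₀ ^ k)) ∨
    (k = h ∧ (e = 2 * h ∨ U 𝒪 (fY y r e / y z₀ ^ e)))) →
  (∀ w ∈ G3 q y k z₀, w ∈ 𝒱) → PTC 𝒱 𝒪 q y (fY y r e) h e

/-- PT4. -/
def S_PT4 : Prop := ∀ {R F κ ζ : Type} [CommRing R] [Field F] [Algebra R F] [Fintype ζ]
  (𝒱 : Subalgebra R F) (𝒪 : Subring F), (∀ w ∈ 𝒱, w ∈ 𝒪) → ∀ (q : κ → F) (y : ζ → F)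
  (r : ζ → R) (h e : ℕ), 1 ≤ h → e = 2 * h + 1 → ∀ z₀ k₁, C3 𝒪 q y h z₀ →
  zst q y (fY y r e) h e z₀ k₁ ≠ 0 →
  (∀ k, zst q y (fY y r e) h e z₀ k / zst q y (fY y r e) h e z₀ k₁ ∈ 𝒪) →
  (∀ w ∈ G4 q y (fY y r e) h e z₀ k₁, w ∈ 𝒱) → PTC 𝒱 𝒪 q y (fY y r e) h e

/-! ### Presentations -/

/-- The data of a chart; `y` are the mixed coordinates (`ξ_i` for `i ∈ Z`, `t_i` for `i ∉ Z`). -/
structure DataZ {R F ι : Type} [CommRing R] [Field F] [Algebra R F] [Fintype ι] [DecidableEq ι]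
    (𝒪 : Subring F) (p e j : ℕ) (co r : ι → R) (g : MvPolynomial ι R) (Z : Finset ι)
    (y : ι → F) (s : ι) (a b : F) : Prop where
  loc : IsLoc 𝒪
  hR : ∀ r : R, algebraMap R F r ∈ 𝒪
  coef : Coef p co g
  irr : Irreducible (p : R)
  he : 2 ≤ e
  heU : IsUnit (e : R)
  hr : ∀ i, IsUnit (r i)
  hsZ : s ∉ Z
  hs : y s = 1
  hy : ∀ i, y i ∈ 𝒪
  hyZ : ∀ i ∈ Z, ¬ U 𝒪 (y i)
  ha : a ∈ 𝒪
  hb : b ∈ 𝒪
  ha0 : a ≠ 0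
  hb0 : b ≠ 0
  haU : ¬ U 𝒪 a
  hj : j < p
  hL : ∑ i, Tz Z r e y i = a * b
  hp : (p : F) = a ^ (j + 1) * b ^ j
  hG : aeval (Tz Z r e y) g + a ^ (p - 1 - j) * b ^ (p - j) = 0
  hind : ∃ j₀ : {i : ι // i ≠ s},
    AlgebraicIndependent R (fun i : {i : {i : ι // i ≠ s} // i ≠ j₀} => y i)

/-- PREZ. Regularity from a presentation of a chart. -/
def S_PREZ : Prop := ∀ {R F ι W A : Type} [CommRing R] [IsDomain R] [IsDiscreteValuationRing R]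
  [Field F] [Algebra R F] [Fintype ι] [DecidableEq ι] [CommRing W] [Algebra R W] [CommRing A]
  [Algebra R A] (𝒪 : Subring F) (p e j : ℕ) (co r : ι → R) (g : MvPolynomial ι R)
  (Z : Finset ι) (y : ι → F) (s : ι) (a b : F), DataZ 𝒪 p e j co r g Z y s a b →
  ∀ (pr : W →ₐ[R] A), Function.Surjective pr →
  ∀ eW : W →ₐ[R] F, (∀ w, pr w = 0 → eW w = 0) → (∀ w, eW w ∈ 𝒪) →
  IsLocOf 𝒪 (eW.range : Set F) → ∀ (Y : ι → W) (a' b' : W), (∀ i, eW (Y i) = y i) → eW a' = a →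
  eW b' = b → Y s = 1 → pr (∑ i, Tz Z r e Y i) = pr (a' * b') →
  pr (p : W) = pr (a' ^ (j + 1) * b' ^ j) →
  pr (aeval (Tz Z r e Y) g + a' ^ (p - 1 - j) * b' ^ (p - j)) = 0 →
  (∀ w, Frc pr eW (fun i : {i : ι // i ≠ s} => Y i) w) →
  (∀ (q : Ideal A) [q.IsPrime], (∀ w, pr w ∈ q ↔ ¬ U 𝒪 (eW w)) →
    IsRegularLocalRing (Localization.AtPrime q)) → IsRegularLocalRing 𝒪

/-- FABZ. The parameters `a`, `b` are fractions of polynomials in the coordinates. -/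
def S_FABZ : Prop := ∀ {R F ι W A : Type} [CommRing R]
  [Field F] [Algebra R F] [Fintype ι] [DecidableEq ι] [CommRing W] [Algebra R W] [CommRing A]
  [Algebra R A] (𝒪 : Subring F) (p e j : ℕ) (co r : ι → R) (g : MvPolynomial ι R)
  (Z : Finset ι) (y : ι → F) (s : ι) (a b : F), DataZ 𝒪 p e j co r g Z y s a b →
  ∀ (pr : W →ₐ[R] A) (eW : W →ₐ[R] F),
  (∀ w, pr w = 0 → eW w = 0) → ∀ (Y : ι → W) (a' b' : W), (∀ i, eW (Y i) = y i) → eW a' = a →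
  eW b' = b → Y s = 1 → pr (∑ i, Tz Z r e Y i) = pr (a' * b') →
  pr (p : W) = pr (a' ^ (j + 1) * b' ^ j) →
  Frc pr eW (fun i : {i : ι // i ≠ s} => Y i) a' ∧ Frc pr eW (fun i : {i : ι // i ≠ s} => Y i) b' ∧
    ∀ i, Frc pr eW (fun i : {i : ι // i ≠ s} => Y i) (Y i)

/-- CH1Z. Regularity at the points which are regular on the fibre, and in the last chart. -/
def S_CH1Z : Prop := ∀ {R F ι : Type} [CommRing R] [IsDomain R] [IsDiscreteValuationRing R]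
  [Field F] [Algebra R F] [Fintype ι] [DecidableEq ι] (𝒪 : Subring F) (p e j : ℕ) (co r : ι → R)
  (g : MvPolynomial ι R) (Z : Finset ι) (y : ι → F) (s d : ι) (a b : F),
  DataZ 𝒪 p e j co r g Z y s a b → s ≠ d → d ∉ Z →
  IsLocOf 𝒪 (Algebra.adjoin R ({a, b} ∪ Set.range y) : Set F) →
  (j + 1 = p ∨ ∃ i, i ∉ Z ∧ i ≠ s ∧ i ≠ d ∧ U 𝒪 (y i ^ (p - 1) - y d ^ (p - 1))) →
  IsRegularLocalRing 𝒪

/-- CH2Z. Regularity at the regular points over a special point. -/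
def S_CH2Z : Prop := ∀ {R F ι : Type} [CommRing R] [IsDomain R] [IsDiscreteValuationRing R]
  [Field F] [Algebra R F] [Fintype ι] [DecidableEq ι] (𝒪 : Subring F) (p e j : ℕ) (co r : ι → R)
  (g : MvPolynomial ι R) (Z : Finset ι) (y : ι → F) (s d : ι) (a b : F),
  DataZ 𝒪 p e j co r g Z y s a b → s ≠ d → d ∉ Z →
  ∀ (c : ι → ℕ) (β : R), SpZ p g s c β → (∀ i, i ∈ Z ↔ c i = 0) → j + 2 ≤ p →
  IsLocOf 𝒪 (Algebra.adjoin R ({a, b} ∪ Set.range y) : Set F) →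
  (∀ i, i ∉ Z → ¬ U 𝒪 (y i - (c i : F))) → U 𝒪 (v0 p j b (algebraMap R F β)) →
  IsRegularLocalRing 𝒪

/-- The situation at a singular point. -/
structure QCtx {R F ι : Type} [CommRing R] [Field F] [Algebra R F] [Fintype ι] [DecidableEq ι]
    (𝒪 : Subring F) (p e h j : ℕ) (co r : ι → R) (g : MvPolynomial ι R) (Z : Finset ι)
    (y : ι → F) (s d : ι) (a b : F) (c : ι → ℕ) (β b₀ : R) : Prop where
  data : DataZ 𝒪 p e j co r g Z y s a b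
  hh : 1 ≤ h
  heh : e = 2 * h ∨ e = 2 * h + 1
  hd : s ≠ d
  hdZ : d ∉ Z
  spec : SpZ p g s c β
  hZ : ∀ i, i ∈ Z ↔ c i = 0
  kind : Kind p j β b₀
  hq : ∀ l, (zq a (b + algebraMap R F b₀) y c : KT Z s d → F) l ∈ 𝒪 ∧
    ¬ U 𝒪 ((zq a (b + algebraMap R F b₀) y c : KT Z s d → F) l)

/-- `W` is generated by `S` up to division. -/
def Gen {R F W A : Type} [CommRing R] [Field F] [Algebra R F] [CommRing W] [Algebra R W]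
    [CommRing A] [Algebra R A] (pr : W →ₐ[R] A) (eW : W →ₐ[R] F) (S : Set W) : Prop :=
  ∀ P : W → Prop, (∀ r : R, P (algebraMap R W r)) → (∀ w ∈ S, P w) →
    (∀ w w', P w → P w' → P (w + w')) → (∀ w w', P w → P w' → P (w * w')) →
    (∀ w w', pr w = pr w' → P w → P w') → (∀ w w', eW w ≠ 0 → P w → P (w * w') → P w') →
    ∀ w, P w

/-- QPRE. Regularity from a presentation at a singular point. -/
def S_QPRE : Prop := ∀ {R F ι W A : Type} [CommRing R] [IsDomain R] [IsDiscreteValuationRing R]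
  [Field F] [Algebra R F] [Fintype ι] [DecidableEq ι] [CommRing W] [Algebra R W] [CommRing A]
  [Algebra R A] (𝒪 : Subring F) (p e h j : ℕ)
  (co r : ι → R) (g : MvPolynomial ι R) (Z : Finset ι) (y : ι → F) (s d : ι) (a b : F)
  (c : ι → ℕ) (β b₀ : R), QCtx 𝒪 p e h j co r g Z y s d a b c β b₀ →
  ∀ (pr : W →ₐ[R] A), Function.Surjective pr →
  ∀ eW : W →ₐ[R] F, (∀ w, pr w = 0 → eW w = 0) → (∀ w, eW w ∈ 𝒪) →
  IsLocOf 𝒪 (eW.range : Set F) → ∀ (Yq : KT Z s d → W) (Yy : ZT Z → W),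
  (∀ m, eW (Yq m) = (zq a (b + algebraMap R F b₀) y c : KT Z s d → F) m) →
  (∀ z : ZT Z, eW (Yy z) = y z) →
  pr (p : W) = pr (Yq none ^ (j + 1) * (Yq (some none) - algebraMap R W b₀) ^ j) →
  pr (TotZ p j g c Z s d (Yq none) (Yq (some none) - algebraMap R W b₀)
    (fun k => Yq (some (some k))) (fun z => algebraMap R W (r z) * Yy z ^ e)) = 0 →
  Gen pr eW (Set.range Yq ∪ Set.range Yy) →
  (∀ (q : Ideal A) [q.IsPrime], (∀ w, pr w ∈ q ↔ ¬ U 𝒪 (eW w)) →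
    IsRegularLocalRing (Localization.AtPrime q)) → IsRegularLocalRing 𝒪

/-- QTF. The third relation at a singular point. -/
def S_QTF : Prop := ∀ {R F ι : Type} [CommRing R] [IsDomain R] [IsDiscreteValuationRing R]
  [Field F] [Algebra R F] [Fintype ι] [DecidableEq ι] (𝒪 : Subring F) (p e h j : ℕ)
  (co r : ι → R) (g : MvPolynomial ι R) (Z : Finset ι) (y : ι → F) (s d : ι) (a b : F)
  (c : ι → ℕ) (β b₀ : R), QCtx 𝒪 p e h j co r g Z y s d a b c β b₀ →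
  ∀ (q : KT Z s d → F), q = zq a (b + algebraMap R F b₀) y c →
  q none ≠ 0 ∧ (p : F) = q none ^ (j + 1) * (q (some none) - algebraMap R F b₀) ^ j ∧
  TotZ p j g c Z s d (q none) (q (some none) - algebraMap R F b₀)
    (fun k => q (some (some k))) (fun z : ZT Z => algebraMap R F (r z) * y z ^ e) = 0

/-- QEX. The expansion of the third relation. -/
def S_QEX : Prop := ∀ {R ι : Type} [CommRing R] [IsDomain R] [Fintype ι] [DecidableEq ι] (p : ℕ)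
  (co : ι → R) (g : MvPolynomial ι R), Coef p co g → ∀ (s : ι) (c : ι → ℕ) (β : R),
  SpZ p g s c β → ∀ Z : Finset ι, (∀ i, i ∈ Z ↔ c i = 0) → ∀ d : ι, s ≠ d → d ∉ Z →
  ∀ (j : ℕ) (b₀ : R), Kind p j β b₀ →
  ∃ Q : KT Z s d → KT Z s d → R, RadI (p : R) Q ∧
    ∀ {B : Type} [CommRing B] [Algebra R B] (Y : KT Z s d → B) (w : ZT Z → B),
      (p : B) = Y none ^ (j + 1) * (Y (some none) - algebraMap R B b₀) ^ j →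
      TotZ p j g c Z s d (Y none) (Y (some none) - algebraMap R B b₀)
          (fun k => Y (some (some k))) w -
        (∑ k, ∑ k', algebraMap R B (Q k k') * Y k * Y k' - ∑ z, w z) ∈
        Ideal.span (Set.range Y) ^ 3 ⊔ Ideal.span (Set.range Y) * Ideal.span (Set.range w) ⊔
          Ideal.span (Set.range w) ^ 2

/-- QC1. -/
def S_QC1 : Prop := ∀ {R F ι : Type} [CommRing R] [IsDomain R] [IsDiscreteValuationRing R]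
  [Field F] [Algebra R F] [Fintype ι] [DecidableEq ι] (𝒪 : Subring F) (p e h j : ℕ)
  (co r : ι → R) (g : MvPolynomial ι R) (Z : Finset ι) (y : ι → F) (s d : ι) (a b : F)
  (c : ι → ℕ) (β b₀ : R), QCtx 𝒪 p e h j co r g Z y s d a b c β b₀ →
  ∀ (q : KT Z s d → F) (η : ZT Z → F), q = zq a (b + algebraMap R F b₀) y c → η = (fun z : ZT Z => y z) →
  ∀ l, C1 𝒪 q η l → IsLocOf 𝒪 (Algebra.adjoin R (G1 q η l) : Set F) → IsRegularLocalRing 𝒪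

/-- QC2. -/
def S_QC2 : Prop := ∀ {R F ι : Type} [CommRing R] [IsDomain R] [IsDiscreteValuationRing R]
  [Field F] [Algebra R F] [Fintype ι] [DecidableEq ι] (𝒪 : Subring F) (p e h j : ℕ)
  (co r : ι → R) (g : MvPolynomial ι R) (Z : Finset ι) (y : ι → F) (s d : ι) (a b : F)
  (c : ι → ℕ) (β b₀ : R), QCtx 𝒪 p e h j co r g Z y s d a b c β b₀ →
  ∀ (q : KT Z s d → F) (η : ZT Z → F), q = zq a (b + algebraMap R F b₀) y c → η = (fun z : ZT Z => y z) →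
  ∀ k z₀ l, 1 ≤ k → k < h → C2 𝒪 q η k z₀ l →
  IsLocOf 𝒪 (Algebra.adjoin R (G2 q η k z₀ l) : Set F) → IsRegularLocalRing 𝒪

/-- QC3. -/
def S_QC3 : Prop := ∀ {R F ι : Type} [CommRing R] [IsDomain R] [IsDiscreteValuationRing R]
  [Field F] [Algebra R F] [Fintype ι] [DecidableEq ι] (𝒪 : Subring F) (p e h j : ℕ)
  (co r : ι → R) (g : MvPolynomial ι R) (Z : Finset ι) (y : ι → F) (s d : ι) (a b : F)
  (c : ι → ℕ) (β b₀ : R), QCtx 𝒪 p e h j co r g Z y s d a b c β b₀ →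
  ∀ (q : KT Z s d → F) (η : ZT Z → F), q = zq a (b + algebraMap R F b₀) y c → η = (fun z : ZT Z => y z) →
  ∀ k z₀, 1 ≤ k → k ≤ h → (k < h ∨ e = 2 * h + 1) → C3 𝒪 q η k z₀ →
  (∃ m, U 𝒪 (q m / η z₀ ^ k)) →
  IsLocOf 𝒪 (Algebra.adjoin R (G3 q η k z₀) : Set F) → IsRegularLocalRing 𝒪

/-- QC4. -/
def S_QC4 : Prop := ∀ {R F ι : Type} [CommRing R] [IsDomain R] [IsDiscreteValuationRing R]
  [Field F] [Algebra R F] [Fintype ι] [DecidableEq ι] (𝒪 : Subring F) (p e h j : ℕ)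
  (co r : ι → R) (g : MvPolynomial ι R) (Z : Finset ι) (y : ι → F) (s d : ι) (a b : F)
  (c : ι → ℕ) (β b₀ : R), QCtx 𝒪 p e h j co r g Z y s d a b c β b₀ →
  ∀ (q : KT Z s d → F) (η : ZT Z → F), q = zq a (b + algebraMap R F b₀) y c → η = (fun z : ZT Z => y z) →
  ∀ f : F, f = fY η (fun z : ZT Z => r z) e →
  ∀ z₀ k₁, e = 2 * h + 1 → C3 𝒪 q η h z₀ → (∀ k, ¬ U 𝒪 (zst q η f h e z₀ k)) →
  zst q η f h e z₀ k₁ ≠ 0 → (∀ k, zst q η f h e z₀ k / zst q η f h e z₀ k₁ ∈ 𝒪) →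
  IsLocOf 𝒪 (Algebra.adjoin R (G4 q η f h e z₀ k₁) : Set F) → IsRegularLocalRing 𝒪

/-- QC5. -/
def S_QC5 : Prop := ∀ {R F ι : Type} [CommRing R] [IsDomain R] [IsDiscreteValuationRing R]
  [Field F] [Algebra R F] [Fintype ι] [DecidableEq ι] (𝒪 : Subring F) (p e h j : ℕ)
  (co r : ι → R) (g : MvPolynomial ι R) (Z : Finset ι) (y : ι → F) (s d : ι) (a b : F)
  (c : ι → ℕ) (β b₀ : R), QCtx 𝒪 p e h j co r g Z y s d a b c β b₀ →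
  ∀ (q : KT Z s d → F) (η : ZT Z → F), q = zq a (b + algebraMap R F b₀) y c → η = (fun z : ZT Z => y z) →
  ∀ f : F, f = fY η (fun z : ZT Z => r z) e →
  ∀ z₀, e = 2 * h + 1 → C3 𝒪 q η h z₀ → (∀ m, ¬ U 𝒪 (q m / η z₀ ^ h)) →
  U 𝒪 (f / η z₀ ^ e) →
  IsLocOf 𝒪 (Algebra.adjoin R (G3 q η h z₀) : Set F) → IsRegularLocalRing 𝒪

/-- QC6. -/
def S_QC6 : Prop := ∀ {R F ι : Type} [CommRing R] [IsDomain R] [IsDiscreteValuationRing R]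
  [Field F] [Algebra R F] [Fintype ι] [DecidableEq ι] (𝒪 : Subring F) (p e h j : ℕ)
  (co r : ι → R) (g : MvPolynomial ι R) (Z : Finset ι) (y : ι → F) (s d : ι) (a b : F)
  (c : ι → ℕ) (β b₀ : R), QCtx 𝒪 p e h j co r g Z y s d a b c β b₀ →
  ∀ (q : KT Z s d → F) (η : ZT Z → F), q = zq a (b + algebraMap R F b₀) y c → η = (fun z : ZT Z => y z) →
  ∀ z₀, e = 2 * h → C3 𝒪 q η h z₀ →
  IsLocOf 𝒪 (Algebra.adjoin R (G3 q η h z₀) : Set F) → IsRegularLocalRing 𝒪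

/-- INDZ. Algebraic independence of the mixed coordinates. -/
def S_INDZ : Prop := ∀ {R F σ : Type} [CommRing R] [IsDomain R] [Field F] [Algebra R F]
  (x y : σ → F), AlgebraicIndependent R x →
  (∀ i, y i = x i ∨ ∃ (r : R) (e : ℕ), r ≠ 0 ∧ 1 ≤ e ∧ y i = algebraMap R F r * x i ^ e) →
  AlgebraicIndependent R y

end Pool.Agent.H945R2.S
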