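import Pool.Agent.H945R2.S.Props

/-! Statements of the tasks, second part: local theorem, family of factors, good primes, global
model. -/

set_option autoImplicit false

open scoped Pointwise

namespace Pool.Agent.H945R2.S

open Pool.Agent.H918R2.Quad Pool.Agent.H945R2.D MvPolynomial

/-- The local situation. -/
structure LocS {R F ι : Type} [CommRing R] [Field F] [Algebra R F] [Fintype ι]
    (𝒪 : Subring F) (p e h : ℕ) (co u : ι → R) (g : MvPolynomial ι R) (x : ι → F) : Prop where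
  loc : IsLoc 𝒪
  hR : ∀ r : R, algebraMap R F r ∈ 𝒪
  coef : Coef p co g
  irr : Irreducible (p : R)
  pU : ¬ U 𝒪 (p : F)
  p0 : (p : F) ≠ 0
  hh : 1 ≤ h
  heh : e = 2 * h ∨ e = 2 * h + 1
  heU : IsUnit (e : R)
  hu : ∀ i, IsUnit (u i)
  rel : ∑ i, algebraMap R F (co i) * (algebraMap R F (u i) * x i ^ e) ^ p = 0
  sum : ∑ i, algebraMap R F (u i) * x i ^ e ≠ 0
  hind : ∀ s, x s ≠ 0 → ∃ j₀ : {i : ι // i ≠ s},
    AlgebraicIndependent R (fun i : {i : {i : ι // i ≠ s} // i ≠ j₀} => x i / x s)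

/-- LOCS. Local rings of the model at the primes above `p`. -/
def S_LOCS : Prop := ∀ {R F ι κ : Type} [CommRing R] [IsDomain R] [IsDiscreteValuationRing R]
  [Field F] [Algebra R F] [Fintype ι] [LinearOrder ι] [Fintype κ] (𝒪 : Subring F) (p e h : ℕ)
  (co u : ι → R) (g : MvPolynomial ι R) (x : ι → F), LocS 𝒪 p e h co u g x →
  ∀ Φ : κ → Set F,
  Set.range Φ = {S | IsFacS p e h g x (fun i => algebraMap R F (u i) * x i ^ e) S} →
  ∀ f : F, f ≠ 0 → f ∈ Submodule.span R (∏ k, Φ k) → (∀ h ∈ ∏ k, Φ k, h / f ∈ 𝒪) →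
  IsLocOf 𝒪 (chart R (Submodule.span R (∏ k, Φ k)) f) → IsRegularLocalRing 𝒪

/-- DEGS. -/
def S_DEGS : Prop := ∀ {R F ι : Type} [CommRing R] [Field F] [Algebra R F] [Fintype ι]
  [LinearOrder ι] (p e h : ℕ), 1 ≤ p → 1 ≤ h → (e = 2 * h ∨ e = 2 * h + 1) →
  ∀ (g : MvPolynomial ι R) (x : ι → F) (u : ι → R) (S : Set F),
  IsFacS p e h g x (fun i => algebraMap R F (u i) * x i ^ e) S → ∃ d, HasDeg R p x S d

/-- FINS. -/
def S_FINS : Prop := ∀ {R F ι : Type} [CommRing R] [IsDomain R] [Field F] [Algebra R F] [Fintype ι]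
  [LinearOrder ι] (p e h : ℕ), (p : R) ≠ 0 → ∀ (g : MvPolynomial ι R) (x X : ι → F),
  {S | IsFacS p e h g x X S}.Finite

/-- GD1M. Good primes. -/
def S_GD1M : Prop := ∀ {R F ι : Type} [CommRing R] [IsDomain R] [IsRegularRing R] [Field F]
  [Algebra R F] [Fintype ι] [DecidableEq ι] (𝒪 : Subring F), IsLoc 𝒪 →
  (∀ r : R, algebraMap R F r ∈ 𝒪) → ∀ m : ℕ, IsUnit (m : R) → 2 ≤ m → ∀ a : ι → R,
  (∀ i, IsUnit (a i)) → ∀ x : ι → F, ∑ i, algebraMap R F (a i) * x i ^ m = 0 →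
  (∀ s, x s ≠ 0 → ∃ j₀ : {i : ι // i ≠ s},
    AlgebraicIndependent R (fun i : {i : {i : ι // i ≠ s} // i ≠ j₀} => x i / x s)) →
  ∀ D : ℕ, 1 ≤ D → ∀ f : F, f ≠ 0 → f ∈ Submodule.span R (Set.range x ^ D) →
  (∀ h ∈ Set.range x ^ D, h / f ∈ 𝒪) →
  IsLocOf 𝒪 (chart R (Submodule.span R (Set.range x ^ D)) f) → IsRegularLocalRing 𝒪

/-- GD2M. Primes dividing one coefficient exactly once. -/
def S_GD2M : Prop := ∀ {R F ι : Type} [CommRing R] [IsDomain R] [IsDiscreteValuationRing R]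
  [Field F] [Algebra R F] [Fintype ι] [DecidableEq ι] (𝒪 : Subring F), IsLoc 𝒪 →
  (∀ r : R, algebraMap R F r ∈ 𝒪) → ∀ m : ℕ, IsUnit (m : R) → 2 ≤ m → ∀ (a : ι → R) (i₁ : ι),
  Irreducible (a i₁) → ¬ U 𝒪 (algebraMap R F (a i₁)) → (∀ i, i ≠ i₁ → IsUnit (a i)) →
  ∀ x : ι → F, ∑ i, algebraMap R F (a i) * x i ^ m = 0 →
  (∀ s, x s ≠ 0 → ∃ j₀ : {i : ι // i ≠ s},
    AlgebraicIndependent R (fun i : {i : {i : ι // i ≠ s} // i ≠ j₀} => x i / x s)) →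
  ∀ D : ℕ, 1 ≤ D → ∀ f : F, f ≠ 0 → f ∈ Submodule.span R (Set.range x ^ D) →
  (∀ h ∈ Set.range x ^ D, h / f ∈ 𝒪) →
  IsLocOf 𝒪 (chart R (Submodule.span R (Set.range x ^ D)) f) → IsRegularLocalRing 𝒪

/-- GOODM. Regularity at the primes not dividing the degree. -/
def S_GOODM : Prop := ∀ {O R K F : Type} [CommRing O] [CommRing R] [IsDomain R]
  [Field K] [Field F] [Algebra O R] [Algebra R K] [Algebra O F] [Algebra R F] [Algebra K F]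
  [IsScalarTower O R F] [IsScalarTower R K F] (𝔭 : Ideal O) [𝔭.IsPrime]
  [IsLocalization.AtPrime R 𝔭] [IsRegularRing R], Function.Injective (algebraMap R K) →
  ∀ {n : ℕ} (m : ℕ), 2 ≤ m → IsUnit (m : R) → ∀ a : Fin (n + 2) → O,
  ((∀ i, IsUnit (algebraMap O R (a i))) ∨ (IsDiscreteValuationRing R ∧
    ∃ i₁, Irreducible (algebraMap O R (a i₁)) ∧ ∀ i, i ≠ i₁ → IsUnit (algebraMap O R (a i)))) →
  ∀ x : Fin (n + 2) → F, x 0 = 1 → ∑ i, algebraMap O F (a i) * x i ^ m = 0 →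
  IntermediateField.adjoin K (Set.range x) = ⊤ →
  ∀ b : Fin n → F, IsTranscendenceBasis K b → ∀ D : ℕ, 1 ≤ D → ∀ M : Submodule O F,
  M ≤ Submodule.span O (Set.range x ^ D) →
  (∀ y ∈ Submodule.span O (Set.range x ^ D), ∃ s, s ∉ 𝔭 ∧ s • y ∈ M) → RegAt 𝔭 M

/-- BADS. The local modules at the primes above `p`, degree `p e`. -/
def S_BADS : Prop := ∀ {O R K F : Type} [CommRing O] [IsDomain O] [CommRing R] [IsDomain R]
  [Field K] [Field F] [Algebra O R] [Algebra R K] [Algebra O F] [Algebra R F] [Algebra K F]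
  [IsScalarTower O R F] [IsScalarTower R K F] (𝔭 : Ideal O) [𝔭.IsPrime]
  [IsLocalization.AtPrime R 𝔭] [IsDiscreteValuationRing R]
  [Finite (IsLocalRing.ResidueField R)] [CharZero K] [IsFractionRing R K] {n : ℕ} (p e : ℕ),
  p.Prime → p ≠ 2 → Irreducible (p : R) → 2 ≤ e → IsUnit (e : R) → ∀ a : Fin (n + 2) → O,
  (∀ i, IsUnit (algebraMap O R (a i))) → ∀ x : Fin (n + 2) → F, x 0 = 1 →
  ∑ i, algebraMap O F (a i) * x i ^ (p * e) = 0 →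
  IntermediateField.adjoin K (Set.range x) = ⊤ → LinearIndependent K (fun i => x i ^ e) →
  ∀ b : Fin n → F, IsTranscendenceBasis K b → ∃ D₀ : ℕ, ∀ D, D₀ ≤ D →
  ∃ P : Submodule O F, (∀ y ∈ P, ∃ s, s ∉ 𝔭 ∧ s • y ∈ Submodule.span O (Set.range x ^ D)) ∧
    (∃ k : ℕ, ∀ c ∈ 𝔭 ^ k, ∀ y ∈ Submodule.span O (Set.range x ^ D), c • y ∈ P) ∧
    ∀ M : Submodule O F, M ≤ P → (∀ y ∈ P, ∃ s, s ∉ 𝔭 ∧ s • y ∈ M) → RegAt 𝔭 M

/-- ARIM. Local arithmetic of the coefficients. -/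
def S_ARIM : Prop := ∀ {O : Type} [CommRing O] [IsDedekindDomain O] {ι : Type} [Fintype ι]
  (m : ℕ), 1 ≤ m → ∀ a : ι → O, (∀ 𝔭 : Ideal O, 𝔭.IsPrime → (m : O) * ∏ i, a i ∉ 𝔭 ^ 2) →
  ∀ (𝔭 : Ideal O) [𝔭.IsPrime] {R : Type} [CommRing R] [IsDomain R] [Algebra O R]
    [IsLocalization.AtPrime R 𝔭],
  ((m : O) ∈ 𝔭 → 𝔭 ≠ ⊥ ∧ (∃ p e : ℕ, p.Prime ∧ m = p * e ∧ Irreducible (p : R) ∧
    IsUnit (e : R)) ∧ ∀ i, IsUnit (algebraMap O R (a i))) ∧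
  ((m : O) ∉ 𝔭 → IsUnit (m : R) ∧ ((∀ i, IsUnit (algebraMap O R (a i))) ∨
    (IsDiscreteValuationRing R ∧ ∃ i₁, Irreducible (algebraMap O R (a i₁)) ∧
      ∀ i, i ≠ i₁ → IsUnit (algebraMap O R (a i)))))

/-- The local statement at the primes dividing the degree. -/
def BadM : Prop := ∀ {O R K F : Type} [CommRing O] [IsDomain O] [CommRing R] [IsDomain R]
  [Field K] [Field F] [Algebra O R] [Algebra R K] [Algebra O F] [Algebra R F] [Algebra K F]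
  [IsScalarTower O R F] [IsScalarTower R K F] (𝔭 : Ideal O) [𝔭.IsPrime]
  [IsLocalization.AtPrime R 𝔭] [IsDiscreteValuationRing R]
  [Finite (IsLocalRing.ResidueField R)] [CharZero K] [IsFractionRing R K] {n : ℕ} (p e : ℕ),
  p.Prime → p ≠ 2 → Irreducible (p : R) → 1 ≤ e → IsUnit (e : R) → ∀ a : Fin (n + 2) → O,
  (∀ i, IsUnit (algebraMap O R (a i))) → ∀ x : Fin (n + 2) → F, x 0 = 1 →
  ∑ i, algebraMap O F (a i) * x i ^ (p * e) = 0 →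
  IntermediateField.adjoin K (Set.range x) = ⊤ → LinearIndependent K (fun i => x i ^ e) →
  ∀ b : Fin n → F, IsTranscendenceBasis K b → ∃ D₀ : ℕ, ∀ D, D₀ ≤ D →
  ∃ P : Submodule O F, (∀ y ∈ P, ∃ s, s ∉ 𝔭 ∧ s • y ∈ Submodule.span O (Set.range x ^ D)) ∧
    (∃ k : ℕ, ∀ c ∈ 𝔭 ^ k, ∀ y ∈ Submodule.span O (Set.range x ^ D), c • y ∈ P) ∧
    ∀ M : Submodule O F, M ≤ P → (∀ y ∈ P, ∃ s, s ∉ 𝔭 ∧ s • y ∈ M) → RegAt 𝔭 M

/-- GLOM. The global module. -/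
def S_GLOM : Prop := ∀ {O K F : Type} [CommRing O] [IsDedekindDomain O] [Field K] [Algebra O K]
  [IsFractionRing O K] [Field F] [Algebra K F] [Algebra O F] [IsScalarTower O K F] [CharZero K],
  (∀ 𝔭 : Ideal O, 𝔭.IsPrime → 𝔭 ≠ ⊥ → Finite (O ⧸ 𝔭)) → ∀ {n : ℕ} (m : ℕ), 3 ≤ m → Odd m →
  ∀ a : Fin (n + 2) → O, (∀ 𝔭 : Ideal O, 𝔭.IsPrime → (m : O) * ∏ i, a i ∉ 𝔭 ^ 2) →
  ∀ x : Fin (n + 2) → F, x 0 = 1 → ∑ i, algebraMap O F (a i) * x i ^ m = 0 →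
  IntermediateField.adjoin K (Set.range x) = ⊤ →
  (∀ e : ℕ, 1 ≤ e → e < m → LinearIndependent K (fun i => x i ^ e)) →
  ∀ b : Fin n → F, IsTranscendenceBasis K b → HasModule O F

/-- FLDM. The function field of a diagonal hypersurface. -/
def S_FLDM : Prop := ∀ {K : Type} [Field K] [CharZero K] (n m : ℕ), 2 ≤ m →
  ∀ a : Fin (n + 2) → K, (∀ i, a i ≠ 0) →
  Irreducible (C (a 0) + ∑ i : Fin (n + 1), C (a i.succ) * X i ^ m :
    MvPolynomial (Fin (n + 1)) K) → ∀ {F : Type} [Field F],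
  (F ≃+* FractionRing (MvPolynomial (Fin (n + 1)) K ⧸
    Ideal.span {(C (a 0) + ∑ i : Fin (n + 1), C (a i.succ) * X i ^ m :
      MvPolynomial (Fin (n + 1)) K)})) →
  ∃ (_ : Algebra K F) (x : Fin (n + 2) → F) (b : Fin n → F), x 0 = 1 ∧
    (∑ i, algebraMap K F (a i) * x i ^ m = 0) ∧
    IntermediateField.adjoin K (Set.range x) = ⊤ ∧
    (∀ e : ℕ, 1 ≤ e → e < m → LinearIndependent K (fun i => x i ^ e)) ∧
    IsTranscendenceBasis K b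

/-- IRRM. Irreducibility of diagonal polynomials. -/
def S_IRRM : Prop := ∀ {K : Type} [Field K] [CharZero K] (n : ℕ), 1 ≤ n → ∀ m : ℕ, 1 ≤ m →
  ∀ a : Fin (n + 2) → K, (∀ i, a i ≠ 0) →
  Irreducible (C (a 0) + ∑ i : Fin (n + 1), C (a i.succ) * X i ^ m :
    MvPolynomial (Fin (n + 1)) K)

end Pool.Agent.H945R2.S
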