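import Pool.Agent.H945R2.S.Props
import Pool.Agent.H945R2.D.RA

/-! QC6: chart 3 of the resolution, `e = 2 h`. -/

set_option autoImplicit false

open scoped Pointwise

namespace Pool.Agent.H945R2.S

open Pool.Agent.H918R2.Quad Pool.Agent.H945R2.D MvPolynomial

namespace QC6aux

theorem map_TcZ {ι B B' : Type} [Fintype ι] [DecidableEq ι] [CommRing B] [CommRing B']
    (f : B →+* B') (Z : Finset ι) (s d : ι) (c : ι → B) (v : TT Z s d → B) (w : ZT Z → B)
    (l : B) (i : ι) :
    f (TcZ Z s d c v w l i) =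
      TcZ Z s d (fun i => f (c i)) (fun k => f (v k)) (fun z => f (w z)) (f l) i := by
  unfold TcZ
  split_ifs
  · rfl
  · simp
  · simp
  · simp

theorem map_TotZ {R B B' ι : Type} [CommRing R] [CommRing B] [Algebra R B] [CommRing B']
    [Algebra R B'] [Fintype ι] [DecidableEq ι] (f : B →ₐ[R] B') (p j : ℕ)
    (g : MvPolynomial ι R) (c : ι → ℕ) (Z : Finset ι) (s d : ι) (a b : B) (v : TT Z s d → B)
    (w : ZT Z → B) :
    f (TotZ p j g c Z s d a b v w) =
      TotZ p j g c Z s d (f a) (f b) (fun k => f (v k)) (fun z => f (w z)) := by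
  unfold TotZ
  have h : (fun i => f (TcZ Z s d (fun i => (c i : B)) v w (a * b) i)) =
      TcZ Z s d (fun i => (c i : B')) (fun k => f (v k)) (fun z => f (w z)) (f a * f b) := by
    funext i
    have h1 := map_TcZ (f : B →+* B') Z s d (fun i => (c i : B)) v w (a * b) i
    have h2 : f (TcZ Z s d (fun i => (c i : B)) v w (a * b) i) =
      TcZ Z s d (fun i => f (c i : B)) (fun k => f (v k)) (fun z => f (w z)) (f (a * b)) i := h1
    rw [h2]
    simp only [map_mul, map_natCast]
  rw [map_add, map_mul, map_pow, map_pow, MvPolynomial.comp_aeval_apply, h]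

section poly

variable {R κ ζ : Type} [CommRing R] [Fintype κ]

/-- the quadratic form. -/
noncomputable def Qf (ζ : Type) (Q : κ → κ → R) : MvPolynomial (Option (κ ⊕ ζ)) R :=
  ∑ k, ∑ l, C (Q k l) * X (some (Sum.inl k)) * X (some (Sum.inl l))

theorem euler1 (k : κ) : ∑ m : κ, (X (some (Sum.inl m)) : MvPolynomial (Option (κ ⊕ ζ)) R) *
    pderiv (some (Sum.inl m)) (X (some (Sum.inl k))) = X (some (Sum.inl k)) := by
  classical
  rw [Finset.sum_eq_single k]
  · rw [pderiv_X_self, mul_one]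
  · intro m _ hm
    rw [pderiv_X_of_ne, mul_zero]
    intro h
    apply hm
    injection h with h
    injection h with h
    exact h.symm
  · intro h
    exact absurd (Finset.mem_univ _) h

theorem euler (Q : κ → κ → R) :
    ∑ m : κ, (X (some (Sum.inl m)) : MvPolynomial (Option (κ ⊕ ζ)) R) *
      pderiv (some (Sum.inl m)) (Qf ζ Q) = 2 * Qf ζ Q := by
  have h1 : ∀ m : κ, (X (some (Sum.inl m)) : MvPolynomial (Option (κ ⊕ ζ)) R) *
      pderiv (some (Sum.inl m)) (Qf ζ Q) = ∑ k, ∑ l, (C (Q k l) *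
        ((X (some (Sum.inl m)) * pderiv (some (Sum.inl m)) (X (some (Sum.inl k)))) *
          X (some (Sum.inl l))) + C (Q k l) * (X (some (Sum.inl k)) *
          (X (some (Sum.inl m)) * pderiv (some (Sum.inl m)) (X (some (Sum.inl l)))))) := by
    intro m
    unfold Qf
    rw [map_sum, Finset.mul_sum]
    apply Finset.sum_congr rfl
    intro k _
    rw [map_sum, Finset.mul_sum]
    apply Finset.sum_congr rfl
    intro l _
    rw [mul_assoc, pderiv_C_mul, pderiv_mul]
    ring
  simp only [h1]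
  rw [Finset.sum_comm]
  unfold Qf
  rw [Finset.mul_sum]
  apply Finset.sum_congr rfl
  intro k _
  rw [Finset.sum_comm, Finset.mul_sum]
  apply Finset.sum_congr rfl
  intro l _
  rw [Finset.sum_add_distrib, ← Finset.mul_sum, ← Finset.mul_sum, ← Finset.sum_mul,
    ← Finset.mul_sum, euler1, euler1]
  ring

theorem Qf_inr (Q : κ → κ → R) (z : ζ) :
    pderiv (some (Sum.inr z)) (Qf ζ Q) = 0 := by
  unfold Qf
  rw [map_sum]
  apply Finset.sum_eq_zero
  intro k _
  rw [map_sum]
  apply Finset.sum_eq_zero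
  intro l _
  rw [mul_assoc, pderiv_C_mul, pderiv_mul, pderiv_X_of_ne (by simp), pderiv_X_of_ne (by simp)]
  simp

end poly

section hpart

variable {R κ ζ : Type} [CommRing R] [DecidableEq ζ]

/-- the coordinates of the chart. -/
noncomputable def Hc (R κ : Type) [CommRing R] (z₀ z : ζ) :
    MvPolynomial (Option (κ ⊕ {z : ζ // z ≠ z₀})) R :=
  if h : z = z₀ then 1 else X (some (Sum.inr ⟨z, h⟩))

theorem Hc_self (z₀ : ζ) : Hc R κ z₀ z₀ = 1 := by
  unfold Hc
  rw [dif_pos rfl]

theorem Hc_ne (z₀ z : ζ) (h : z ≠ z₀) : Hc R κ z₀ z = X (some (Sum.inr ⟨z, h⟩)) := by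
  unfold Hc
  rw [dif_neg h]

theorem pderiv_Hc_inl (z₀ z : ζ) (m : κ) : pderiv (some (Sum.inl m)) (Hc R κ z₀ z) = 0 := by
  unfold Hc
  split_ifs
  · simp
  · rw [pderiv_X_of_ne (by simp)]

theorem pderiv_Hc_inr (z₀ z : ζ) (w : {z : ζ // z ≠ z₀}) (hw : z ≠ w.1) :
    pderiv (some (Sum.inr w)) (Hc R κ z₀ z) = 0 := by
  unfold Hc
  split_ifs with h
  · simp
  · rw [pderiv_X_of_ne]
    intro h1
    injection h1 with h1
    injection h1 with h1
    apply hw
    rw [← h1]

variable [Fintype ζ]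

/-- the form `∑ r_z H_z ^ e`. -/
noncomputable def Hf (κ : Type) (r : ζ → R) (e : ℕ) (z₀ : ζ) :
    MvPolynomial (Option (κ ⊕ {z : ζ // z ≠ z₀})) R :=
  ∑ z, C (r z) * Hc R κ z₀ z ^ e

theorem Hf_inl (r : ζ → R) (e : ℕ) (z₀ : ζ) (m : κ) :
    pderiv (some (Sum.inl m)) (Hf κ r e z₀) = 0 := by
  unfold Hf
  rw [map_sum]
  apply Finset.sum_eq_zero
  intro z _
  rw [pderiv_C_mul, pderiv_pow, pderiv_Hc_inl]
  simp

theorem Hf_inr (r : ζ → R) (e : ℕ) (z₀ : ζ) (w : {z : ζ // z ≠ z₀}) :
    pderiv (some (Sum.inr w)) (Hf κ r e z₀) =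
      C (r w.1) * ((e : MvPolynomial (Option (κ ⊕ {z : ζ // z ≠ z₀})) R) *
        X (some (Sum.inr w)) ^ (e - 1)) := by
  unfold Hf
  rw [map_sum, Finset.sum_eq_single w.1]
  · rw [pderiv_C_mul, pderiv_pow, Hc_ne z₀ w.1 w.2, pderiv_X_self, mul_one]
  · intro z _ hz
    rw [pderiv_C_mul, pderiv_pow, pderiv_Hc_inr z₀ z w hz]
    simp
  · intro h
    exact absurd (Finset.mem_univ _) h

end hpart

theorem pderiv_Xn {R σ : Type} [CommRing R] (i : σ) (h' : MvPolynomial (Option σ) R) :
    pderiv (some i) (X none * h') = X none * pderiv (some i) h' := by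
  rw [pderiv_mul, pderiv_X_of_ne (by simp)]
  simp

/-- the Jacobian argument. -/
theorem jac {R A κ ζ : Type} [CommRing R] [Fintype κ] [Fintype ζ] [DecidableEq ζ] [CommRing A]
    (Q : κ → κ → R) (r : ζ → R) (e : ℕ) (z₀ : ζ) (he : 2 ≤ e) (heU : IsUnit (e : R))
    (hr : ∀ z, IsUnit (r z))
    (pr : MvPolynomial (Option (κ ⊕ {z : ζ // z ≠ z₀})) R →+* A)
    (h' : MvPolynomial (Option (κ ⊕ {z : ζ // z ≠ z₀})) R) (q : Ideal A) [hqp : q.IsPrime]
    (hX : pr (X none) ∈ q) (hE : pr (Qf _ Q - Hf κ r e z₀ + X none * h') ∈ q)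
    (h2 : (2 : A) ∉ q)
    (hd : ∀ i, pr (pderiv (some i) (Qf _ Q - Hf κ r e z₀ + X none * h')) ∈ q) : False := by
  have hXm : ∀ w, pr (X none * w) ∈ q := fun w => by
    rw [map_mul]; exact q.mul_mem_right _ hX
  have hC : ∀ u : R, IsUnit u → ∀ x, pr (C u * x) ∈ q → pr x ∈ q := by
    intro u hu x hx
    rw [map_mul] at hx
    have h1 : IsUnit (pr (C u)) := (hu.map C).map pr
    exact (hqp.mem_or_mem hx).resolve_left (fun h => hqp.ne_top (q.eq_top_of_isUnit_mem h h1))
  -- the coordinates `H_z`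
  have hH : ∀ w : {z : ζ // z ≠ z₀}, pr (X (some (Sum.inr w))) ∈ q := by
    intro w
    have h1 := hd (Sum.inr w)
    rw [map_add, map_sub, Qf_inr, Hf_inr, pderiv_Xn, map_add] at h1
    have h3 := (Ideal.add_mem_iff_left q (hXm _)).1 h1
    rw [zero_sub, map_neg, neg_mem_iff] at h3
    have h4 := hC _ (hr w.1) _ h3
    have h5 : ((e : MvPolynomial (Option (κ ⊕ {z : ζ // z ≠ z₀})) R)) = C (e : R) := by simp
    rw [h5] at h4
    have h6 := hC _ heU _ h4
    rw [map_pow] at h6
    exact hqp.mem_of_pow_mem _ h6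
  -- the value of `f(H)`
  have hHf : pr (Hf κ r e z₀) - pr (C (r z₀)) ∈ q := by
    unfold Hf
    rw [map_sum, ← Finset.add_sum_erase _ _ (Finset.mem_univ z₀), Hc_self, one_pow, mul_one,
      add_sub_cancel_left]
    apply Ideal.sum_mem
    intro z hz
    have hz' : z ≠ z₀ := (Finset.mem_erase.1 hz).1
    rw [Hc_ne z₀ z hz', map_mul, map_pow]
    apply q.mul_mem_left
    exact q.pow_mem_of_mem (hH _) e (by omega)
  -- the quadratic form
  have hQ1 : pr (Qf _ Q) - pr (C (r z₀)) ∈ q := by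
    rw [map_add, map_sub] at hE
    have h3 := (Ideal.add_mem_iff_left q (hXm h')).1 hE
    have h4 := q.add_mem h3 hHf
    have h5 : pr (Qf _ Q) - pr (Hf κ r e z₀) + (pr (Hf κ r e z₀) - pr (C (r z₀))) =
      pr (Qf _ Q) - pr (C (r z₀)) := by ring
    rwa [h5] at h4
  have hQ2 : pr (2 * Qf _ Q) ∈ q := by
    rw [← euler, map_sum]
    apply Ideal.sum_mem
    intro m _
    rw [map_mul]
    apply q.mul_mem_left
    have h1 := hd (Sum.inl m)
    rw [map_add, map_sub, Hf_inl, pderiv_Xn, sub_zero, map_add] at h1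
    exact (Ideal.add_mem_iff_left q (hXm _)).1 h1
  have h7 : (2 : A) * pr (C (r z₀)) ∈ q := by
    have h8 : (2 : A) * pr (C (r z₀)) = pr (2 * Qf _ Q) - 2 * (pr (Qf _ Q) - pr (C (r z₀))) := by
      rw [map_mul, map_ofNat]; ring
    rw [h8]
    exact q.sub_mem hQ2 (q.mul_mem_left _ hQ1)
  rcases hqp.mem_or_mem h7 with h9 | h9
  · exact h2 h9
  · exact hqp.ne_top (q.eq_top_of_isUnit_mem h9 (((hr z₀).map C).map pr))

end QC6aux

open QC6aux

theorem QC6_ok (hP : S_QPRE) (hF : S_QTF) (hX : S_QEX) : S_QC6 := by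
  intro R F ι _ _ _ _ _ _ _ 𝒪 p e h j co r g Z y s d a b c β b₀ hc q η hq hη z₀ he2 hC3 hloc
  have hD := hc.data
  have hh := hc.hh
  obtain ⟨hqn, hqp, hqT⟩ := hF 𝒪 p e h j co r g Z y s d a b c β b₀ hc q hq
  obtain ⟨Q, hQ, hexp⟩ := hX p co g hD.coef s c β hc.spec Z hc.hZ d hc.hd hc.hdZ j b₀ hc.kind
  have hηz : ∀ z : ZT Z, η z = y z := fun z => by rw [hη]
  have hτ0 : η z₀ ≠ 0 := hC3.yz
  have hτU : ¬ U 𝒪 (η z₀) := by
    rw [hηz]; exact hD.hyZ _ z₀.2
  -- the polynomial ring
  let W : Type := MvPolynomial (Option (KT Z s d ⊕ {z : ZT Z // z ≠ z₀})) R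
  let τ : W := X none
  let qs : KT Z s d → W := fun m => X (some (Sum.inl m))
  let H : ZT Z → W := fun z => Hc R (KT Z s d) z₀ z
  let Yq : KT Z s d → W := fun m => τ ^ h * qs m
  let Yy : ZT Z → W := fun z => τ * H z
  let pt : Option (KT Z s d ⊕ {z : ZT Z // z ≠ z₀}) → F := fun o => o.elim (η z₀)
    (Sum.elim (fun m => q m / η z₀ ^ h) (fun z => η z.1 / η z₀))
  let eW : W →ₐ[R] F := aeval pt
  have heτ : eW τ = η z₀ := by
    show aeval pt (X none) = η z₀
    rw [aeval_X]; rfl
  have heqs : ∀ m, eW (qs m) = q m / η z₀ ^ h := by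
    intro m
    show aeval pt (X (some (Sum.inl m))) = _
    rw [aeval_X]; rfl
  have heH : ∀ z, eW (H z) = η z / η z₀ := by
    intro z
    show aeval pt (Hc R (KT Z s d) z₀ z) = _
    by_cases hz : z = z₀
    · subst hz
      rw [Hc_self, map_one, div_self hτ0]
    · rw [Hc_ne z₀ z hz, aeval_X]; rfl
  have heYq : ∀ m, eW (Yq m) = q m := by
    intro m
    show eW (τ ^ h * qs m) = q m
    rw [map_mul, map_pow, heτ, heqs, mul_div_cancel₀ _ (pow_ne_zero h hτ0)]
  have heYy : ∀ z, eW (Yy z) = η z := by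
    intro z
    show eW (τ * H z) = η z
    rw [map_mul, heτ, heH, mul_div_cancel₀ _ hτ0]
  -- the first relation
  let hh1 : W := τ ^ (h - 1) * qs none * (Yq none ^ j * (Yq (some none) - algebraMap R W b₀) ^ j)
  let R1 : W := C (p : R) - X none * hh1
  have hR1 : R1 = (p : W) - Yq none ^ (j + 1) * (Yq (some none) - algebraMap R W b₀) ^ j := by
    show C (p : R) - X none * (τ ^ (h - 1) * qs none * (Yq none ^ j *
      (Yq (some none) - algebraMap R W b₀) ^ j)) = _
    rw [map_natCast]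
    have h1 : (X none : W) * τ ^ (h - 1) = τ ^ h := by
      show τ * τ ^ (h - 1) = τ ^ h
      rw [← pow_succ', Nat.sub_add_cancel hh]
    have h2 : Yq none ^ (j + 1) = (X none * τ ^ (h - 1)) * qs none * Yq none ^ j := by
      rw [h1, pow_succ, mul_comm]
    show (p : W) - _ = (p : W) - _
    rw [h2]; ring
  have heR1 : eW R1 = 0 := by
    rw [hR1, map_sub, map_natCast, map_mul, map_pow, map_pow, map_sub, heYq, heYq,
      AlgHom.commutes, ← hqp, sub_self]
  -- the third relation
  let w : ZT Z → W := fun z => algebraMap R W (r z) * Yy z ^ e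
  let Tot : W := TotZ p j g c Z s d (Yq none) (Yq (some none) - algebraMap R W b₀)
    (fun k => Yq (some (some k))) w
  have heTot : eW Tot = 0 := by
    have h1 : eW Tot = TotZ p j g c Z s d (eW (Yq none))
      (eW (Yq (some none) - algebraMap R W b₀)) (fun k => eW (Yq (some (some k))))
      (fun z => eW (w z)) := map_TotZ eW p j g c Z s d _ _ _ _
    rw [h1]
    simp only [map_sub, heYq, AlgHom.commutes]
    have h2 : (fun z => eW (w z)) = fun z : ZT Z => algebraMap R F (r z) * y z ^ e := by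
      funext z
      show eW (algebraMap R W (r z) * Yy z ^ e) = _
      rw [map_mul, map_pow, heYy, AlgHom.commutes, hηz]
    rw [h2]
    exact hqT
  -- the quotient by the first relation
  obtain ⟨B, iB1, iB2, mk, hmks, hmkk, hmk⟩ := exists_quot (R := R) (Ideal.span {R1} : Ideal W)
  have hmkC : ∀ u : R, mk (C u) = algebraMap R B u := fun u => mk.commutes u
  have hmkR1 : (p : B) = mk (Yq none) ^ (j + 1) * (mk (Yq (some none)) - algebraMap R B b₀) ^ j := by
    have h1 : mk R1 = 0 := (hmk R1).2 (Ideal.subset_span rfl)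
    rw [hR1, map_sub, map_natCast, map_mul, map_pow, map_pow, map_sub, AlgHom.commutes] at h1
    exact sub_eq_zero.1 h1
  have hB := hexp (B := B) (fun k => mk (Yq k)) (fun z => mk (w z)) hmkR1
  have hmkTot : mk Tot = TotZ p j g c Z s d (mk (Yq none))
      (mk (Yq (some none)) - algebraMap R B b₀) (fun k => mk (Yq (some (some k))))
      (fun z => mk (w z)) := by
    have h1 : mk Tot = TotZ p j g c Z s d (mk (Yq none))
      (mk (Yq (some none) - algebraMap R W b₀)) (fun k => mk (Yq (some (some k))))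
      (fun z => mk (w z)) := map_TotZ mk p j g c Z s d _ _ _ _
    rw [h1, map_sub, AlgHom.commutes]
  rw [← hmkTot] at hB
  have hu : Ideal.span (Set.range (fun k => mk (Yq k))) ≤ Ideal.span {mk τ ^ h} := by
    rw [Ideal.span_le]
    rintro x ⟨k, rfl⟩
    apply Ideal.mem_span_singleton.2
    show mk τ ^ h ∣ mk (τ ^ h * qs k)
    rw [map_mul, map_pow]
    exact dvd_mul_right _ _
  have ht : Ideal.span (Set.range (fun z => mk (w z))) ≤ Ideal.span {mk τ ^ (2 * h)} := by
    rw [Ideal.span_le]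
    rintro x ⟨z, rfl⟩
    apply Ideal.mem_span_singleton.2
    show mk τ ^ (2 * h) ∣ mk (algebraMap R W (r z) * (τ * H z) ^ e)
    rw [map_mul, map_pow, map_mul, mul_pow, he2]
    exact (dvd_mul_right _ _).mul_left _
  have hdv : mk τ ^ (2 * h + 1) ∣ mk Tot - (∑ k, ∑ k', algebraMap R B (Q k k') * mk (Yq k) *
      mk (Yq k') - ∑ z, mk (w z)) := by
    rw [← Ideal.mem_span_singleton]
    refine (sup_le (sup_le ?_ ?_) ?_ : _ ≤ Ideal.span {mk τ ^ (2 * h + 1)}) hB
    · refine (Ideal.pow_right_mono hu 3).trans ?_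
      rw [Ideal.span_singleton_pow, Ideal.span_singleton_le_span_singleton, ← pow_mul]
      exact pow_dvd_pow _ (by omega)
    · refine (Ideal.mul_mono hu ht).trans ?_
      rw [Ideal.span_singleton_mul_span_singleton, Ideal.span_singleton_le_span_singleton,
        ← pow_add]
      exact pow_dvd_pow _ (by omega)
    · refine (Ideal.pow_right_mono ht 2).trans ?_
      rw [Ideal.span_singleton_pow, Ideal.span_singleton_le_span_singleton, ← pow_mul]
      exact pow_dvd_pow _ (by omega)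
  obtain ⟨hB', hB'2⟩ := hdv
  obtain ⟨h', hh'⟩ := hmks hB'
  let E : W := Qf {z : ZT Z // z ≠ z₀} Q - Hf (KT Z s d) (fun z : ZT Z => r z) e z₀ + X none * h'
  have hmE : mk (Tot - τ ^ (2 * h) * E) = 0 := by
    have e1 : mk (Qf {z : ZT Z // z ≠ z₀} Q) =
        ∑ k, ∑ k', algebraMap R B (Q k k') * mk (qs k) * mk (qs k') := by
      unfold Qf
      rw [map_sum]
      apply Finset.sum_congr rfl
      intro k _
      rw [map_sum]
      apply Finset.sum_congr rfl
      intro l _
      rw [map_mul, map_mul, hmkC]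
    have e2 : mk (Hf (KT Z s d) (fun z : ZT Z => r z) e z₀) =
        ∑ z : ZT Z, algebraMap R B (r z) * mk (H z) ^ e := by
      unfold Hf
      rw [map_sum]
      apply Finset.sum_congr rfl
      intro z _
      rw [map_mul, map_pow, hmkC]
    have e3 : ∑ k, ∑ k', algebraMap R B (Q k k') * mk (Yq k) * mk (Yq k') =
        mk τ ^ (2 * h) * ∑ k, ∑ k', algebraMap R B (Q k k') * mk (qs k) * mk (qs k') := by
      rw [Finset.mul_sum]
      apply Finset.sum_congr rfl
      intro k _
      rw [Finset.mul_sum]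
      apply Finset.sum_congr rfl
      intro l _
      show algebraMap R B (Q k l) * mk (τ ^ h * qs k) * mk (τ ^ h * qs l) = _
      rw [map_mul, map_mul, map_pow]
      ring
    have e4 : ∑ z, mk (w z) = mk τ ^ (2 * h) * ∑ z : ZT Z, algebraMap R B (r z) * mk (H z) ^ e := by
      rw [Finset.mul_sum]
      apply Finset.sum_congr rfl
      intro z _
      show mk (algebraMap R W (r z) * (τ * H z) ^ e) = _
      rw [map_mul, map_pow, map_mul, mul_pow, AlgHom.commutes, he2]
      ring
    have e5 : mk Tot = mk τ ^ (2 * h + 1) * hB' + (∑ k, ∑ k', algebraMap R B (Q k k') *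
        mk (Yq k) * mk (Yq k') - ∑ z, mk (w z)) := by
      rw [← hB'2]; ring
    rw [map_sub, e5, map_mul, map_pow]
    show _ - mk τ ^ (2 * h) * mk (Qf {z : ZT Z // z ≠ z₀} Q -
      Hf (KT Z s d) (fun z : ZT Z => r z) e z₀ + X none * h') = 0
    rw [map_add, map_sub, map_mul, hh', e1, e2, e3, e4]
    show _ - mk τ ^ (2 * h) * (_ - _ + mk τ * hB') = 0
    ring
  obtain ⟨rr, hrr⟩ := Ideal.mem_span_singleton'.1 ((hmk _).1 hmE)
  have hTE : Tot = τ ^ (2 * h) * E + rr * R1 := by
    rw [hrr]; ring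
  have hE0 : eW E = 0 := by
    have h1 : eW (τ ^ (2 * h) * E) = 0 := by
      have h2 : τ ^ (2 * h) * E = Tot - rr * R1 := by
        rw [hTE]; ring
      rw [h2, map_sub, map_mul, heTot, heR1]; ring
    rw [map_mul, map_pow, heτ] at h1
    exact (mul_eq_zero.1 h1).resolve_left (pow_ne_zero _ hτ0)
  obtain ⟨A, iA1, iA2, pr, hprs, hprk, hpr⟩ := exists_quot (R := R) (Ideal.span {R1, E} : Ideal W)
  have hprR1 : pr R1 = 0 := (hpr R1).2 (Ideal.subset_span (by simp))
  have hprE : pr E = 0 := (hpr E).2 (Ideal.subset_span (by simp))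
  have hker : ∀ w, pr w = 0 → eW w = 0 := by
    intro w hw
    obtain ⟨x, y, hxy⟩ := Ideal.mem_span_pair.1 ((hpr w).1 hw)
    rw [← hxy, map_add, map_mul, map_mul, heR1, hE0]
    simp
  -- the range
  have hrange : Algebra.adjoin R (G3 q η h z₀) = eW.range := by
    show _ = (aeval pt).range
    rw [← Algebra.adjoin_range_eq_range_aeval]
    apply le_antisymm
    · apply Algebra.adjoin_le
      rintro x ((hx | ⟨m, rfl⟩) | ⟨z, rfl⟩)
      · rw [Set.mem_singleton_iff] at hx
        rw [hx]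
        exact Algebra.subset_adjoin ⟨none, rfl⟩
      · exact Algebra.subset_adjoin ⟨some (Sum.inl m), rfl⟩
      · by_cases hz : z = z₀
        · show η z / η z₀ ∈ _
          rw [hz, div_self hτ0]
          exact one_mem _
        · exact Algebra.subset_adjoin ⟨some (Sum.inr ⟨z, hz⟩), rfl⟩
    · apply Algebra.adjoin_mono
      rintro x ⟨o, rfl⟩
      rcases o with _ | m | z
      · exact Or.inl (Or.inl rfl)
      · exact Or.inl (Or.inr ⟨m, rfl⟩)
      · exact Or.inr ⟨z.1, rfl⟩
  have hloc' : IsLocOf 𝒪 (eW.range : Set F) := by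
    rw [← hrange]; exact hloc
  have hW : ∀ w, eW w ∈ 𝒪 := fun w => hloc'.1 _ ⟨w, rfl⟩
  have hprp : pr (p : W) = pr (Yq none ^ (j + 1) * (Yq (some none) - algebraMap R W b₀) ^ j) := by
    rw [hR1, map_sub] at hprR1
    exact sub_eq_zero.1 hprR1
  have hprT : pr Tot = 0 := by
    rw [hTE, map_add, map_mul, map_mul, hprE, hprR1]
    simp
  refine hP 𝒪 p e h j co r g Z y s d a b c β b₀ hc pr hprs eW hker hW hloc' Yq Yy
    (fun m => by rw [heYq, hq]) (fun z => by rw [heYy, hηz]) hprp hprT ?_ ?_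
  · -- generators
    intro P P1 P2 P3 P4 P5 P6
    have gpow : ∀ w : W, P w → ∀ n : ℕ, P (w ^ n) := by
      intro w hw n
      induction n with
      | zero =>
        rw [pow_zero]
        have := P1 1
        rwa [map_one] at this
      | succ n ih =>
        rw [pow_succ]
        exact P4 _ _ ih hw
    have gτ : P τ := by
      have h1 : P (Yy z₀) := P2 _ (Or.inr ⟨z₀, rfl⟩)
      have h2 : Yy z₀ = τ := by
        show τ * Hc R (KT Z s d) z₀ z₀ = τ
        rw [Hc_self, mul_one]
      rwa [h2] at h1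
    have gq : ∀ m, P (qs m) := by
      intro m
      refine P6 (τ ^ h) (qs m) ?_ (gpow _ gτ _) (P2 _ (Or.inl ⟨m, rfl⟩))
      rw [map_pow, heτ]
      exact pow_ne_zero _ hτ0
    have gH : ∀ z, P (H z) := by
      intro z
      refine P6 τ (H z) ?_ gτ (P2 _ (Or.inr ⟨z, rfl⟩))
      rw [heτ]
      exact hτ0
    intro w
    induction w using MvPolynomial.induction_on with
    | C u => exact P1 u
    | add w w' h1 h2 => exact P3 _ _ h1 h2
    | mul_X w o h1 =>
      refine P4 _ _ h1 ?_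
      rcases o with _ | m | z
      · exact gτ
      · exact gq m
      · have h2 := gH z.1
        have h3 : H z.1 = X (some (Sum.inr z)) := Hc_ne z₀ z.1 z.2
        rwa [h3] at h2
  · intro q' hq'p hq'
    have h1 : pr (X none) ∈ q' := by
      rw [hq']
      show ¬ U 𝒪 (eW τ)
      rw [heτ]; exact hτU
    have hpq : (p : A) ∈ q' := by
      have h2 : pr (C (p : R)) = pr (X none) * pr hh1 := by
        have h3 : pr (C (p : R) - X none * hh1) = 0 := hprR1
        rw [map_sub, map_mul] at h3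
        exact sub_eq_zero.1 h3
      have h4 : pr (C (p : R)) = (p : A) := by
        rw [map_natCast, map_natCast]
      rw [← h4, h2]
      exact q'.mul_mem_right _ h1
    have h2q : (2 : A) ∉ q' := by
      intro h2
      have hodd : Odd p := hD.coef.prime.odd_of_ne_two hD.coef.odd
      obtain ⟨m, hm⟩ := hodd
      have h3 : (1 : A) = (p : A) - 2 * (m : A) := by
        rw [hm]; push_cast; ring
      apply hq'p.ne_top
      rw [Ideal.eq_top_iff_one, h3]
      exact q'.sub_mem hpq (q'.mul_mem_right _ h2)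
    by_contra hreg
    refine jac Q (fun z : ZT Z => r z) e z₀ hD.he hD.heU (fun z => hD.hr z) (pr : W →+* A) h' q'
      h1 ?_ h2q ?_
    · show pr E ∈ q'
      rw [hprE]; exact q'.zero_mem
    · intro i
      by_contra hi
      exact hreg (RA_ok (p : R) hD.irr (pr : W →+* A) hprs hh1 E hprk q' h1 i hi)

end Pool.Agent.H945R2.S
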